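import Mathlib

set_option autoImplicit false
set_option linter.unusedSectionVars false

/-! Asymptotic facts. -/

namespace Pool.Agent.H42.Sat

open Filter Topology

theorem tendsto_log_nat : Tendsto (fun n : ℕ => Real.log (n : ℝ)) atTop atTop :=
  Real.tendsto_log_atTop.comp tendsto_natCast_atTop_atTop

theorem tendsto_ceil {a : ℝ} (ha : 0 < a) :
    Tendsto (fun n : ℕ => ⌈a * Real.log (n : ℝ)⌉₊) atTop atTop :=
  tendsto_nat_ceil_atTop.comp (tendsto_log_nat.const_mul_atTop ha)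

theorem tendsto_exp_neg {c : ℝ} (hc : 0 < c) {f : ℕ → ℝ} (hf : Tendsto f atTop atTop) :
    Tendsto (fun n => Real.exp (-(c * f n))) atTop (𝓝 0) :=
  Real.tendsto_exp_neg_atTop_nhds_zero.comp (hf.const_mul_atTop hc)

theorem tendsto_quad {c : ℝ} (hc : 0 < c) :
    Tendsto (fun m : ℕ => (4 : ℝ) ^ m * Real.exp (-(c * (m : ℝ) ^ 2))) atTop (𝓝 0) := by
  have h1 : Tendsto (fun m : ℕ => Real.exp (-(1 * (m : ℝ)))) atTop (𝓝 0) :=
    tendsto_exp_neg one_pos tendsto_natCast_atTop_atTop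
  refine squeeze_zero' (Eventually.of_forall fun m => by positivity) ?_ h1
  have h2 : ∀ᶠ m : ℕ in atTop, 3 / c ≤ (m : ℝ) :=
    tendsto_natCast_atTop_atTop.eventually_ge_atTop _
  filter_upwards [h2] with m hm
  have h4 : (4 : ℝ) ^ m ≤ Real.exp (2 * m) := by
    have h5 : (4 : ℝ) ≤ Real.exp 2 := by
      have h6 : Real.exp 2 = Real.exp 1 * Real.exp 1 := by rw [← Real.exp_add]; norm_num
      have h7 := Real.exp_one_gt_d9
      rw [h6]
      nlinarith
    calc (4 : ℝ) ^ m ≤ (Real.exp 2) ^ m := pow_le_pow_left₀ (by norm_num) h5 m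
      _ = Real.exp (2 * m) := by rw [← Real.exp_nat_mul]; congr 1; ring
  calc (4 : ℝ) ^ m * Real.exp (-(c * (m : ℝ) ^ 2)) ≤ Real.exp (2 * m) * Real.exp (-(c * (m : ℝ) ^ 2)) :=
        mul_le_mul_of_nonneg_right h4 (Real.exp_pos _).le
    _ = Real.exp (2 * m - c * (m : ℝ) ^ 2) := by rw [← Real.exp_add]; congr 1
    _ ≤ Real.exp (-(1 * (m : ℝ))) := by
        apply Real.exp_le_exp.mpr
        rw [div_le_iff₀ hc] at hm
        have h0 : (0 : ℝ) ≤ m := Nat.cast_nonneg _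
        nlinarith

theorem exists_tilt {p κ : ℝ} (hp0 : 0 < p) (hp1 : p < 1) (hκ : 0 < κ) :
    ∃ θ ξ : ℝ, 0 ≤ θ ∧ 0 ≤ ξ ∧ Real.exp ξ * (1 - p + p * Real.exp (-θ)) = 1 ∧
      -Real.log (1 - p) - κ ≤ ξ := by
  have h1p : 0 < 1 - p := by linarith
  have hek : 0 < Real.exp κ - 1 := by
    have := Real.add_one_lt_exp hκ.ne'
    linarith
  set u : ℝ := min 1 ((1 - p) * (Real.exp κ - 1) / p) with hu
  have hu0 : 0 < u := lt_min one_pos (by positivity)
  have hu1 : u ≤ 1 := min_le_left _ _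
  have hu2 : p * u ≤ (1 - p) * (Real.exp κ - 1) := by
    have : u ≤ (1 - p) * (Real.exp κ - 1) / p := min_le_right _ _
    rw [le_div_iff₀ hp0] at this
    linarith
  have hw : 0 < 1 - p + p * u := by positivity
  refine ⟨-Real.log u, -Real.log (1 - p + p * u), ?_, ?_, ?_, ?_⟩
  · have := Real.log_nonpos hu0.le hu1
    linarith
  · have : 1 - p + p * u ≤ 1 := by nlinarith
    have := Real.log_nonpos hw.le this
    linarith
  · rw [neg_neg, Real.exp_log hu0, Real.exp_neg, Real.exp_log hw]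
    exact inv_mul_cancel₀ hw.ne'
  · have h1 : 1 - p + p * u ≤ (1 - p) * Real.exp κ := by linarith
    have h2 := Real.log_le_log hw h1
    rw [Real.log_mul h1p.ne' (Real.exp_pos _).ne', Real.log_exp] at h2
    linarith

theorem eventually_sq_log (K : ℝ) :
    ∀ᶠ n : ℕ in atTop, K * (Real.log (n : ℝ)) ^ 2 ≤ (n : ℝ) := by
  have h := (Real.isLittleO_pow_log_id_atTop (n := 2)).comp_tendsto tendsto_natCast_atTop_atTop
  have h2 := h.bound (show 0 < 1 / (|K| + 1) by positivity)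
  filter_upwards [h2] with n hn
  simp only [Function.comp, id, Real.norm_eq_abs] at hn
  rw [abs_of_nonneg (sq_nonneg _), abs_of_nonneg (Nat.cast_nonneg n : (0 : ℝ) ≤ (n : ℝ))] at hn
  have h3 : 0 ≤ Real.log (n : ℝ) ^ 2 := sq_nonneg _
  have h4 : (|K| + 1) * Real.log (n : ℝ) ^ 2 ≤ n := by
    have h5 : (|K| + 1) * Real.log (n : ℝ) ^ 2 ≤ (|K| + 1) * (1 / (|K| + 1) * n) :=
      mul_le_mul_of_nonneg_left hn (by positivity)
    have h6 : (|K| + 1) * (1 / (|K| + 1) * n) = n := by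
      field_simp
    linarith
  have h7 : K * Real.log (n : ℝ) ^ 2 ≤ (|K| + 1) * Real.log (n : ℝ) ^ 2 := by
    apply mul_le_mul_of_nonneg_right _ h3
    have := le_abs_self K
    linarith
  linarith

end Pool.Agent.H42.Sat
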