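import Pool.Agent.H42.Sat.Hub

set_option autoImplicit false
set_option linter.unusedSectionVars false

/-! A graph all of whose two-connected subgraphs are `s`-colourable is `s`-colourable. -/

namespace Pool.Agent.H42.Sat

open Finset Classical

/-- a proper colouring of the part `S` -/
def ColOn {α : Type} (G : SimpleGraph α) (S : Set α) (s : ℕ) : Prop :=
  ∃ col : α → Fin s, ∀ a ∈ S, ∀ b ∈ S, G.Adj a b → col a ≠ col b

theorem colOn_union {α : Type} (G : SimpleGraph α) (S1 S2 : Set α) (s : ℕ) (x : α)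
    (h1 : ColOn G S1 s) (h2 : ColOn G S2 s) (hx : ∀ y ∈ S1, y ∈ S2 → y = x)
    (hno : ∀ a ∈ S1, a ∉ S2 → ∀ b ∈ S2, b ∉ S1 → ¬ G.Adj a b) : ColOn G (S1 ∪ S2) s := by
  obtain ⟨c1, hc1⟩ := h1
  obtain ⟨c2, hc2⟩ := h2
  let σ : Equiv.Perm (Fin s) := Equiv.swap (c2 x) (c1 x)
  have key : ∀ a ∈ S1, ∀ b, b ∉ S1 → b ∈ S2 → G.Adj a b → c1 a ≠ σ (c2 b) := by
    intro a ha b hb hb2 hab he
    have ha2 : a ∈ S2 := by
      by_contra h
      exact hno a ha h b hb2 hb hab
    have hax : a = x := hx a ha ha2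
    subst hax
    have h3 : σ (c2 a) = c1 a := Equiv.swap_apply_left _ _
    rw [← h3] at he
    exact hc2 a ha2 b hb2 hab (σ.injective he)
  refine ⟨fun a => if a ∈ S1 then c1 a else σ (c2 a), ?_⟩
  intro a ha b hb hab
  by_cases ha1 : a ∈ S1 <;> by_cases hb1 : b ∈ S1
  · simp only [ha1, hb1, if_true]
    exact hc1 a ha1 b hb1 hab
  · simp only [ha1, hb1, if_true, if_false]
    exact key a ha1 b hb1 (hb.resolve_left hb1) hab
  · simp only [ha1, hb1, if_true, if_false]
    exact (key b hb1 a ha1 (ha.resolve_left ha1) hab.symm).symm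
  · simp only [ha1, hb1, if_false]
    intro he
    exact hc2 a (ha.resolve_left ha1) b (hb.resolve_left hb1) hab (σ.injective he)

theorem not_preconnected {β : Type} (K : SimpleGraph β) (h : ¬ K.Preconnected) :
    ∃ T : Set β, (∃ a, a ∈ T) ∧ (∃ b, b ∉ T) ∧ ∀ a ∈ T, ∀ b, b ∉ T → ¬ K.Adj a b := by
  unfold SimpleGraph.Preconnected at h
  push Not at h
  obtain ⟨u, v, huv⟩ := h
  refine ⟨{w | K.Reachable u w}, ⟨u, SimpleGraph.Reachable.refl _⟩, ⟨v, huv⟩, ?_⟩
  intro a ha b hb hab
  exact hb (SimpleGraph.Reachable.trans ha hab.reachable)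

theorem TwoConn.of_equiv {α β : Type} {K : SimpleGraph α} {K' : SimpleGraph β} (e : K ≃g K')
    (h : TwoConn K) : TwoConn K' := by
  refine ⟨(SimpleGraph.Iso.connected_iff e).mp h.1, ?_⟩
  intro x
  have h1 := h.2 (e.symm x)
  let f : K.induce {e.symm x}ᶜ →g K'.induce {x}ᶜ := {
    toFun := fun a => ⟨e a.1, by
      intro hc
      apply a.2
      have : e a.1 = x := hc
      show a.1 = e.symm x
      have h3 := congrArg e.symm this
      rwa [RelIso.symm_apply_apply] at h3⟩
    map_rel' := by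
      intro a b hab
      exact e.map_rel_iff.mpr hab }
  apply h1.map f
  rintro ⟨y, hy⟩
  refine ⟨⟨e.symm y, ?_⟩, ?_⟩
  · intro hc
    apply hy
    have : e.symm y = e.symm x := hc
    exact e.symm.injective this
  · apply Subtype.ext
    show e (e.symm y) = y
    exact RelIso.apply_symm_apply e y

theorem colOn_of_blocks {α : Type} [Fintype α] (G : SimpleGraph α) (s : ℕ) (hs : 0 < s)
    (hK : ∀ (m : ℕ) (K : SimpleGraph (Fin m)), TwoConn K → (∃ a b, K.Adj a b) → Emb K G →
      K.Colorable s) : ∀ (r : ℕ) (S : Finset α), S.card ≤ r → ColOn G (S : Set α) s := by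
  intro r
  induction r with
  | zero =>
    intro S hS
    have : S = ∅ := card_eq_zero.mp (Nat.le_zero.mp hS)
    subst this
    exact ⟨fun _ => ⟨0, hs⟩, by simp⟩
  | succ r ih =>
    intro S hS
    by_cases hne : S.Nonempty
    swap
    · rw [not_nonempty_iff_eq_empty] at hne
      subst hne
      exact ⟨fun _ => ⟨0, hs⟩, by simp⟩
    obtain ⟨x0, hx0⟩ := hne
    -- splitting
    have hsplit : ∀ (T1 T2 : Finset α) (x : α), T1 ⊂ S → T2 ⊂ S → S = T1 ∪ T2 →
        (∀ y ∈ T1, y ∈ T2 → y = x) →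
        (∀ a ∈ T1, a ∉ T2 → ∀ b ∈ T2, b ∉ T1 → ¬ G.Adj a b) → ColOn G (S : Set α) s := by
      intro T1 T2 x h1 h2 h3 h4 h5
      have e1 := card_lt_card h1
      have e2 := card_lt_card h2
      have := colOn_union G (T1 : Set α) (T2 : Set α) s x (ih T1 (by omega)) (ih T2 (by omega))
        h4 h5
      rw [h3, coe_union]
      exact this
    let K := G.induce (S : Set α)
    by_cases hpre : K.Preconnected
    swap
    · obtain ⟨T, ⟨a0, ha0⟩, ⟨b0, hb0⟩, hT⟩ := not_preconnected K hpre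
      let T1 : Finset α := S.filter (fun a => ∃ h : a ∈ (S : Set α), (⟨a, h⟩ : (S : Set α)) ∈ T)
      let T2 : Finset α := S.filter (fun a => ¬ ∃ h : a ∈ (S : Set α), (⟨a, h⟩ : (S : Set α)) ∈ T)
      have hm1 : ∀ a, a ∈ T1 ↔ a ∈ S ∧ ∃ h : a ∈ (S : Set α), (⟨a, h⟩ : (S : Set α)) ∈ T :=
        fun a => mem_filter
      have hm2 : ∀ a, a ∈ T2 ↔ a ∈ S ∧ ¬ ∃ h : a ∈ (S : Set α), (⟨a, h⟩ : (S : Set α)) ∈ T :=
        fun a => mem_filter
      apply hsplit T1 T2 x0
      · refine ⟨filter_subset _ _, fun h => ?_⟩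
        have := (hm1 _).mp (h (show b0.1 ∈ S from b0.2))
        obtain ⟨_, h2, h3⟩ := this
        exact hb0 h3
      · refine ⟨filter_subset _ _, fun h => ?_⟩
        have := (hm2 _).mp (h (show a0.1 ∈ S from a0.2))
        exact this.2 ⟨a0.2, ha0⟩
      · rw [filter_union_filter_not_eq]
      · intro y h1 h2
        exact (((hm2 y).mp h2).2 ((hm1 y).mp h1).2).elim
      · intro a ha _ b hb _ hab
        obtain ⟨_, h1, h2⟩ := (hm1 a).mp ha
        obtain ⟨h3, h4⟩ := (hm2 b).mp hb
        exact hT ⟨a, h1⟩ h2 ⟨b, h3⟩ (fun h => h4 ⟨h3, h⟩) hab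
    · by_cases hcut : ∀ x, (K.induce {x}ᶜ).Preconnected
      · -- two-connected
        have hconn : K.Connected := by
          have : Nonempty (S : Set α) := ⟨⟨x0, hx0⟩⟩
          exact ⟨hpre⟩
        have h2c : TwoConn K := ⟨hconn, hcut⟩
        by_cases hedge : ∃ a b, K.Adj a b
        · obtain ⟨m, ⟨e⟩⟩ := Finite.exists_equiv_fin (S : Set α)
          let K' : SimpleGraph (Fin m) := K.map e.toEmbedding
          let ee : K ≃g K' := SimpleGraph.Iso.map e K
          have hcol := hK m K' (TwoConn.of_equiv ee h2c) (by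
            obtain ⟨a, b, hab⟩ := hedge
            exact ⟨ee a, ee b, ee.map_rel_iff.mpr hab⟩) ⟨fun i => (ee.symm i).1, by
              intro i j hij
              exact ee.symm.injective (Subtype.ext hij), by
              intro i j hij
              have : K.Adj (ee.symm i) (ee.symm j) := ee.symm.map_rel_iff.mpr hij
              exact this⟩
          obtain ⟨c⟩ := hcol
          refine ⟨fun a => if h : a ∈ (S : Set α) then c (ee ⟨a, h⟩) else ⟨0, hs⟩, ?_⟩
          intro a ha b hb hab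
          beta_reduce
          rw [dif_pos ha, dif_pos hb]
          apply c.valid
          exact ee.map_rel_iff.mpr hab
        · refine ⟨fun _ => ⟨0, hs⟩, ?_⟩
          intro a ha b hb hab
          exact (hedge ⟨⟨a, ha⟩, ⟨b, hb⟩, hab⟩).elim
      · push Not at hcut
        obtain ⟨x, hx⟩ := hcut
        obtain ⟨T, ⟨a0, ha0⟩, ⟨b0, hb0⟩, hT⟩ := not_preconnected _ hx
        let P : α → Prop := fun a => ∃ (h : a ∈ (S : Set α)) (h' : (⟨a, h⟩ : (S : Set α)) ∈
          ({x}ᶜ : Set (S : Set α))), (⟨⟨a, h⟩, h'⟩ : ({x}ᶜ : Set (S : Set α))) ∈ T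
        let T1 : Finset α := S.filter (fun a => a = x.1 ∨ P a)
        let T2 : Finset α := S.filter (fun a => ¬ P a)
        have hm1 : ∀ a, a ∈ T1 ↔ a ∈ S ∧ (a = x.1 ∨ P a) := fun a => mem_filter
        have hm2 : ∀ a, a ∈ T2 ↔ a ∈ S ∧ ¬ P a := fun a => mem_filter
        have hxP : ¬ P x.1 := by
          rintro ⟨h, h', _⟩
          exact h' rfl
        apply hsplit T1 T2 x.1
        · refine ⟨filter_subset _ _, fun h => ?_⟩
          have := ((hm1 _).mp (h (show b0.1.1 ∈ S from b0.1.2))).2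
          rcases this with h1 | ⟨h1, h2, h3⟩
          · exact b0.2 (Subtype.ext h1)
          · exact hb0 h3
        · refine ⟨filter_subset _ _, fun h => ?_⟩
          have := ((hm2 _).mp (h (show a0.1.1 ∈ S from a0.1.2))).2
          exact this ⟨a0.1.2, a0.2, ha0⟩
        · ext a
          rw [mem_union, hm1, hm2]
          constructor
          · intro h
            by_cases hP : P a
            · exact Or.inl ⟨h, Or.inr hP⟩
            · exact Or.inr ⟨h, hP⟩
          · rintro (h | h) <;> exact h.1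
        · intro y h1 h2
          rcases ((hm1 y).mp h1).2 with h3 | h3
          · exact h3
          · exact (((hm2 y).mp h2).2 h3).elim
        · intro a ha hna b hb hnb hab
          obtain ⟨ha1, ha2⟩ := (hm1 a).mp ha
          obtain ⟨hb1, hb2⟩ := (hm2 b).mp hb
          have haP : P a := by
            by_contra h
            exact hna ((hm2 a).mpr ⟨ha1, h⟩)
          have hbx : b ≠ x.1 := fun h => hnb ((hm1 b).mpr ⟨hb1, Or.inl h⟩)
          obtain ⟨h1, h2, h3⟩ := haP
          have h5 : (⟨b, hb1⟩ : (S : Set α)) ∈ ({x}ᶜ : Set (S : Set α)) := by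
            intro h
            exact hbx (congrArg Subtype.val h)
          exact hT _ h3 ⟨⟨b, hb1⟩, h5⟩ (fun h => hb2 ⟨hb1, h5, h⟩) hab

end Pool.Agent.H42.Sat
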