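import Mathlib

set_option autoImplicit false
set_option linter.unusedSectionVars false

/-! The combinatorial core: how a graph of chromatic number `s + 2` splits into an `s`-colourable part
and a disjoint union of unbalanced bipartite graphs. -/

namespace Pool.Agent.H42.Sat

open Finset Classical

/-- `F` splits into an `s`-colourable part and a part `Y` whose edges join the two sides of one of the
bipartite pieces; the small side of piece `i` has at most `ρ + 1` vertices for `i < c` and at most `ρ`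
vertices for `i ≥ c` -/
def Fits {k : ℕ} (F : SimpleGraph (Fin k)) (s ρ c : ℕ) : Prop :=
  ∃ (Y : Set (Fin k)) (comp : Fin k → ℕ) (sd : Fin k → Bool),
    (∃ col : Fin k → Fin s, ∀ a, a ∉ Y → ∀ b, b ∉ Y → F.Adj a b → col a ≠ col b) ∧
    (∀ a ∈ Y, ∀ b ∈ Y, F.Adj a b → comp a = comp b ∧ sd a ≠ sd b) ∧
    ∀ i, (univ.filter (fun a => a ∈ Y ∧ comp a = i ∧ sd a = false)).card ≤
      if i < c then ρ + 1 else ρ

theorem not_fits_zero {k : ℕ} (F : SimpleGraph (Fin k)) (s : ℕ) (h : ¬ F.Colorable (s + 1)) :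
    ¬ Fits F s 0 0 := by
  rintro ⟨Y, comp, sd, ⟨col, hcol⟩, hY, hc⟩
  apply h
  have hno : ∀ a ∈ Y, sd a = true := by
    intro a ha
    by_contra hne
    have hf : sd a = false := by simpa using hne
    have h1 := hc (comp a)
    rw [if_neg (Nat.not_lt_zero _), Nat.le_zero, card_eq_zero, filter_eq_empty_iff] at h1
    exact h1 (mem_univ a) ⟨ha, rfl, hf⟩
  refine ⟨SimpleGraph.Coloring.mk (fun a => if a ∈ Y then Fin.last s else (col a).castSucc) ?_⟩
  intro a b hab
  by_cases ha : a ∈ Y <;> by_cases hb : b ∈ Y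
  · exact ((hY a ha b hb hab).2 ((hno a ha).trans (hno b hb).symm)).elim
  · simp only [ha, hb, if_true, if_false]
    exact (Fin.castSucc_lt_last _).ne'
  · simp only [ha, hb, if_true, if_false]
    exact (Fin.castSucc_lt_last _).ne
  · simp only [ha, hb, if_false]
    intro he
    exact hcol a ha b hb hab (Fin.castSucc_injective _ he)

theorem fits_top {k : ℕ} (F : SimpleGraph (Fin k)) (s : ℕ) (hs : 0 < s)
    (h : F.Colorable (s + 2)) : Fits F s k 0 := by
  obtain ⟨c⟩ := h
  refine ⟨{a | s ≤ (c a).val}, fun _ => 0, fun a => decide ((c a).val = s), ?_, ?_, ?_⟩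
  · refine ⟨fun a => if h : (c a).val < s then ⟨(c a).val, h⟩ else ⟨0, hs⟩, ?_⟩
    intro a ha b hb hab he
    have ha' : (c a).val < s := not_le.mp ha
    have hb' : (c b).val < s := not_le.mp hb
    beta_reduce at he
    rw [dif_pos ha', dif_pos hb'] at he
    have := congrArg Fin.val he
    exact c.valid hab (Fin.ext this)
  · intro a ha b hb hab
    refine ⟨rfl, ?_⟩
    have ha' : s ≤ (c a).val := ha
    have hb' : s ≤ (c b).val := hb
    have h1 := (c a).isLt
    have h2 := (c b).isLt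
    have h3 : (c a).val ≠ (c b).val := fun he => c.valid hab (Fin.ext he)
    intro he
    rw [decide_eq_decide] at he
    by_cases h4 : (c a).val = s
    · exact h3 (h4.trans (he.mp h4).symm)
    · have h5 : (c b).val ≠ s := fun h => h4 (he.mpr h)
      omega
  · intro i
    rw [if_neg (Nat.not_lt_zero _)]
    refine (card_le_univ _).trans ?_
    rw [Fintype.card_fin]

theorem fits_step {k : ℕ} (F : SimpleGraph (Fin k)) (s ρ : ℕ) (h : Fits F s (ρ + 1) 0) :
    ∃ M, Fits F s ρ M := by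
  obtain ⟨Y, comp, sd, h1, h2, h3⟩ := h
  refine ⟨univ.sup comp + 1, Y, comp, sd, h1, h2, ?_⟩
  intro i
  by_cases hi : i < univ.sup comp + 1
  · rw [if_pos hi]
    have := h3 i
    rwa [if_neg (Nat.not_lt_zero _)] at this
  · rw [if_neg hi]
    have : univ.filter (fun a => a ∈ Y ∧ comp a = i ∧ sd a = false) = ∅ := by
      rw [filter_eq_empty_iff]
      rintro a _ ⟨_, h4, _⟩
      have h5 : comp a ≤ univ.sup comp := le_sup (mem_univ a)
      omega
    rw [this, card_empty]
    exact Nat.zero_le _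

/-- the threshold -/
theorem exists_threshold {k : ℕ} (F : SimpleGraph (Fin k)) (s : ℕ) (hs : 0 < s)
    (h1 : F.Colorable (s + 2)) (h2 : ¬ F.Colorable (s + 1)) :
    ∃ ρ c, ¬ Fits F s ρ c ∧ Fits F s ρ (c + 1) := by
  have hex : ∃ ρ, Fits F s ρ 0 := ⟨k, fits_top F s hs h1⟩
  obtain ⟨r, hr⟩ : ∃ r, r = Nat.find hex := ⟨_, rfl⟩
  have hr1 : Fits F s r 0 := by rw [hr]; exact Nat.find_spec hex
  have hr2 : ∀ m, m < r → ¬ Fits F s m 0 := by
    intro m hm
    rw [hr] at hm
    exact Nat.find_min hex hm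
  have hr0 : r ≠ 0 := by
    rintro rfl
    exact not_fits_zero F s h2 hr1
  obtain ⟨ρ, rfl⟩ := Nat.exists_eq_succ_of_ne_zero hr0
  obtain ⟨M, hM⟩ := fits_step F s ρ hr1
  have hex2 : ∃ c, Fits F s ρ c := ⟨M, hM⟩
  obtain ⟨q, hq⟩ : ∃ q, q = Nat.find hex2 := ⟨_, rfl⟩
  have hq1 : Fits F s ρ q := by rw [hq]; exact Nat.find_spec hex2
  have hq2 : ∀ m, m < q → ¬ Fits F s ρ m := by
    intro m hm
    rw [hq] at hm
    exact Nat.find_min hex2 hm
  have hq0 : q ≠ 0 := by
    rintro rfl
    exact hr2 ρ (Nat.lt_succ_self _) hq1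
  obtain ⟨c, rfl⟩ := Nat.exists_eq_succ_of_ne_zero hq0
  exact ⟨ρ, c, hq2 c (Nat.lt_succ_self _), hq1⟩

/-- the chromatic number of a graph with a triangle -/
theorem exists_chromatic {k : ℕ} (F : SimpleGraph (Fin k)) (u v w : Fin k) (h1 : F.Adj u v)
    (h2 : F.Adj u w) (h3 : F.Adj v w) :
    ∃ s, 0 < s ∧ F.Colorable (s + 2) ∧ ¬ F.Colorable (s + 1) := by
  have hex : ∃ m, F.Colorable m := ⟨k, by
    have := F.colorable_of_fintype
    rwa [Fintype.card_fin] at this⟩
  obtain ⟨m, hm⟩ : ∃ m, m = Nat.find hex := ⟨_, rfl⟩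
  have hm1 : F.Colorable m := by rw [hm]; exact Nat.find_spec hex
  have hm2 : ∀ j, j < m → ¬ F.Colorable j := by
    intro j hj
    rw [hm] at hj
    exact Nat.find_min hex hj
  have hm3 : 3 ≤ m := by
    by_contra hlt
    push Not at hlt
    have h4 : F.Colorable 2 := hm1.mono (by omega)
    obtain ⟨c⟩ := h4
    have e1 := c.valid h1
    have e2 := c.valid h2
    have e3 := c.valid h3
    have : ∀ x y z : Fin 2, x ≠ y → x ≠ z → y ≠ z → False := by decide
    exact this _ _ _ e1 e2 e3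
  exact ⟨m - 2, by omega, by rwa [show m - 2 + 2 = m by omega], hm2 _ (by omega)⟩

end Pool.Agent.H42.Sat
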