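import Pool.Agent.H42.Sat.Blocks
import Pool.Agent.H42.Sat.Fits

set_option autoImplicit false
set_option linter.unusedSectionVars false

/-! Embedding `F` with the help of a star. -/

namespace Pool.Agent.H42.Sat

open Finset Classical

section
variable {V : Type}

theorem close_core {k : ℕ} (H : SimpleGraph V) (F : SimpleGraph (Fin k)) (Y : Set (Fin k))
    (comp : Fin k → ℕ) (sd : Fin k → Bool) (c m : ℕ)
    (hY : ∀ a ∈ Y, ∀ b ∈ Y, F.Adj a b → comp a = comp b ∧ sd a ≠ sd b)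
    (hcount : (univ.filter (fun a => a ∈ Y ∧ comp a = c ∧ sd a = false)).card ≤ m)
    (f q : Fin k → V) (P B : Finset V) (hP : m ≤ P.card) (hB : k ≤ B.card)
    (hf : Function.Injective f) (hq : Function.Injective q)
    (d1 : ∀ a, a ∉ Y → ∀ b ∈ Y, comp b ≠ c → f a ≠ q b)
    (d2 : ∀ a, a ∉ Y → f a ∉ P) (d3 : ∀ a, a ∉ Y → f a ∉ B)
    (d4 : ∀ b ∈ Y, comp b ≠ c → q b ∉ P) (d5 : ∀ b ∈ Y, comp b ≠ c → q b ∉ B)
    (d6 : ∀ x ∈ P, x ∉ B)
    (a1 : ∀ a, a ∉ Y → ∀ b, b ∉ Y → F.Adj a b → H.Adj (f a) (f b))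
    (a2 : ∀ a, a ∉ Y → ∀ b ∈ Y, comp b ≠ c → H.Adj (f a) (q b))
    (a3 : ∀ a, a ∉ Y → ∀ x ∈ P, H.Adj (f a) x)
    (a4 : ∀ a, a ∉ Y → ∀ x ∈ B, H.Adj (f a) x)
    (a5 : ∀ a ∈ Y, ∀ b ∈ Y, comp a ≠ c → comp b ≠ c → F.Adj a b → H.Adj (q a) (q b))
    (a6 : ∀ x ∈ P, ∀ y ∈ B, H.Adj x y) : Emb F H := by
  -- injections
  have hB' : Fintype.card (Fin k) ≤ Fintype.card B := by
    rw [Fintype.card_fin, Fintype.card_coe]; exact hB
  obtain ⟨g⟩ := Function.Embedding.nonempty_of_card_le hB'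
  let Sm : Finset (Fin k) := univ.filter (fun a => a ∈ Y ∧ comp a = c ∧ sd a = false)
  have hP' : Fintype.card Sm ≤ Fintype.card P := by
    rw [Fintype.card_coe, Fintype.card_coe]; exact hcount.trans hP
  obtain ⟨h⟩ := Function.Embedding.nonempty_of_card_le hP'
  have hSm : ∀ a, a ∈ Sm ↔ (a ∈ Y ∧ comp a = c ∧ sd a = false) := by
    intro a; simp [Sm]
  let ψ : Fin k → V := fun a =>
    if a ∉ Y then f a else if comp a ≠ c then q a else
      if ha : a ∈ Sm then (h ⟨a, ha⟩).1 else (g a).1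
  -- evaluation
  have e1 : ∀ a, a ∉ Y → ψ a = f a := fun a ha => by simp [ψ, ha]
  have e2 : ∀ a, a ∈ Y → comp a ≠ c → ψ a = q a := fun a ha hc => by simp [ψ, ha, hc]
  have e3 : ∀ a (ha : a ∈ Sm), ψ a = (h ⟨a, ha⟩).1 := fun a ha => by
    have h1 := (hSm a).mp ha
    have n1 : ¬ (a ∉ Y) := fun h => h h1.1
    have n2 : ¬ (comp a ≠ c) := fun h => h h1.2.1
    simp only [ψ]
    rw [if_neg n1, if_neg n2, dif_pos ha]
  have e4 : ∀ a, a ∈ Y → comp a = c → a ∉ Sm → ψ a = (g a).1 := fun a ha hc hs => by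
    have n1 : ¬ (a ∉ Y) := fun h => h ha
    have n2 : ¬ (comp a ≠ c) := fun h => h hc
    simp only [ψ]
    rw [if_neg n1, if_neg n2, dif_neg hs]
  -- four kinds
  have kind : ∀ a, a ∉ Y ∨ (a ∈ Y ∧ comp a ≠ c) ∨ a ∈ Sm ∨ (a ∈ Y ∧ comp a = c ∧ a ∉ Sm) := by
    intro a
    by_cases h1 : a ∈ Y
    · by_cases h2 : comp a = c
      · by_cases h3 : a ∈ Sm
        · exact Or.inr (Or.inr (Or.inl h3))
        · exact Or.inr (Or.inr (Or.inr ⟨h1, h2, h3⟩))
      · exact Or.inr (Or.inl ⟨h1, h2⟩)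
    · exact Or.inl h1
  have hPm : ∀ a (ha : a ∈ Sm), ψ a ∈ P := fun a ha => by rw [e3 a ha]; exact (h ⟨a, ha⟩).2
  have hBm : ∀ a, a ∈ Y → comp a = c → a ∉ Sm → ψ a ∈ B := fun a h1 h2 h3 => by
    rw [e4 a h1 h2 h3]; exact (g a).2
  refine ⟨ψ, ?_, ?_⟩
  · have key : ∀ a b, ψ a = ψ b → (a ∉ Y ∨ (a ∈ Y ∧ comp a ≠ c) ∨ a ∈ Sm ∨
        (a ∈ Y ∧ comp a = c ∧ a ∉ Sm)) → a = b := by
      intro a b hab ka
      rcases ka with ha | ⟨ha, ha2⟩ | ha | ⟨ha, ha2, ha3⟩ <;>
      rcases kind b with hb | ⟨hb, hb2⟩ | hb | ⟨hb, hb2, hb3⟩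
      · rw [e1 a ha, e1 b hb] at hab; exact hf hab
      · rw [e1 a ha, e2 b hb hb2] at hab; exact (d1 a ha b hb hb2 hab).elim
      · have := hPm b hb; rw [← hab, e1 a ha] at this; exact (d2 a ha this).elim
      · have := hBm b hb hb2 hb3; rw [← hab, e1 a ha] at this; exact (d3 a ha this).elim
      · rw [e2 a ha ha2, e1 b hb] at hab; exact (d1 b hb a ha ha2 hab.symm).elim
      · rw [e2 a ha ha2, e2 b hb hb2] at hab; exact hq hab
      · have := hPm b hb; rw [← hab, e2 a ha ha2] at this; exact (d4 a ha ha2 this).elim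
      · have := hBm b hb hb2 hb3; rw [← hab, e2 a ha ha2] at this; exact (d5 a ha ha2 this).elim
      · have := hPm a ha; rw [hab, e1 b hb] at this; exact (d2 b hb this).elim
      · have := hPm a ha; rw [hab, e2 b hb hb2] at this; exact (d4 b hb hb2 this).elim
      · rw [e3 a ha, e3 b hb] at hab
        have := h.injective (Subtype.ext hab)
        exact congrArg Subtype.val this
      · have h1 := hPm a ha; have h2 := hBm b hb hb2 hb3; rw [hab] at h1
        exact (d6 _ h1 h2).elim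
      · have := hBm a ha ha2 ha3; rw [hab, e1 b hb] at this; exact (d3 b hb this).elim
      · have := hBm a ha ha2 ha3; rw [hab, e2 b hb hb2] at this; exact (d5 b hb hb2 this).elim
      · have h1 := hPm b hb; have h2 := hBm a ha ha2 ha3; rw [← hab] at h1
        exact (d6 _ h1 h2).elim
      · rw [e4 a ha ha2 ha3, e4 b hb hb2 hb3] at hab
        exact g.injective (Subtype.ext hab)
    intro a b hab
    exact key a b hab (kind a)
  · intro a b hab
    by_cases ha : a ∈ Y
    · by_cases hb : b ∈ Y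
      · obtain ⟨h1, h2⟩ := hY a ha b hb hab
        by_cases hc : comp a = c
        · have hc' : comp b = c := h1 ▸ hc
          by_cases hs : sd a = false
          · have hsa : a ∈ Sm := (hSm a).mpr ⟨ha, hc, hs⟩
            have hsb : b ∉ Sm := fun h => h2 (hs.trans ((hSm b).mp h).2.2.symm)
            exact a6 _ (hPm a hsa) _ (hBm b hb hc' hsb)
          · have hs' : sd a = true := by simpa using hs
            have hsb' : sd b = false := by
              by_contra h3
              have : sd b = true := by simpa using h3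
              exact h2 (hs'.trans this.symm)
            have hsa : a ∉ Sm := fun h => hs ((hSm a).mp h).2.2
            have hsb : b ∈ Sm := (hSm b).mpr ⟨hb, hc', hsb'⟩
            exact (a6 _ (hPm b hsb) _ (hBm a ha hc hsa)).symm
        · have hc' : comp b ≠ c := fun h => hc (h1.trans h)
          rw [e2 a ha hc, e2 b hb hc']
          exact a5 a ha b hb hc hc' hab
      · rw [e1 b hb]
        by_cases hc : comp a = c
        · by_cases hs : a ∈ Sm
          · exact (a3 b hb _ (hPm a hs)).symm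
          · exact (a4 b hb _ (hBm a ha hc hs)).symm
        · rw [e2 a ha hc]
          exact (a2 b hb a ha hc).symm
    · rw [e1 a ha]
      by_cases hb : b ∈ Y
      · by_cases hc : comp b = c
        · by_cases hs : b ∈ Sm
          · exact a3 a ha _ (hPm b hs)
          · exact a4 a ha _ (hBm b hb hc hs)
        · rw [e2 b hb hc]
          exact a2 a ha b hb hc
      · rw [e1 b hb]
        exact a1 a ha b hb hab

/-- double counting pairs and copies -/
theorem dc_pairs {ι κ : Type} (P : Finset ι) (E : Finset κ) (R : κ → ι → Prop) (c K : ℝ)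
    (h1 : ∀ x ∈ P, c ≤ ((E.filter (fun f => R f x)).card : ℝ))
    (h2 : ∀ f ∈ E, ((P.filter (fun x => R f x)).card : ℝ) ≤ K) :
    c * (P.card : ℝ) ≤ (E.card : ℝ) * K := by
  calc c * (P.card : ℝ) = ∑ _x ∈ P, c := by rw [sum_const, nsmul_eq_mul, mul_comm]
    _ ≤ ∑ x ∈ P, ((E.filter (fun f => R f x)).card : ℝ) := sum_le_sum h1
    _ = ∑ f ∈ E, ((P.filter (fun x => R f x)).card : ℝ) := by
        simp only [card_filter]
        push_cast
        exact sum_comm
    _ ≤ ∑ _f ∈ E, K := sum_le_sum h2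
    _ = (E.card : ℝ) * K := by rw [sum_const, nsmul_eq_mul]

end

end Pool.Agent.H42.Sat
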