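import Mathlib

set_option autoImplicit false
set_option linter.unusedSectionVars false

/-! Counting copies of a fixed graph inside a dense host. -/

namespace Pool.Agent.H42.Sat

open Finset Classical

/-- for every set `X` of size at least `s` and every set `B` of size at least `b` some vertex of `B`
has at least `q |X|` neighbours in `X` -/
def Dens {V : Type} (G : SimpleGraph V) (Ω : Finset V) (q s b : ℝ) : Prop :=
  ∀ X ⊆ Ω, ∀ B ⊆ Ω, s ≤ (X.card : ℝ) → b ≤ (B.card : ℝ) →
    ∃ x ∈ B, q * (X.card : ℝ) ≤ ((X.filter (fun y => G.Adj x y)).card : ℝ)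

/-- the copies counted -/
noncomputable def cps {V : Type} (G : SimpleGraph V) (bl : V → Finset V) {k : ℕ}
    (Γ : SimpleGraph (Fin k)) (X : Fin k → Finset V) : Finset (Fin k → V) :=
  (Fintype.piFinset X).filter (fun f => (∀ i j, Γ.Adj i j → G.Adj (f i) (f j)) ∧
    ∀ i j, i < j → f j ∉ bl (f i))

theorem count_copies {V : Type} (G : SimpleGraph V) (Ω : Finset V) (q s b : ℝ) (hq0 : 0 < q)
    (hq1 : q ≤ 1) (hs : 0 ≤ s) (hD : Dens G Ω q s b) (bl : V → Finset V)
    (hbl : ∀ x, ((bl x).card : ℝ) ≤ q / 2 * s) :
    ∀ (k : ℕ) (Γ : SimpleGraph (Fin k)) (X : Fin k → Finset V) (t : ℝ),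
      (∀ j, X j ⊆ Ω) → (∀ j, t ≤ ((X j).card : ℝ)) → s ≤ (q / 2) ^ k * t → (k : ℝ) * b ≤ s / 2 →
      (s / 2) ^ k ≤ ((cps G bl Γ X).card : ℝ) := by
  intro k
  induction k with
  | zero =>
    intro Γ X t _ _ _ _
    have : 1 ≤ (cps G bl Γ X).card := by
      rw [Nat.succ_le_iff, card_pos]
      refine ⟨fun i => i.elim0, ?_⟩
      rw [cps, mem_filter, Fintype.mem_piFinset]
      exact ⟨fun i => i.elim0, fun i => i.elim0, fun i => i.elim0⟩
    rw [pow_zero]
    exact_mod_cast this
  | succ k ih =>
    intro Γ X t hX ht hst hkb
    have hq2 : q / 2 ≤ 1 := by linarith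
    have hq20 : 0 < q / 2 := by linarith
    have ht0 : 0 ≤ t := by
      by_contra hneg
      push Not at hneg
      have : (q / 2) ^ (k + 1) * t < 0 := mul_neg_of_pos_of_neg (by positivity) hneg
      linarith
    have hst' : s ≤ (q / 2) ^ k * (q / 2 * t) := by
      calc s ≤ (q / 2) ^ (k + 1) * t := hst
        _ = _ := by ring
    have hst1 : s ≤ q / 2 * t := by
      refine hst'.trans ?_
      have : (q / 2) ^ k ≤ 1 := pow_le_one₀ hq20.le hq2
      have h2 : 0 ≤ q / 2 * t := by positivity
      nlinarith
    have hst2 : s ≤ t := by nlinarith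
    -- the bad vertices
    let bad : Fin k → Finset V := fun j => (X 0).filter
      (fun x => (((X j.succ).filter (fun y => G.Adj x y)).card : ℝ) < q * ((X j.succ).card : ℝ))
    have hbad : ∀ j, ((bad j).card : ℝ) ≤ b := by
      intro j
      by_contra hlt
      push Not at hlt
      obtain ⟨x, hx1, hx2⟩ := hD (X j.succ) (hX _) (bad j) ((filter_subset _ _).trans (hX 0))
        (hst2.trans (ht _)) hlt.le
      have := (mem_filter.mp hx1).2
      linarith
    let good := (X 0) \ (univ.biUnion bad)
    have hgood : s / 2 ≤ (good.card : ℝ) := by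
      have h1 : ((univ.biUnion bad).card : ℝ) ≤ k * b := by
        calc ((univ.biUnion bad).card : ℝ) ≤ ((∑ j : Fin k, (bad j).card : ℕ) : ℝ) := by
              exact_mod_cast card_biUnion_le
          _ = ∑ j : Fin k, ((bad j).card : ℝ) := by push_cast; rfl
          _ ≤ ∑ _j : Fin k, b := sum_le_sum (fun j _ => hbad j)
          _ = k * b := by rw [sum_const, card_univ, Fintype.card_fin, nsmul_eq_mul]
      have h2 : ((X 0).card : ℝ) ≤ (good.card : ℝ) + ((univ.biUnion bad).card : ℝ) := by
        have : (X 0).card ≤ good.card + (univ.biUnion bad).card := by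
          exact card_le_card_sdiff_add_card
        exact_mod_cast this
      have h3 := ht 0
      have h4 : (k : ℝ) * b ≤ s / 2 ∨ b < 0 := by
        by_cases hb : 0 ≤ b
        · left
          refine le_trans ?_ hkb
          push_cast
          nlinarith
        · right; linarith
      rcases h4 with h4 | h4
      · linarith
      · have : (k : ℝ) * b ≤ 0 := mul_nonpos_of_nonneg_of_nonpos (Nat.cast_nonneg _) h4.le
        linarith
    -- the reduced problem
    let Γ' : SimpleGraph (Fin k) := Γ.comap Fin.succ
    let X' : V → Fin k → Finset V := fun x j =>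
      (if Γ.Adj 0 j.succ then (X j.succ).filter (fun y => G.Adj x y) else X j.succ) \ bl x
    have hX'card : ∀ x ∈ good, ∀ j, q / 2 * t ≤ ((X' x j).card : ℝ) := by
      intro x hx j
      have hxb : x ∉ bad j := by
        intro h
        have := (mem_sdiff.mp hx).2
        exact this (mem_biUnion.mpr ⟨j, mem_univ _, h⟩)
      have hx0 : x ∈ X 0 := (mem_sdiff.mp hx).1
      have h1 : q * t ≤ (((if Γ.Adj 0 j.succ then (X j.succ).filter (fun y => G.Adj x y)
          else X j.succ) : Finset V).card : ℝ) := by
        split_ifs
        · have h3 : ¬ ((((X j.succ).filter (fun y => G.Adj x y)).card : ℝ) <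
              q * ((X j.succ).card : ℝ)) := fun h => hxb (mem_filter.mpr ⟨hx0, h⟩)
          push Not at h3
          refine le_trans ?_ h3
          exact mul_le_mul_of_nonneg_left (ht _) hq0.le
        · refine le_trans ?_ (ht _)
          nlinarith
      have h2 : (((if Γ.Adj 0 j.succ then (X j.succ).filter (fun y => G.Adj x y)
          else X j.succ) : Finset V).card : ℝ) ≤ ((X' x j).card : ℝ) + ((bl x).card : ℝ) := by
        have := card_le_card_sdiff_add_card (t := bl x)
          (s := if Γ.Adj 0 j.succ then (X j.succ).filter (fun y => G.Adj x y) else X j.succ)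
        exact_mod_cast this
      have h3 := hbl x
      have h4 : q / 2 * s ≤ q / 2 * t := mul_le_mul_of_nonneg_left hst2 hq20.le
      nlinarith
    have hX'sub : ∀ x j, X' x j ⊆ X j.succ := by
      intro x j y hy
      have h1 := (mem_sdiff.mp hy).1
      split_ifs at h1
      · exact (mem_filter.mp h1).1
      · exact h1
    have hih : ∀ x ∈ good, (s / 2) ^ k ≤ ((cps G bl Γ' (X' x)).card : ℝ) := by
      intro x hx
      apply ih Γ' (X' x) (q / 2 * t) (fun j => (hX'sub x j).trans (hX _)) (hX'card x hx) hst'
      by_cases hb : 0 ≤ b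
      · refine le_trans ?_ hkb
        push_cast
        nlinarith
      · push Not at hb
        have : (k : ℝ) * b ≤ 0 := mul_nonpos_of_nonneg_of_nonpos (Nat.cast_nonneg _) hb.le
        linarith
    -- the injection
    have hinj : (good.sigma (fun x => cps G bl Γ' (X' x))).card ≤ (cps G bl Γ X).card := by
      apply card_le_card_of_injOn (fun z => (Fin.cons z.1 z.2 : Fin (k + 1) → V))
      · rintro ⟨x, f⟩ hz
        simp only [coe_sigma, Set.mem_sigma_iff, mem_coe] at hz
        obtain ⟨hx, hf⟩ := hz
        rw [cps, mem_filter, Fintype.mem_piFinset] at hf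
        obtain ⟨hf1, hf2, hf3⟩ := hf
        rw [mem_coe, cps, mem_filter, Fintype.mem_piFinset]
        refine ⟨?_, ?_, ?_⟩
        · intro i
          refine Fin.cases ?_ ?_ i
          · exact (mem_sdiff.mp hx).1
          · intro j
            exact hX'sub x j (hf1 j)
        · have h0 : ∀ j : Fin k, Γ.Adj 0 j.succ → G.Adj x (f j) := by
            intro j hj
            have h1 := (mem_sdiff.mp (hf1 j)).1
            rw [if_pos hj] at h1
            exact (mem_filter.mp h1).2
          intro i j
          refine Fin.cases ?_ ?_ i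
          · refine Fin.cases ?_ ?_ j
            · intro h; exact (Γ.loopless.irrefl _ h).elim
            · intro j h
              exact h0 j h
          · intro i
            refine Fin.cases ?_ ?_ j
            · intro h
              exact (h0 i h.symm).symm
            · intro j h
              exact hf2 i j h
        · intro i j
          refine Fin.cases ?_ ?_ i
          · refine Fin.cases ?_ ?_ j
            · intro h; exact (lt_irrefl _ h).elim
            · intro j _
              exact (mem_sdiff.mp (hf1 j)).2
          · intro i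
            refine Fin.cases ?_ ?_ j
            · intro h; exact (Fin.not_lt_zero _ h).elim
            · intro j h
              exact hf3 i j (Fin.succ_lt_succ_iff.mp h)
      · rintro ⟨x, f⟩ _ ⟨y, g⟩ _ h
        have h1 := Fin.cons_injective2 h
        obtain ⟨h1, h2⟩ := h1
        simp only at h1 h2
        subst h1
        subst h2
        rfl
    calc (s / 2) ^ (k + 1) = s / 2 * (s / 2) ^ k := by ring
      _ ≤ (good.card : ℝ) * (s / 2) ^ k := mul_le_mul_of_nonneg_right hgood (by positivity)
      _ = ∑ x ∈ good, (s / 2) ^ k := by rw [sum_const, nsmul_eq_mul]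
      _ ≤ ∑ x ∈ good, ((cps G bl Γ' (X' x)).card : ℝ) := sum_le_sum hih
      _ = ((good.sigma (fun x => cps G bl Γ' (X' x))).card : ℝ) := by
          rw [card_sigma]; push_cast; rfl
      _ ≤ ((cps G bl Γ X).card : ℝ) := by exact_mod_cast hinj

end Pool.Agent.H42.Sat
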