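import Pool.Agent.H42.Sat.Free
import Pool.Agent.H42.Sat.Count

set_option autoImplicit false
set_option linter.unusedSectionVars false

/-! Sparse locally tree-like unions of copies that meet every dense set. -/

namespace Pool.Agent.H42.Sat

open Finset Classical

section
variable {V : Type} [Fintype V]

/-- a copy of `Γ` in `G` with vertices in prescribed classes -/
def IsCopy (G : SimpleGraph V) {k : ℕ} (Γ : SimpleGraph (Fin k)) (c : Fin k → Finset V)
    (f : Fin k → V) : Prop :=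
  Function.Injective f ∧ (∀ i, f i ∈ c i) ∧ ∀ i j, Γ.Adj i j → G.Adj (f i) (f j)

/-- the number of copies at `x` -/
noncomputable def mu {k : ℕ} (E : Finset (Fin k → V)) (x : V) : ℕ :=
  (E.filter (fun f => ∃ i, f i = x)).card

theorem mu_insert {k : ℕ} (E : Finset (Fin k → V)) (f : Fin k → V) (x : V) (D : ℕ)
    (h : mu E x ≤ D) (hf : ∀ i, mu E (f i) < D) : mu (insert f E) x ≤ D := by
  unfold mu at *
  rw [filter_insert]
  split_ifs with h1
  · obtain ⟨i, rfl⟩ := h1
    have := hf i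
    exact (card_insert_le _ _).trans this
  · exact h

theorem sum_mu {k : ℕ} (E : Finset (Fin k → V)) : ∑ x, mu E x ≤ k * E.card := by
  unfold mu
  simp only [card_filter]
  rw [sum_comm]
  calc ∑ f ∈ E, ∑ x : V, (if ∃ i, f i = x then 1 else 0)
      ≤ ∑ _f ∈ E, k := by
        apply sum_le_sum
        intro f _
        rw [← card_filter]
        calc (univ.filter (fun x => ∃ i, f i = x)).card ≤ (univ.image f).card := by
              apply card_le_card
              intro x hx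
              obtain ⟨i, hi⟩ := (mem_filter.mp hx).2
              exact mem_image.mpr ⟨i, mem_univ _, hi⟩
          _ ≤ k := by
              refine card_image_le.trans ?_
              rw [card_univ, Fintype.card_fin]
    _ = k * E.card := by rw [sum_const, smul_eq_mul, mul_comm]

theorem deg_RG {k : ℕ} (Γ : SimpleGraph (Fin k)) (E : Finset (Fin k → V)) (x : V) :
    (univ.filter (fun y => (RG Γ E).Adj x y)).card ≤ mu E x * k := by
  calc (univ.filter (fun y => (RG Γ E).Adj x y)).card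
      ≤ ((E.filter (fun f => ∃ i, f i = x)).biUnion (fun f => univ.image f)).card := by
        apply card_le_card
        intro y hy
        obtain ⟨_, f, hf, i, j, _, h1, h2⟩ := (mem_filter.mp hy).2
        rw [mem_biUnion]
        exact ⟨f, mem_filter.mpr ⟨hf, i, h1⟩, mem_image.mpr ⟨j, mem_univ _, h2⟩⟩
    _ ≤ ∑ f ∈ E.filter (fun f => ∃ i, f i = x), (univ.image f).card := card_biUnion_le
    _ ≤ ∑ _f ∈ E.filter (fun f => ∃ i, f i = x), k := by
        apply sum_le_sum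
        intro f _
        refine card_image_le.trans ?_
        rw [card_univ, Fintype.card_fin]
    _ = mu E x * k := by rw [sum_const, smul_eq_mul]; rfl

theorem greedy_step (G : SimpleGraph V) (Ω : Finset V) (q s b t : ℝ) (hq0 : 0 < q)
    (hq1 : q ≤ 1) (hs : 0 < s) (hD : Dens G Ω q s b) {k : ℕ} (Γ : SimpleGraph (Fin k))
    (c : Fin k → Finset V) (hc : ∀ i, c i ⊆ Ω) (g D : ℕ) (E : Finset (Fin k → V))
    (hE : ∀ x, mu E x ≤ D) (hball : (((D * k + 1) ^ g : ℕ) : ℝ) ≤ q / 2 * s)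
    (hst : s ≤ (q / 2) ^ k * t) (hkb : (k : ℝ) * b ≤ s / 2) (U : Finset (Finset V))
    (hU : U.Nonempty)
    (hZ : ∀ Z ∈ U, ∀ i, t ≤ (((Z ∩ c i).filter (fun x => mu E x < D)).card : ℝ)) :
    ∃ f : Fin k → V, IsCopy G Γ c f ∧ (∀ i, mu E (f i) < D) ∧
      (∀ i j, i < j → f j ∉ ball (RG Γ E) g (f i)) ∧
      (s / 2) ^ k / (Ω.card : ℝ) ^ k * (U.card : ℝ) ≤ ((U.filter (fun Z => ∀ i, f i ∈ Z)).card : ℝ) := by
  let bl := ball (RG Γ E) g
  have hbl : ∀ x, ((bl x).card : ℝ) ≤ q / 2 * s := by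
    intro x
    refine le_trans ?_ hball
    have : (bl x).card ≤ (D * k + 1) ^ g := by
      apply card_ball
      intro y
      exact (deg_RG Γ E y).trans (Nat.mul_le_mul_right _ (hE y))
    exact_mod_cast this
  let Al : Finset (Fin k → V) := (Fintype.piFinset (fun _ : Fin k => Ω)).filter
    (fun f => IsCopy G Γ c f ∧ (∀ i, mu E (f i) < D) ∧ (∀ i j, i < j → f j ∉ bl (f i)))
  have hAl : (Al.card : ℝ) ≤ (Ω.card : ℝ) ^ k := by
    have : Al.card ≤ Ω.card ^ k := by
      refine (card_filter_le _ _).trans ?_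
      rw [Fintype.card_piFinset]
      simp
    exact_mod_cast this
  have hcount : ∀ Z ∈ U, (s / 2) ^ k ≤ ((Al.filter (fun f => ∀ i, f i ∈ Z)).card : ℝ) := by
    intro Z hZU
    let X : Fin k → Finset V := fun i => (Z ∩ c i).filter (fun x => mu E x < D)
    have hX : ∀ j, X j ⊆ Ω := fun j =>
      ((filter_subset _ _).trans inter_subset_right).trans (hc j)
    have h1 := count_copies G Ω q s b hq0 hq1 hs.le hD bl hbl k Γ X t hX (hZ Z hZU) hst hkb
    refine h1.trans ?_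
    have : (cps G bl Γ X).card ≤ (Al.filter (fun f => ∀ i, f i ∈ Z)).card := by
      apply card_le_card
      intro f hf
      rw [cps, mem_filter, Fintype.mem_piFinset] at hf
      obtain ⟨hf1, hf2, hf3⟩ := hf
      have hX1 : ∀ i, f i ∈ Z ∧ f i ∈ c i ∧ mu E (f i) < D := by
        intro i
        have := hf1 i
        rw [mem_filter, mem_inter] at this
        exact ⟨this.1.1, this.1.2, this.2⟩
      rw [mem_filter, mem_filter, Fintype.mem_piFinset]
      refine ⟨⟨fun i => hc i (hX1 i).2.1, ⟨?_, fun i => (hX1 i).2.1, hf2⟩, fun i => (hX1 i).2.2,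
        hf3⟩, fun i => (hX1 i).1⟩
      intro i j hij
      by_contra hne
      rcases lt_or_gt_of_ne hne with h | h
      · exact hf3 i j h (by rw [hij]; exact mem_ball_self _ _ _)
      · exact hf3 j i h (by rw [hij]; exact mem_ball_self _ _ _)
    exact_mod_cast this
  have hUpos : (0 : ℝ) < (U.card : ℝ) := by exact_mod_cast card_pos.mpr hU
  have hdc : (U.card : ℝ) * (s / 2) ^ k ≤
      ∑ f ∈ Al, ((U.filter (fun Z => ∀ i, f i ∈ Z)).card : ℝ) := by
    calc (U.card : ℝ) * (s / 2) ^ k = ∑ _Z ∈ U, (s / 2) ^ k := by rw [sum_const, nsmul_eq_mul]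
      _ ≤ ∑ Z ∈ U, ((Al.filter (fun f => ∀ i, f i ∈ Z)).card : ℝ) := sum_le_sum hcount
      _ = ∑ f ∈ Al, ((U.filter (fun Z => ∀ i, f i ∈ Z)).card : ℝ) := by
          simp only [card_filter]
          push_cast
          exact sum_comm
  by_contra hno
  push Not at hno
  have hpos : 0 < (s / 2) ^ k := by positivity
  have hΩpos : 0 < (Ω.card : ℝ) ^ k := by
    by_contra h
    have h3 : (Al.card : ℝ) ≤ 0 := hAl.trans (not_lt.mp h)
    have h4 : Al.card = 0 := by
      have : (Al.card : ℝ) = 0 := le_antisymm h3 (Nat.cast_nonneg _)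
      exact_mod_cast this
    rw [card_eq_zero] at h4
    rw [h4, sum_empty] at hdc
    have : 0 < (U.card : ℝ) * (s / 2) ^ k := by positivity
    linarith
  have hAlne : Al.Nonempty := by
    by_contra h
    rw [not_nonempty_iff_eq_empty] at h
    rw [h, sum_empty] at hdc
    have : 0 < (U.card : ℝ) * (s / 2) ^ k := by positivity
    linarith
  have h5 : ∑ f ∈ Al, ((U.filter (fun Z => ∀ i, f i ∈ Z)).card : ℝ) <
      ∑ _f ∈ Al, (s / 2) ^ k / (Ω.card : ℝ) ^ k * (U.card : ℝ) := by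
    apply sum_lt_sum_of_nonempty hAlne
    intro f hf
    rw [mem_filter] at hf
    exact hno f hf.2.1 hf.2.2.1 hf.2.2.2
  rw [sum_const, nsmul_eq_mul] at h5
  have h6 : (Al.card : ℝ) * ((s / 2) ^ k / (Ω.card : ℝ) ^ k * (U.card : ℝ)) ≤
      (Ω.card : ℝ) ^ k * ((s / 2) ^ k / (Ω.card : ℝ) ^ k * (U.card : ℝ)) :=
    mul_le_mul_of_nonneg_right hAl (by positivity)
  have h7 : (Ω.card : ℝ) ^ k * ((s / 2) ^ k / (Ω.card : ℝ) ^ k * (U.card : ℝ)) =
      (U.card : ℝ) * (s / 2) ^ k := by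
    field_simp
  linarith

theorem greedy (G : SimpleGraph V) (Ω : Finset V) (q s b t : ℝ) (hq0 : 0 < q)
    (hq1 : q ≤ 1) (hs : 0 < s) (hD : Dens G Ω q s b) {k : ℕ} (Γ : SimpleGraph (Fin k))
    (c : Fin k → Finset V) (hc : ∀ i, c i ⊆ Ω) (g D : ℕ) (hD0 : 0 < D)
    (hball : (((D * k + 1) ^ g : ℕ) : ℝ) ≤ q / 2 * s)
    (hst : s ≤ (q / 2) ^ k * t) (hkb : (k : ℝ) * b ≤ s / 2) (U : Finset (Finset V))
    (t' : ℝ) (hZ : ∀ Z ∈ U, ∀ i, t' ≤ ((Z ∩ c i).card : ℝ)) (c₀ : ℝ)
    (hc0 : c₀ = (s / 2) ^ k / (Ω.card : ℝ) ^ k) (hc1 : c₀ ≤ 1) :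
    ∀ S : ℕ, t + (k * S : ℝ) / D ≤ t' →
      ∃ E : Finset (Fin k → V), E.card ≤ S ∧ (∀ f ∈ E, IsCopy G Γ c f) ∧ (∀ x, mu E x ≤ D) ∧
        Free g Γ E ∧
        ((U.filter (fun Z => ¬ ∃ f ∈ E, ∀ i, f i ∈ Z)).card : ℝ) ≤ (1 - c₀) ^ S * (U.card : ℝ) := by
  intro S
  induction S with
  | zero =>
    intro _
    refine ⟨∅, le_rfl, by simp, by simp [mu], free_empty g Γ, ?_⟩
    rw [pow_zero, one_mul]
    exact_mod_cast card_filter_le _ _
  | succ S ih =>
    intro hS
    have hDr : (0 : ℝ) < D := by exact_mod_cast hD0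
    have hS' : t + (k * S : ℝ) / D ≤ t' := by
      refine le_trans ?_ hS
      push_cast
      have : (k * S : ℝ) / D ≤ (k * (S + 1) : ℝ) / D := by
        apply div_le_div_of_nonneg_right _ hDr.le
        nlinarith [Nat.cast_nonneg (α := ℝ) k]
      linarith
    obtain ⟨E, hE1, hE2, hE3, hE4, hE5⟩ := ih hS'
    let W := U.filter (fun Z => ¬ ∃ f ∈ E, ∀ i, f i ∈ Z)
    have h1c : 0 ≤ 1 - c₀ := by linarith
    by_cases hW : W.Nonempty
    · have hZW : ∀ Z ∈ W, ∀ i, t ≤ (((Z ∩ c i).filter (fun x => mu E x < D)).card : ℝ) := by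
        intro Z hZ' i
        have h1 := hZ Z (filter_subset _ _ hZ') i
        have h2 : ((Z ∩ c i).card : ℝ) ≤ (((Z ∩ c i).filter (fun x => mu E x < D)).card : ℝ) +
            ((univ.filter (fun x => ¬ mu E x < D)).card : ℝ) := by
          have : (Z ∩ c i).card ≤ ((Z ∩ c i).filter (fun x => mu E x < D)).card +
              (univ.filter (fun x => ¬ mu E x < D)).card := by
            rw [← card_filter_add_card_filter_not (s := Z ∩ c i) (fun x => mu E x < D)]
            apply Nat.add_le_add_left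
            apply card_le_card
            intro x hx
            rw [mem_filter] at hx ⊢
            exact ⟨mem_univ _, hx.2⟩
          exact_mod_cast this
        have h3 : ((univ.filter (fun x => ¬ mu E x < D)).card : ℝ) ≤ (k * S : ℝ) / D := by
          rw [le_div_iff₀ hDr]
          have h4 : (univ.filter (fun x => ¬ mu E x < D)).card * D ≤ k * S := by
            calc (univ.filter (fun x => ¬ mu E x < D)).card * D
                = ∑ _x ∈ univ.filter (fun x => ¬ mu E x < D), D := by rw [sum_const, smul_eq_mul]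
              _ ≤ ∑ x ∈ univ.filter (fun x => ¬ mu E x < D), mu E x := by
                  apply sum_le_sum
                  intro x hx
                  exact not_lt.mp (mem_filter.mp hx).2
              _ ≤ ∑ x, mu E x := sum_le_univ_sum_of_nonneg (fun _ => Nat.zero_le _)
              _ ≤ k * E.card := sum_mu E
              _ ≤ k * S := Nat.mul_le_mul_left _ hE1
          exact_mod_cast h4
        linarith
      obtain ⟨f, hf1, hf2, hf3, hf4⟩ := greedy_step G Ω q s b t hq0 hq1 hs hD Γ c hc g D E hE3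
        hball hst hkb W hW hZW
      refine ⟨insert f E, (card_insert_le _ _).trans (Nat.succ_le_succ hE1), ?_, ?_, ?_, ?_⟩
      · intro f' hf'
        rw [mem_insert] at hf'
        rcases hf' with rfl | hf'
        · exact hf1
        · exact hE2 f' hf'
      · intro x
        exact mu_insert E f x D (hE3 x) hf2
      · exact free_step g Γ E f hE4 hf3
      · have h5 : U.filter (fun Z => ¬ ∃ f' ∈ insert f E, ∀ i, f' i ∈ Z) =
            W.filter (fun Z => ¬ ∀ i, f i ∈ Z) := by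
          ext Z
          simp only [W, mem_filter, mem_insert, exists_eq_or_imp, not_or]
          tauto
        rw [h5]
        have h6 : ((W.filter (fun Z => ∀ i, f i ∈ Z)).card : ℝ) +
            ((W.filter (fun Z => ¬ ∀ i, f i ∈ Z)).card : ℝ) = (W.card : ℝ) := by
          exact_mod_cast card_filter_add_card_filter_not (s := W) (fun Z => ∀ i, f i ∈ Z)
        rw [← hc0] at hf4
        calc ((W.filter (fun Z => ¬ ∀ i, f i ∈ Z)).card : ℝ)
            ≤ (1 - c₀) * (W.card : ℝ) := by linarith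
          _ ≤ (1 - c₀) * ((1 - c₀) ^ S * (U.card : ℝ)) := mul_le_mul_of_nonneg_left hE5 h1c
          _ = (1 - c₀) ^ (S + 1) * (U.card : ℝ) := by ring
    · refine ⟨E, hE1.trans (Nat.le_succ _), hE2, hE3, hE4, ?_⟩
      rw [not_nonempty_iff_eq_empty] at hW
      have : ((U.filter (fun Z => ¬ ∃ f ∈ E, ∀ i, f i ∈ Z)).card : ℝ) = 0 := by
        change (W.card : ℝ) = 0
        rw [hW]; simp
      rw [this]
      positivity

end

/-- existence of the design -/
theorem design (k : ℕ) (hk : 0 < k) (g : ℕ) (q δ θ : ℝ) (hq0 : 0 < q) (hq1 : q ≤ 1)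
    (hδ0 : 0 < δ) (hδ1 : δ ≤ 1) (hθ0 : 0 < θ) (hθ1 : θ ≤ 1) :
    ∃ σ : ℝ, 0 < σ ∧ ∃ τ : ℝ, 0 < τ ∧ τ ≤ σ / 2 ∧ ∃ C : ℝ, 0 < C ∧ ∃ N₀ : ℕ, 0 < N₀ ∧
      ∀ (V : Type) [Fintype V] (G : SimpleGraph V) (Ω : Finset V) (Γ : SimpleGraph (Fin k))
        (c : Fin k → Finset V), N₀ ≤ Ω.card → (∀ i, c i ⊆ Ω) →
        (∀ i, θ * (Ω.card : ℝ) ≤ ((c i).card : ℝ)) →
        Dens G Ω q (σ * (Ω.card : ℝ)) (τ * (Ω.card : ℝ)) →
        ∃ E : Finset (Fin k → V), (E.card : ℝ) ≤ C * (Ω.card : ℝ) ∧ (∀ f ∈ E, IsCopy G Γ c f) ∧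
          Free g Γ E ∧
          ∀ Z ⊆ Ω, (∀ i, δ * ((c i).card : ℝ) ≤ ((Z ∩ c i).card : ℝ)) → ∃ f ∈ E, ∀ i, f i ∈ Z := by
  have hkr : (0 : ℝ) < k := by exact_mod_cast hk
  have hk1 : (1 : ℝ) ≤ k := by exact_mod_cast hk
  set σ : ℝ := (q / 2) ^ k * (δ * θ / 2) with hσ
  have hσ0 : 0 < σ := by positivity
  have hσ1 : σ ≤ 1 := by
    have h1 : (q / 2) ^ k ≤ 1 := pow_le_one₀ (by positivity) (by linarith)
    have h2 : δ * θ / 2 ≤ 1 := by nlinarith
    calc σ ≤ 1 * 1 := mul_le_mul h1 h2 (by positivity) (by norm_num)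
      _ = 1 := by norm_num
  set τ : ℝ := σ / (2 * k) with hτ
  have hτ0 : 0 < τ := by positivity
  have hτσ : τ ≤ σ / 2 := by
    rw [hτ]
    apply div_le_div_of_nonneg_left hσ0.le (by norm_num)
    linarith
  set c₀ : ℝ := (σ / 2) ^ k with hc0
  have hc00 : 0 < c₀ := by positivity
  have hc01 : c₀ ≤ 1 := pow_le_one₀ (by positivity) (by linarith)
  set C : ℝ := 1 / c₀ + 1 with hC
  have hC0 : 0 < C := by positivity
  set D : ℕ := ⌈2 * k * C / (δ * θ)⌉₊ with hD
  have hD0 : 0 < D := Nat.ceil_pos.mpr (by positivity)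
  have hDr : (0 : ℝ) < D := by exact_mod_cast hD0
  have hDge : 2 * k * C / (δ * θ) ≤ D := Nat.le_ceil _
  set N₀ : ℕ := ⌈(((D * k + 1) ^ g : ℕ) : ℝ) / (q / 2 * σ)⌉₊ + 1 with hN0
  refine ⟨σ, hσ0, τ, hτ0, hτσ, C, hC0, N₀, Nat.succ_pos _, ?_⟩
  intro V _ G Ω Γ c hN hc hθc hDens
  set N : ℝ := (Ω.card : ℝ) with hNdef
  have hN1 : (1 : ℝ) ≤ N := by
    have : 1 ≤ Ω.card := le_trans (Nat.succ_le_succ (Nat.zero_le _)) hN
    rw [hNdef]
    exact_mod_cast this
  have hN0' : 0 < N := by linarith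
  have hball : (((D * k + 1) ^ g : ℕ) : ℝ) ≤ q / 2 * (σ * N) := by
    have h1 : (((D * k + 1) ^ g : ℕ) : ℝ) / (q / 2 * σ) ≤ N := by
      calc (((D * k + 1) ^ g : ℕ) : ℝ) / (q / 2 * σ) ≤ (⌈(((D * k + 1) ^ g : ℕ) : ℝ) / (q / 2 * σ)⌉₊ : ℝ) :=
            Nat.le_ceil _
        _ ≤ ((N₀ : ℕ) : ℝ) := by exact_mod_cast Nat.le_succ _
        _ ≤ N := by rw [hNdef]; exact_mod_cast hN
    rw [div_le_iff₀ (by positivity)] at h1
    linarith
  set S : ℕ := ⌈N / c₀⌉₊ with hS
  have hSle : (S : ℝ) ≤ C * N := by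
    have h1 : (S : ℝ) < N / c₀ + 1 := Nat.ceil_lt_add_one (by positivity)
    have h2 : C * N = N / c₀ + N := by rw [hC]; ring
    linarith
  have hSge : N / c₀ ≤ S := Nat.le_ceil _
  have htt : (δ * θ / 2) * N + (k * S : ℝ) / D ≤ δ * θ * N := by
    have h1 : (k * S : ℝ) / D ≤ δ * θ / 2 * N := by
      rw [div_le_iff₀ hDr]
      calc (k * S : ℝ) ≤ k * (C * N) := mul_le_mul_of_nonneg_left hSle hkr.le
        _ = δ * θ / 2 * N * (2 * k * C / (δ * θ)) := by field_simp
        _ ≤ δ * θ / 2 * N * D := mul_le_mul_of_nonneg_left hDge (by positivity)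
    linarith
  let U : Finset (Finset V) := Ω.powerset.filter
    (fun Z => ∀ i, δ * ((c i).card : ℝ) ≤ ((Z ∩ c i).card : ℝ))
  have hUZ : ∀ Z ∈ U, ∀ i, δ * θ * N ≤ ((Z ∩ c i).card : ℝ) := by
    intro Z hZ i
    refine le_trans ?_ ((mem_filter.mp hZ).2 i)
    have := mul_le_mul_of_nonneg_left (hθc i) hδ0.le
    linarith
  have hce : c₀ = (σ * N / 2) ^ k / N ^ k := by
    rw [hc0, eq_div_iff (by positivity), ← mul_pow]
    congr 1
    ring
  obtain ⟨E, hE1, hE2, hE3, hE4, hE5⟩ := greedy G Ω q (σ * N) (τ * N) ((δ * θ / 2) * N) hq0 hq1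
    (by positivity) hDens Γ c hc g D hD0 hball (by rw [hσ]; apply le_of_eq; ring)
    (by rw [hτ]; apply le_of_eq; field_simp) U (δ * θ * N) hUZ c₀ hce hc01 S htt
  refine ⟨E, ?_, hE2, hE4, ?_⟩
  · calc (E.card : ℝ) ≤ S := by exact_mod_cast hE1
      _ ≤ C * N := hSle
  · intro Z hZ1 hZ2
    by_contra hno
    have hmem : Z ∈ U.filter (fun Z => ¬ ∃ f ∈ E, ∀ i, f i ∈ Z) :=
      mem_filter.mpr ⟨mem_filter.mpr ⟨mem_powerset.mpr hZ1, hZ2⟩, hno⟩
    have h1 : (1 : ℝ) ≤ ((U.filter (fun Z => ¬ ∃ f ∈ E, ∀ i, f i ∈ Z)).card : ℝ) := by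
      exact_mod_cast card_pos.mpr ⟨Z, hmem⟩
    have h2 : (U.card : ℝ) ≤ 2 ^ Ω.card := by
      have : U.card ≤ 2 ^ Ω.card := (card_filter_le _ _).trans (card_powerset _).le
      exact_mod_cast this
    have h3 : (1 - c₀) ^ S ≤ Real.exp (-N) := by
      calc (1 - c₀) ^ S ≤ (Real.exp (-c₀)) ^ S := by
            apply pow_le_pow_left₀ (by linarith)
            have := Real.add_one_le_exp (-c₀)
            linarith
        _ = Real.exp (-(c₀ * S)) := by rw [← Real.exp_nat_mul]; congr 1; ring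
        _ ≤ Real.exp (-N) := by
            apply Real.exp_le_exp.mpr
            rw [div_le_iff₀ hc00] at hSge
            linarith
    have h4 : (1 : ℝ) ≤ Real.exp (-N) * 2 ^ Ω.card := by
      calc (1 : ℝ) ≤ (1 - c₀) ^ S * (U.card : ℝ) := h1.trans hE5
        _ ≤ Real.exp (-N) * 2 ^ Ω.card := mul_le_mul h3 h2 (Nat.cast_nonneg _) (Real.exp_pos _).le
    have h5 : (2 : ℝ) ^ Ω.card < Real.exp N := by
      have h6 : (2 : ℝ) < Real.exp 1 := by
        have := Real.exp_one_gt_d9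
        linarith
      calc (2 : ℝ) ^ Ω.card < (Real.exp 1) ^ Ω.card := by
            apply pow_lt_pow_left₀ h6 (by norm_num)
            have : 1 ≤ Ω.card := le_trans (Nat.succ_le_succ (Nat.zero_le _)) hN
            omega
        _ = Real.exp N := by rw [← Real.exp_nat_mul, hNdef]; congr 1; ring
    have h7 : Real.exp (-N) * 2 ^ Ω.card < 1 := by
      calc Real.exp (-N) * 2 ^ Ω.card < Real.exp (-N) * Real.exp N :=
            mul_lt_mul_of_pos_left h5 (Real.exp_pos _)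
        _ = 1 := by rw [← Real.exp_add]; simp
    linarith

/-- a design meets every dense set in a positive proportion of its copies -/
theorem design_many {V : Type} [Fintype V] {k : ℕ} (hk : 0 < k) (Ω : Finset V)
    (c : Fin k → Finset V) (δ θ : ℝ) (E : Finset (Fin k → V))
    (hθ : ∀ i, θ * (Ω.card : ℝ) ≤ ((c i).card : ℝ)) (hδ : 0 ≤ δ)
    (hE : ∀ Z ⊆ Ω, (∀ i, δ * ((c i).card : ℝ) ≤ ((Z ∩ c i).card : ℝ)) → ∃ f ∈ E, ∀ i, f i ∈ Z)
    (Z : Finset V) (hZ : Z ⊆ Ω) (hd : ∀ i, 2 * δ * ((c i).card : ℝ) ≤ ((Z ∩ c i).card : ℝ)) :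
    δ * θ * (Ω.card : ℝ) ≤ (k : ℝ) * ((E.filter (fun f => ∀ i, f i ∈ Z)).card : ℝ) := by
  by_contra hno
  push Not at hno
  let EZ := E.filter (fun f => ∀ i, f i ∈ Z)
  let B := EZ.biUnion (fun f => univ.image f)
  have hB : (B.card : ℝ) ≤ (k : ℝ) * (EZ.card : ℝ) := by
    have : B.card ≤ k * EZ.card := by
      calc B.card ≤ ∑ f ∈ EZ, (univ.image f).card := card_biUnion_le
        _ ≤ ∑ _f ∈ EZ, k := by
            apply sum_le_sum
            intro f _
            refine card_image_le.trans ?_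
            rw [card_univ, Fintype.card_fin]
        _ = k * EZ.card := by rw [sum_const, smul_eq_mul, mul_comm]
    exact_mod_cast this
  obtain ⟨f, hf1, hf2⟩ := hE (Z \ B) (sdiff_subset.trans hZ) (by
    intro i
    have h1 := hd i
    have h2 : ((Z ∩ c i).card : ℝ) ≤ (((Z \ B) ∩ c i).card : ℝ) + (B.card : ℝ) := by
      have : (Z ∩ c i).card ≤ ((Z \ B) ∩ c i).card + B.card := by
        calc (Z ∩ c i).card ≤ (((Z \ B) ∩ c i) ∪ B).card := by
              apply card_le_card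
              intro x hx
              rw [mem_inter] at hx
              rw [mem_union, mem_inter, mem_sdiff]
              by_cases hxB : x ∈ B
              · exact Or.inr hxB
              · exact Or.inl ⟨⟨hx.1, hxB⟩, hx.2⟩
          _ ≤ _ := card_union_le _ _
      exact_mod_cast this
    have h3 := mul_le_mul_of_nonneg_left (hθ i) hδ
    linarith)
  have hmem : f ∈ EZ := mem_filter.mpr ⟨hf1, fun i => (mem_sdiff.mp (hf2 i)).1⟩
  exact (mem_sdiff.mp (hf2 ⟨0, hk⟩)).2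
    (mem_biUnion.mpr ⟨f, hmem, mem_image.mpr ⟨⟨0, hk⟩, mem_univ _, rfl⟩⟩)

end Pool.Agent.H42.Sat
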