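import Pool.Agent.H42.Sat.Upper

set_option autoImplicit false
set_option linter.unusedSectionVars false

/-! Deterministic lower bound for the number of edges of a saturated graph. -/

namespace Pool.Agent.H42.Sat

open Finset Classical

section
variable {V : Type} [Fintype V]

/-- degree -/
noncomputable def dg (H : SimpleGraph V) (v : V) : ℕ := (univ.filter (fun z => H.Adj v z)).card

theorem lower_vertex (G H : SimpleGraph V) {k : ℕ} (F : SimpleGraph (Fin k))
    (htri : ∀ u v, F.Adj u v → ∃ w, F.Adj u w ∧ F.Adj v w) (hle : H ≤ G) (hfree : ¬ Emb F H)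
    (hsat : ∀ u v, G.Adj u v → ¬ H.Adj u v → Emb F (H ⊔ SimpleGraph.fromEdgeSet {s(u, v)}))
    (Δ a s : ℕ) (hG : ∀ v, ∀ S : Finset V, v ∉ S → S.card ≤ s →
      a ≤ (univ.filter (fun w => w ≠ v ∧ w ∉ S ∧ G.Adj v w ∧ ∀ z ∈ S, ¬ G.Adj w z)).card)
    (ha : Δ + Δ * Δ < a) (v : V) (hv : dg H v < Δ) :
    s < (univ.filter (fun z => H.Adj v z ∧ Δ ≤ dg H z)).card := by
  by_contra hlt
  push Not at hlt
  set S := univ.filter (fun z => H.Adj v z ∧ Δ ≤ dg H z) with hS
  have hvS : v ∉ S := by
    intro h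
    exact H.loopless.irrefl v (mem_filter.mp h).2.1
  have h1 := hG v S hvS hlt
  have h2 : univ.filter (fun w => w ≠ v ∧ w ∉ S ∧ G.Adj v w ∧ ∀ z ∈ S, ¬ G.Adj w z) ⊆
      univ.filter (fun z => H.Adj v z) ∪
      ((univ.filter (fun z => H.Adj v z)).filter (fun z => dg H z < Δ)).biUnion
        (fun z => univ.filter (fun w => H.Adj z w)) := by
    intro w hw
    obtain ⟨_, hwv, hwS, hvw, hwz⟩ := mem_filter.mp hw
    rw [mem_union]
    by_cases hH : H.Adj v w
    · exact Or.inl (mem_filter.mpr ⟨mem_univ _, hH⟩)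
    · right
      obtain ⟨f, hf1, hf2⟩ := hsat v w hvw hH
      -- some edge of F is mapped to the new edge
      have h3 : ∃ i j, F.Adj i j ∧ ¬ H.Adj (f i) (f j) := by
        by_contra hn
        push Not at hn
        exact hfree ⟨f, hf1, hn⟩
      obtain ⟨i, j, hij, hnH⟩ := h3
      have h4 : s(f i, f j) = s(v, w) := by
        have := hf2 i j hij
        rw [SimpleGraph.sup_adj, SimpleGraph.fromEdgeSet_adj] at this
        rcases this with h | h
        · exact (hnH h).elim
        · exact h.1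
      obtain ⟨l, hil, hjl⟩ := htri i j hij
      have hli : f l ≠ f i := fun h => hil.ne (hf1 h.symm)
      have hlj : f l ≠ f j := fun h => hjl.ne (hf1 h.symm)
      have h5 : H.Adj (f i) (f l) := by
        have := hf2 i l hil
        rw [SimpleGraph.sup_adj, SimpleGraph.fromEdgeSet_adj] at this
        rcases this with h | h
        · exact h
        · exfalso
          have h6 : s(f i, f l) = s(f i, f j) := by rw [h4]; exact h.1
          rw [Sym2.eq_iff] at h6
          rcases h6 with h6 | h6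
          · exact hlj h6.2
          · exact hli h6.2
      have h5' : H.Adj (f j) (f l) := by
        have := hf2 j l hjl
        rw [SimpleGraph.sup_adj, SimpleGraph.fromEdgeSet_adj] at this
        rcases this with h | h
        · exact h
        · exfalso
          have h6 : s(f j, f l) = s(f i, f j) := by rw [h4]; exact h.1
          rw [Sym2.eq_iff] at h6
          rcases h6 with h6 | h6
          · exact hlj h6.2
          · exact hli h6.2
      have h7 : H.Adj v (f l) ∧ H.Adj w (f l) := by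
        rw [Sym2.eq_iff] at h4
        rcases h4 with ⟨e1, e2⟩ | ⟨e1, e2⟩
        · rw [← e1, ← e2]; exact ⟨h5, h5'⟩
        · rw [← e1, ← e2]; exact ⟨h5', h5⟩
      rw [mem_biUnion]
      refine ⟨f l, mem_filter.mpr ⟨mem_filter.mpr ⟨mem_univ _, h7.1⟩, ?_⟩,
        mem_filter.mpr ⟨mem_univ _, h7.2.symm⟩⟩
      by_contra hd
      push Not at hd
      exact hwz (f l) (mem_filter.mpr ⟨mem_univ _, h7.1, hd⟩) (hle h7.2)
  have h3 := card_le_card h2
  have h4 := h3.trans (card_union_le _ _)
  have h5 : (((univ.filter (fun z => H.Adj v z)).filter (fun z => dg H z < Δ)).biUnion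
        (fun z => univ.filter (fun w => H.Adj z w))).card ≤ Δ * Δ := by
    calc _ ≤ ∑ z ∈ (univ.filter (fun z => H.Adj v z)).filter (fun z => dg H z < Δ),
          (univ.filter (fun w => H.Adj z w)).card := card_biUnion_le
      _ ≤ ∑ _z ∈ (univ.filter (fun z => H.Adj v z)).filter (fun z => dg H z < Δ), Δ := by
          apply sum_le_sum
          intro z hz
          exact (mem_filter.mp hz).2.le
      _ = ((univ.filter (fun z => H.Adj v z)).filter (fun z => dg H z < Δ)).card * Δ := by
          rw [sum_const, smul_eq_mul]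
      _ ≤ Δ * Δ := Nat.mul_le_mul_right _ ((card_filter_le _ _).trans hv.le)
  have h6 : (univ.filter (fun z => H.Adj v z)).card < Δ := hv
  omega

theorem prs_sum' (P : V → V → Prop) : (prs P).card = ∑ x, (univ.filter (fun y => P x y)).card := by
  unfold prs
  rw [card_filter, ← univ_product_univ, sum_product]
  exact sum_congr rfl (fun y _ => (card_filter _ _).symm)

theorem lower_det (G H : SimpleGraph V) {k : ℕ} (F : SimpleGraph (Fin k))
    (htri : ∀ u v, F.Adj u v → ∃ w, F.Adj u w ∧ F.Adj v w) (hle : H ≤ G) (hfree : ¬ Emb F H)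
    (hsat : ∀ u v, G.Adj u v → ¬ H.Adj u v → Emb F (H ⊔ SimpleGraph.fromEdgeSet {s(u, v)}))
    (Δ a s : ℕ) (hG : ∀ v, ∀ S : Finset V, v ∉ S → S.card ≤ s →
      a ≤ (univ.filter (fun w => w ≠ v ∧ w ∉ S ∧ G.Adj v w ∧ ∀ z ∈ S, ¬ G.Adj w z)).card)
    (ha : Δ + Δ * Δ < a) :
    2 * (s * Fintype.card V * Δ) ≤ (prs (fun x y => H.Adj x y)).card * (Δ + 2 * s) := by
  set D := univ.filter (fun z => Δ ≤ dg H z) with hD
  have hDc : D.card * Δ ≤ (prs (fun x y => H.Adj x y)).card := by
    rw [prs_sum']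
    calc D.card * Δ = ∑ _z ∈ D, Δ := by rw [sum_const, smul_eq_mul]
      _ ≤ ∑ z ∈ D, dg H z := sum_le_sum (fun z hz => (mem_filter.mp hz).2)
      _ ≤ ∑ z, dg H z := sum_le_univ_sum_of_nonneg (fun _ => Nat.zero_le _)
      _ = _ := rfl
  have h1 : (univ.filter (fun z => ¬ Δ ≤ dg H z)).card * s ≤
      (prs (fun x y => H.Adj x y ∧ ¬ Δ ≤ dg H x ∧ Δ ≤ dg H y)).card := by
    rw [prs_sum']
    calc (univ.filter (fun z => ¬ Δ ≤ dg H z)).card * s
        = ∑ _z ∈ univ.filter (fun z => ¬ Δ ≤ dg H z), s := by rw [sum_const, smul_eq_mul]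
      _ ≤ ∑ x ∈ univ.filter (fun z => ¬ Δ ≤ dg H z),
          (univ.filter (fun y => H.Adj x y ∧ ¬ Δ ≤ dg H x ∧ Δ ≤ dg H y)).card := by
          apply sum_le_sum
          intro x hx
          have hx' := (mem_filter.mp hx).2
          have h2 := lower_vertex G H F htri hle hfree hsat Δ a s hG ha x (not_le.mp hx')
          refine h2.le.trans (card_le_card ?_)
          intro y hy
          obtain ⟨_, h3, h4⟩ := mem_filter.mp hy
          exact mem_filter.mpr ⟨mem_univ _, h3, hx', h4⟩
      _ ≤ ∑ x, (univ.filter (fun y => H.Adj x y ∧ ¬ Δ ≤ dg H x ∧ Δ ≤ dg H y)).card :=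
          sum_le_univ_sum_of_nonneg (fun _ => Nat.zero_le _)
      _ = _ := sum_congr rfl (fun x _ => by congr!)
  have h2 : 2 * (prs (fun x y => H.Adj x y ∧ ¬ Δ ≤ dg H x ∧ Δ ≤ dg H y)).card ≤
      (prs (fun x y => H.Adj x y)).card := by
    have h3 : (prs (fun x y => H.Adj x y ∧ ¬ Δ ≤ dg H x ∧ Δ ≤ dg H y)).card =
        ((prs (fun x y => H.Adj x y ∧ ¬ Δ ≤ dg H x ∧ Δ ≤ dg H y)).image Prod.swap).card :=
      (card_image_of_injective _ Prod.swap_injective).symm
    have h4 : Disjoint (prs (fun x y => H.Adj x y ∧ ¬ Δ ≤ dg H x ∧ Δ ≤ dg H y))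
        ((prs (fun x y => H.Adj x y ∧ ¬ Δ ≤ dg H x ∧ Δ ≤ dg H y)).image Prod.swap) := by
      rw [disjoint_left]
      intro x hx hx'
      rw [mem_prs] at hx
      rw [mem_image] at hx'
      obtain ⟨y, hy, hyx⟩ := hx'
      rw [mem_prs] at hy
      rw [← hyx] at hx
      exact hx.2.1 hy.2.2
    calc 2 * (prs (fun x y => H.Adj x y ∧ ¬ Δ ≤ dg H x ∧ Δ ≤ dg H y)).card
        = ((prs (fun x y => H.Adj x y ∧ ¬ Δ ≤ dg H x ∧ Δ ≤ dg H y)) ∪
          ((prs (fun x y => H.Adj x y ∧ ¬ Δ ≤ dg H x ∧ Δ ≤ dg H y)).image Prod.swap)).card := by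
          rw [card_union_of_disjoint h4, ← h3]; ring
      _ ≤ _ := by
          apply card_le_card
          intro x hx
          rw [mem_union, mem_image] at hx
          rw [mem_prs]
          rcases hx with hx | ⟨y, hy, rfl⟩
          · rw [mem_prs] at hx; exact hx.1
          · rw [mem_prs] at hy; exact hy.1.symm
  have h5 : D.card + (univ.filter (fun z => ¬ Δ ≤ dg H z)).card = Fintype.card V := by
    rw [hD, card_filter_add_card_filter_not, card_univ]
  set N := (univ.filter (fun z => ¬ Δ ≤ dg H z)).card with hN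
  set P := (prs (fun x y => H.Adj x y)).card with hP
  have h6 : 2 * (N * s) ≤ P := by omega
  calc 2 * (s * Fintype.card V * Δ) = 2 * (D.card * Δ) * s + 2 * (N * s) * Δ := by
        rw [← h5]; ring
    _ ≤ 2 * P * s + P * Δ := by
        apply Nat.add_le_add
        · exact Nat.mul_le_mul_right _ (Nat.mul_le_mul_left _ hDc)
        · exact Nat.mul_le_mul_right _ h6
    _ = P * (Δ + 2 * s) := by ring

end

end Pool.Agent.H42.Sat
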