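import Pool.Agent.H42.Sat.Upper
import Pool.Agent.H42.Sat.Lower

set_option autoImplicit false
set_option linter.unusedSectionVars false

/-! The upper bound in terms of the numbers of exceptional vertices and pairs. -/

namespace Pool.Agent.H42.Sat

open Finset Classical

section
variable {V : Type} [Fintype V]

/-- the refined class function: bulk vertices with few neighbours in class `1` get class `4` -/
noncomputable def Gcl (G : SimpleGraph V) (bc : V → ℕ) (s₀ : ℝ) (x : V) : ℕ :=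
  if bc x = 3 ∧ ((nb G bc 1 x).card : ℝ) < s₀ then 4 else bc x

theorem Gcl_lt (G : SimpleGraph V) (bc : V → ℕ) (s₀ : ℝ) (x : V) (j : ℕ) (hj : j < 3) :
    Gcl G bc s₀ x = j ↔ bc x = j := by
  unfold Gcl
  split_ifs with h
  · constructor
    · intro h1; omega
    · intro h1; omega
  · rfl

theorem Gcl_three (G : SimpleGraph V) (bc : V → ℕ) (s₀ : ℝ) (x : V) :
    Gcl G bc s₀ x = 3 ↔ bc x = 3 ∧ s₀ ≤ ((nb G bc 1 x).card : ℝ) := by
  unfold Gcl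
  split_ifs with h
  · constructor
    · intro h1; omega
    · intro h1; linarith [h.2, h1.2]
  · constructor
    · intro h1
      refine ⟨h1, ?_⟩
      by_contra h2
      push Not at h2
      exact h ⟨h1, h2⟩
    · intro h1; exact h1.1

theorem Gcl_four (G : SimpleGraph V) (bc : V → ℕ) (hbc : ∀ x, bc x ≤ 3) (s₀ : ℝ) (x : V) :
    Gcl G bc s₀ x = 4 ↔ bc x = 3 ∧ ((nb G bc 1 x).card : ℝ) < s₀ := by
  unfold Gcl
  split_ifs with h
  · simp [h]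
  · have := hbc x
    constructor
    · intro h1; omega
    · intro h1; exact (h h1).elim

theorem Gcl_ge (G : SimpleGraph V) (bc : V → ℕ) (hbc : ∀ x, bc x ≤ 3) (s₀ : ℝ) (x : V) :
    3 ≤ Gcl G bc s₀ x ↔ bc x = 3 := by
  unfold Gcl
  have := hbc x
  split_ifs with h
  · constructor
    · intro _; exact h.1
    · intro _; omega
  · omega

theorem Gcl_le (G : SimpleGraph V) (bc : V → ℕ) (hbc : ∀ x, bc x ≤ 3) (s₀ : ℝ) (x : V) :
    Gcl G bc s₀ x ≤ 4 := by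
  unfold Gcl
  have := hbc x
  split_ifs <;> omega

theorem cls_Gcl (G : SimpleGraph V) (bc : V → ℕ) (s₀ : ℝ) (j : ℕ) (hj : j < 3) :
    cls (Gcl G bc s₀) j = cls bc j := by
  unfold cls
  apply filter_congr
  intro x _
  exact Gcl_lt G bc s₀ x j hj

theorem nb_Gcl (G : SimpleGraph V) (bc : V → ℕ) (s₀ : ℝ) (j : ℕ) (hj : j < 3) (x : V) :
    nb G (Gcl G bc s₀) j x = nb G bc j x := by
  unfold nb
  apply filter_congr
  intro z _
  rw [Gcl_lt G bc s₀ z j hj]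

theorem cn_Gcl (G : SimpleGraph V) (bc : V → ℕ) (s₀ : ℝ) (j : ℕ) (hj : j < 3) (x y : V) :
    cn G (Gcl G bc s₀) j x y = cn G bc j x y := by
  unfold cn
  apply filter_congr
  intro z _
  rw [Gcl_lt G bc s₀ z j hj]

theorem ncard_prs (H : SimpleGraph V) :
    ((prs (fun x y => H.Adj x y)).card : ℝ) = 2 * (H.edgeSet.ncard : ℝ) := by
  have h1 := H.two_mul_card_edgeFinset
  have h2 : H.edgeSet.ncard = H.edgeFinset.card := by
    rw [← SimpleGraph.coe_edgeFinset, Set.ncard_coe_finset]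
  rw [h2]
  have h3 : (prs (fun x y => H.Adj x y)).card = 2 * H.edgeFinset.card := by
    rw [h1]
    unfold prs
    congr!
  rw [h3]
  push_cast
  ring

/-- saturated subgraphs -/
def SatIn {k : ℕ} (F : SimpleGraph (Fin k)) (G H : SimpleGraph V) : Prop :=
  H ≤ G ∧ ¬ Emb F H ∧ ∀ u v, G.Adj u v → ¬ H.Adj u v →
    Emb F (H ⊔ SimpleGraph.fromEdgeSet {s(u, v)})

theorem upper_num (G : SimpleGraph V) {k l : ℕ} (hk : 0 < k) (F : SimpleGraph (Fin k))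
    (Y I0 V0 : Set (Fin k)) (hY : Y = I0 ∪ V0) (hYa : (F.induce Y).IsAcyclic)
    (hI0 : ∀ i ∈ I0, ∀ j ∈ I0, ¬ F.Adj i j) (hV0 : ∀ i ∈ V0, ∀ j ∈ V0, ¬ F.Adj i j)
    (F' : SimpleGraph (Fin l)) (hF' : Cond' F Y F') (hF'F : Emb F' F)
    (bc : V → ℕ) (hbc : ∀ x, bc x ≤ 3) (s₀ δ θ C η X1 : ℝ)
    (hδ0 : 0 < δ) (hδ1 : 2 * δ ≤ 1) (hθ0 : 0 < θ) (hC : 0 < C) (m0 m1 m2 : ℕ)
    (hm0 : (cls bc 0).card = m0) (hm1 : (cls bc 1).card = m1) (hm2 : (cls bc 2).card = m2)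
    (hm1pos : 0 < m1) (hm2pos : 0 < m2)
    (hdes1 : ∃ E1 : Finset (Fin k → V), (E1.card : ℝ) ≤ C * ((cls bc 1).card : ℝ) ∧
      (∀ f ∈ E1, IsCopy G (off F Y) (fun _ => cls bc 1) f) ∧ Free l (off F Y) E1 ∧
      ∀ Z ⊆ cls bc 1, (∀ _i : Fin k, δ * ((cls bc 1).card : ℝ) ≤ ((Z ∩ cls bc 1).card : ℝ)) →
      ∃ f ∈ E1, ∀ i, f i ∈ Z)
    (hdes2 : ∃ E2 : Finset (Fin k → V), (E2.card : ℝ) ≤ C * ((cls bc 0 ∪ cls bc 2).card : ℝ) ∧
      (∀ f ∈ E2, IsCopy G (off F I0) (fun i => if i ∈ V0 then cls bc 0 else cls bc 2) f) ∧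
      Free l (off F I0) E2 ∧
      ∀ Z ⊆ cls bc 0 ∪ cls bc 2, (∀ i : Fin k,
        δ * (((if i ∈ V0 then cls bc 0 else cls bc 2) : Finset V).card : ℝ) ≤
        ((Z ∩ (if i ∈ V0 then cls bc 0 else cls bc 2)).card : ℝ)) → ∃ f ∈ E2, ∀ i, f i ∈ Z)
    (hθ2 : ∀ i : Fin k, θ * ((cls bc 0 ∪ cls bc 2).card : ℝ) ≤
      (((if i ∈ V0 then cls bc 0 else cls bc 2) : Finset V).card : ℝ))
    (g1 : ((prs (fun x y => bc x = 1 ∧ bc y = 3 ∧ G.Adj x y)).card : ℝ) ≤ X1)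
    (g2 : ((prs (fun x y => bc x = 3 ∧ bc y = 3 ∧ x ≠ y ∧ s₀ ≤ ((nb G bc 1 x).card : ℝ) ∧
      ((cn G bc 1 x y).card : ℝ) < 2 * δ * m1)).card : ℝ) ≤ η * (Fintype.card V : ℝ))
    (g3 : ((univ.filter (fun x => bc x = 3 ∧ ((nb G bc 1 x).card : ℝ) < s₀)).card : ℝ) ≤
      η * (Fintype.card V : ℝ))
    (g4 : ((prs (fun x y => bc x = 3 ∧ bc y = 3 ∧ x ≠ y ∧
      ((cn G bc 2 x y).card : ℝ) < 2 * δ * m2)).card : ℝ) ≤ η * (Fintype.card V : ℝ))
    (g5 : ((univ.filter (fun x => bc x = 3 ∧ ((nb G bc 0 x).card : ℝ) < δ * m0)).card : ℝ) ≤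
      η * (Fintype.card V : ℝ)) :
    ∃ H : SimpleGraph V, SatIn F G H ∧ 2 * (H.edgeSet.ncard : ℝ) ≤
        2 * ((m0 : ℝ) * (Fintype.card V : ℝ)) + 2 * X1 + ((m0 : ℝ) + m1 + m2) ^ 2 +
        2 * ((m2 : ℝ) * (η * (Fintype.card V : ℝ))) +
        2 * (δ * (m2 : ℝ) * (Fintype.card V : ℝ) + (m2 : ℝ) * (η * (Fintype.card V : ℝ)) +
          (m2 : ℝ) * (k * (C * ((m0 : ℝ) + m2)))) +
        2 * k ^ 2 * C / δ * (Fintype.card V : ℝ) + 2 * (η * (Fintype.card V : ℝ)) +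
        2 * k ^ 2 * C / (δ * θ) * (Fintype.card V : ℝ) + η * (Fintype.card V : ℝ) := by
  have hkr : (0 : ℝ) < k := by exact_mod_cast hk
  let cl := Gcl G bc s₀
  have c0 : cls cl 0 = cls bc 0 := cls_Gcl G bc s₀ 0 (by norm_num)
  have c1 : cls cl 1 = cls bc 1 := cls_Gcl G bc s₀ 1 (by norm_num)
  have c2 : cls cl 2 = cls bc 2 := cls_Gcl G bc s₀ 2 (by norm_num)
  obtain ⟨E1, h11, h12, h13, h14⟩ := hdes1
  obtain ⟨E2, h21, h22, h23, h24⟩ := hdes2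
  have hcard : ((cls bc 0 ∪ cls bc 2).card : ℝ) ≤ (m0 : ℝ) + m2 := by
    have : (cls bc 0 ∪ cls bc 2).card ≤ m0 + m2 := by
      rw [← hm0, ← hm2]; exact card_union_le _ _
    exact_mod_cast this
  have hpos2 : 0 < (cls bc 0 ∪ cls bc 2).card := by
    apply card_pos.mpr
    rw [← hm2] at hm2pos
    obtain ⟨x, hx⟩ := card_pos.mp hm2pos
    exact ⟨x, mem_union_right _ hx⟩
  obtain ⟨H, hH1, hH2⟩ := upper_det G hk F Y I0 V0 hY hYa hI0 hV0 F' hF' hF'F cl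
    (Gcl_le G bc hbc s₀) E1 E2 δ θ C hδ0 hδ1 hθ0 hC (by rw [c1, hm1]; exact hm1pos)
    (by rw [c0, c2]; exact hpos2) (by rw [c1]; exact h11) (by rw [c0, c2]; exact h21)
    (by rw [c1]; exact h12) h13 (by rw [c0, c2]; exact h22) h23 (by rw [c1]; exact h14)
    (by rw [c0, c2]; exact h24) (by rw [c0, c2]; exact hθ2)
  refine ⟨H, hH1, ?_⟩
  rw [ncard_prs, c0, c1, c2, hm0, hm1, hm2] at hH2
  have e1 : ((prs (fun x y => cl x = 1 ∧ 3 ≤ cl y ∧ G.Adj x y)).card : ℝ) ≤ X1 := by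
    refine le_trans ?_ g1
    have : (prs (fun x y => cl x = 1 ∧ 3 ≤ cl y ∧ G.Adj x y)).card ≤
        (prs (fun x y => bc x = 1 ∧ bc y = 3 ∧ G.Adj x y)).card := by
      apply prs_mono
      rintro x y ⟨h1, h2, h3⟩
      exact ⟨(Gcl_lt G bc s₀ x 1 (by norm_num)).mp h1, (Gcl_ge G bc hbc s₀ y).mp h2, h3⟩
    exact_mod_cast this
  have e2 : ((univ.filter (fun x => cl x ≤ 2)).card : ℝ) ≤ (m0 : ℝ) + m1 + m2 := by
    have : (univ.filter (fun x => cl x ≤ 2)).card ≤ m0 + m1 + m2 := by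
      calc (univ.filter (fun x => cl x ≤ 2)).card
          ≤ ((cls bc 0 ∪ cls bc 1) ∪ cls bc 2).card := by
            apply card_le_card
            intro x hx
            have hx' := (mem_filter.mp hx).2
            rw [mem_union, mem_union, ← c0, ← c1, ← c2]
            simp only [cls, mem_filter, mem_univ, true_and]
            omega
        _ ≤ (cls bc 0 ∪ cls bc 1).card + (cls bc 2).card := card_union_le _ _
        _ ≤ (cls bc 0).card + (cls bc 1).card + (cls bc 2).card :=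
            Nat.add_le_add_right (card_union_le _ _) _
        _ = m0 + m1 + m2 := by rw [hm0, hm1, hm2]
    exact_mod_cast this
  have e3 : ((cls cl 4).card : ℝ) ≤ η * (Fintype.card V : ℝ) := by
    refine le_trans ?_ g3
    have : (cls cl 4).card ≤
        (univ.filter (fun x => bc x = 3 ∧ ((nb G bc 1 x).card : ℝ) < s₀)).card := by
      apply card_le_card
      intro x hx
      have hx' : cl x = 4 := (mem_filter.mp hx).2
      exact mem_filter.mpr ⟨mem_univ _, (Gcl_four G bc hbc s₀ x).mp hx'⟩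
    exact_mod_cast this
  have e4 : ((univ.filter (fun x => 3 ≤ cl x ∧
      ((nb G cl 0 x).card : ℝ) < δ * (m0 : ℝ))).card : ℝ) ≤ η * (Fintype.card V : ℝ) := by
    refine le_trans ?_ g5
    have : (univ.filter (fun x => 3 ≤ cl x ∧ ((nb G cl 0 x).card : ℝ) < δ * (m0 : ℝ))).card ≤
        (univ.filter (fun x => bc x = 3 ∧ ((nb G bc 0 x).card : ℝ) < δ * m0)).card := by
      apply card_le_card
      intro x hx
      obtain ⟨_, h1, h2⟩ := mem_filter.mp hx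
      rw [nb_Gcl G bc s₀ 0 (by norm_num)] at h2
      exact mem_filter.mpr ⟨mem_univ _, (Gcl_ge G bc hbc s₀ x).mp h1, h2⟩
    exact_mod_cast this
  have e5 : ((prs (fun x y => cl x = 3 ∧ 3 ≤ cl y ∧ x ≠ y ∧
          ((cn G cl 1 x y).card : ℝ) < 2 * δ * (m1 : ℝ))).card : ℝ) ≤
      η * (Fintype.card V : ℝ) := by
    refine le_trans ?_ g2
    have : (prs (fun x y => cl x = 3 ∧ 3 ≤ cl y ∧ x ≠ y ∧
          ((cn G cl 1 x y).card : ℝ) < 2 * δ * (m1 : ℝ))).card ≤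
        (prs (fun x y => bc x = 3 ∧ bc y = 3 ∧ x ≠ y ∧ s₀ ≤ ((nb G bc 1 x).card : ℝ) ∧
      ((cn G bc 1 x y).card : ℝ) < 2 * δ * m1)).card := by
      apply prs_mono
      rintro x y ⟨h1, h2, h3, h4⟩
      rw [cn_Gcl G bc s₀ 1 (by norm_num)] at h4
      have h5 := (Gcl_three G bc s₀ x).mp h1
      exact ⟨h5.1, (Gcl_ge G bc hbc s₀ y).mp h2, h3, h5.2, h4⟩
    exact_mod_cast this
  have e6 : ((prs (fun x y => 3 ≤ cl x ∧ 3 ≤ cl y ∧ x ≠ y ∧
          ((cn G cl 2 x y).card : ℝ) < 2 * δ * (m2 : ℝ))).card : ℝ) ≤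
      η * (Fintype.card V : ℝ) := by
    refine le_trans ?_ g4
    have : (prs (fun x y => 3 ≤ cl x ∧ 3 ≤ cl y ∧ x ≠ y ∧
          ((cn G cl 2 x y).card : ℝ) < 2 * δ * (m2 : ℝ))).card ≤
        (prs (fun x y => bc x = 3 ∧ bc y = 3 ∧ x ≠ y ∧
      ((cn G bc 2 x y).card : ℝ) < 2 * δ * m2)).card := by
      apply prs_mono
      rintro x y ⟨h1, h2, h3, h4⟩
      rw [cn_Gcl G bc s₀ 2 (by norm_num)] at h4
      exact ⟨(Gcl_ge G bc hbc s₀ x).mp h1, (Gcl_ge G bc hbc s₀ y).mp h2, h3, h4⟩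
    exact_mod_cast this
  have hm2r : (0 : ℝ) ≤ (m2 : ℝ) := Nat.cast_nonneg _
  have f1 : ((univ.filter (fun x => cl x ≤ 2)).card : ℝ) ^ 2 ≤ ((m0 : ℝ) + m1 + m2) ^ 2 :=
    pow_le_pow_left₀ (Nat.cast_nonneg _) e2 2
  have f2 : (m2 : ℝ) * ((cls cl 4).card : ℝ) ≤ (m2 : ℝ) * (η * (Fintype.card V : ℝ)) :=
    mul_le_mul_of_nonneg_left e3 hm2r
  have f3 := mul_le_mul_of_nonneg_left e4 hm2r
  have f4 : (m2 : ℝ) * (k * (C * ((cls bc 0 ∪ cls bc 2).card : ℝ))) ≤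
      (m2 : ℝ) * (k * (C * ((m0 : ℝ) + m2))) := by
    apply mul_le_mul_of_nonneg_left _ hm2r
    apply mul_le_mul_of_nonneg_left _ hkr.le
    exact mul_le_mul_of_nonneg_left hcard hC.le
  linarith

end

end Pool.Agent.H42.Sat
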