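import Pool.Agent.H42.Sat.Close2
import Pool.Agent.H42.Sat.Num

set_option autoImplicit false
set_option linter.unusedSectionVars false

/-! Stars in the bulk force `F`; counting consequences. -/

namespace Pool.Agent.H42.Sat

open Finset Classical

section
variable {V : Type} [Fintype V]

theorem close_star {k : ℕ} (H : SimpleGraph V) (F : SimpleGraph (Fin k)) (hH : ¬ Emb F H)
    (Y : Set (Fin k)) (comp : Fin k → ℕ) (sd : Fin k → Bool) (c ρ : ℕ)
    (hY : ∀ a ∈ Y, ∀ b ∈ Y, F.Adj a b → comp a = comp b ∧ sd a ≠ sd b)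
    (hcount : (univ.filter (fun a => a ∈ Y ∧ comp a = c ∧ sd a = false)).card ≤ ρ + 1)
    (cl ix : V → ℕ) (cf cs cb : ℕ) (n1 : cf ≠ 0) (n2 : cs ≠ 0) (n3 : cb ≠ 0) (n4 : cf ≠ cs)
    (n5 : cf ≠ cb) (n6 : cs ≠ cb) (f q : Fin k → V)
    (hf : Function.Injective f) (hq : Function.Injective q) (hfc : ∀ a, cl (f a) = cf)
    (hqc : ∀ a, cl (q a) = 0) (w0 : V) (w1 : cl w0 ≠ 0) (w2 : cl w0 ≠ cf) (w3 : cl w0 ≠ cs)
    (i : ℕ) (hcard : (univ.filter (fun x => cl x = cs ∧ ix x = i)).card = ρ)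
    (a1 : ∀ a, a ∉ Y → ∀ b, b ∉ Y → F.Adj a b → H.Adj (f a) (f b))
    (a2 : ∀ a, a ∉ Y → ∀ b ∈ Y, comp b ≠ c → H.Adj (f a) (q b))
    (a3 : ∀ a, a ∉ Y → ∀ x, cl x = cs → ix x = i → H.Adj (f a) x)
    (a3' : ∀ a, a ∉ Y → H.Adj (f a) w0)
    (a5 : ∀ a ∈ Y, ∀ b ∈ Y, comp a ≠ c → comp b ≠ c → F.Adj a b → H.Adj (q a) (q b))
    (a6 : ∀ x y, cl x = cs → ix x = i → cl y = cb → ix y = i → H.Adj x y) :
    (univ.filter (fun w => cl w = cb ∧ ix w = i ∧ H.Adj w0 w ∧
      ∀ a, a ∉ Y → H.Adj (f a) w)).card < k := by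
  by_contra hlt
  push Not at hlt
  apply hH
  let S := univ.filter (fun x => cl x = cs ∧ ix x = i)
  let B := univ.filter (fun w => cl w = cb ∧ ix w = i ∧ H.Adj w0 w ∧
      ∀ a, a ∉ Y → H.Adj (f a) w)
  have hS : ∀ x, x ∈ S ↔ cl x = cs ∧ ix x = i := by intro x; simp [S]
  have hB : ∀ x, x ∈ B ↔ cl x = cb ∧ ix x = i ∧ H.Adj w0 x ∧ ∀ a, a ∉ Y → H.Adj (f a) x := by
    intro x; simp [B]
  have hw : w0 ∉ S := fun h => w3 ((hS _).mp h).1
  have hPc : ρ + 1 ≤ (insert w0 S).card := by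
    rw [card_insert_of_notMem hw]
    exact (congrArg Nat.succ hcard).ge
  refine close_core H F Y comp sd c (ρ + 1) hY hcount f q (insert w0 S) B hPc hlt hf hq ?_ ?_ ?_
    ?_ ?_ ?_ a1 a2 ?_ ?_ a5 ?_
  · intro a _ b _ _ he
    have h1 := hfc a
    rw [he, hqc b] at h1
    exact n1 h1.symm
  · intro a _ h
    rw [mem_insert] at h
    rcases h with h | h
    · exact w2 (h ▸ hfc a)
    · exact n4 ((hfc a).symm.trans ((hS _).mp h).1)
  · intro a _ h
    exact n5 ((hfc a).symm.trans ((hB _).mp h).1)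
  · intro b _ _ h
    rw [mem_insert] at h
    rcases h with h | h
    · exact w1 (h ▸ hqc b)
    · exact n2 (((hS _).mp h).1.symm.trans (hqc b))
  · intro b _ _ h
    exact n3 (((hB _).mp h).1.symm.trans (hqc b))
  · intro x hx hxB
    rw [mem_insert] at hx
    rcases hx with rfl | hx
    · exact H.loopless.irrefl _ ((hB _).mp hxB).2.2.1
    · exact n6 (((hS _).mp hx).1.symm.trans ((hB _).mp hxB).1)
  · intro a ha x hx
    rw [mem_insert] at hx
    rcases hx with rfl | hx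
    · exact a3' a ha
    · exact a3 a ha x ((hS _).mp hx).1 ((hS _).mp hx).2
  · intro a ha x hx
    exact ((hB _).mp hx).2.2.2 a ha
  · intro x hx y hy
    have hy' := (hB _).mp hy
    rw [mem_insert] at hx
    rcases hx with rfl | hx
    · exact hy'.2.2.1
    · exact a6 x y ((hS _).mp hx).1 ((hS _).mp hx).2 hy'.1 hy'.2.1

theorem close_full {k : ℕ} (H : SimpleGraph V) (F : SimpleGraph (Fin k)) (hH : ¬ Emb F H)
    (Y : Set (Fin k)) (comp : Fin k → ℕ) (sd : Fin k → Bool)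
    (hY : ∀ a ∈ Y, ∀ b ∈ Y, F.Adj a b → comp a = comp b ∧ sd a ≠ sd b)
    (cl ix : V → ℕ) (cf cs cb : ℕ) (n4 : cf ≠ cs)
    (n5 : cf ≠ cb) (n6 : cs ≠ cb) (f : Fin k → V)
    (hf : Function.Injective f) (hfc : ∀ a, cl (f a) = cf)
    (i : ℕ) (hcard : k ≤ (univ.filter (fun x => cl x = cs ∧ ix x = i)).card)
    (a1 : ∀ a, a ∉ Y → ∀ b, b ∉ Y → F.Adj a b → H.Adj (f a) (f b))
    (a3 : ∀ a, a ∉ Y → ∀ x, cl x = cs → ix x = i → H.Adj (f a) x)
    (a6 : ∀ x y, cl x = cs → ix x = i → cl y = cb → ix y = i → H.Adj x y) :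
    (univ.filter (fun w => cl w = cb ∧ ix w = i ∧ ∀ a, a ∉ Y → H.Adj (f a) w)).card < k := by
  by_contra hlt
  push Not at hlt
  apply hH
  let S := univ.filter (fun x => cl x = cs ∧ ix x = i)
  let B := univ.filter (fun w => cl w = cb ∧ ix w = i ∧ ∀ a, a ∉ Y → H.Adj (f a) w)
  have hS : ∀ x, x ∈ S ↔ cl x = cs ∧ ix x = i := by intro x; simp [S]
  have hB : ∀ x, x ∈ B ↔ cl x = cb ∧ ix x = i ∧ ∀ a, a ∉ Y → H.Adj (f a) x := by
    intro x; simp [B]
  refine close_core H F Y (fun _ => 0) sd 0 k (fun a ha b hb hab => ⟨rfl, (hY a ha b hb hab).2⟩)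
    ((card_le_univ _).trans (by rw [Fintype.card_fin])) f f S B hcard hlt hf hf ?_ ?_ ?_
    ?_ ?_ ?_ a1 ?_ ?_ ?_ ?_ ?_
  · intro a _ b _ h; exact (h rfl).elim
  · intro a _ h
    exact n4 ((hfc a).symm.trans ((hS _).mp h).1)
  · intro a _ h
    exact n5 ((hfc a).symm.trans ((hB _).mp h).1)
  · intro b _ h; exact (h rfl).elim
  · intro b _ h; exact (h rfl).elim
  · intro x hx hxB
    exact n6 (((hS _).mp hx).1.symm.trans ((hB _).mp hxB).1)
  · intro a _ b _ h; exact (h rfl).elim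
  · intro a ha x hx
    exact a3 a ha x ((hS _).mp hx).1 ((hS _).mp hx).2
  · intro a ha x hx
    exact ((hB _).mp hx).2.2 a ha
  · intro a _ b _ h; exact (h rfl).elim
  · intro x hx y hy
    have hy' := (hB _).mp hy
    exact a6 x y ((hS _).mp hx).1 ((hS _).mp hx).2 hy'.1 hy'.2.1

/-- counting pairs by stars -/
theorem star_count (Rel : V → V → Prop) (ix : V → ℕ) (N k : ℕ) (X0 : Finset V)
    (h0 : ∀ x y, Rel x y → x ∈ X0 ∧ ix y < N)
    (h1 : ∀ x, ∀ i, i < N → (univ.filter (fun y => Rel x y ∧ ix y = i)).card ≤ k) :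
    (prs Rel).card ≤ X0.card * (N * k) := by
  have hsub : prs Rel ⊆ X0.biUnion (fun x => (range N).biUnion (fun i =>
      (univ.filter (fun y => Rel x y ∧ ix y = i)).image (fun y => (x, y)))) := by
    rintro ⟨x, y⟩ hx
    rw [mem_prs] at hx
    obtain ⟨h2, h3⟩ := h0 x y hx
    rw [mem_biUnion]
    refine ⟨x, h2, ?_⟩
    rw [mem_biUnion]
    refine ⟨ix y, mem_range.mpr h3, ?_⟩
    rw [mem_image]
    exact ⟨y, mem_filter.mpr ⟨mem_univ _, hx, rfl⟩, rfl⟩
  refine (card_le_card hsub).trans (card_biUnion_le.trans ?_)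
  calc ∑ x ∈ X0, ((range N).biUnion (fun i =>
      (univ.filter (fun y => Rel x y ∧ ix y = i)).image (fun y => (x, y)))).card
      ≤ ∑ _x ∈ X0, N * k := by
        apply sum_le_sum
        intro x _
        refine card_biUnion_le.trans ?_
        calc ∑ i ∈ range N, ((univ.filter (fun y => Rel x y ∧ ix y = i)).image
              (fun y => (x, y))).card ≤ ∑ _i ∈ range N, k := by
              apply sum_le_sum
              intro i hi
              exact card_image_le.trans (h1 x i (mem_range.mp hi))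
          _ = N * k := by rw [sum_const, card_range, smul_eq_mul]
    _ = X0.card * (N * k) := by rw [sum_const, smul_eq_mul]

end

end Pool.Agent.H42.Sat
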