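import Pool.Agent.H42.Sat.Num

set_option autoImplicit false
set_option linter.unusedSectionVars false

/-! Wrappers that fix the decidability instances. -/

namespace Pool.Agent.H42.Sat

open Finset Classical

section
variable {V : Type} [Fintype V]

/-- classes `0` and `2` together -/
noncomputable def u02 (bc : V → ℕ) : Finset V := cls bc 0 ∪ cls bc 2

/-- where the vertices of a copy go -/
noncomputable def c02 {k : ℕ} (V0 : Set (Fin k)) (bc : V → ℕ) (i : Fin k) : Finset V :=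
  if i ∈ V0 then cls bc 0 else cls bc 2

/-- a design exists -/
def DesignFor {k : ℕ} (G : SimpleGraph V) (Γ : SimpleGraph (Fin k)) (c : Fin k → Finset V)
    (Ω : Finset V) (δ C : ℝ) (l : ℕ) : Prop :=
  ∃ E : Finset (Fin k → V), (E.card : ℝ) ≤ C * (Ω.card : ℝ) ∧ (∀ f ∈ E, IsCopy G Γ c f) ∧
    Free l Γ E ∧
    ∀ Z ⊆ Ω, (∀ i, δ * ((c i).card : ℝ) ≤ ((Z ∩ c i).card : ℝ)) → ∃ f ∈ E, ∀ i, f i ∈ Z

theorem DesignFor.mono {k : ℕ} {G : SimpleGraph V} {Γ : SimpleGraph (Fin k)}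
    {c : Fin k → Finset V} {Ω : Finset V} {δ C C' : ℝ} {l : ℕ} (h : DesignFor G Γ c Ω δ C l)
    (hC : C ≤ C') : DesignFor G Γ c Ω δ C' l := by
  obtain ⟨E, h1, h2⟩ := h
  exact ⟨E, h1.trans (mul_le_mul_of_nonneg_right hC (Nat.cast_nonneg _)), h2⟩

theorem card_u02 (bc : V → ℕ) : (u02 bc).card = (cls bc 0).card + (cls bc 2).card := by
  unfold u02
  apply card_union_of_disjoint
  rw [disjoint_left]
  intro x h1 h2
  have h1' : bc x = 0 := (mem_filter.mp h1).2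
  have h2' : bc x = 2 := (mem_filter.mp h2).2
  omega

theorem c02_sub {k : ℕ} (V0 : Set (Fin k)) (bc : V → ℕ) (i : Fin k) : c02 V0 bc i ⊆ u02 bc := by
  unfold c02 u02
  split_ifs
  · exact subset_union_left
  · exact subset_union_right

theorem design' (k : ℕ) (hk : 0 < k) (g : ℕ) (q δ θ : ℝ) (hq0 : 0 < q) (hq1 : q ≤ 1)
    (hδ0 : 0 < δ) (hδ1 : δ ≤ 1) (hθ0 : 0 < θ) (hθ1 : θ ≤ 1) :
    ∃ σ : ℝ, 0 < σ ∧ ∃ τ : ℝ, 0 < τ ∧ τ ≤ σ / 2 ∧ ∃ C : ℝ, 0 < C ∧ ∃ N₀ : ℕ, 0 < N₀ ∧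
      ∀ (V : Type) [Fintype V] (G : SimpleGraph V) (Ω : Finset V) (Γ : SimpleGraph (Fin k))
        (c : Fin k → Finset V), N₀ ≤ Ω.card → (∀ i, c i ⊆ Ω) →
        (∀ i, θ * (Ω.card : ℝ) ≤ ((c i).card : ℝ)) →
        Dens G Ω q (σ * (Ω.card : ℝ)) (τ * (Ω.card : ℝ)) → DesignFor G Γ c Ω δ C g :=
  design k hk g q δ θ hq0 hq1 hδ0 hδ1 hθ0 hθ1

theorem upper_num' (G : SimpleGraph V) {k l : ℕ} (hk : 0 < k) (F : SimpleGraph (Fin k))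
    (Y I0 V0 : Set (Fin k)) (hY : Y = I0 ∪ V0) (hYa : (F.induce Y).IsAcyclic)
    (hI0 : ∀ i ∈ I0, ∀ j ∈ I0, ¬ F.Adj i j) (hV0 : ∀ i ∈ V0, ∀ j ∈ V0, ¬ F.Adj i j)
    (F' : SimpleGraph (Fin l)) (hF' : Cond' F Y F') (hF'F : Emb F' F)
    (bc : V → ℕ) (hbc : ∀ x, bc x ≤ 3) (s₀ δ θ C η X1 : ℝ)
    (hδ0 : 0 < δ) (hδ1 : 2 * δ ≤ 1) (hθ0 : 0 < θ) (hC : 0 < C) (m0 m1 m2 : ℕ)
    (hm0 : (cls bc 0).card = m0) (hm1 : (cls bc 1).card = m1) (hm2 : (cls bc 2).card = m2)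
    (hm1pos : 0 < m1) (hm2pos : 0 < m2)
    (hdes1 : DesignFor G (off F Y) (fun _ => cls bc 1) (cls bc 1) δ C l)
    (hdes2 : DesignFor G (off F I0) (c02 V0 bc) (u02 bc) δ C l)
    (hθ2 : ∀ i : Fin k, θ * ((u02 bc).card : ℝ) ≤ ((c02 V0 bc i).card : ℝ))
    (g1 : ((prs (fun x y => bc x = 1 ∧ bc y = 3 ∧ G.Adj x y)).card : ℝ) ≤ X1)
    (g2 : ((prs (fun x y => bc x = 3 ∧ bc y = 3 ∧ x ≠ y ∧ s₀ ≤ ((nb G bc 1 x).card : ℝ) ∧
      ((cn G bc 1 x y).card : ℝ) < 2 * δ * m1)).card : ℝ) ≤ η * (Fintype.card V : ℝ))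
    (g3 : ((univ.filter (fun x => bc x = 3 ∧ ((nb G bc 1 x).card : ℝ) < s₀)).card : ℝ) ≤
      η * (Fintype.card V : ℝ))
    (g4 : ((prs (fun x y => bc x = 3 ∧ bc y = 3 ∧ x ≠ y ∧
      ((cn G bc 2 x y).card : ℝ) < 2 * δ * m2)).card : ℝ) ≤ η * (Fintype.card V : ℝ))
    (g5 : ((univ.filter (fun x => bc x = 3 ∧ ((nb G bc 0 x).card : ℝ) < δ * m0)).card : ℝ) ≤
      η * (Fintype.card V : ℝ)) :
    ∃ H : SimpleGraph V, SatIn F G H ∧ 2 * (H.edgeSet.ncard : ℝ) ≤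
        2 * ((m0 : ℝ) * (Fintype.card V : ℝ)) + 2 * X1 + ((m0 : ℝ) + m1 + m2) ^ 2 +
        2 * ((m2 : ℝ) * (η * (Fintype.card V : ℝ))) +
        2 * (δ * (m2 : ℝ) * (Fintype.card V : ℝ) + (m2 : ℝ) * (η * (Fintype.card V : ℝ)) +
          (m2 : ℝ) * (k * (C * ((m0 : ℝ) + m2)))) +
        2 * k ^ 2 * C / δ * (Fintype.card V : ℝ) + 2 * (η * (Fintype.card V : ℝ)) +
        2 * k ^ 2 * C / (δ * θ) * (Fintype.card V : ℝ) + η * (Fintype.card V : ℝ) :=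
  upper_num G hk F Y I0 V0 hY hYa hI0 hV0 F' hF' hF'F bc hbc s₀ δ θ C η X1 hδ0 hδ1 hθ0 hC m0 m1 m2
    hm0 hm1 hm2 hm1pos hm2pos hdes1 hdes2 hθ2 g1 g2 g3 g4 g5

end

/-- the two sides of a forest -/
theorem bipartition {k : ℕ} (F : SimpleGraph (Fin k)) (Y : Set (Fin k))
    (hYa : (F.induce Y).IsAcyclic) :
    ∃ I0 V0 : Set (Fin k), Y = I0 ∪ V0 ∧ (∀ i ∈ I0, ∀ j ∈ I0, ¬ F.Adj i j) ∧
      ∀ i ∈ V0, ∀ j ∈ V0, ¬ F.Adj i j := by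
  obtain ⟨c⟩ := hYa.colorable_two
  refine ⟨{i | ∃ h : i ∈ Y, c ⟨i, h⟩ = 0}, {i | ∃ h : i ∈ Y, c ⟨i, h⟩ = 1}, ?_, ?_, ?_⟩
  · ext i
    simp only [Set.mem_union, Set.mem_ofPred_eq]
    constructor
    · intro h
      have h2 : c ⟨i, h⟩ = 0 ∨ c ⟨i, h⟩ = 1 := by
        have : ∀ x : Fin 2, x = 0 ∨ x = 1 := by decide
        exact this _
      rcases h2 with h2 | h2
      · exact Or.inl ⟨h, h2⟩
      · exact Or.inr ⟨h, h2⟩
    · rintro (⟨h, _⟩ | ⟨h, _⟩) <;> exact h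
  · rintro i ⟨hi, hi2⟩ j ⟨hj, hj2⟩ hij
    have : (F.induce Y).Adj ⟨i, hi⟩ ⟨j, hj⟩ := hij
    exact c.valid this (hi2.trans hj2.symm)
  · rintro i ⟨hi, hi2⟩ j ⟨hj, hj2⟩ hij
    have : (F.induce Y).Adj ⟨i, hi⟩ ⟨j, hj⟩ := hij
    exact c.valid this (hi2.trans hj2.symm)

theorem final_ineq (k : ℕ) (ε lam C2 η δ e1 b1 p C θ x n m0 m1 m2 m3 B : ℝ)
    (hε0 : 0 < ε) (hlam : 0 < lam) (hη0 : 0 < η) (hδ0 : 0 < δ)
    (hp0 : 0 < p) (hC : 0 < C) (he1 : 0 ≤ e1) (he12 : (1 + e1) ^ 2 ≤ 1 + ε / 2)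
    (hηd : 2 * η * (1 + 2 * C2) ≤ ε / (4 * lam)) (hδd : 2 * δ * C2 ≤ ε / (4 * lam))
    (hb1 : p * b1 = (1 + e1) / lam) (hb1' : 0 ≤ b1) (hx1 : 1 ≤ x) (hn : 0 ≤ n)
    (h0 : 0 ≤ m0) (h1 : 0 ≤ m1) (h2 : 0 ≤ m2) (h3 : 0 ≤ m3)
    (hm0 : m0 ≤ η * x + 1) (hm1 : m1 ≤ b1 * x + 1) (hm2 : m2 ≤ C2 * x + 1) (hm3 : m3 ≤ n)
    (hB : B = η + b1 + C2 + 3) (hq : (1 + 2 * k * C) * B ^ 2 * x ^ 2 ≤ n)
    (hlin : 2 + 2 * (1 + e1) * p + 4 * η + 2 * δ + 2 * k ^ 2 * C / δ + 2 * k ^ 2 * C / (δ * θ) +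
      3 * η + 1 ≤ ε / (2 * lam) * x) :
    2 * (m0 * n) + 2 * ((1 + e1) * (p * (m1 * m3))) + (m0 + m1 + m2) ^ 2 +
        2 * (m2 * (η * n)) +
        2 * (δ * m2 * n + m2 * (η * n) + m2 * (k * (C * (m0 + m2)))) +
        2 * k ^ 2 * C / δ * n + 2 * (η * n) +
        2 * k ^ 2 * C / (δ * θ) * n + η * n ≤ 2 * ((1 + ε) * (n * (x / lam))) := by
  have hkr : (0 : ℝ) ≤ k := Nat.cast_nonneg _
  have hsum : m0 + m1 + m2 ≤ B * x := by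
    rw [hB]
    have : (η + b1 + C2 + 3) * x = (η * x + 1) + (b1 * x + 1) + (C2 * x + 1) + 3 * (x - 1) := by ring
    linarith
  have hsum0 : 0 ≤ m0 + m1 + m2 := by positivity
  have hBx : 0 ≤ B * x := hsum0.trans hsum
  have t1 : 2 * (m0 * n) ≤ 2 * (η * (x * n)) + 2 * n := by
    have := mul_le_mul_of_nonneg_right hm0 hn
    linarith
  have t2 : 2 * ((1 + e1) * (p * (m1 * m3))) ≤
      2 * ((1 + e1) ^ 2 * (x * n / lam)) + 2 * (1 + e1) * p * n := by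
    have h5 : m1 * m3 ≤ (b1 * x + 1) * n := mul_le_mul hm1 hm3 h3 (by positivity)
    have h6 : (1 + e1) * (p * (m1 * m3)) ≤ (1 + e1) * (p * ((b1 * x + 1) * n)) := by
      apply mul_le_mul_of_nonneg_left _ (by positivity)
      exact mul_le_mul_of_nonneg_left h5 hp0.le
    have h7 : (1 + e1) * (p * ((b1 * x + 1) * n)) =
        (1 + e1) ^ 2 * (x * n / lam) + (1 + e1) * p * n := by
      have : p * ((b1 * x + 1) * n) = (p * b1) * (x * n) + p * n := by ring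
      rw [this, hb1]
      field_simp
    linarith
  have t2' : (1 + e1) ^ 2 * (x * n / lam) ≤ (1 + ε / 2) * (x * n / lam) :=
    mul_le_mul_of_nonneg_right he12 (by positivity)
  have t3 : (m0 + m1 + m2) ^ 2 ≤ B ^ 2 * x ^ 2 := by
    calc (m0 + m1 + m2) ^ 2 ≤ (B * x) ^ 2 := pow_le_pow_left₀ hsum0 hsum 2
      _ = B ^ 2 * x ^ 2 := by ring
  have t4 : m2 * (η * n) ≤ η * C2 * (x * n) + η * n := by
    have := mul_le_mul_of_nonneg_right hm2 (show 0 ≤ η * n by positivity)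
    linarith
  have t5 : δ * m2 * n ≤ δ * C2 * (x * n) + δ * n := by
    have := mul_le_mul_of_nonneg_right hm2 (show 0 ≤ δ * n by positivity)
    linarith
  have t6 : m2 * (k * (C * (m0 + m2))) ≤ k * C * (B ^ 2 * x ^ 2) := by
    have h5 : m2 * (m0 + m2) ≤ (B * x) * (B * x) :=
      mul_le_mul (by linarith) (by linarith) (by positivity) hBx
    have h6 := mul_le_mul_of_nonneg_left h5 (show (0 : ℝ) ≤ k * C by positivity)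
    linarith
  have hxn : 0 ≤ x * n := by positivity
  have u1 : 2 * η * (1 + 2 * C2) * (x * n) ≤ ε / (4 * lam) * (x * n) :=
    mul_le_mul_of_nonneg_right hηd hxn
  have u2 : 2 * δ * C2 * (x * n) ≤ ε / (4 * lam) * (x * n) := mul_le_mul_of_nonneg_right hδd hxn
  have u3 : (2 + 2 * (1 + e1) * p + 4 * η + 2 * δ + 2 * k ^ 2 * C / δ + 2 * k ^ 2 * C / (δ * θ) +
      3 * η + 1) * n ≤ ε / (2 * lam) * x * n := mul_le_mul_of_nonneg_right hlin hn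
  have v1 : ε / (4 * lam) * (x * n) = ε / 4 * (x * n / lam) := by field_simp
  have v2 : ε / (2 * lam) * x * n = ε / 2 * (x * n / lam) := by field_simp
  have v3 : 2 * ((1 + ε) * (n * (x / lam))) = 2 * (1 + ε) * (x * n / lam) := by field_simp
  rw [v1] at u1 u2
  rw [v2] at u3
  rw [v3]
  linarith

end Pool.Agent.H42.Sat
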