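import Pool.Agent.H42.Sat.Hub2
import Pool.Agent.H42.Sat.Star2
import Pool.Agent.H42.Sat.Wrap

set_option autoImplicit false
set_option linter.unusedSectionVars false

/-! Deterministic upper bound for a general graph `F`. -/

namespace Pool.Agent.H42.Sat

open Finset Classical

section
variable {V : Type} [Fintype V]

/-- a splitting of `F` one step beyond the threshold -/
structure Split {k : ℕ} (F : SimpleGraph (Fin k)) (s ρ c : ℕ) where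
  Y : Set (Fin k)
  comp : Fin k → ℕ
  sd : Fin k → Bool
  col : Fin k → Fin s
  hcol : ∀ a, a ∉ Y → ∀ b, b ∉ Y → F.Adj a b → col a ≠ col b
  hY : ∀ a ∈ Y, ∀ b ∈ Y, F.Adj a b → comp a = comp b ∧ sd a ≠ sd b
  hcount : ∀ i, (univ.filter (fun a => a ∈ Y ∧ comp a = i ∧ sd a = false)).card ≤
      if i < c + 1 then ρ + 1 else ρ

theorem Fits.split {k : ℕ} {F : SimpleGraph (Fin k)} {s ρ c : ℕ} (h : Fits F s ρ (c + 1)) :
    Nonempty (Split F s ρ c) := by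
  obtain ⟨Y, comp, sd, ⟨col, hcol⟩, hY, hcount⟩ := h
  exact ⟨⟨Y, comp, sd, col, hcol, hY, hcount⟩⟩

/-- the common neighbours in class `2` of `x`, `y` and the small side assigned to `y` -/
noncomputable def jn (G : SimpleGraph V) (cl ix : V → ℕ) (x y : V) : Finset V :=
  univ.filter (fun z => cl z = 2 ∧ G.Adj x z ∧ G.Adj y z ∧
    ∀ w, cl w = 7 → ix w = ix y → G.Adj w z)

/-- what is needed from the host graph -/
structure Host (G : SimpleGraph V) {k : ℕ} (F : SimpleGraph (Fin k)) {s ρ c : ℕ}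
    (P : Split F s ρ c) (cl ix : V → ℕ) (N1 N2 : ℕ) (δ C : ℝ) where
  hcl : ∀ x, cl x ≤ 7
  E1 : Finset (Fin k → V)
  E2 : Finset (Fin k → V)
  hE1c : (E1.card : ℝ) ≤ C * ((cls cl 1).card : ℝ)
  hE2c : (E2.card : ℝ) ≤ C * ((cls cl 2).card : ℝ)
  hE1 : ∀ f ∈ E1, IsCopy G (off F P.Y) (fun _ => cls cl 1) f
  hE2 : ∀ f ∈ E2, IsCopy G (off F P.Y) (fun _ => cls cl 2) f
  hfree1 : Free k (off F P.Y) E1
  hfree2 : Free k (off F P.Y) E2
  hd1 : ∀ Z ⊆ cls cl 1, (∀ _i : Fin k, δ * ((cls cl 1).card : ℝ) ≤ ((Z ∩ cls cl 1).card : ℝ)) →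
      ∃ f ∈ E1, ∀ i, f i ∈ Z
  hd2 : ∀ Z ⊆ cls cl 2, (∀ _i : Fin k, δ * ((cls cl 2).card : ℝ) ≤ ((Z ∩ cls cl 2).card : ℝ)) →
      ∃ f ∈ E2, ∀ i, f i ∈ Z
  q : Fin k → V
  hq : Function.Injective q
  hqc : ∀ a, cl (q a) = 0
  hqa : ∀ a b, a ∈ P.Y → b ∈ P.Y → P.comp a ≠ c → P.comp b ≠ c → F.Adj a b → G.Adj (q a) (q b)
  c10 : ∀ x y, cl x = 1 → (cl y = 0 ∨ cl y = 5) → G.Adj x y
  c20 : ∀ x y, cl x = 2 → (cl y = 0 ∨ cl y = 6) → G.Adj x y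
  c35 : ∀ x y, cl x = 3 → (cl y = 5 ∨ cl y = 6) → ix x = ix y → G.Adj x y
  c47 : ∀ x y, cl x = 4 → cl y = 7 → ix x = ix y → G.Adj x y
  i3 : ∀ x, cl x = 3 → ix x < N1
  i4 : ∀ x, cl x = 4 → ix x < N2
  n5 : ∀ i, i < N1 → (univ.filter (fun x => cl x = 5 ∧ ix x = i)).card = ρ
  n5' : ∀ i, (univ.filter (fun x => cl x = 5 ∧ ix x = i)).card ≤ ρ
  n6 : ∀ i, i < N1 → k ≤ (univ.filter (fun x => cl x = 6 ∧ ix x = i)).card
  n7 : ∀ i, i < N2 → (univ.filter (fun x => cl x = 7 ∧ ix x = i)).card = ρ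
  n7' : ∀ i, (univ.filter (fun x => cl x = 7 ∧ ix x = i)).card ≤ ρ
  hj : ∀ x y, cl x = 4 → cl y = 4 → x ≠ y →
    2 * δ * ((cls cl 2).card : ℝ) ≤ ((jn G cl ix x y).card : ℝ)

/-- the starting graph is free of `F` -/
theorem Host.free {G : SimpleGraph V} {k : ℕ} {F : SimpleGraph (Fin k)}
    (htri : ∀ u v, F.Adj u v → ∃ w, F.Adj u w ∧ F.Adj v w) {s ρ c : ℕ} (hs : 0 < s)
    (hnf : ¬ Fits F s ρ c) {P : Split F s ρ c} {cl ix : V → ℕ} {N1 N2 : ℕ} {δ C : ℝ}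
    (h : Host G F P cl ix N1 N2 δ C) :
    ∃ H0 : SimpleGraph V, H0 ≤ G ∧ ¬ Emb F H0 ∧
      (∀ x y, G.Adj x y → cr2 cl ix x y → H0.Adj x y) ∧
      (∀ f ∈ h.E1, ∀ a, a ∉ P.Y → ∀ b, b ∉ P.Y → F.Adj a b → H0.Adj (f a) (f b)) ∧
      (∀ f ∈ h.E2, ∀ a, a ∉ P.Y → ∀ b, b ∉ P.Y → F.Adj a b → H0.Adj (f a) (f b)) ∧
      (∀ a ∈ P.Y, ∀ b ∈ P.Y, P.comp a ≠ c → P.comp b ≠ c → F.Adj a b →
        H0.Adj (h.q a) (h.q b)) := by
  have hE1' : ∀ f ∈ h.E1, ∀ i, cl (f i) = 1 := by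
    intro f hf i
    exact (mem_filter.mp ((h.hE1 f hf).2.1 i)).2
  have hE2' : ∀ f ∈ h.E2, ∀ i, cl (f i) = 2 := by
    intro f hf i
    exact (mem_filter.mp ((h.hE2 f hf).2.1 i)).2
  let RQ : SimpleGraph V := {
    Adj := fun x y => ∃ a b, a ∈ P.Y ∧ b ∈ P.Y ∧ P.comp a ≠ c ∧ P.comp b ≠ c ∧ F.Adj a b ∧
      h.q a = x ∧ h.q b = y
    symm := ⟨by
      rintro x y ⟨a, b, h1, h2, h3, h4, h5, h6, h7⟩
      exact ⟨b, a, h2, h1, h4, h3, h5.symm, h7, h6⟩⟩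
    loopless := ⟨by
      rintro x ⟨a, b, h1, h2, h3, h4, h5, h6, h7⟩
      exact h5.ne (h.hq (h6.trans h7.symm))⟩ }
  let M : ℕ := univ.sup P.comp + c + 1
  -- labels
  have hex : ∀ x : V, ∃ (l : ℕ) (b : Bool), l < M ∧
      ((∃ a, a ∈ P.Y ∧ P.comp a ≠ c ∧ h.q a = x ∧ l = P.comp a ∧ b = P.sd a) ∨
      ((¬ ∃ a, a ∈ P.Y ∧ P.comp a ≠ c ∧ h.q a = x) ∧ b = true)) := by
    intro x
    by_cases hx : ∃ a, a ∈ P.Y ∧ P.comp a ≠ c ∧ h.q a = x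
    · obtain ⟨a, h1, h2, h3⟩ := hx
      refine ⟨P.comp a, P.sd a, ?_, Or.inl ⟨a, h1, h2, h3, rfl, rfl⟩⟩
      have : P.comp a ≤ univ.sup P.comp := le_sup (mem_univ a)
      omega
    · exact ⟨0, true, by omega, Or.inr ⟨hx, rfl⟩⟩
  choose lab0 sd0 hlM hls using hex
  have hlab : ∀ a, a ∈ P.Y → P.comp a ≠ c → lab0 (h.q a) = P.comp a ∧ sd0 (h.q a) = P.sd a := by
    intro a h1 h2
    rcases hls (h.q a) with ⟨a', h3, h4, h5, h6, h7⟩ | ⟨h3, _⟩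
    · have : a' = a := h.hq h5
      subst this
      exact ⟨h6, h7⟩
    · exact (h3 ⟨a, h1, h2, rfl⟩).elim
  have hfree := H1_free G F htri s ρ c M hs hnf P.Y ⟨P.col, P.hcol⟩ cl ix h.hcl h.E1 h.E2 hE1'
    h.hfree1 hE2' h.hfree2 RQ lab0 sd0 (by
      rintro x y ⟨a, b, h1, h2, h3, h4, h5, rfl, rfl⟩
      obtain ⟨e1, e2⟩ := hlab a h1 h3
      obtain ⟨e3, e4⟩ := hlab b h2 h4
      obtain ⟨e5, e6⟩ := P.hY a h1 b h2 h5
      rw [e1, e2, e3, e4]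
      exact ⟨h.hqc a, h.hqc b, e5, e6⟩) (by
      intro i
      have hcov : ∀ x, lab0 x = i → sd0 x = false → ∃ a, a ∈ P.Y ∧ P.comp a = i ∧ i ≠ c ∧
          P.sd a = false ∧ h.q a = x := by
        intro x h1 h2
        rcases hls x with ⟨a, h3, h4, h5, h6, h7⟩ | ⟨_, h3⟩
        · refine ⟨a, h3, by rw [← h6, h1], ?_, by rw [← h7, h2], h5⟩
          rw [← h1, h6]; exact h4
        · rw [h2] at h3
          exact (Bool.false_ne_true h3).elim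
      by_cases hic : i = c
      · have : univ.filter (fun x => cl x = 0 ∧ lab0 x = i ∧ sd0 x = false) = ∅ := by
          rw [filter_eq_empty_iff]
          rintro x _ ⟨_, h1, h2⟩
          obtain ⟨_, _, _, h3, _⟩ := hcov x h1 h2
          exact h3 hic
        rw [this, card_empty]
        exact Nat.zero_le _
      · have h1 : (univ.filter (fun x => cl x = 0 ∧ lab0 x = i ∧ sd0 x = false)).card ≤
            (univ.filter (fun a => a ∈ P.Y ∧ P.comp a = i ∧ P.sd a = false)).card := by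
          calc _ ≤ ((univ.filter (fun a => a ∈ P.Y ∧ P.comp a = i ∧ P.sd a = false)).image
                h.q).card := by
                apply card_le_card
                intro x hx
                obtain ⟨_, _, h1, h2⟩ := mem_filter.mp hx
                obtain ⟨a, h3, h4, _, h5, h6⟩ := hcov x h1 h2
                exact mem_image.mpr ⟨a, mem_filter.mpr ⟨mem_univ _, h3, h4, h5⟩, h6⟩
            _ ≤ _ := card_image_le
        refine h1.trans ((P.hcount i).trans ?_)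
        split_ifs <;> omega) (by omega) hlM h.n5' h.n7'
  refine ⟨H1 G (RG (off F P.Y) h.E1) (RG (off F P.Y) h.E2) RQ cl ix, ?_, hfree, ?_, ?_, ?_, ?_⟩
  · intro x y hxy
    rcases hxy with h1 | h1 | h1 | h1
    · obtain ⟨_, f, hf, i, j, hij, rfl, rfl⟩ := h1
      exact (h.hE1 f hf).2.2 i j hij
    · obtain ⟨_, f, hf, i, j, hij, rfl, rfl⟩ := h1
      exact (h.hE2 f hf).2.2 i j hij
    · obtain ⟨a, b, h1, h2, h3, h4, h5, rfl, rfl⟩ := h1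
      exact h.hqa a b h1 h2 h3 h4 h5
    · exact h1.1
  · intro x y h1 h2
    exact Or.inr (Or.inr (Or.inr ⟨h1, Or.inl h2⟩))
  · intro f hf a ha b hb hab
    exact Or.inl ⟨fun e => hab.ne ((h.hE1 f hf).1 e), f, hf, a, b, ⟨hab, ha, hb⟩, rfl, rfl⟩
  · intro f hf a ha b hb hab
    exact Or.inr (Or.inl ⟨fun e => hab.ne ((h.hE2 f hf).1 e), f, hf, a, b, ⟨hab, ha, hb⟩,
      rfl, rfl⟩)
  · intro a ha b hb hca hcb hab
    exact Or.inr (Or.inr (Or.inl ⟨a, b, ha, hb, hca, hcb, hab, rfl, rfl⟩))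

end

end Pool.Agent.H42.Sat
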