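import Pool.Agent.H42.Sat.Det2

set_option autoImplicit false
set_option linter.unusedSectionVars false

/-! Counting the edges of a saturated graph above the starting graph. -/

namespace Pool.Agent.H42.Sat

open Finset Classical

section
variable {V : Type} [Fintype V]

/-- facts about a graph between the starting graph and the host -/
structure Above {G : SimpleGraph V} {k : ℕ} {F : SimpleGraph (Fin k)} {s ρ c : ℕ}
    {P : Split F s ρ c} {cl ix : V → ℕ} {N1 N2 : ℕ} {δ C : ℝ}
    (h : Host G F P cl ix N1 N2 δ C) (H : SimpleGraph V) : Prop where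
  hH : ¬ Emb F H
  x1 : ∀ x y, G.Adj x y → cr2 cl ix x y → H.Adj x y
  x2 : ∀ f ∈ h.E1, ∀ a, a ∉ P.Y → ∀ b, b ∉ P.Y → F.Adj a b → H.Adj (f a) (f b)
  x3 : ∀ f ∈ h.E2, ∀ a, a ∉ P.Y → ∀ b, b ∉ P.Y → F.Adj a b → H.Adj (f a) (f b)
  x4 : ∀ a ∈ P.Y, ∀ b ∈ P.Y, P.comp a ≠ c → P.comp b ≠ c → F.Adj a b → H.Adj (h.q a) (h.q b)

variable {G : SimpleGraph V} {k : ℕ} {F : SimpleGraph (Fin k)} {s ρ c : ℕ}
    {P : Split F s ρ c} {cl ix : V → ℕ} {N1 N2 : ℕ} {δ C : ℝ}

theorem Split.hcount' (P : Split F s ρ c) :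
    (univ.filter (fun a => a ∈ P.Y ∧ P.comp a = c ∧ P.sd a = false)).card ≤ ρ + 1 := by
  have := P.hcount c
  rwa [if_pos (Nat.lt_succ_self c)] at this

/-- the relation between the bulk and the good bulk, rich pairs -/
def rich1 (G H : SimpleGraph V) (cl : V → ℕ) (δ : ℝ) (x y : V) : Prop :=
  (cl x = 3 ∨ cl x = 4 ∨ cl x = 7) ∧ cl y = 3 ∧ H.Adj x y ∧
    2 * δ * ((cls cl 1).card : ℝ) ≤ ((cn G cl 1 x y).card : ℝ)

/-- the relation inside the bad bulk -/
def rich2 (G H : SimpleGraph V) (cl ix : V → ℕ) (δ : ℝ) (x y : V) : Prop :=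
  cl x = 4 ∧ cl y = 4 ∧ H.Adj x y ∧
    2 * δ * ((cls cl 2).card : ℝ) ≤ ((jn G cl ix x y).card : ℝ)

theorem bound_rich1 (hk : 0 < k) (hδ : 0 < δ) (hC : 0 < C) (h : Host G F P cl ix N1 N2 δ C)
    (H : SimpleGraph V) (hA : Above h H) (hA1 : 0 < (cls cl 1).card) :
    ((prs (rich1 G H cl δ)).card : ℝ) ≤
      (k : ℝ) ^ 2 * C / δ * ((Fintype.card V : ℝ) * N1) := by
  have hkr : (0 : ℝ) < k := by exact_mod_cast hk
  have hA1r : (0 : ℝ) < ((cls cl 1).card : ℝ) := by exact_mod_cast hA1
  have hmc : ∀ j x, x ∈ cls cl j ↔ cl x = j := by intro j x; simp [cls]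
  have hE1' : ∀ f ∈ h.E1, ∀ i, cl (f i) = 1 := by
    intro f hf i
    exact (mem_filter.mp ((h.hE1 f hf).2.1 i)).2
  obtain ⟨R, hR⟩ : ∃ R : (Fin k → V) → V × V → Prop, ∀ f z, R f z ↔
      ∀ a, a ∉ P.Y → G.Adj z.1 (f a) ∧ G.Adj z.2 (f a) := ⟨_, fun _ _ => Iff.rfl⟩
  have hdc := dc_pairs (prs (rich1 G H cl δ)) h.E1 R
    (δ * ((cls cl 1).card : ℝ) / k) ((Fintype.card V : ℝ) * (N1 * k)) (by
      intro z hz
      rw [mem_prs] at hz
      obtain ⟨_, _, _, h4⟩ := hz
      have h2 := design_many hk (cls cl 1) (fun _ : Fin k => cls cl 1) δ 1 h.E1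
        (by intro i; rw [one_mul]) hδ.le h.hd1 (cn G cl 1 z.1 z.2) (by
          intro w hw
          rw [hmc]
          exact (mem_filter.mp hw).2.1) (by
          intro i
          have : cn G cl 1 z.1 z.2 ∩ cls cl 1 = cn G cl 1 z.1 z.2 := by
            rw [inter_eq_left]
            intro w hw
            rw [hmc]
            exact (mem_filter.mp hw).2.1
          rw [this]
          exact h4)
      rw [mul_one] at h2
      rw [div_le_iff₀ hkr]
      refine h2.trans ?_
      rw [mul_comm]
      apply mul_le_mul_of_nonneg_right _ hkr.le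
      have : (h.E1.filter (fun f => ∀ i, f i ∈ cn G cl 1 z.1 z.2)).card ≤
          (h.E1.filter (fun f => R f z)).card := by
        apply card_le_card
        intro f hf
        rw [mem_filter] at hf ⊢
        refine ⟨hf.1, ?_⟩
        rw [hR]
        intro a _
        obtain ⟨_, _, h5, h6⟩ := mem_filter.mp (hf.2 a)
        exact ⟨h5, h6⟩
      exact_mod_cast this) (by
      intro f hf
      have hf1 := h.hE1 f hf
      have hfc := hE1' f hf
      obtain ⟨Rel, hRel⟩ : ∃ Rel : V → V → Prop, ∀ x y, Rel x y ↔ (rich1 G H cl δ x y ∧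
        ∀ a, a ∉ P.Y → G.Adj x (f a) ∧ G.Adj y (f a)) := ⟨_, fun _ _ => Iff.rfl⟩
      have hst := star_count Rel ix N1 k univ (by
        intro x y hxy
        rw [hRel] at hxy
        exact ⟨mem_univ _, h.i3 y hxy.1.2.1⟩) (by
        intro x i hi
        by_cases hne : (univ.filter (fun y => Rel x y ∧ ix y = i)).Nonempty
        · obtain ⟨y0, hy0⟩ := hne
          obtain ⟨_, hrel, _⟩ := mem_filter.mp hy0
          obtain ⟨hr, hadj⟩ := (hRel _ _).mp hrel
          have hx3 := hr.1
          have hst := close_star H F hA.hH P.Y P.comp P.sd c ρ P.hY P.hcount' cl ix 1 5 3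
            (by norm_num) (by norm_num) (by norm_num) (by norm_num) (by norm_num) (by norm_num)
            f h.q hf1.1 h.hq hfc h.hqc x (by omega) (by omega) (by omega) i (h.n5 i hi)
            (hA.x2 f hf)
            (by
              intro a _ b _ _
              exact hA.x1 _ _ (h.c10 _ _ (hfc a) (Or.inl (h.hqc b)))
                (Or.inl ⟨hfc a, Or.inl (h.hqc b)⟩))
            (by
              intro a _ y hy _
              exact hA.x1 _ _ (h.c10 _ _ (hfc a) (Or.inr hy))
                (Or.inl ⟨hfc a, Or.inr (Or.inr (Or.inr (Or.inl hy)))⟩))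
            (by
              intro a ha
              refine hA.x1 _ _ (hadj a ha).1.symm (Or.inl ⟨hfc a, ?_⟩)
              omega)
            hA.x4
            (by
              intro y z hy hiy hz hiz
              exact (hA.x1 _ _ (h.c35 _ _ hz (Or.inl hy) (hiz.trans hiy.symm))
                (Or.inr (Or.inr (Or.inl ⟨hz, Or.inl hy, hiz.trans hiy.symm⟩)))).symm)
          refine le_trans ?_ hst.le
          apply card_le_card
          intro y hy
          obtain ⟨_, hrel', hiy⟩ := mem_filter.mp hy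
          obtain ⟨hr', hadj'⟩ := (hRel _ _).mp hrel'
          refine mem_filter.mpr ⟨mem_univ _, hr'.2.1, hiy, hr'.2.2.1, ?_⟩
          intro a ha
          exact hA.x1 _ _ (hadj' a ha).2.symm (Or.inl ⟨hfc a, Or.inr (Or.inl hr'.2.1)⟩)
        · rw [not_nonempty_iff_eq_empty] at hne
          rw [hne, card_empty]
          exact Nat.zero_le _)
      rw [card_univ] at hst
      have : ((prs (rich1 G H cl δ)).filter (fun z => R f z)).card ≤ (prs Rel).card := by
        apply card_le_card
        intro z hz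
        rw [mem_filter, mem_prs, hR] at hz
        rw [mem_prs, hRel]
        exact hz
      exact_mod_cast this.trans hst)
  have h3 : δ * ((cls cl 1).card : ℝ) / k * ((prs (rich1 G H cl δ)).card : ℝ) ≤
      C * ((cls cl 1).card : ℝ) * ((Fintype.card V : ℝ) * (N1 * k)) :=
    hdc.trans (mul_le_mul_of_nonneg_right h.hE1c (by positivity))
  have h4 : δ * ((cls cl 1).card : ℝ) / k * ((k : ℝ) ^ 2 * C / δ * ((Fintype.card V : ℝ) * N1)) =
      C * ((cls cl 1).card : ℝ) * ((Fintype.card V : ℝ) * (N1 * k)) := by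
    field_simp
  rw [← h4] at h3
  exact le_of_mul_le_mul_left h3 (by positivity)

theorem bound_rich2 (hk : 0 < k) (hδ : 0 < δ) (hC : 0 < C) (h : Host G F P cl ix N1 N2 δ C)
    (H : SimpleGraph V) (hA : Above h H) (hA2 : 0 < (cls cl 2).card) :
    ((prs (rich2 G H cl ix δ)).card : ℝ) ≤
      (k : ℝ) ^ 2 * C / δ * (((cls cl 4).card : ℝ) * N2) := by
  have hkr : (0 : ℝ) < k := by exact_mod_cast hk
  have hA2r : (0 : ℝ) < ((cls cl 2).card : ℝ) := by exact_mod_cast hA2
  have hmc : ∀ j x, x ∈ cls cl j ↔ cl x = j := by intro j x; simp [cls]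
  have hE2' : ∀ f ∈ h.E2, ∀ i, cl (f i) = 2 := by
    intro f hf i
    exact (mem_filter.mp ((h.hE2 f hf).2.1 i)).2
  obtain ⟨R, hR⟩ : ∃ R : (Fin k → V) → V × V → Prop, ∀ f z, R f z ↔
      ∀ a, a ∉ P.Y → G.Adj z.1 (f a) ∧ G.Adj z.2 (f a) ∧
      ∀ w, cl w = 7 → ix w = ix z.2 → G.Adj w (f a) := ⟨_, fun _ _ => Iff.rfl⟩
  have hdc := dc_pairs (prs (rich2 G H cl ix δ)) h.E2 R
    (δ * ((cls cl 2).card : ℝ) / k) (((cls cl 4).card : ℝ) * (N2 * k)) (by
      intro z hz
      rw [mem_prs] at hz
      obtain ⟨_, _, _, h4⟩ := hz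
      have h2 := design_many hk (cls cl 2) (fun _ : Fin k => cls cl 2) δ 1 h.E2
        (by intro i; rw [one_mul]) hδ.le h.hd2 (jn G cl ix z.1 z.2) (by
          intro w hw
          rw [hmc]
          exact (mem_filter.mp hw).2.1) (by
          intro i
          have : jn G cl ix z.1 z.2 ∩ cls cl 2 = jn G cl ix z.1 z.2 := by
            rw [inter_eq_left]
            intro w hw
            rw [hmc]
            exact (mem_filter.mp hw).2.1
          rw [this]
          exact h4)
      rw [mul_one] at h2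
      rw [div_le_iff₀ hkr]
      refine h2.trans ?_
      rw [mul_comm]
      apply mul_le_mul_of_nonneg_right _ hkr.le
      have : (h.E2.filter (fun f => ∀ i, f i ∈ jn G cl ix z.1 z.2)).card ≤
          (h.E2.filter (fun f => R f z)).card := by
        apply card_le_card
        intro f hf
        rw [mem_filter] at hf ⊢
        refine ⟨hf.1, ?_⟩
        rw [hR]
        intro a _
        obtain ⟨_, _, h5, h6, h7⟩ := mem_filter.mp (hf.2 a)
        exact ⟨h5, h6, h7⟩
      exact_mod_cast this) (by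
      intro f hf
      have hf1 := h.hE2 f hf
      have hfc := hE2' f hf
      obtain ⟨Rel, hRel⟩ : ∃ Rel : V → V → Prop, ∀ x y, Rel x y ↔ (rich2 G H cl ix δ x y ∧
        ∀ a, a ∉ P.Y → G.Adj x (f a) ∧ G.Adj y (f a) ∧
          ∀ w, cl w = 7 → ix w = ix y → G.Adj w (f a)) := ⟨_, fun _ _ => Iff.rfl⟩
      have hst := star_count Rel ix N2 k (cls cl 4) (by
        intro x y hxy
        rw [hRel] at hxy
        exact ⟨(hmc _ _).mpr hxy.1.1, h.i4 y hxy.1.2.1⟩) (by
        intro x i hi
        by_cases hne : (univ.filter (fun y => Rel x y ∧ ix y = i)).Nonempty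
        · obtain ⟨y0, hy0⟩ := hne
          obtain ⟨_, hrel, hiy0⟩ := mem_filter.mp hy0
          obtain ⟨hr, hadj⟩ := (hRel _ _).mp hrel
          have hx4 := hr.1
          have hst := close_star H F hA.hH P.Y P.comp P.sd c ρ P.hY P.hcount' cl ix 2 7 4
            (by norm_num) (by norm_num) (by norm_num) (by norm_num) (by norm_num) (by norm_num)
            f h.q hf1.1 h.hq hfc h.hqc x (by omega) (by omega) (by omega) i (h.n7 i hi)
            (hA.x3 f hf)
            (by
              intro a _ b _ _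
              exact hA.x1 _ _ (h.c20 _ _ (hfc a) (Or.inl (h.hqc b)))
                (Or.inr (Or.inl ⟨hfc a, Or.inl (h.hqc b)⟩)))
            (by
              intro a ha y hy hiy
              exact hA.x1 _ _ ((hadj a ha).2.2 y hy (hiy.trans hiy0.symm)).symm
                (Or.inr (Or.inl ⟨hfc a, Or.inr (Or.inr (Or.inr hy))⟩)))
            (by
              intro a ha
              refine hA.x1 _ _ (hadj a ha).1.symm (Or.inr (Or.inl ⟨hfc a, ?_⟩))
              omega)
            hA.x4
            (by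
              intro y z hy hiy hz hiz
              exact (hA.x1 _ _ (h.c47 _ _ hz hy (hiz.trans hiy.symm))
                (Or.inr (Or.inr (Or.inr ⟨hz, hy, hiz.trans hiy.symm⟩)))).symm)
          refine le_trans ?_ hst.le
          apply card_le_card
          intro y hy
          obtain ⟨_, hrel', hiy⟩ := mem_filter.mp hy
          obtain ⟨hr', hadj'⟩ := (hRel _ _).mp hrel'
          refine mem_filter.mpr ⟨mem_univ _, hr'.2.1, hiy, hr'.2.2.1, ?_⟩
          intro a ha
          exact hA.x1 _ _ (hadj' a ha).2.1.symm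
            (Or.inr (Or.inl ⟨hfc a, Or.inr (Or.inl hr'.2.1)⟩))
        · rw [not_nonempty_iff_eq_empty] at hne
          rw [hne, card_empty]
          exact Nat.zero_le _)
      have : ((prs (rich2 G H cl ix δ)).filter (fun z => R f z)).card ≤ (prs Rel).card := by
        apply card_le_card
        intro z hz
        rw [mem_filter, mem_prs, hR] at hz
        rw [mem_prs, hRel]
        exact hz
      exact_mod_cast this.trans hst)
  have h3 : δ * ((cls cl 2).card : ℝ) / k * ((prs (rich2 G H cl ix δ)).card : ℝ) ≤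
      C * ((cls cl 2).card : ℝ) * (((cls cl 4).card : ℝ) * (N2 * k)) :=
    hdc.trans (mul_le_mul_of_nonneg_right h.hE2c (by positivity))
  have h4 : δ * ((cls cl 2).card : ℝ) / k * ((k : ℝ) ^ 2 * C / δ *
      (((cls cl 4).card : ℝ) * N2)) =
      C * ((cls cl 2).card : ℝ) * (((cls cl 4).card : ℝ) * (N2 * k)) := by
    field_simp
  rw [← h4] at h3
  exact le_of_mul_le_mul_left h3 (by positivity)

/-- edges between the second hub and the good bulk -/
theorem bound_hub2 (hδ : 0 < δ) (hC : 0 < C) (h : Host G F P cl ix N1 N2 δ C)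
    (H : SimpleGraph V) (hA : Above h H) :
    ((prs (fun x y => cl x = 2 ∧ cl y = 3 ∧ H.Adj x y)).card : ℝ) ≤
      δ * ((cls cl 2).card : ℝ) * (Fintype.card V : ℝ) +
      ((cls cl 2).card : ℝ) * (C * ((cls cl 2).card : ℝ) * (N1 * k)) := by
  have hmc : ∀ j x, x ∈ cls cl j ↔ cl x = j := by intro j x; simp [cls]
  have hE2' : ∀ f ∈ h.E2, ∀ i, cl (f i) = 2 := by
    intro f hf i
    exact (mem_filter.mp ((h.hE2 f hf).2.1 i)).2
  let S2 : Finset V := univ.filter (fun y => cl y = 3 ∧ ∃ f ∈ h.E2, ∀ a, a ∉ P.Y → H.Adj (f a) y)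
  have hS2 : (S2.card : ℝ) ≤ C * ((cls cl 2).card : ℝ) * (N1 * k) := by
    have h1 : S2.card ≤ h.E2.card * (N1 * k) := by
      calc S2.card ≤ (h.E2.biUnion (fun f => (range N1).biUnion (fun i =>
            univ.filter (fun w => cl w = 3 ∧ ix w = i ∧ ∀ a, a ∉ P.Y → H.Adj (f a) w)))).card := by
            apply card_le_card
            intro y hy
            obtain ⟨_, h1, f, hf, h2⟩ := mem_filter.mp hy
            rw [mem_biUnion]
            refine ⟨f, hf, ?_⟩
            rw [mem_biUnion]
            exact ⟨ix y, mem_range.mpr (h.i3 y h1), mem_filter.mpr ⟨mem_univ _, h1, rfl, h2⟩⟩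
        _ ≤ ∑ f ∈ h.E2, ((range N1).biUnion (fun i =>
            univ.filter (fun w => cl w = 3 ∧ ix w = i ∧ ∀ a, a ∉ P.Y → H.Adj (f a) w))).card :=
            card_biUnion_le
        _ ≤ ∑ _f ∈ h.E2, N1 * k := by
            apply sum_le_sum
            intro f hf
            have hfc := hE2' f hf
            refine card_biUnion_le.trans ?_
            calc _ ≤ ∑ _i ∈ range N1, k := by
                  apply sum_le_sum
                  intro i hi
                  exact (close_full H F hA.hH P.Y P.comp P.sd P.hY cl ix 2 6 3 (by norm_num)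
                    (by norm_num) (by norm_num) f (h.hE2 f hf).1 hfc i (h.n6 i (mem_range.mp hi))
                    (hA.x3 f hf) (by
                      intro a _ y hy _
                      exact hA.x1 _ _ (h.c20 _ _ (hfc a) (Or.inr hy))
                        (Or.inr (Or.inl ⟨hfc a, Or.inr (Or.inr (Or.inl hy))⟩))) (by
                      intro y z hy hiy hz hiz
                      exact (hA.x1 _ _ (h.c35 _ _ hz (Or.inr hy) (hiz.trans hiy.symm))
                        (Or.inr (Or.inr (Or.inl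
                          ⟨hz, Or.inr hy, hiz.trans hiy.symm⟩)))).symm)).le
              _ = N1 * k := by rw [sum_const, card_range, smul_eq_mul]
        _ = h.E2.card * (N1 * k) := by rw [sum_const, smul_eq_mul]
    calc (S2.card : ℝ) ≤ (h.E2.card : ℝ) * (N1 * k) := by exact_mod_cast h1
      _ ≤ _ := mul_le_mul_of_nonneg_right h.hE2c (by positivity)
  have epr : ((prs (fun x y => cl x = 2 ∧ cl y = 3 ∧ H.Adj x y)).card : ℝ) =
      ∑ y : V, ((univ.filter (fun x => cl x = 2 ∧ cl y = 3 ∧ H.Adj x y)).card : ℝ) := by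
    rw [prs_sum]
    push_cast
    apply sum_congr rfl
    intro y _
    congr!
  rw [epr]
  have hpt : ∀ y : V, ((univ.filter (fun x => cl x = 2 ∧ cl y = 3 ∧ H.Adj x y)).card : ℝ) ≤
      δ * ((cls cl 2).card : ℝ) + (if y ∈ S2 then ((cls cl 2).card : ℝ) else 0) := by
    intro y
    let D := univ.filter (fun x => cl x = 2 ∧ cl y = 3 ∧ H.Adj x y)
    have hDs : D ⊆ cls cl 2 := by
      intro x hx
      rw [hmc]
      exact (mem_filter.mp hx).2.1
    have hall : (D.card : ℝ) ≤ ((cls cl 2).card : ℝ) := by exact_mod_cast card_le_card hDs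
    have h0 : (0 : ℝ) ≤ ((cls cl 2).card : ℝ) := Nat.cast_nonneg _
    have hδ0 : 0 ≤ δ * ((cls cl 2).card : ℝ) := by positivity
    change (D.card : ℝ) ≤ _
    by_cases h2 : y ∈ S2
    · rw [if_pos h2]; linarith
    · rw [if_neg h2, add_zero]
      by_contra hlt
      push Not at hlt
      have hy3 : cl y = 3 := by
        by_contra hne
        have : D = ∅ := by
          rw [filter_eq_empty_iff]
          intro x _ h
          exact hne h.2.1
        rw [this, card_empty, Nat.cast_zero] at hlt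
        linarith
      obtain ⟨f, hf1, hf2⟩ := h.hd2 D hDs (by
        intro i
        rw [inter_eq_left.mpr hDs]
        exact hlt.le)
      apply h2
      refine mem_filter.mpr ⟨mem_univ _, hy3, f, hf1, ?_⟩
      intro a _
      exact (mem_filter.mp (hf2 a)).2.2.2
  calc ∑ y : V, ((univ.filter (fun x => cl x = 2 ∧ cl y = 3 ∧ H.Adj x y)).card : ℝ)
      ≤ ∑ y : V, (δ * ((cls cl 2).card : ℝ) + (if y ∈ S2 then ((cls cl 2).card : ℝ) else 0)) :=
        sum_le_sum (fun y _ => hpt y)
    _ = δ * ((cls cl 2).card : ℝ) * (Fintype.card V : ℝ) + ((cls cl 2).card : ℝ) * (S2.card : ℝ) := by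
        rw [sum_add_distrib, sum_const, card_univ, nsmul_eq_mul,
          ← sum_filter, sum_const, nsmul_eq_mul,
          filter_mem_eq_inter, univ_inter]
        ring
    _ ≤ _ := by
        have := mul_le_mul_of_nonneg_left hS2 (Nat.cast_nonneg (α := ℝ) (cls cl 2).card)
        linarith

end

end Pool.Agent.H42.Sat
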