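import Pool.Agent.H42.Sat.Det3

set_option autoImplicit false
set_option linter.unusedSectionVars false

/-! The deterministic upper bound, assembled. -/

namespace Pool.Agent.H42.Sat

open Finset Classical

section
variable {V : Type} [Fintype V]
variable {G : SimpleGraph V} {k : ℕ} {F : SimpleGraph (Fin k)} {s ρ c : ℕ}
    {P : Split F s ρ c} {cl ix : V → ℕ} {N1 N2 : ℕ} {δ C : ℝ}

theorem cover9 (H G' : SimpleGraph V) (cl ix : V → ℕ) (δ : ℝ) (hcl : ∀ x, cl x ≤ 7)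
    (hle : H ≤ G') (hj : ∀ x y, cl x = 4 → cl y = 4 → x ≠ y →
      2 * δ * ((cls cl 2).card : ℝ) ≤ ((jn G' cl ix x y).card : ℝ)) :
    ∀ x y, H.Adj x y →
      (((cl x = 0 ∨ cl x = 5 ∨ cl x = 6) ∧ y ∈ (univ : Finset V)) ∨
       ((cl y = 0 ∨ cl y = 5 ∨ cl y = 6) ∧ x ∈ (univ : Finset V))) ∨
      ((cl x = 1 ∧ (cl y = 3 ∨ cl y = 4 ∨ cl y = 7) ∧ G'.Adj x y) ∨
       (cl y = 1 ∧ (cl x = 3 ∨ cl x = 4 ∨ cl x = 7) ∧ G'.Adj y x)) ∨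
      ((cl x = 1 ∨ cl x = 2 ∨ cl x = 7) ∧ (cl y = 1 ∨ cl y = 2 ∨ cl y = 7)) ∨
      ((cl x = 2 ∧ cl y = 4) ∨ (cl y = 2 ∧ cl x = 4)) ∨
      ((cl x = 2 ∧ cl y = 3 ∧ H.Adj x y) ∨ (cl y = 2 ∧ cl x = 3 ∧ H.Adj y x)) ∨
      ((cl x = 7 ∧ cl y = 4) ∨ (cl y = 7 ∧ cl x = 4)) ∨
      (rich1 G' H cl δ x y ∨ rich1 G' H cl δ y x) ∨
      (((cl x = 3 ∨ cl x = 4 ∨ cl x = 7) ∧ cl y = 3 ∧ x ≠ y ∧
        ((cn G' cl 1 x y).card : ℝ) < 2 * δ * ((cls cl 1).card : ℝ)) ∨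
       ((cl y = 3 ∨ cl y = 4 ∨ cl y = 7) ∧ cl x = 3 ∧ y ≠ x ∧
        ((cn G' cl 1 y x).card : ℝ) < 2 * δ * ((cls cl 1).card : ℝ))) ∨
      rich2 G' H cl ix δ x y := by
  intro x y hxy
  have hG := hle hxy
  have hcx := hcl x
  have hcy := hcl y
  have hmain : ∀ x y, H.Adj x y → (cl x = 3 ∨ cl x = 4 ∨ cl x = 7) → cl y = 3 →
      rich1 G' H cl δ x y ∨ ((cl x = 3 ∨ cl x = 4 ∨ cl x = 7) ∧ cl y = 3 ∧ x ≠ y ∧
        ((cn G' cl 1 x y).card : ℝ) < 2 * δ * ((cls cl 1).card : ℝ)) := by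
    intro x y hxy h1 h2
    by_cases hr : 2 * δ * ((cls cl 1).card : ℝ) ≤ ((cn G' cl 1 x y).card : ℝ)
    · exact Or.inl ⟨h1, h2, hxy, hr⟩
    · push Not at hr
      exact Or.inr ⟨h1, h2, hxy.ne, hr⟩
  by_cases z1 : (cl x = 0 ∨ cl x = 5 ∨ cl x = 6)
  · exact Or.inl (Or.inl ⟨z1, mem_univ _⟩)
  by_cases z2 : (cl y = 0 ∨ cl y = 5 ∨ cl y = 6)
  · exact Or.inl (Or.inr ⟨z2, mem_univ _⟩)
  right
  by_cases w1 : cl x = 1 ∧ (cl y = 3 ∨ cl y = 4 ∨ cl y = 7)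
  · exact Or.inl (Or.inl ⟨w1.1, w1.2, hG⟩)
  by_cases w2 : cl y = 1 ∧ (cl x = 3 ∨ cl x = 4 ∨ cl x = 7)
  · exact Or.inl (Or.inr ⟨w2.1, w2.2, hG.symm⟩)
  right
  by_cases w3 : (cl x = 1 ∨ cl x = 2 ∨ cl x = 7) ∧ (cl y = 1 ∨ cl y = 2 ∨ cl y = 7)
  · exact Or.inl w3
  right
  by_cases w4 : (cl x = 2 ∧ cl y = 4) ∨ (cl y = 2 ∧ cl x = 4)
  · exact Or.inl w4
  right
  by_cases w5 : cl x = 2 ∧ cl y = 3
  · exact Or.inl (Or.inl ⟨w5.1, w5.2, hxy⟩)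
  by_cases w6 : cl y = 2 ∧ cl x = 3
  · exact Or.inl (Or.inr ⟨w6.1, w6.2, hxy.symm⟩)
  right
  by_cases w7 : (cl x = 7 ∧ cl y = 4) ∨ (cl y = 7 ∧ cl x = 4)
  · exact Or.inl w7
  right
  have nx : cl x ≠ 0 ∧ cl x ≠ 5 ∧ cl x ≠ 6 :=
    ⟨fun h => z1 (Or.inl h), fun h => z1 (Or.inr (Or.inl h)), fun h => z1 (Or.inr (Or.inr h))⟩
  have ny : cl y ≠ 0 ∧ cl y ≠ 5 ∧ cl y ≠ 6 :=
    ⟨fun h => z2 (Or.inl h), fun h => z2 (Or.inr (Or.inl h)), fun h => z2 (Or.inr (Or.inr h))⟩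
  obtain ⟨nx0, nx5, nx6⟩ := nx
  obtain ⟨ny0, ny5, ny6⟩ := ny
  by_cases w8 : cl y = 3
  · have hx' : cl x = 3 ∨ cl x = 4 ∨ cl x = 7 := by
      have e1 : cl x ≠ 1 := fun h => w1 ⟨h, Or.inl w8⟩
      have e2 : cl x ≠ 2 := fun h => w5 ⟨h, w8⟩
      clear w1 w2 w3 w4 w5 w6 w7 z1 z2 hmain hj
      omega
    rcases hmain x y hxy hx' w8 with h | h
    · exact Or.inl (Or.inl h)
    · exact Or.inr (Or.inl (Or.inl h))
  by_cases w9 : cl x = 3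
  · have hy' : cl y = 3 ∨ cl y = 4 ∨ cl y = 7 := by
      have e1 : cl y ≠ 1 := fun h => w2 ⟨h, Or.inl w9⟩
      have e2 : cl y ≠ 2 := fun h => w6 ⟨h, w9⟩
      clear w1 w2 w3 w4 w5 w6 w7 z1 z2 hmain hj
      omega
    rcases hmain y x hxy.symm hy' w9 with h | h
    · exact Or.inl (Or.inr h)
    · exact Or.inr (Or.inl (Or.inr h))
  right
  right
  have hx' : cl x = 1 ∨ cl x = 2 ∨ cl x = 4 ∨ cl x = 7 := by
    clear w1 w2 w3 w4 w5 w6 w7 z1 z2 hmain hj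
    omega
  have hy' : cl y = 1 ∨ cl y = 2 ∨ cl y = 4 ∨ cl y = 7 := by
    clear w1 w2 w3 w4 w5 w6 w7 z1 z2 hmain hj hx'
    omega
  have h44 : cl x = 4 ∧ cl y = 4 := by
    rcases hx' with a | a | a | a
    · rcases hy' with b | b | b | b
      · exact (w3 ⟨Or.inl a, Or.inl b⟩).elim
      · exact (w3 ⟨Or.inl a, Or.inr (Or.inl b)⟩).elim
      · exact (w1 ⟨a, Or.inr (Or.inl b)⟩).elim
      · exact (w3 ⟨Or.inl a, Or.inr (Or.inr b)⟩).elim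
    · rcases hy' with b | b | b | b
      · exact (w3 ⟨Or.inr (Or.inl a), Or.inl b⟩).elim
      · exact (w3 ⟨Or.inr (Or.inl a), Or.inr (Or.inl b)⟩).elim
      · exact (w4 (Or.inl ⟨a, b⟩)).elim
      · exact (w3 ⟨Or.inr (Or.inl a), Or.inr (Or.inr b)⟩).elim
    · rcases hy' with b | b | b | b
      · exact (w2 ⟨b, Or.inr (Or.inl a)⟩).elim
      · exact (w4 (Or.inr ⟨b, a⟩)).elim
      · exact ⟨a, b⟩
      · exact (w7 (Or.inr ⟨b, a⟩)).elim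
    · rcases hy' with b | b | b | b
      · exact (w3 ⟨Or.inr (Or.inr a), Or.inl b⟩).elim
      · exact (w3 ⟨Or.inr (Or.inr a), Or.inr (Or.inl b)⟩).elim
      · exact (w7 (Or.inl ⟨a, b⟩)).elim
      · exact (w3 ⟨Or.inr (Or.inr a), Or.inr (Or.inr b)⟩).elim
  exact ⟨h44.1, h44.2, hxy, hj x y h44.1 h44.2 hxy.ne⟩

theorem det_upper (htri : ∀ u v, F.Adj u v → ∃ w, F.Adj u w ∧ F.Adj v w) (hs : 0 < s)
    (hnf : ¬ Fits F s ρ c) (hk : 0 < k) (hδ : 0 < δ) (hC : 0 < C)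
    (h : Host G F P cl ix N1 N2 δ C)
    (hA1 : 0 < (cls cl 1).card) (hA2 : 0 < (cls cl 2).card) :
    ∃ H : SimpleGraph V, SatIn F G H ∧ 2 * (H.edgeSet.ncard : ℝ) ≤
      2 * (((univ.filter (fun x => cl x = 0 ∨ cl x = 5 ∨ cl x = 6)).card : ℝ) *
        (Fintype.card V : ℝ)) +
      2 * ((prs (fun x y => cl x = 1 ∧ (cl y = 3 ∨ cl y = 4 ∨ cl y = 7) ∧ G.Adj x y)).card : ℝ) +
      ((univ.filter (fun x => cl x = 1 ∨ cl x = 2 ∨ cl x = 7)).card : ℝ) ^ 2 +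
      2 * (((cls cl 2).card : ℝ) * ((cls cl 4).card : ℝ)) +
      2 * (δ * ((cls cl 2).card : ℝ) * (Fintype.card V : ℝ) +
        ((cls cl 2).card : ℝ) * (C * ((cls cl 2).card : ℝ) * (N1 * k))) +
      2 * (((cls cl 7).card : ℝ) * ((cls cl 4).card : ℝ)) +
      2 * ((k : ℝ) ^ 2 * C / δ * ((Fintype.card V : ℝ) * N1)) +
      2 * ((prs (fun x y => (cl x = 3 ∨ cl x = 4 ∨ cl x = 7) ∧ cl y = 3 ∧ x ≠ y ∧
        ((cn G cl 1 x y).card : ℝ) < 2 * δ * ((cls cl 1).card : ℝ))).card : ℝ) +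
      (k : ℝ) ^ 2 * C / δ * (((cls cl 4).card : ℝ) * N2) := by
  obtain ⟨H0, h01, h02, h03, h04, h05, h06⟩ := h.free htri hs hnf
  obtain ⟨H, hH1, hH2, hH3, hH4⟩ := exists_sat G H0 h01 F h02
  refine ⟨H, ⟨hH2, hH3, hH4⟩, ?_⟩
  have hA : Above h H := {
    hH := hH3
    x1 := fun x y h1 h2 => hH1 (h03 x y h1 h2)
    x2 := fun f hf a ha b hb hab => hH1 (h04 f hf a ha b hb hab)
    x3 := fun f hf a ha b hb hab => hH1 (h05 f hf a ha b hb hab)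
    x4 := fun a ha b hb hca hcb hab => hH1 (h06 a ha b hb hca hcb hab) }
  have B1 := bound_rich1 hk hδ hC h H hA hA1
  have B2 := bound_rich2 hk hδ hC h H hA hA2
  have B3 := bound_hub2 hδ hC h H hA
  rw [← ncard_prs]
  obtain ⟨Q0, hQ0⟩ : ∃ Q : V → V → Prop, Q = fun x y =>
    (cl x = 0 ∨ cl x = 5 ∨ cl x = 6) ∧ y ∈ (univ : Finset V) := ⟨_, rfl⟩
  obtain ⟨Q1, hQ1⟩ : ∃ Q : V → V → Prop, Q = fun x y =>
    cl x = 1 ∧ (cl y = 3 ∨ cl y = 4 ∨ cl y = 7) ∧ G.Adj x y := ⟨_, rfl⟩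
  obtain ⟨Q2, hQ2⟩ : ∃ Q : V → V → Prop, Q = fun x y =>
    (cl x = 1 ∨ cl x = 2 ∨ cl x = 7) ∧ (cl y = 1 ∨ cl y = 2 ∨ cl y = 7) := ⟨_, rfl⟩
  obtain ⟨Q3, hQ3⟩ : ∃ Q : V → V → Prop, Q = fun x y => cl x = 2 ∧ cl y = 4 := ⟨_, rfl⟩
  obtain ⟨Q4, hQ4⟩ : ∃ Q : V → V → Prop, Q = fun x y => cl x = 2 ∧ cl y = 3 ∧ H.Adj x y :=
    ⟨_, rfl⟩
  obtain ⟨Q5, hQ5⟩ : ∃ Q : V → V → Prop, Q = fun x y => cl x = 7 ∧ cl y = 4 := ⟨_, rfl⟩
  obtain ⟨Q7, hQ7⟩ : ∃ Q : V → V → Prop, Q = fun x y =>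
    (cl x = 3 ∨ cl x = 4 ∨ cl x = 7) ∧ cl y = 3 ∧ x ≠ y ∧
        ((cn G cl 1 x y).card : ℝ) < 2 * δ * ((cls cl 1).card : ℝ) := ⟨_, rfl⟩
  have hcover : ∀ x y, H.Adj x y → (Q0 x y ∨ Q0 y x) ∨ (Q1 x y ∨ Q1 y x) ∨ Q2 x y ∨
      (Q3 x y ∨ Q3 y x) ∨ (Q4 x y ∨ Q4 y x) ∨ (Q5 x y ∨ Q5 y x) ∨
      (rich1 G H cl δ x y ∨ rich1 G H cl δ y x) ∨ (Q7 x y ∨ Q7 y x) ∨ rich2 G H cl ix δ x y := by
    rw [hQ0, hQ1, hQ2, hQ3, hQ4, hQ5, hQ7]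
    exact cover9 H G cl ix δ h.hcl hH2 h.hj
  have hcnt := prs_mono hcover
  have e0 := prs_sym Q0
  have e1 := prs_sym Q1
  have e3 := prs_sym Q3
  have e4 := prs_sym Q4
  have e5 := prs_sym Q5
  have e6 := prs_sym (rich1 G H cl δ)
  have e7 := prs_sym Q7
  have p0 : (prs Q0).card =
      (univ.filter (fun x => cl x = 0 ∨ cl x = 5 ∨ cl x = 6)).card * Fintype.card V := by
    rw [← card_univ, ← prs_prod]
    congr 1
    ext x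
    rw [mem_prs, mem_prs, hQ0, mem_filter]
    simp
  have p2 : (prs Q2).card = (univ.filter (fun x => cl x = 1 ∨ cl x = 2 ∨ cl x = 7)).card *
      (univ.filter (fun x => cl x = 1 ∨ cl x = 2 ∨ cl x = 7)).card := by
    rw [← prs_prod]
    congr 1
    ext x
    rw [mem_prs, mem_prs, hQ2, mem_filter, mem_filter]
    simp
  have p3 : (prs Q3).card = (cls cl 2).card * (cls cl 4).card := by
    rw [← prs_prod]
    congr 1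
    ext x
    rw [mem_prs, mem_prs, hQ3]
    simp [cls]
  have p5 : (prs Q5).card = (cls cl 7).card * (cls cl 4).card := by
    rw [← prs_prod]
    congr 1
    ext x
    rw [mem_prs, mem_prs, hQ5]
    simp [cls]
  have hfin : (prs (fun x y => H.Adj x y)).card ≤
      2 * ((univ.filter (fun x => cl x = 0 ∨ cl x = 5 ∨ cl x = 6)).card * Fintype.card V) +
      (2 * (prs Q1).card + ((univ.filter (fun x => cl x = 1 ∨ cl x = 2 ∨ cl x = 7)).card *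
      (univ.filter (fun x => cl x = 1 ∨ cl x = 2 ∨ cl x = 7)).card +
      (2 * ((cls cl 2).card * (cls cl 4).card) +
      (2 * (prs Q4).card + (2 * ((cls cl 7).card * (cls cl 4).card) +
      (2 * (prs (rich1 G H cl δ)).card + (2 * (prs Q7).card +
      (prs (rich2 G H cl ix δ)).card))))))) := by
    rw [← p0, ← p2, ← p3, ← p5]
    refine hcnt.trans ?_
    refine (prs_or _ _).trans (Nat.add_le_add e0 ?_)
    refine (prs_or _ _).trans (Nat.add_le_add e1 ?_)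
    refine (prs_or _ _).trans (Nat.add_le_add le_rfl ?_)
    refine (prs_or _ _).trans (Nat.add_le_add e3 ?_)
    refine (prs_or _ _).trans (Nat.add_le_add e4 ?_)
    refine (prs_or _ _).trans (Nat.add_le_add e5 ?_)
    refine (prs_or _ _).trans (Nat.add_le_add e6 ?_)
    exact (prs_or _ _).trans (Nat.add_le_add e7 le_rfl)
  have hfinr : ((prs (fun x y => H.Adj x y)).card : ℝ) ≤
      2 * (((univ.filter (fun x => cl x = 0 ∨ cl x = 5 ∨ cl x = 6)).card : ℝ) *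
        (Fintype.card V : ℝ)) +
      (2 * ((prs Q1).card : ℝ) + (((univ.filter (fun x => cl x = 1 ∨ cl x = 2 ∨ cl x = 7)).card : ℝ) *
      ((univ.filter (fun x => cl x = 1 ∨ cl x = 2 ∨ cl x = 7)).card : ℝ) +
      (2 * (((cls cl 2).card : ℝ) * ((cls cl 4).card : ℝ)) +
      (2 * ((prs Q4).card : ℝ) + (2 * (((cls cl 7).card : ℝ) * ((cls cl 4).card : ℝ)) +
      (2 * ((prs (rich1 G H cl δ)).card : ℝ) + (2 * ((prs Q7).card : ℝ) +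
      ((prs (rich2 G H cl ix δ)).card : ℝ)))))))) := by exact_mod_cast hfin
  rw [← hQ4] at B3
  rw [← hQ1, ← hQ7]
  rw [sq]
  linarith

end

end Pool.Agent.H42.Sat
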