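import Pool.Agent.H42.Sat.Det4

set_option autoImplicit false
set_option linter.unusedSectionVars false

/-! The deterministic bound with explicit sizes. -/

namespace Pool.Agent.H42.Sat

open Finset Classical

section
variable {V : Type} [Fintype V]

/-- hubs and bulk -/
noncomputable def bb (st : V → ℕ) (A1 A2 : Finset V) (x : V) : ℕ :=
  if x ∈ A1 then 1 else if x ∈ A2 then 2 else if st x = 7 then 3 else st x

/-- `x` is completely joined to block `i` -/
def full (G : SimpleGraph V) (st ix : V → ℕ) (x : V) (i : ℕ) : Prop :=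
  ∀ y, (st y = 5 ∨ st y = 6) → ix y = i → G.Adj x y

/-- `x` is completely joined to the small side `j` -/
def full7 (G : SimpleGraph V) (st ix : V → ℕ) (x : V) (j : ℕ) : Prop :=
  ∀ y, st y = 7 → ix y = j → G.Adj x y

/-- `x` is completely joined to some block -/
def hasB (G : SimpleGraph V) (st ix : V → ℕ) (N1 : ℕ) (x : V) : Prop :=
  ∃ i, i < N1 ∧ full G st ix x i

/-- the vertices of the second hub joined to `x`, `y` and the small side `j` -/
noncomputable def jset (G : SimpleGraph V) (st ix : V → ℕ) (A2 : Finset V) (x y : V) (j : ℕ) :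
    Finset V :=
  A2.filter (fun z => G.Adj x z ∧ G.Adj y z ∧ full7 G st ix z j)

/-- the static classes -/
structure Layout (st ix : V → ℕ) (z0 N1 N2 ρ k : ℕ) : Prop where
  hst : ∀ x, st x = 0 ∨ st x = 3 ∨ st x = 5 ∨ st x = 6 ∨ st x = 7
  h0 : (univ.filter (fun x => st x = 0)).card = z0
  h056 : (univ.filter (fun x => st x = 0 ∨ st x = 5 ∨ st x = 6)).card = z0 + N1 * (ρ + k)
  h5 : ∀ i, i < N1 → (univ.filter (fun x => st x = 5 ∧ ix x = i)).card = ρ
  h5' : ∀ i, (univ.filter (fun x => st x = 5 ∧ ix x = i)).card ≤ ρ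
  h6 : ∀ i, i < N1 → (univ.filter (fun x => st x = 6 ∧ ix x = i)).card = k
  h7 : ∀ i, i < N2 → (univ.filter (fun x => st x = 7 ∧ ix x = i)).card = ρ
  h7' : ∀ i, (univ.filter (fun x => st x = 7 ∧ ix x = i)).card ≤ ρ
  h7t : (univ.filter (fun x => st x = 7)).card = N2 * ρ

theorem det_num {G : SimpleGraph V} {k : ℕ} {F : SimpleGraph (Fin k)} {s ρ c : ℕ}
    (htri : ∀ u v, F.Adj u v → ∃ w, F.Adj u w ∧ F.Adj v w) (hs : 0 < s)
    (hnf : ¬ Fits F s ρ c) (P : Split F s ρ c) (hk : 0 < k) {δ C : ℝ} (hδ : 0 < δ)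
    (hδ1 : δ ≤ 1) (hC : 0 < C)
    {st ix : V → ℕ} {z0 N1 N2 : ℕ} (hL : Layout st ix z0 N1 N2 ρ k)
    (A1 A2 : Finset V) (hdis : Disjoint A1 A2) (s1 : ∀ x ∈ A1, st x = 3) (s2 : ∀ x ∈ A2, st x = 3)
    (a1 : ∀ x ∈ A1, ∀ y, (st y = 0 ∨ st y = 5 ∨ st y = 6) → G.Adj x y)
    (a2 : ∀ x ∈ A2, ∀ y, (st y = 0 ∨ st y = 5 ∨ st y = 6) → G.Adj x y)
    (m1 m2 : ℕ) (hm1 : A1.card = m1) (hm2 : A2.card = m2) (hm1p : 0 < m1) (hm2p : 0 < m2)
    (d1 : DesignFor G (off F P.Y) (fun _ => A1) A1 δ C k)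
    (d2 : DesignFor G (off F P.Y) (fun _ => A2) A2 δ C k)
    (d0 : DesignFor G F (fun _ => cls st 0) (cls st 0) δ C k)
    (s₀ η X1 : ℝ) (hη : 0 ≤ η)
    (g1 : ((prs (fun x y => bb st A1 A2 x = 1 ∧ bb st A1 A2 y = 3 ∧ G.Adj x y)).card : ℝ) ≤ X1)
    (g2 : ((prs (fun x y => bb st A1 A2 x = 3 ∧ bb st A1 A2 y = 3 ∧ x ≠ y ∧
      s₀ ≤ ((nb G (bb st A1 A2) 1 x).card : ℝ) ∧
      ((cn G (bb st A1 A2) 1 x y).card : ℝ) < 2 * δ * m1)).card : ℝ) ≤ η * (Fintype.card V : ℝ))
    (g3 : ((univ.filter (fun x => bb st A1 A2 x = 3 ∧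
      ((nb G (bb st A1 A2) 1 x).card : ℝ) < s₀)).card : ℝ) ≤ η * (Fintype.card V : ℝ))
    (g4 : ((univ.filter (fun x => st x = 3 ∧ ¬ hasB G st ix N1 x)).card : ℝ) ≤
      η * (Fintype.card V : ℝ))
    (g8 : ∀ x y, st x = 3 → st y = 3 → x ∉ A2 → y ∉ A2 → x ≠ y → ∀ j, j < N2 →
      2 * δ * (m2 : ℝ) ≤ ((jset G st ix A2 x y j).card : ℝ))
    (g9 : ∀ x, st x = 3 → ∃ j, j < N2 ∧ full7 G st ix x j) :
    ∃ H : SimpleGraph V, SatIn F G H ∧ 2 * (H.edgeSet.ncard : ℝ) ≤
      2 * (((z0 + N1 * (ρ + k) : ℕ) : ℝ) * (Fintype.card V : ℝ)) + 2 * X1 +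
      ((m1 + m2 + N2 * ρ : ℕ) : ℝ) ^ 2 +
      2 * ((m2 : ℝ) * (2 * (η * (Fintype.card V : ℝ)))) +
      2 * (δ * (m2 : ℝ) * (Fintype.card V : ℝ) + (m2 : ℝ) * (C * (m2 : ℝ) * (N1 * k))) +
      2 * (((N2 * ρ : ℕ) : ℝ) * (2 * (η * (Fintype.card V : ℝ)))) +
      2 * ((k : ℝ) ^ 2 * C / δ * ((Fintype.card V : ℝ) * N1)) +
      2 * (η * (Fintype.card V : ℝ)) +
      (k : ℝ) ^ 2 * C / δ * (2 * (η * (Fintype.card V : ℝ)) * N2) := by
  have hnot12 : ∀ x, x ∈ A1 → x ∉ A2 := fun x h => disjoint_left.mp hdis h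
  obtain ⟨b, hb⟩ : ∃ b : V → ℕ, b = bb st A1 A2 := ⟨_, rfl⟩
  rw [← hb] at g1 g2 g3
  have hbv : ∀ x, b x = if x ∈ A1 then 1 else if x ∈ A2 then 2 else if st x = 7 then 3 else st x := by
    intro x; rw [hb]; rfl
  obtain ⟨good, hgood⟩ : ∃ good : V → Prop, ∀ x, good x ↔
      (hasB G st ix N1 x ∧ s₀ ≤ ((nb G b 1 x).card : ℝ)) := ⟨_, fun _ => Iff.rfl⟩
  obtain ⟨cl, hcl⟩ : ∃ cl : V → ℕ, ∀ x, cl x = if x ∈ A1 then 1 else if x ∈ A2 then 2 else
      if st x = 3 then (if good x then 3 else 4) else st x := ⟨_, fun _ => rfl⟩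
  have hgi : ∀ x, ∃ i, hasB G st ix N1 x → i < N1 ∧ full G st ix x i := by
    intro x
    by_cases h : hasB G st ix N1 x
    · obtain ⟨i, hi⟩ := h
      exact ⟨i, fun _ => hi⟩
    · exact ⟨0, fun h' => (h h').elim⟩
  choose gi hgi using hgi
  have hgj : ∀ x, ∃ j, st x = 3 → j < N2 ∧ full7 G st ix x j := by
    intro x
    by_cases h : st x = 3
    · obtain ⟨j, hj⟩ := g9 x h
      exact ⟨j, fun _ => hj⟩
    · exact ⟨0, fun h' => (h h').elim⟩
  choose gj hgj using hgj
  obtain ⟨jx, hjx⟩ : ∃ jx : V → ℕ, ∀ x, jx x = if cl x = 3 then gi x else if cl x = 4 then gj x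
      else ix x := ⟨_, fun _ => rfl⟩
  -- classes
  have c1 : ∀ x, cl x = 1 ↔ x ∈ A1 := by
    intro x
    rw [hcl]
    have := hL.hst x
    constructor
    · intro h
      by_contra hx
      rw [if_neg hx] at h
      split_ifs at h <;> omega
    · intro h
      rw [if_pos h]
  have c2 : ∀ x, cl x = 2 ↔ x ∈ A2 := by
    intro x
    rw [hcl]
    have := hL.hst x
    constructor
    · intro h
      by_contra hx
      rw [if_neg hx] at h
      split_ifs at h <;> omega
    · intro h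
      have h' : x ∉ A1 := fun h1 => hnot12 x h1 h
      rw [if_neg h', if_pos h]
  have cs : ∀ j, (j = 0 ∨ j = 5 ∨ j = 6 ∨ j = 7) → ∀ x, cl x = j ↔ st x = j := by
    intro j hj x
    rw [hcl]
    have := hL.hst x
    by_cases h1 : x ∈ A1
    · rw [if_pos h1]
      have := s1 x h1
      omega
    · rw [if_neg h1]
      by_cases h2 : x ∈ A2
      · rw [if_pos h2]
        have := s2 x h2
        omega
      · rw [if_neg h2]
        split_ifs <;> omega
  have c3 : ∀ x, cl x = 3 → x ∉ A1 ∧ x ∉ A2 ∧ st x = 3 ∧ good x := by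
    intro x h
    rw [hcl] at h
    by_cases h1 : x ∈ A1
    · rw [if_pos h1] at h; omega
    rw [if_neg h1] at h
    by_cases h2 : x ∈ A2
    · rw [if_pos h2] at h; omega
    rw [if_neg h2] at h
    by_cases h3 : st x = 3
    · rw [if_pos h3] at h
      by_cases h4 : good x
      · exact ⟨h1, h2, h3, h4⟩
      · rw [if_neg h4] at h; omega
    · rw [if_neg h3] at h; exact (h3 h).elim
  have c4 : ∀ x, cl x = 4 → x ∉ A1 ∧ x ∉ A2 ∧ st x = 3 ∧ ¬ good x := by
    intro x h
    rw [hcl] at h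
    have := hL.hst x
    by_cases h1 : x ∈ A1
    · rw [if_pos h1] at h; omega
    rw [if_neg h1] at h
    by_cases h2 : x ∈ A2
    · rw [if_pos h2] at h; omega
    rw [if_neg h2] at h
    by_cases h3 : st x = 3
    · rw [if_pos h3] at h
      by_cases h4 : good x
      · rw [if_pos h4] at h; omega
      · exact ⟨h1, h2, h3, h4⟩
    · rw [if_neg h3] at h; omega
  have hcl7 : ∀ x, cl x ≤ 7 := by
    intro x
    rw [hcl]
    have := hL.hst x
    split_ifs <;> omega
  have b1 : ∀ x, b x = 1 ↔ cl x = 1 := by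
    intro x
    rw [c1, hbv]
    have := hL.hst x
    constructor
    · intro h
      by_contra hx
      rw [if_neg hx] at h
      split_ifs at h <;> omega
    · intro h
      rw [if_pos h]
  have b3 : ∀ x, b x = 3 ↔ (cl x = 3 ∨ cl x = 4 ∨ cl x = 7) := by
    intro x
    rw [hcl, hbv]
    have := hL.hst x
    by_cases h1 : x ∈ A1
    · simp only [if_pos h1]; omega
    · simp only [if_neg h1]
      by_cases h2 : x ∈ A2
      · simp only [if_pos h2]; omega
      · simp only [if_neg h2]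
        split_ifs <;> omega
  have jx5 : ∀ x, (cl x = 5 ∨ cl x = 6 ∨ cl x = 7) → jx x = ix x := by
    intro x h
    rw [hjx, if_neg (by omega), if_neg (by omega)]
  have e1 : cls cl 1 = A1 := by
    ext x
    simp only [cls, mem_filter, mem_univ, true_and, c1]
  have e2 : cls cl 2 = A2 := by
    ext x
    simp only [cls, mem_filter, mem_univ, true_and, c2]
  have enb : ∀ x, nb G b 1 x = nb G cl 1 x := by
    intro x
    ext z
    simp only [nb, mem_filter, mem_univ, true_and, b1]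
  have ecn : ∀ x y, cn G b 1 x y = cn G cl 1 x y := by
    intro x y
    ext z
    simp only [cn, mem_filter, mem_univ, true_and, b1]
  obtain ⟨E1, hE1a, hE1b, hE1c, hE1d⟩ := d1
  obtain ⟨E2, hE2a, hE2b, hE2c, hE2d⟩ := d2
  obtain ⟨E0, _, hE0b, _, hE0d⟩ := d0
  obtain ⟨q, hqE, _⟩ := hE0d (cls st 0) subset_rfl (by
    intro i
    rw [inter_self]
    exact mul_le_of_le_one_left (Nat.cast_nonneg _) hδ1)
  obtain ⟨hq1, hq2, hq3⟩ := hE0b q hqE
  have h5e : ∀ i, univ.filter (fun x => cl x = 5 ∧ jx x = i) =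
      univ.filter (fun x => st x = 5 ∧ ix x = i) := by
    intro i
    ext x
    simp only [mem_filter, mem_univ, true_and]
    constructor
    · rintro ⟨h1, h2⟩
      rw [jx5 x (by omega)] at h2
      exact ⟨(cs 5 (by omega) x).mp h1, h2⟩
    · rintro ⟨h1, h2⟩
      have h3 := (cs 5 (by omega) x).mpr h1
      exact ⟨h3, by rw [jx5 x (by omega)]; exact h2⟩
  have h6e : ∀ i, univ.filter (fun x => cl x = 6 ∧ jx x = i) =
      univ.filter (fun x => st x = 6 ∧ ix x = i) := by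
    intro i
    ext x
    simp only [mem_filter, mem_univ, true_and]
    constructor
    · rintro ⟨h1, h2⟩
      rw [jx5 x (by omega)] at h2
      exact ⟨(cs 6 (by omega) x).mp h1, h2⟩
    · rintro ⟨h1, h2⟩
      have h3 := (cs 6 (by omega) x).mpr h1
      exact ⟨h3, by rw [jx5 x (by omega)]; exact h2⟩
  have h7e : ∀ i, univ.filter (fun x => cl x = 7 ∧ jx x = i) =
      univ.filter (fun x => st x = 7 ∧ ix x = i) := by
    intro i
    ext x
    simp only [mem_filter, mem_univ, true_and]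
    constructor
    · rintro ⟨h1, h2⟩
      rw [jx5 x (by omega)] at h2
      exact ⟨(cs 7 (by omega) x).mp h1, h2⟩
    · rintro ⟨h1, h2⟩
      have h3 := (cs 7 (by omega) x).mpr h1
      exact ⟨h3, by rw [jx5 x (by omega)]; exact h2⟩
  have hHost : Host G F P cl jx N1 N2 δ C := {
    hcl := hcl7
    E1 := E1
    E2 := E2
    hE1c := by rw [e1]; exact hE1a
    hE2c := by rw [e2]; exact hE2a
    hE1 := by rw [e1]; exact hE1b
    hE2 := by rw [e2]; exact hE2b
    hfree1 := hE1c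
    hfree2 := hE2c
    hd1 := by
      rw [e1]
      intro Z hZ h
      exact hE1d Z hZ h
    hd2 := by
      rw [e2]
      intro Z hZ h
      exact hE2d Z hZ h
    q := q
    hq := hq1
    hqc := by
      intro a
      exact (cs 0 (by omega) _).mpr (mem_filter.mp (hq2 a)).2
    hqa := fun a b _ _ _ _ h => hq3 a b h
    c10 := by
      intro x y hx hy
      refine a1 x ((c1 x).mp hx) y ?_
      rcases hy with h | h
      · exact Or.inl ((cs 0 (by omega) y).mp h)
      · exact Or.inr (Or.inl ((cs 5 (by omega) y).mp h))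
    c20 := by
      intro x y hx hy
      refine a2 x ((c2 x).mp hx) y ?_
      rcases hy with h | h
      · exact Or.inl ((cs 0 (by omega) y).mp h)
      · exact Or.inr (Or.inr ((cs 6 (by omega) y).mp h))
    c35 := by
      intro x y hx hy hxy
      rw [hjx x, if_pos hx, jx5 y (by omega)] at hxy
      obtain ⟨_, _, _, h4⟩ := c3 x hx
      obtain ⟨_, h5⟩ := hgi x ((hgood x).mp h4).1
      refine h5 y ?_ hxy.symm
      rcases hy with h | h
      · exact Or.inl ((cs 5 (by omega) y).mp h)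
      · exact Or.inr ((cs 6 (by omega) y).mp h)
    c47 := by
      intro x y hx hy hxy
      rw [hjx x, if_neg (by omega), if_pos hx, jx5 y (by omega)] at hxy
      obtain ⟨_, _, h3, _⟩ := c4 x hx
      exact (hgj x h3).2 y ((cs 7 (by omega) y).mp hy) hxy.symm
    i3 := by
      intro x hx
      rw [hjx x, if_pos hx]
      obtain ⟨_, _, _, h4⟩ := c3 x hx
      exact (hgi x ((hgood x).mp h4).1).1
    i4 := by
      intro x hx
      rw [hjx x, if_neg (by omega), if_pos hx]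
      obtain ⟨_, _, h3, _⟩ := c4 x hx
      exact (hgj x h3).1
    n5 := by
      intro i hi
      rw [h5e i]
      exact hL.h5 i hi
    n5' := by
      intro i
      rw [h5e i]
      exact hL.h5' i
    n6 := by
      intro i hi
      rw [h6e i]
      exact (hL.h6 i hi).ge
    n7 := by
      intro i hi
      rw [h7e i]
      exact hL.h7 i hi
    n7' := by
      intro i
      rw [h7e i]
      exact hL.h7' i
    hj := by
      intro x y hx hy hxy
      obtain ⟨_, hx2, hx3, _⟩ := c4 x hx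
      obtain ⟨_, hy2, hy3, _⟩ := c4 y hy
      obtain ⟨hj1, hj2⟩ := hgj y hy3
      have h8 := g8 x y hx3 hy3 hx2 hy2 hxy (gj y) hj1
      have hjy : jx y = gj y := by rw [hjx y, if_neg (by omega), if_pos hy]
      have h9 : jset G st ix A2 x y (gj y) ⊆ jn G cl jx x y := by
        intro z hz
        obtain ⟨hz1, hz2, hz3, hz4⟩ := mem_filter.mp hz
        refine mem_filter.mpr ⟨mem_univ _, (c2 z).mpr hz1, hz2, hz3, ?_⟩
        intro w hw hwy
        rw [hjy, jx5 w (by omega)] at hwy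
        exact (hz4 w ((cs 7 (by omega) w).mp hw) hwy).symm
      rw [e2, hm2]
      refine h8.trans ?_
      exact_mod_cast card_le_card h9 }
  obtain ⟨H, hH1, hH2⟩ := det_upper htri hs hnf hk hδ hC hHost (by rw [e1, hm1]; exact hm1p)
    (by rw [e2, hm2]; exact hm2p)
  refine ⟨H, hH1, ?_⟩
  -- sizes
  have k1 : (univ.filter (fun x => cl x = 0 ∨ cl x = 5 ∨ cl x = 6)).card = z0 + N1 * (ρ + k) := by
    rw [← hL.h056]
    congr 1
    ext x
    simp only [mem_filter, mem_univ, true_and]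
    rw [cs 0 (by omega) x, cs 5 (by omega) x, cs 6 (by omega) x]
  have k7 : (cls cl 7).card = N2 * ρ := by
    rw [← hL.h7t]
    congr 1
    ext x
    simp only [cls, mem_filter, mem_univ, true_and]
    rw [cs 7 (by omega) x]
  have k127 : (univ.filter (fun x => cl x = 1 ∨ cl x = 2 ∨ cl x = 7)).card ≤ m1 + m2 + N2 * ρ := by
    have : univ.filter (fun x => cl x = 1 ∨ cl x = 2 ∨ cl x = 7) ⊆ (A1 ∪ A2) ∪ cls cl 7 := by
      intro x hx
      obtain ⟨_, h | h | h⟩ := mem_filter.mp hx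
      · exact mem_union_left _ (mem_union_left _ ((c1 x).mp h))
      · exact mem_union_left _ (mem_union_right _ ((c2 x).mp h))
      · exact mem_union_right _ (mem_filter.mpr ⟨mem_univ _, h⟩)
    refine (card_le_card this).trans ((card_union_le _ _).trans ?_)
    have h2 := card_union_le A1 A2
    rw [k7]
    omega
  have k4 : ((cls cl 4).card : ℝ) ≤ 2 * (η * (Fintype.card V : ℝ)) := by
    have : cls cl 4 ⊆ univ.filter (fun x => st x = 3 ∧ ¬ hasB G st ix N1 x) ∪
        univ.filter (fun x => b x = 3 ∧ ((nb G b 1 x).card : ℝ) < s₀) := by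
      intro x hx
      have hx4 : cl x = 4 := (mem_filter.mp hx).2
      obtain ⟨_, _, h3, h4⟩ := c4 x hx4
      rw [hgood] at h4
      by_cases h5 : hasB G st ix N1 x
      · apply mem_union_right
        refine mem_filter.mpr ⟨mem_univ _, (b3 x).mpr (by omega), ?_⟩
        by_contra h6
        exact h4 ⟨h5, not_lt.mp h6⟩
      · exact mem_union_left _ (mem_filter.mpr ⟨mem_univ _, h3, h5⟩)
    have h2 := (card_le_card this).trans (card_union_le _ _)
    have h3 : ((cls cl 4).card : ℝ) ≤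
        ((univ.filter (fun x => st x = 3 ∧ ¬ hasB G st ix N1 x)).card : ℝ) +
        ((univ.filter (fun x => b x = 3 ∧ ((nb G b 1 x).card : ℝ) < s₀)).card : ℝ) := by
      exact_mod_cast h2
    linarith
  have kX : ((prs (fun x y => cl x = 1 ∧ (cl y = 3 ∨ cl y = 4 ∨ cl y = 7) ∧ G.Adj x y)).card : ℝ) ≤
      X1 := by
    refine le_trans ?_ g1
    have := prs_mono (P := fun x y => cl x = 1 ∧ (cl y = 3 ∨ cl y = 4 ∨ cl y = 7) ∧ G.Adj x y)
      (Q := fun x y => b x = 1 ∧ b y = 3 ∧ G.Adj x y) (by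
        rintro x y ⟨h1, h2, h3⟩
        exact ⟨(b1 x).mpr h1, (b3 y).mpr h2, h3⟩)
    exact_mod_cast this
  have kP : ((prs (fun x y => (cl x = 3 ∨ cl x = 4 ∨ cl x = 7) ∧ cl y = 3 ∧ x ≠ y ∧
        ((cn G cl 1 x y).card : ℝ) < 2 * δ * ((cls cl 1).card : ℝ))).card : ℝ) ≤
      η * (Fintype.card V : ℝ) := by
    refine le_trans ?_ g2
    have : (prs (fun x y => (cl x = 3 ∨ cl x = 4 ∨ cl x = 7) ∧ cl y = 3 ∧ x ≠ y ∧
        ((cn G cl 1 x y).card : ℝ) < 2 * δ * ((cls cl 1).card : ℝ))).card ≤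
        (prs (fun x y => b x = 3 ∧ b y = 3 ∧ x ≠ y ∧
      s₀ ≤ ((nb G b 1 x).card : ℝ) ∧
      ((cn G b 1 x y).card : ℝ) < 2 * δ * m1)).card := by
      apply card_le_card_of_injOn Prod.swap
      · intro x hx
        rw [mem_coe, mem_prs] at hx
        obtain ⟨h1, h2, h3, h4⟩ := hx
        rw [mem_coe, mem_prs]
        simp only [Prod.fst_swap, Prod.snd_swap]
        obtain ⟨_, _, _, h5⟩ := c3 _ h2
        refine ⟨(b3 _).mpr (Or.inl h2), (b3 _).mpr h1, h3.symm, ((hgood _).mp h5).2, ?_⟩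
        rw [e1, hm1] at h4
        have : cn G b 1 x.2 x.1 = cn G cl 1 x.1 x.2 := by
          rw [ecn]
          ext z
          simp only [cn, mem_filter, mem_univ, true_and]
          constructor
          · rintro ⟨h6, h7, h8⟩
            exact ⟨h6, h8, h7⟩
          · rintro ⟨h6, h7, h8⟩
            exact ⟨h6, h8, h7⟩
        rw [this]
        exact h4
      · exact Prod.swap_injective.injOn
    exact_mod_cast this
  rw [k1, k7, e2, hm2] at hH2
  have hn0 : (0 : ℝ) ≤ (Fintype.card V : ℝ) := Nat.cast_nonneg _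
  have t3 : ((univ.filter (fun x => cl x = 1 ∨ cl x = 2 ∨ cl x = 7)).card : ℝ) ^ 2 ≤
      ((m1 + m2 + N2 * ρ : ℕ) : ℝ) ^ 2 := by
    apply pow_le_pow_left₀ (Nat.cast_nonneg _)
    exact_mod_cast k127
  have t4 : (m2 : ℝ) * ((cls cl 4).card : ℝ) ≤ (m2 : ℝ) * (2 * (η * (Fintype.card V : ℝ))) :=
    mul_le_mul_of_nonneg_left k4 (Nat.cast_nonneg _)
  have t6 : ((N2 * ρ : ℕ) : ℝ) * ((cls cl 4).card : ℝ) ≤
      ((N2 * ρ : ℕ) : ℝ) * (2 * (η * (Fintype.card V : ℝ))) :=
    mul_le_mul_of_nonneg_left k4 (Nat.cast_nonneg _)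
  have t9 : (k : ℝ) ^ 2 * C / δ * (((cls cl 4).card : ℝ) * N2) ≤
      (k : ℝ) ^ 2 * C / δ * (2 * (η * (Fintype.card V : ℝ)) * N2) := by
    apply mul_le_mul_of_nonneg_left _ (by positivity)
    exact mul_le_mul_of_nonneg_right k4 (Nat.cast_nonneg _)
  linarith

end

end Pool.Agent.H42.Sat
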