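import Pool.Agent.H42.Sat.Det5

set_option autoImplicit false
set_option linter.unusedSectionVars false

/-! The events, as properties of the host graph. -/

namespace Pool.Agent.H42.Sat

open Finset Classical

section
variable {V : Type} [Fintype V]

/-- the free vertices -/
def fre (st : V → ℕ) (x : V) : Prop := st x = 3 ∨ st x = 7

/-- events inside the set of free vertices -/
structure EvU (G : SimpleGraph V) (st ix : V → ℕ) (A1 A2 : Finset V) (N2 m1 m2 : ℕ)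
    (q δ s₀ η X1 σ τ : ℝ) : Prop where
  g1 : ((prs (fun x y => bb st A1 A2 x = 1 ∧ bb st A1 A2 y = 3 ∧ G.Adj x y)).card : ℝ) ≤ X1
  g2 : ((prs (fun x y => bb st A1 A2 x = 3 ∧ bb st A1 A2 y = 3 ∧ x ≠ y ∧
      s₀ ≤ ((nb G (bb st A1 A2) 1 x).card : ℝ) ∧
      ((cn G (bb st A1 A2) 1 x y).card : ℝ) < 2 * δ * m1)).card : ℝ) ≤ η * (Fintype.card V : ℝ)
  g3 : ((univ.filter (fun x => bb st A1 A2 x = 3 ∧
      ((nb G (bb st A1 A2) 1 x).card : ℝ) < s₀)).card : ℝ) ≤ η * (Fintype.card V : ℝ)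
  D1 : Dens G A1 q (σ * (A1.card : ℝ)) (τ * (A1.card : ℝ))
  D2 : Dens G A2 q (σ * (A2.card : ℝ)) (τ * (A2.card : ℝ))
  g8 : ∀ x y, st x = 3 → st y = 3 → x ∉ A2 → y ∉ A2 → x ≠ y → ∀ j, j < N2 →
      2 * δ * (m2 : ℝ) ≤ ((jset G st ix A2 x y j).card : ℝ)
  g9 : ∀ x, st x = 3 → ∃ j, j < N2 ∧ full7 G st ix x j

/-- events that involve the special vertices -/
structure EvZ (G : SimpleGraph V) (st ix : V → ℕ) (N1 M : ℕ) (q η σ τ : ℝ) : Prop where
  z1 : M ≤ (univ.filter (fun v => st v = 3 ∧ ∀ a, (st a = 0 ∨ st a = 5 ∨ st a = 6) →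
    G.Adj v a)).card
  z2 : ((univ.filter (fun x => st x = 3 ∧ ¬ hasB G st ix N1 x)).card : ℝ) ≤
      η * (Fintype.card V : ℝ)
  z3 : Dens G (cls st 0) q (σ * ((cls st 0).card : ℝ)) (τ * ((cls st 0).card : ℝ))

theorem Dens.congr {G G' : SimpleGraph V} {Ω : Finset V} {q a b : ℝ} (h : Dens G Ω q a b)
    (hG : ∀ x ∈ Ω, ∀ y ∈ Ω, G.Adj x y ↔ G'.Adj x y) : Dens G' Ω q a b := by
  intro X hX B hB h1 h2
  obtain ⟨x, hx, h3⟩ := h X hX B hB h1 h2
  refine ⟨x, hx, ?_⟩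
  have : X.filter (fun y => G'.Adj x y) = X.filter (fun y => G.Adj x y) := by
    apply filter_congr
    intro y hy
    exact (hG x (hB hx) y (hX hy)).symm
  rw [this]
  exact h3

theorem bb_fre {st : V → ℕ} {A1 A2 : Finset V} (s1 : ∀ x ∈ A1, st x = 3)
    (s2 : ∀ x ∈ A2, st x = 3) (hst : ∀ x, st x = 0 ∨ st x = 3 ∨ st x = 5 ∨ st x = 6 ∨ st x = 7)
    (x : V) (h : bb st A1 A2 x = 1 ∨ bb st A1 A2 x = 3) : fre st x := by
  unfold bb at h
  unfold fre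
  by_cases h1 : x ∈ A1
  · exact Or.inl (s1 x h1)
  by_cases h2 : x ∈ A2
  · exact Or.inl (s2 x h2)
  rw [if_neg h1, if_neg h2] at h
  have := hst x
  split_ifs at h <;> omega

theorem EvU.congr {G G' : SimpleGraph V} {st ix : V → ℕ} {A1 A2 : Finset V} {N2 m1 m2 : ℕ}
    {q δ s₀ η X1 σ τ : ℝ} (s1 : ∀ x ∈ A1, st x = 3) (s2 : ∀ x ∈ A2, st x = 3)
    (hst : ∀ x, st x = 0 ∨ st x = 3 ∨ st x = 5 ∨ st x = 6 ∨ st x = 7)
    (hG : ∀ x y, fre st x → fre st y → (G.Adj x y ↔ G'.Adj x y))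
    (h : EvU G st ix A1 A2 N2 m1 m2 q δ s₀ η X1 σ τ) :
    EvU G' st ix A1 A2 N2 m1 m2 q δ s₀ η X1 σ τ := by
  obtain ⟨b, hb⟩ : ∃ b : V → ℕ, b = bb st A1 A2 := ⟨_, rfl⟩
  have hf : ∀ x, (b x = 1 ∨ b x = 3) → fre st x := by
    rw [hb]
    exact bb_fre s1 s2 hst
  have hnb : ∀ x, b x = 3 → nb G' b 1 x = nb G b 1 x := by
    intro x hx
    ext z
    simp only [nb, mem_filter, mem_univ, true_and]
    constructor
    · rintro ⟨h1, h2⟩
      exact ⟨h1, (hG x z (hf x (Or.inr hx)) (hf z (Or.inl h1))).mpr h2⟩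
    · rintro ⟨h1, h2⟩
      exact ⟨h1, (hG x z (hf x (Or.inr hx)) (hf z (Or.inl h1))).mp h2⟩
  have hcn : ∀ x y, b x = 3 → b y = 3 → cn G' b 1 x y = cn G b 1 x y := by
    intro x y hx hy
    ext z
    simp only [cn, mem_filter, mem_univ, true_and]
    constructor
    · rintro ⟨h1, h2, h3⟩
      exact ⟨h1, (hG x z (hf x (Or.inr hx)) (hf z (Or.inl h1))).mpr h2,
        (hG y z (hf y (Or.inr hy)) (hf z (Or.inl h1))).mpr h3⟩
    · rintro ⟨h1, h2, h3⟩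
      exact ⟨h1, (hG x z (hf x (Or.inr hx)) (hf z (Or.inl h1))).mp h2,
        (hG y z (hf y (Or.inr hy)) (hf z (Or.inl h1))).mp h3⟩
  have h1 := h.g1
  have h2 := h.g2
  have h3 := h.g3
  rw [← hb] at h1 h2 h3
  have hf2 : ∀ x ∈ A2, fre st x := fun x hx => Or.inl (s2 x hx)
  refine ⟨?_, ?_, ?_, ?_, ?_, ?_, ?_⟩
  · rw [← hb]
    refine le_trans ?_ h1
    have := prs_mono (P := fun x y => b x = 1 ∧ b y = 3 ∧ G'.Adj x y)
      (Q := fun x y => b x = 1 ∧ b y = 3 ∧ G.Adj x y) (by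
        rintro x y ⟨h4, h5, h6⟩
        exact ⟨h4, h5, (hG x y (hf x (Or.inl h4)) (hf y (Or.inr h5))).mpr h6⟩)
    exact_mod_cast this
  · rw [← hb]
    refine le_trans ?_ h2
    have := prs_mono (P := fun x y => b x = 3 ∧ b y = 3 ∧ x ≠ y ∧
      s₀ ≤ ((nb G' b 1 x).card : ℝ) ∧ ((cn G' b 1 x y).card : ℝ) < 2 * δ * m1)
      (Q := fun x y => b x = 3 ∧ b y = 3 ∧ x ≠ y ∧
      s₀ ≤ ((nb G b 1 x).card : ℝ) ∧ ((cn G b 1 x y).card : ℝ) < 2 * δ * m1) (by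
        rintro x y ⟨h4, h5, h6, h7, h8⟩
        rw [hnb x h4] at h7
        rw [hcn x y h4 h5] at h8
        exact ⟨h4, h5, h6, h7, h8⟩)
    exact_mod_cast this
  · rw [← hb]
    refine le_trans ?_ h3
    have : univ.filter (fun x => b x = 3 ∧ ((nb G' b 1 x).card : ℝ) < s₀) ⊆
        univ.filter (fun x => b x = 3 ∧ ((nb G b 1 x).card : ℝ) < s₀) := by
      intro x hx
      obtain ⟨_, h4, h5⟩ := mem_filter.mp hx
      rw [hnb x h4] at h5
      exact mem_filter.mpr ⟨mem_univ _, h4, h5⟩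
    exact_mod_cast card_le_card this
  · exact h.D1.congr (fun x hx y hy => hG x y (Or.inl (s1 x hx)) (Or.inl (s1 y hy)))
  · exact h.D2.congr (fun x hx y hy => hG x y (Or.inl (s2 x hx)) (Or.inl (s2 y hy)))
  · intro x y hx hy hx2 hy2 hxy j hj
    refine (h.g8 x y hx hy hx2 hy2 hxy j hj).trans ?_
    have : jset G st ix A2 x y j ⊆ jset G' st ix A2 x y j := by
      intro z hz
      obtain ⟨h4, h5, h6, h7⟩ := mem_filter.mp hz
      refine mem_filter.mpr ⟨h4, (hG x z (Or.inl hx) (hf2 z h4)).mp h5,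
        (hG y z (Or.inl hy) (hf2 z h4)).mp h6, ?_⟩
      intro w hw hwj
      exact (hG z w (hf2 z h4) (Or.inr hw)).mp (h7 w hw hwj)
    exact_mod_cast card_le_card this
  · intro x hx
    obtain ⟨j, hj, hj2⟩ := h.g9 x hx
    exact ⟨j, hj, fun w hw hwj => (hG x w (Or.inl hx) (Or.inr hw)).mp (hj2 w hw hwj)⟩

theorem EvZ.congr {G G' : SimpleGraph V} {st ix : V → ℕ} {N1 M : ℕ} {q η σ τ : ℝ}
    (hG : ∀ x y, ¬ (fre st x ∧ fre st y) → (G.Adj x y ↔ G'.Adj x y))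
    (h : EvZ G st ix N1 M q η σ τ) : EvZ G' st ix N1 M q η σ τ := by
  have hz : ∀ a, (st a = 0 ∨ st a = 5 ∨ st a = 6) → ¬ fre st a := by
    intro a ha h
    unfold fre at h
    omega
  refine ⟨?_, ?_, ?_⟩
  · refine h.z1.trans (card_le_card ?_)
    intro v hv
    obtain ⟨_, h1, h2⟩ := mem_filter.mp hv
    refine mem_filter.mpr ⟨mem_univ _, h1, ?_⟩
    intro a ha
    exact (hG v a (fun h => hz a ha h.2)).mp (h2 a ha)
  · refine le_trans ?_ h.z2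
    have : univ.filter (fun x => st x = 3 ∧ ¬ hasB G' st ix N1 x) ⊆
        univ.filter (fun x => st x = 3 ∧ ¬ hasB G st ix N1 x) := by
      intro x hx
      obtain ⟨_, h1, h2⟩ := mem_filter.mp hx
      refine mem_filter.mpr ⟨mem_univ _, h1, ?_⟩
      rintro ⟨i, hi, h3⟩
      apply h2
      refine ⟨i, hi, ?_⟩
      intro y hy hyi
      exact (hG x y (fun h => hz y (Or.inr hy) h.2)).mp (h3 y hy hyi)
    exact_mod_cast card_le_card this
  · refine h.z3.congr ?_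
    intro x hx y _
    exact hG x y (fun h => hz x (Or.inl (mem_filter.mp hx).2) h.1)

end

end Pool.Agent.H42.Sat
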