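import Pool.Agent.H42.Sat.Prob2
import Pool.Agent.H42.Sat.Num

set_option autoImplicit false
set_option linter.unusedSectionVars false

/-! Probabilities that the exceptional sets are large. -/

namespace Pool.Agent.H42.Sat

open Finset Classical Pool.Agent.W166.Gnp

theorem card_interval (n a b : ℕ) (hb : b ≤ n) :
    (univ.filter (fun x : Fin n => a ≤ x.val ∧ x.val < b)).card = b - a := by
  have : (univ.filter (fun x : Fin n => a ≤ x.val ∧ x.val < b)).map Fin.valEmbedding = Ico a b := by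
    ext m
    simp only [mem_map, mem_filter, mem_univ, true_and, Fin.valEmbedding_apply, mem_Ico]
    constructor
    · rintro ⟨x, hx, rfl⟩
      exact hx
    · intro h
      exact ⟨⟨m, by omega⟩, h, rfl⟩
  rw [← card_map Fin.valEmbedding, this, Nat.card_Ico]

theorem exists_bc (n m0 m1 m2 : ℕ) (h : m0 + m1 + m2 ≤ n) :
    ∃ bc : Fin n → ℕ, (∀ x, bc x ≤ 3) ∧ (cls bc 0).card = m0 ∧ (cls bc 1).card = m1 ∧
      (cls bc 2).card = m2 ∧ (cls bc 3).card = n - (m0 + m1 + m2) := by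
  let f : Fin n → ℕ := fun x => if x.val < m0 then 0 else if x.val < m0 + m1 then 1 else
    if x.val < m0 + m1 + m2 then 2 else 3
  have h0 : cls f 0 = univ.filter (fun x : Fin n => 0 ≤ x.val ∧ x.val < m0) := by
    ext x
    simp only [f, cls, mem_filter, mem_univ, true_and]
    constructor
    · intro h; split_ifs at h <;> omega
    · intro h; split_ifs <;> omega
  have h1 : cls f 1 = univ.filter (fun x : Fin n => m0 ≤ x.val ∧ x.val < m0 + m1) := by
    ext x
    simp only [f, cls, mem_filter, mem_univ, true_and]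
    constructor
    · intro h; split_ifs at h <;> omega
    · intro h; split_ifs <;> omega
  have h2 : cls f 2 = univ.filter (fun x : Fin n => m0 + m1 ≤ x.val ∧ x.val < m0 + m1 + m2) := by
    ext x
    simp only [f, cls, mem_filter, mem_univ, true_and]
    constructor
    · intro h; split_ifs at h <;> omega
    · intro h; split_ifs <;> omega
  have h3 : cls f 3 = univ.filter (fun x : Fin n => m0 + m1 + m2 ≤ x.val ∧ x.val < n) := by
    ext x
    simp only [f, cls, mem_filter, mem_univ, true_and]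
    have := x.isLt
    constructor
    · intro h; split_ifs at h <;> omega
    · intro h; split_ifs <;> omega
  refine ⟨f, ?_, ?_, ?_, ?_, ?_⟩
  · intro x
    simp only [f]
    split_ifs <;> omega
  · rw [h0, card_interval n 0 m0 (by omega)]; omega
  · rw [h1, card_interval n m0 (m0 + m1) (by omega)]; omega
  · rw [h2, card_interval n (m0 + m1) (m0 + m1 + m2) (by omega)]; omega
  · rw [h3, card_interval n (m0 + m1 + m2) n le_rfl]

section
variable {n : ℕ} (bc : Fin n → ℕ)

theorem nb_gr (S : Finset (Sym2 (Fin n))) (j : ℕ) (x : Fin n) (hx : bc x ≠ j) :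
    nb (gr S) bc j x = (cls bc j).filter (fun z => s(x, z) ∈ S) := by
  ext z
  simp only [nb, cls, mem_filter, mem_univ, true_and, gr_adj]
  constructor
  · rintro ⟨h1, h2, _⟩
    exact ⟨h1, h2⟩
  · rintro ⟨h1, h2⟩
    exact ⟨h1, h2, fun h => hx (h ▸ h1)⟩

theorem cn_gr (S : Finset (Sym2 (Fin n))) (j : ℕ) (x y : Fin n) (hx : bc x ≠ j) (hy : bc y ≠ j) :
    cn (gr S) bc j x y = (cls bc j).filter (fun z => s(x, z) ∈ S ∧ s(y, z) ∈ S) := by
  ext z
  simp only [cn, cls, mem_filter, mem_univ, true_and, gr_adj]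
  constructor
  · rintro ⟨h1, ⟨h2, _⟩, h3, _⟩
    exact ⟨h1, h2, h3⟩
  · rintro ⟨h1, h2, h3⟩
    exact ⟨h1, ⟨h2, fun h => hx (h ▸ h1)⟩, h3, fun h => hy (h ▸ h1)⟩

theorem not_mem_cls {j : ℕ} {x : Fin n} (hx : bc x ≠ j) : x ∉ cls bc j := by
  intro h
  exact hx (mem_filter.mp h).2

variable {p : ℝ}

/-- number of edges between the main hubs and the bulk -/
theorem fail1 (hp0 : 0 ≤ p) (hp1 : p ≤ 1) (ε : ℝ) (he0 : 0 ≤ ε) (he1 : ε ≤ 1) (m1 m3 : ℕ)
    (hm1 : (cls bc 1).card = m1) (hm3 : (cls bc 3).card = m3) :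
    Pr (allE n) p (fun S => ¬ (((prs (fun x y => bc x = 1 ∧ bc y = 3 ∧ (gr S).Adj x y)).card : ℝ) ≤
      (1 + ε) * (p * ((m1 : ℝ) * m3)))) ≤ Real.exp (-(ε ^ 2 / 4 * (p * ((m1 : ℝ) * m3)))) := by
  have hdis : Disjoint (cls bc 1) (cls bc 3) := by
    rw [disjoint_left]
    intro x h1 h3
    have := (mem_filter.mp h1).2
    have := (mem_filter.mp h3).2
    omega
  have h := card_upper (bip_sub hdis) hp0 hp1 he0 he1
  rw [bip_card hdis, hm1, hm3] at h
  push_cast at h
  refine le_trans (Pr_mono hp0 hp1 ?_) h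
  intro S _ hS
  push Not at hS
  refine hS.le.trans ?_
  rw [inter_bip_card hdis]
  have : (prs (fun x y => bc x = 1 ∧ bc y = 3 ∧ (gr S).Adj x y)).card ≤
      ∑ x ∈ cls bc 1, ((cls bc 3).filter (fun y => s(x, y) ∈ S)).card := by
    have epr : (prs (fun x y => bc x = 1 ∧ bc y = 3 ∧ (gr S).Adj x y)).card =
        ∑ x, (univ.filter (fun y => bc x = 1 ∧ bc y = 3 ∧ (gr S).Adj x y)).card := by
      rw [prs_sum']
      apply sum_congr rfl
      intro x _
      congr!
    rw [epr]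
    calc ∑ x, (univ.filter (fun y => bc x = 1 ∧ bc y = 3 ∧ (gr S).Adj x y)).card
        = ∑ x ∈ cls bc 1, (univ.filter (fun y => bc x = 1 ∧ bc y = 3 ∧ (gr S).Adj x y)).card := by
          symm
          apply sum_subset (subset_univ _)
          intro x _ hx
          rw [card_eq_zero, filter_eq_empty_iff]
          intro y _ hy
          exact hx (mem_filter.mpr ⟨mem_univ _, hy.1⟩)
      _ ≤ ∑ x ∈ cls bc 1, ((cls bc 3).filter (fun y => s(x, y) ∈ S)).card := by
          apply sum_le_sum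
          intro x _
          apply card_le_card
          intro y hy
          obtain ⟨_, _, h2, h3⟩ := mem_filter.mp hy
          rw [gr_adj] at h3
          exact mem_filter.mpr ⟨mem_filter.mpr ⟨mem_univ _, h2⟩, h3.1⟩
  exact_mod_cast this

/-- few vertices have few neighbours in class `j` -/
theorem fail_nb (hp0 : 0 ≤ p) (hp1 : p ≤ 1) (j m : ℕ) (hj : j ≠ 3) (hm : (cls bc j).card = m)
    (ζ t η : ℝ) (hζ0 : 0 ≤ ζ) (hζ1 : ζ ≤ 1) (ht : t ≤ (1 - ζ) * (p * (m : ℝ))) (hη : 0 < η)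
    (hn : 0 < n) :
    Pr (allE n) p (fun S => ¬ (((univ.filter (fun x => bc x = 3 ∧
      ((nb (gr S) bc j x).card : ℝ) < t)).card : ℝ) ≤ η * (n : ℝ))) ≤
      (n : ℝ) * Real.exp (-(ζ ^ 2 / 2 * (p * (m : ℝ)))) / (η * n) := by
  have hnr : (0 : ℝ) < n := by exact_mod_cast hn
  obtain ⟨A, hA⟩ : ∃ A : Fin n → Finset (Sym2 (Fin n)) → Prop, A = fun x S =>
    (((cls bc j).filter (fun z => s(x, z) ∈ S)).card : ℝ) ≤ (1 - ζ) * (p * (m : ℝ)) := ⟨_, rfl⟩
  have h := markov_count (E := allE n) hp0 hp1 (cls bc 3) A (η * n) (by positivity)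
  refine le_trans (Pr_mono hp0 hp1 ?_) (h.trans ?_)
  · intro S _ hS
    push Not at hS
    refine hS.le.trans ?_
    have : (univ.filter (fun x => bc x = 3 ∧ ((nb (gr S) bc j x).card : ℝ) < t)).card ≤
        ((cls bc 3).filter (fun x => A x S)).card := by
      apply card_le_card
      intro x hx
      obtain ⟨_, h1, h2⟩ := mem_filter.mp hx
      rw [nb_gr bc S j x (by omega)] at h2
      refine mem_filter.mpr ⟨mem_filter.mpr ⟨mem_univ _, h1⟩, ?_⟩
      rw [hA]
      exact h2.le.trans ht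
    exact_mod_cast this
  · apply div_le_div_of_nonneg_right _ (by positivity)
    calc _ ≤ ∑ _x ∈ cls bc 3, Real.exp (-(ζ ^ 2 / 2 * (p * (m : ℝ)))) := by
          apply sum_le_sum
          intro x hx
          have hx3 := (mem_filter.mp hx).2
          have h2 := Pr_few_nb (not_mem_cls bc (j := j) (x := x) (by omega)) hp0 hp1 hζ0 hζ1
          rw [hm] at h2
          rw [hA]
          exact h2
      _ = ((cls bc 3).card : ℝ) * Real.exp (-(ζ ^ 2 / 2 * (p * (m : ℝ)))) := by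
          rw [sum_const, nsmul_eq_mul]
      _ ≤ (n : ℝ) * Real.exp (-(ζ ^ 2 / 2 * (p * (m : ℝ)))) := by
          apply mul_le_mul_of_nonneg_right _ (Real.exp_pos _).le
          have : (cls bc 3).card ≤ n := by
            refine (card_le_univ _).trans ?_
            rw [Fintype.card_fin]
          exact_mod_cast this

/-- few pairs have few common neighbours in class `2` -/
theorem fail_cn (hp0 : 0 ≤ p) (hp1 : p ≤ 1) (m b : ℕ) (hm : (cls bc 2).card = m) (t η : ℝ)
    (ht : t ≤ b) (hη : 0 < η) (hn : 0 < n) :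
    Pr (allE n) p (fun S => ¬ (((prs (fun x y => bc x = 3 ∧ bc y = 3 ∧ x ≠ y ∧
      ((cn (gr S) bc 2 x y).card : ℝ) < t)).card : ℝ) ≤ η * (n : ℝ))) ≤
      (n : ℝ) ^ 2 * (2 ^ b * Real.exp (-(p ^ 2 * (m : ℝ) / 2))) / (η * n) := by
  have hnr : (0 : ℝ) < n := by exact_mod_cast hn
  obtain ⟨A, hA⟩ : ∃ A : Fin n × Fin n → Finset (Sym2 (Fin n)) → Prop, A = fun x S =>
    ((cls bc 2).filter (fun z => s(x.1, z) ∈ S ∧ s(x.2, z) ∈ S)).card < b := ⟨_, rfl⟩
  have h := markov_count (E := allE n) hp0 hp1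
    (univ.filter (fun x : Fin n × Fin n => bc x.1 = 3 ∧ bc x.2 = 3 ∧ x.1 ≠ x.2)) A
    (η * n) (by positivity)
  refine le_trans (Pr_mono hp0 hp1 ?_) (h.trans ?_)
  · intro S _ hS
    push Not at hS
    refine hS.le.trans ?_
    have : (prs (fun x y => bc x = 3 ∧ bc y = 3 ∧ x ≠ y ∧
        ((cn (gr S) bc 2 x y).card : ℝ) < t)).card ≤
        ((univ.filter (fun x : Fin n × Fin n => bc x.1 = 3 ∧ bc x.2 = 3 ∧ x.1 ≠ x.2)).filter
        (fun x => A x S)).card := by
      apply card_le_card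
      intro x hx
      rw [mem_prs] at hx
      obtain ⟨h1, h2, h3, h4⟩ := hx
      rw [cn_gr bc S 2 x.1 x.2 (by omega) (by omega)] at h4
      refine mem_filter.mpr ⟨mem_filter.mpr ⟨mem_univ _, h1, h2, h3⟩, ?_⟩
      have := h4.trans_le ht
      rw [hA]
      exact_mod_cast this
    exact_mod_cast this
  · apply div_le_div_of_nonneg_right _ (by positivity)
    calc _ ≤ ∑ _x ∈ univ.filter (fun x : Fin n × Fin n => bc x.1 = 3 ∧ bc x.2 = 3 ∧ x.1 ≠ x.2),
          (2 ^ b * Real.exp (-(p ^ 2 * (m : ℝ) / 2))) := by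
          apply sum_le_sum
          intro x hx
          obtain ⟨_, h1, h2, h3⟩ := mem_filter.mp hx
          have h2 := Pr_few_cn h3 (not_mem_cls bc (j := 2) (x := x.1) (by omega))
            (not_mem_cls bc (j := 2) (x := x.2) (by omega)) hp0 hp1 b
          rw [hm] at h2
          rw [hA]
          exact h2
      _ = ((univ.filter (fun x : Fin n × Fin n => bc x.1 = 3 ∧ bc x.2 = 3 ∧ x.1 ≠ x.2)).card : ℝ) *
          (2 ^ b * Real.exp (-(p ^ 2 * (m : ℝ) / 2))) := by
          rw [sum_const, nsmul_eq_mul]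
      _ ≤ (n : ℝ) ^ 2 * (2 ^ b * Real.exp (-(p ^ 2 * (m : ℝ) / 2))) := by
          apply mul_le_mul_of_nonneg_right _ (by positivity)
          have : (univ.filter (fun x : Fin n × Fin n => bc x.1 = 3 ∧ bc x.2 = 3 ∧ x.1 ≠ x.2)).card ≤
              n ^ 2 := by
            refine (card_le_univ _).trans ?_
            rw [Fintype.card_prod, Fintype.card_fin, sq]
          exact_mod_cast this

/-- few pairs have many neighbours of the first vertex but few common neighbours in class `1` -/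
theorem fail_joint (hp0 : 0 ≤ p) (hp1 : p ≤ 1) (s t η θ ξ : ℝ) (hθ : 0 ≤ θ) (hξ : 0 ≤ ξ)
    (hθξ : Real.exp ξ * (1 - p + p * Real.exp (-θ)) = 1) (hη : 0 < η) (hn : 0 < n) :
    Pr (allE n) p (fun S => ¬ (((prs (fun x y => bc x = 3 ∧ bc y = 3 ∧ x ≠ y ∧
      s ≤ ((nb (gr S) bc 1 x).card : ℝ) ∧
      ((cn (gr S) bc 1 x y).card : ℝ) < t)).card : ℝ) ≤ η * (n : ℝ))) ≤
      (n : ℝ) ^ 2 * Real.exp (θ * t - ξ * s) / (η * n) := by
  have hnr : (0 : ℝ) < n := by exact_mod_cast hn
  obtain ⟨A, hA⟩ : ∃ A : Fin n × Fin n → Finset (Sym2 (Fin n)) → Prop, A = fun x S =>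
    s ≤ (((cls bc 1).filter (fun z => s(x.1, z) ∈ S)).card : ℝ) ∧
      (((cls bc 1).filter (fun z => s(x.1, z) ∈ S ∧ s(x.2, z) ∈ S)).card : ℝ) ≤ t := ⟨_, rfl⟩
  have h := markov_count (E := allE n) hp0 hp1
    (univ.filter (fun x : Fin n × Fin n => bc x.1 = 3 ∧ bc x.2 = 3 ∧ x.1 ≠ x.2)) A
    (η * n) (by positivity)
  refine le_trans (Pr_mono hp0 hp1 ?_) (h.trans ?_)
  · intro S _ hS
    push Not at hS
    refine hS.le.trans ?_
    have : (prs (fun x y => bc x = 3 ∧ bc y = 3 ∧ x ≠ y ∧ s ≤ ((nb (gr S) bc 1 x).card : ℝ) ∧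
        ((cn (gr S) bc 1 x y).card : ℝ) < t)).card ≤
        ((univ.filter (fun x : Fin n × Fin n => bc x.1 = 3 ∧ bc x.2 = 3 ∧ x.1 ≠ x.2)).filter
        (fun x => A x S)).card := by
      apply card_le_card
      intro x hx
      rw [mem_prs] at hx
      obtain ⟨h1, h2, h3, h4, h5⟩ := hx
      rw [nb_gr bc S 1 x.1 (by omega)] at h4
      rw [cn_gr bc S 1 x.1 x.2 (by omega) (by omega)] at h5
      refine mem_filter.mpr ⟨mem_filter.mpr ⟨mem_univ _, h1, h2, h3⟩, ?_⟩
      rw [hA]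
      exact ⟨h4, h5.le⟩
    exact_mod_cast this
  · apply div_le_div_of_nonneg_right _ (by positivity)
    calc _ ≤ ∑ _x ∈ univ.filter (fun x : Fin n × Fin n => bc x.1 = 3 ∧ bc x.2 = 3 ∧ x.1 ≠ x.2),
          Real.exp (θ * t - ξ * s) := by
          apply sum_le_sum
          intro x hx
          obtain ⟨_, h1, h2, h3⟩ := mem_filter.mp hx
          rw [hA]
          exact Pr_joint h3 (not_mem_cls bc (j := 1) (x := x.1) (by omega))
            (not_mem_cls bc (j := 1) (x := x.2) (by omega)) hp0 hp1 θ ξ s t hθ hξ hθξ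
      _ = ((univ.filter (fun x : Fin n × Fin n => bc x.1 = 3 ∧ bc x.2 = 3 ∧ x.1 ≠ x.2)).card : ℝ) *
          Real.exp (θ * t - ξ * s) := by
          rw [sum_const, nsmul_eq_mul]
      _ ≤ (n : ℝ) ^ 2 * Real.exp (θ * t - ξ * s) := by
          apply mul_le_mul_of_nonneg_right _ (Real.exp_pos _).le
          have : (univ.filter (fun x : Fin n × Fin n => bc x.1 = 3 ∧ bc x.2 = 3 ∧ x.1 ≠ x.2)).card ≤
              n ^ 2 := by
            refine (card_le_univ _).trans ?_
            rw [Fintype.card_prod, Fintype.card_fin, sq]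
          exact_mod_cast this

end

end Pool.Agent.H42.Sat
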