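import Pool.Agent.H42.Sat.Prob2

set_option autoImplicit false
set_option linter.unusedSectionVars false

/-! Conditioning and block events. -/

namespace Pool.Agent.H42.Sat

open Finset Classical Pool.Agent.W166.Gnp

section
variable {α : Type} [DecidableEq α]

theorem Pr_local {E E1 : Finset α} (h1 : E1 ⊆ E) {p : ℝ} {A : Finset α → Prop}
    (hA : ∀ S, A S ↔ A (S ∩ E1)) : Pr E1 p A = Pr E p A := by
  rw [← Pr_marg h1]
  congr 1
  funext S
  exact propext (hA S).symm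

/-- conditioning on the outcome on `E1` -/
theorem Pr_cond {E1 E2 : Finset α} (hd : Disjoint E1 E2) {p : ℝ} (h0 : 0 ≤ p) (h1 : p ≤ 1)
    (Bad N : Finset α → Prop) (η : ℝ) (hη : 0 ≤ η)
    (h : ∀ S, S ⊆ E1 → ¬ N S → Pr E2 p (fun T => Bad (S ∪ T)) ≤ η) :
    Pr (E1 ∪ E2) p Bad ≤ Pr E1 p N + η := by
  have e1 : Pr (E1 ∪ E2) p Bad = Ex E1 p (fun S => Pr E2 p (fun T => Bad (S ∪ T))) := by
    unfold Pr
    exact Ex_union hd p _
  have e2 : Pr E1 p N + η = Ex E1 p (fun S => (if N S then (1 : ℝ) else 0) + η) := by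
    rw [Ex_add, Ex_const]
    rfl
  rw [e1, e2]
  apply Ex_mono h0 h1
  intro S hS
  by_cases hN : N S
  · rw [if_pos hN]
    have := Pr_le_one (E := E2) h0 h1 (fun T => Bad (S ∪ T))
    linarith
  · rw [if_neg hN, zero_add]
    exact h S hS hN

end

/-- few vertices of `A` are joined to all of `X` -/
theorem Pr_few_full {n : ℕ} (A X : Finset (Fin n)) (hd : Disjoint A X) {p : ℝ} (hp0 : 0 ≤ p)
    (hp1 : p ≤ 1) (m : ℕ) (hm : X.card ≤ m) (b : ℕ) :
    Pr (allE n) p (fun S => (A.filter (fun z => ∀ a ∈ X, s(z, a) ∈ S)).card < b) ≤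
      2 ^ b * Real.exp (-(p ^ m * (A.card : ℝ) / 2)) := by
  have hA : ∀ z ∈ A, z ∉ X := fun z hz => disjoint_left.mp hd hz
  have h := lower_tail hp0 hp1 A (fun z => row z X) (fun z hz => row_sub (hA z hz))
    (fun z hz w hw hzw => row_disjoint hzw (hA z hz))
    (fun z S => row z X ⊆ S) (p ^ m) (by
      intro z _
      rw [Pr_superset (subset_refl _) p, card_row]
      exact pow_le_pow_of_le_one hp0 hp1 hm) b
  refine le_trans (Pr_mono hp0 hp1 ?_) h
  intro S _ hS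
  refine lt_of_le_of_lt (le_of_eq ?_) hS
  unfold cnt
  congr 1
  ext z
  simp only [mem_filter]
  constructor
  · rintro ⟨h1, h2⟩
    refine ⟨h1, ?_⟩
    intro a ha
    exact (mem_inter.mp (h2 (mem_row.mpr ⟨a, ha, rfl⟩))).1
  · rintro ⟨h1, h2⟩
    refine ⟨h1, ?_⟩
    intro e he
    obtain ⟨a, ha, rfl⟩ := mem_row.mp he
    exact mem_inter.mpr ⟨h2 a ha, he⟩

/-- no block is completely joined to `w` -/
theorem Pr_no_block {n : ℕ} (w : Fin n) (N : ℕ) (blk : ℕ → Finset (Fin n))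
    (hdis : ∀ i j, i ≠ j → Disjoint (blk i) (blk j)) (hw : ∀ i, w ∉ blk i) {p : ℝ} (hp0 : 0 ≤ p)
    (hp1 : p ≤ 1) (m : ℕ) (hm : ∀ i, i < N → (blk i).card ≤ m) :
    Pr (allE n) p (fun S => ∀ i ∈ range N, ¬ ∀ a ∈ blk i, s(w, a) ∈ S) ≤
      Real.exp (-(p ^ m * (N : ℝ))) := by
  have h := Pr_forall (E := allE n) p (range N) (fun i => row w (blk i))
    (fun i _ => row_sub (hw i)) (fun i _ j _ hij => row_disjoint' w (hdis i j hij))
    (fun i S => ¬ row w (blk i) ⊆ S)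
  have h2 : ∏ v ∈ range N, Pr (row w (blk v)) p (fun S => ¬ row w (blk v) ⊆ S) ≤
      Real.exp (-(p ^ m * (N : ℝ))) := by
    calc ∏ v ∈ range N, Pr (row w (blk v)) p (fun S => ¬ row w (blk v) ⊆ S)
        ≤ ∏ _v ∈ range N, Real.exp (-(p ^ m)) := by
          apply prod_le_prod
          · intro i _
            exact Pr_nonneg hp0 hp1 _
          · intro i hi
            rw [Pr_not, Pr_superset (subset_refl _) p, card_row]
            have h3 : p ^ m ≤ p ^ (blk i).card :=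
              pow_le_pow_of_le_one hp0 hp1 (hm i (mem_range.mp hi))
            have h4 := Real.add_one_le_exp (-(p ^ m))
            linarith
      _ = Real.exp (-(p ^ m * (N : ℝ))) := by
          rw [prod_const, card_range, ← Real.exp_nat_mul]
          congr 1
          ring
  refine le_trans (Pr_mono hp0 hp1 ?_) (le_of_eq_of_le h h2)
  intro S _ hS i hi hsub
  apply hS i hi
  intro a ha
  exact (mem_inter.mp (hsub (mem_row.mpr ⟨a, ha, rfl⟩))).1

theorem gr_inter_adj {n : ℕ} (S E1 : Finset (Sym2 (Fin n))) (x y : Fin n)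
    (h : x ≠ y → s(x, y) ∈ E1) : (gr (S ∩ E1)).Adj x y ↔ (gr S).Adj x y := by
  rw [gr_adj, gr_adj, mem_inter]
  constructor
  · rintro ⟨⟨h1, _⟩, h3⟩
    exact ⟨h1, h3⟩
  · rintro ⟨h1, h2⟩
    exact ⟨⟨h1, h h2⟩, h2⟩

end Pool.Agent.H42.Sat
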