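import Pool.Agent.H42.Sat.Steps
import Pool.Agent.H42.Sat.Prob3
import Pool.Agent.H42.Sat.Ev

set_option autoImplicit false
set_option linter.unusedSectionVars false

/-! Probabilities of the new events. -/

namespace Pool.Agent.H42.Sat

open Finset Classical Pool.Agent.W166.Gnp

section
variable {n : ℕ} (st ix : Fin n → ℕ) {p : ℝ}

theorem fail8 (hp0 : 0 ≤ p) (hp1 : p ≤ 1) (A2 : Finset (Fin n)) (s2 : ∀ x ∈ A2, st x = 3)
    (N2 ρ b : ℕ) (h7' : ∀ i, (univ.filter (fun x => st x = 7 ∧ ix x = i)).card ≤ ρ) (t : ℝ)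
    (ht : t ≤ b) :
    Pr (allE n) p (fun S => ¬ ∀ x y, st x = 3 → st y = 3 → x ∉ A2 → y ∉ A2 → x ≠ y → ∀ j, j < N2 →
      t ≤ ((jset (gr S) st ix A2 x y j).card : ℝ)) ≤
      (n : ℝ) ^ 2 * N2 * (2 ^ b * Real.exp (-(p ^ (ρ + 2) * (A2.card : ℝ) / 2))) := by
  let T : Finset ((Fin n × Fin n) × ℕ) := ((univ ×ˢ univ) ×ˢ range N2).filter
    (fun w => w.1.1 ∉ A2 ∧ w.1.2 ∉ A2)
  obtain ⟨X, hX⟩ : ∃ X : (Fin n × Fin n) × ℕ → Finset (Fin n), ∀ w, X w =
    insert w.1.1 (insert w.1.2 (univ.filter (fun x => st x = 7 ∧ ix x = w.2))) := ⟨_, fun _ => rfl⟩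
  have hXd : ∀ w ∈ T, Disjoint A2 (X w) := by
    intro w hw
    obtain ⟨_, h1, h2⟩ := mem_filter.mp hw
    rw [disjoint_right]
    intro a ha ha2
    rw [hX, mem_insert, mem_insert, mem_filter] at ha
    rcases ha with h | h | ⟨_, h, _⟩
    · exact h1 (h ▸ ha2)
    · exact h2 (h ▸ ha2)
    · have := s2 a ha2
      omega
  have hXc : ∀ w, (X w).card ≤ ρ + 2 := by
    intro w
    rw [hX]
    have e1 := card_insert_le w.1.1
      (insert w.1.2 (univ.filter (fun x => st x = 7 ∧ ix x = w.2)))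
    have e2 := card_insert_le w.1.2 (univ.filter (fun x => st x = 7 ∧ ix x = w.2))
    have e3 := h7' w.2
    omega
  calc _ ≤ Pr (allE n) p (fun S => ∃ w ∈ T,
        (fun (w : (Fin n × Fin n) × ℕ) (S : Finset (Sym2 (Fin n))) =>
        (A2.filter (fun z => ∀ a ∈ X w, s(z, a) ∈ S)).card < b) w S) := by
        apply Pr_mono hp0 hp1
        intro S _ hS
        push Not at hS
        obtain ⟨x, y, hx, hy, hx2, hy2, hxy, j, hj, h1⟩ := hS
        refine ⟨((x, y), j), mem_filter.mpr ⟨mem_product.mpr ⟨mem_product.mpr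
          ⟨mem_univ _, mem_univ _⟩, mem_range.mpr hj⟩, hx2, hy2⟩, ?_⟩
        have h2 : ((jset (gr S) st ix A2 x y j).card : ℝ) < b := h1.trans_le ht
        have h3 : (jset (gr S) st ix A2 x y j).card < b := by exact_mod_cast h2
        refine lt_of_le_of_lt (card_le_card ?_) h3
        intro z hz
        obtain ⟨hz1, hz2⟩ := mem_filter.mp hz
        rw [hX] at hz2
        refine mem_filter.mpr ⟨hz1, ?_, ?_, ?_⟩
        · rw [gr_adj, Sym2.eq_swap]
          exact ⟨hz2 x (mem_insert_self _ _), fun h => hx2 (h ▸ hz1)⟩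
        · rw [gr_adj, Sym2.eq_swap]
          exact ⟨hz2 y (mem_insert_of_mem (mem_insert_self _ _)), fun h => hy2 (h ▸ hz1)⟩
        · intro w hw hwj
          rw [gr_adj]
          refine ⟨hz2 w (mem_insert_of_mem (mem_insert_of_mem
            (mem_filter.mpr ⟨mem_univ _, hw, hwj⟩))), ?_⟩
          rintro rfl
          have := s2 z hz1
          omega
    _ ≤ ∑ w ∈ T, Pr (allE n) p (fun S =>
        (A2.filter (fun z => ∀ a ∈ X w, s(z, a) ∈ S)).card < b) := Pr_exists_le hp0 hp1 _ _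
    _ ≤ ∑ _w ∈ T, (2 ^ b * Real.exp (-(p ^ (ρ + 2) * (A2.card : ℝ) / 2))) := by
        apply sum_le_sum
        intro w hw
        exact Pr_few_full A2 (X w) (hXd w hw) hp0 hp1 (ρ + 2) (hXc w) b
    _ = (T.card : ℝ) * (2 ^ b * Real.exp (-(p ^ (ρ + 2) * (A2.card : ℝ) / 2))) := by
        rw [sum_const, nsmul_eq_mul]
    _ ≤ _ := by
        apply mul_le_mul_of_nonneg_right _ (by positivity)
        have : T.card ≤ n ^ 2 * N2 := by
          refine (card_filter_le _ _).trans ?_
          rw [card_product, card_product, card_univ, Fintype.card_fin, card_range, sq]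
        exact_mod_cast this

theorem fail9 (hp0 : 0 ≤ p) (hp1 : p ≤ 1) (N2 ρ : ℕ)
    (h7' : ∀ i, (univ.filter (fun x => st x = 7 ∧ ix x = i)).card ≤ ρ) :
    Pr (allE n) p (fun S => ¬ ∀ x, st x = 3 → ∃ j, j < N2 ∧ full7 (gr S) st ix x j) ≤
      (n : ℝ) * Real.exp (-(p ^ ρ * (N2 : ℝ))) := by
  obtain ⟨blk, hblk⟩ : ∃ blk : ℕ → Finset (Fin n), ∀ i, blk i =
    univ.filter (fun x => st x = 7 ∧ ix x = i) := ⟨_, fun _ => rfl⟩
  have hdis : ∀ i j, i ≠ j → Disjoint (blk i) (blk j) := by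
    intro i j hij
    rw [disjoint_left]
    intro a h1 h2
    rw [hblk, mem_filter] at h1 h2
    exact hij (h1.2.2.symm.trans h2.2.2)
  calc _ ≤ Pr (allE n) p (fun S => ∃ w ∈ univ.filter (fun x : Fin n => st x = 3),
        (fun (w : Fin n) (S : Finset (Sym2 (Fin n))) =>
        ∀ i ∈ range N2, ¬ ∀ a ∈ blk i, s(w, a) ∈ S) w S) := by
        apply Pr_mono hp0 hp1
        intro S _ hS
        push Not at hS
        obtain ⟨x, hx, h1⟩ := hS
        refine ⟨x, mem_filter.mpr ⟨mem_univ _, hx⟩, ?_⟩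
        intro i hi h2
        apply h1 i (mem_range.mp hi)
        intro y hy hyi
        rw [gr_adj]
        refine ⟨h2 y (by rw [hblk]; exact mem_filter.mpr ⟨mem_univ _, hy, hyi⟩), ?_⟩
        rintro rfl
        omega
    _ ≤ ∑ w ∈ univ.filter (fun x : Fin n => st x = 3), Pr (allE n) p (fun S =>
        ∀ i ∈ range N2, ¬ ∀ a ∈ blk i, s(w, a) ∈ S) := Pr_exists_le hp0 hp1 _ _
    _ ≤ ∑ _w ∈ univ.filter (fun x : Fin n => st x = 3), Real.exp (-(p ^ ρ * (N2 : ℝ))) := by
        apply sum_le_sum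
        intro w hw
        have hw3 := (mem_filter.mp hw).2
        refine Pr_no_block w N2 blk hdis ?_ hp0 hp1 ρ ?_
        · intro i h
          rw [hblk, mem_filter] at h
          omega
        · intro i _
          rw [hblk]
          exact h7' i
    _ = ((univ.filter (fun x : Fin n => st x = 3)).card : ℝ) *
        Real.exp (-(p ^ ρ * (N2 : ℝ))) := by rw [sum_const, nsmul_eq_mul]
    _ ≤ _ := by
        apply mul_le_mul_of_nonneg_right _ (Real.exp_pos _).le
        have : (univ.filter (fun x : Fin n => st x = 3)).card ≤ n := by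
          refine (card_le_univ _).trans ?_
          rw [Fintype.card_fin]
        exact_mod_cast this

theorem failz2 (hp0 : 0 ≤ p) (hp1 : p ≤ 1) (N1 m : ℕ)
    (hm : ∀ i, i < N1 → (univ.filter (fun x => (st x = 5 ∨ st x = 6) ∧ ix x = i)).card ≤ m)
    (η : ℝ) (hη : 0 < η) (hn : 0 < n) :
    Pr (allE n) p (fun S => ¬ (((univ.filter (fun x => st x = 3 ∧
      ¬ hasB (gr S) st ix N1 x)).card : ℝ) ≤ η * (n : ℝ))) ≤
      1 / η * Real.exp (-(p ^ m * (N1 : ℝ))) := by
  have hnr : (0 : ℝ) < n := by exact_mod_cast hn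
  obtain ⟨blk, hblk⟩ : ∃ blk : ℕ → Finset (Fin n), ∀ i, blk i =
    univ.filter (fun x => (st x = 5 ∨ st x = 6) ∧ ix x = i) := ⟨_, fun _ => rfl⟩
  have hdis : ∀ i j, i ≠ j → Disjoint (blk i) (blk j) := by
    intro i j hij
    rw [disjoint_left]
    intro a h1 h2
    rw [hblk, mem_filter] at h1 h2
    exact hij (h1.2.2.symm.trans h2.2.2)
  obtain ⟨A, hA⟩ : ∃ A : Fin n → Finset (Sym2 (Fin n)) → Prop, A = fun w S =>
    ∀ i ∈ range N1, ¬ ∀ a ∈ blk i, s(w, a) ∈ S := ⟨_, rfl⟩
  have h := markov_count (E := allE n) hp0 hp1 (univ.filter (fun x : Fin n => st x = 3)) A (η * n)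
    (by positivity)
  refine le_trans (Pr_mono hp0 hp1 ?_) (h.trans ?_)
  · intro S _ hS
    push Not at hS
    refine hS.le.trans ?_
    have : (univ.filter (fun x => st x = 3 ∧ ¬ hasB (gr S) st ix N1 x)).card ≤
        ((univ.filter (fun x : Fin n => st x = 3)).filter (fun x => A x S)).card := by
      apply card_le_card
      intro x hx
      obtain ⟨_, h1, h2⟩ := mem_filter.mp hx
      refine mem_filter.mpr ⟨mem_filter.mpr ⟨mem_univ _, h1⟩, ?_⟩
      rw [hA]
      intro i hi h3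
      apply h2
      refine ⟨i, mem_range.mp hi, ?_⟩
      intro y hy hyi
      rw [gr_adj]
      refine ⟨h3 y (by rw [hblk]; exact mem_filter.mpr ⟨mem_univ _, hy, hyi⟩), ?_⟩
      rintro rfl
      omega
    exact_mod_cast this
  · have h2 : ∑ i ∈ univ.filter (fun x : Fin n => st x = 3), Pr (allE n) p (A i) ≤
        (n : ℝ) * Real.exp (-(p ^ m * (N1 : ℝ))) := by
      calc _ ≤ ∑ _w ∈ univ.filter (fun x : Fin n => st x = 3), Real.exp (-(p ^ m * (N1 : ℝ))) := by
            apply sum_le_sum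
            intro w hw
            have hw3 := (mem_filter.mp hw).2
            rw [hA]
            refine Pr_no_block w N1 blk hdis ?_ hp0 hp1 m ?_
            · intro i h
              rw [hblk, mem_filter] at h
              omega
            · intro i hi
              rw [hblk]
              exact hm i hi
        _ = ((univ.filter (fun x : Fin n => st x = 3)).card : ℝ) *
            Real.exp (-(p ^ m * (N1 : ℝ))) := by rw [sum_const, nsmul_eq_mul]
        _ ≤ _ := by
            apply mul_le_mul_of_nonneg_right _ (Real.exp_pos _).le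
            have : (univ.filter (fun x : Fin n => st x = 3)).card ≤ n := by
              refine (card_le_univ _).trans ?_
              rw [Fintype.card_fin]
            exact_mod_cast this
    calc _ ≤ (n : ℝ) * Real.exp (-(p ^ m * (N1 : ℝ))) / (η * n) :=
          div_le_div_of_nonneg_right h2 (by positivity)
      _ = 1 / η * Real.exp (-(p ^ m * (N1 : ℝ))) := by field_simp

theorem failz1 (hp0 : 0 ≤ p) (hp1 : p ≤ 1) (M z : ℕ)
    (hz : (univ.filter (fun x => st x = 0 ∨ st x = 5 ∨ st x = 6)).card ≤ z) :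
    Pr (allE n) p (fun S => ¬ M ≤ (univ.filter (fun v => st v = 3 ∧
      ∀ a, (st a = 0 ∨ st a = 5 ∨ st a = 6) → (gr S).Adj v a)).card) ≤
      2 ^ M * Real.exp (-(p ^ z * ((univ.filter (fun x : Fin n => st x = 3)).card : ℝ) / 2)) := by
  have hd : Disjoint (univ.filter (fun x : Fin n => st x = 3))
      (univ.filter (fun x : Fin n => st x = 0 ∨ st x = 5 ∨ st x = 6)) := by
    rw [disjoint_left]
    intro a h1 h2
    rw [mem_filter] at h1 h2
    omega
  refine le_trans (Pr_mono hp0 hp1 ?_) (Pr_few_full _ _ hd hp0 hp1 z hz M)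
  intro S _ hS
  push Not at hS
  refine lt_of_le_of_lt (card_le_card ?_) hS
  intro v hv
  obtain ⟨h1, h2⟩ := mem_filter.mp hv
  have h3 := (mem_filter.mp h1).2
  refine mem_filter.mpr ⟨mem_univ _, h3, ?_⟩
  intro a ha
  rw [gr_adj]
  refine ⟨h2 a (mem_filter.mpr ⟨mem_univ _, ha⟩), ?_⟩
  rintro rfl
  omega

end

end Pool.Agent.H42.Sat
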