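import Pool.Agent.H42.Sat.Prob2
import Pool.Agent.H42.Sat.Num
import Pool.Agent.H42.Sat.Asym

set_option autoImplicit false
set_option linter.unusedSectionVars false

/-! The lower bound holds with high probability. -/

namespace Pool.Agent.H42.Sat

open Finset Classical Pool.Agent.W166.Gnp Filter Topology

theorem eventually_pow_exp (K p c : ℝ) (hp : 0 < p) (hc : 0 < c) :
    ∀ᶠ n : ℕ in atTop, K * (Real.log (n : ℝ)) ^ 4 ≤ p * Real.exp (c * Real.log (n : ℝ)) := by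
  have h := (isLittleO_pow_exp_pos_mul_atTop (k := 4) hc).comp_tendsto tendsto_log_nat
  have h2 := h.bound (show 0 < p / (|K| + 1) by positivity)
  filter_upwards [h2] with n hn
  simp only [Function.comp, Real.norm_eq_abs] at hn
  rw [abs_of_nonneg (by positivity : 0 ≤ Real.log (n : ℝ) ^ 4), abs_of_nonneg (Real.exp_pos _).le] at hn
  have h3 : 0 ≤ Real.log (n : ℝ) ^ 4 := by positivity
  have h5 : (|K| + 1) * Real.log (n : ℝ) ^ 4 ≤
      (|K| + 1) * (p / (|K| + 1) * Real.exp (c * Real.log (n : ℝ))) :=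
    mul_le_mul_of_nonneg_left hn (by positivity)
  have h6 : (|K| + 1) * (p / (|K| + 1) * Real.exp (c * Real.log (n : ℝ))) =
      p * Real.exp (c * Real.log (n : ℝ)) := by
    field_simp
  have h7 : K * Real.log (n : ℝ) ^ 4 ≤ (|K| + 1) * Real.log (n : ℝ) ^ 4 := by
    apply mul_le_mul_of_nonneg_right _ h3
    have := le_abs_self K
    linarith
  linarith

theorem lower_ineq {ε lam x n s Δ e : ℝ} (hε0 : 0 < ε) (hε1 : ε ≤ 1) (hlam : 0 < lam)
    (hx1 : 1 ≤ x) (hn : 0 < n) (hs0 : 0 ≤ s) (hs1 : s ≤ x / lam) (hs2 : (1 - ε / 2) * x / lam - 1 ≤ s)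
    (hΔ : x ^ 2 ≤ Δ) (hx2 : 2 / lam ^ 2 + 1 < ε / (2 * lam) * x)
    (he : s * n * Δ ≤ e * (Δ + 2 * s)) : (1 - ε) * (n * (x / lam)) ≤ e := by
  by_contra hlt
  push Not at hlt
  have hx0 : 0 < x := by linarith
  have hxl : 0 < x / lam := by positivity
  have hΔ0 : 0 < Δ := lt_of_lt_of_le (by positivity) hΔ
  have h1 : s * n * Δ < (1 - ε) * (n * (x / lam)) * (Δ + 2 * s) :=
    he.trans_lt (mul_lt_mul_of_pos_right hlt (by positivity))
  have h2 : s * Δ < (1 - ε) * (x / lam) * (Δ + 2 * s) := by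
    have : n * (s * Δ) < n * ((1 - ε) * (x / lam) * (Δ + 2 * s)) := by linarith
    exact lt_of_mul_lt_mul_left this hn.le
  have h3 : ((1 - ε / 2) * x / lam - 1) * Δ ≤ s * Δ := mul_le_mul_of_nonneg_right hs2 hΔ0.le
  have h4 : (1 - ε) * (x / lam) * (Δ + 2 * s) ≤ (1 - ε) * (x / lam) * Δ + 2 * (x / lam) ^ 2 := by
    have h5 : (1 - ε) * (x / lam) * (2 * s) ≤ 1 * (x / lam) * (2 * (x / lam)) := by
      apply mul_le_mul
      · exact mul_le_mul_of_nonneg_right (by linarith) hxl.le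
      · linarith
      · positivity
      · positivity
    nlinarith
  have h5 : ε / (2 * lam) * x * Δ < Δ + 2 * (x / lam) ^ 2 := by
    have e1 : ((1 - ε / 2) * x / lam - 1) * Δ = (x / lam) * Δ - ε / (2 * lam) * x * Δ - Δ := by
      field_simp
    have e2 : (1 - ε) * (x / lam) * Δ = (x / lam) * Δ - 2 * (ε / (2 * lam) * x * Δ) := by
      field_simp
    rw [e1] at h3
    rw [e2] at h4
    linarith
  have h6 : 2 * (x / lam) ^ 2 ≤ 2 / lam ^ 2 * Δ := by
    have e3 : 2 * (x / lam) ^ 2 = 2 / lam ^ 2 * x ^ 2 := by field_simp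
    rw [e3]
    exact mul_le_mul_of_nonneg_left hΔ (by positivity)
  have h7 : (2 / lam ^ 2 + 1) * Δ < ε / (2 * lam) * x * Δ := mul_lt_mul_of_pos_right hx2 hΔ0
  linarith

theorem lower_exp {ε lam x n s Δ a p : ℝ} (hlam : 0 < lam) (hx1 : 1 ≤ x)
    (hs1 : s ≤ x / lam) (hΔ0 : 0 ≤ Δ) (hΔ : Δ ≤ x ^ 2 + 1)
    (ha : a = Δ + Δ * Δ + 1)
    (hbig : (8 + 2 / lam + 1) * x ^ 4 ≤ p / 4 * Real.exp (ε / 2 * x))
    (hpn : p / 4 * Real.exp (ε / 2 * x) ≤ p * n / 4) :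
    x + s + x * s + a - p * n / 4 ≤ -(1 * x) := by
  have hx0 : 0 < x := by linarith
  have hx2 : x ≤ x ^ 2 := by nlinarith
  have hx3 : 1 ≤ x ^ 2 := by nlinarith
  have hx4 : x ^ 2 ≤ x ^ 4 := by nlinarith
  have hx41 : 1 ≤ x ^ 4 := by linarith
  have hx44 : x ≤ x ^ 4 := by linarith
  have h1 : Δ ≤ 2 * x ^ 2 := by linarith
  have h2 : Δ * Δ ≤ 2 * x ^ 2 * (2 * x ^ 2) := mul_le_mul h1 h1 hΔ0 (by positivity)
  have h3 : 2 * x ^ 2 * (2 * x ^ 2) = 4 * x ^ 4 := by ring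
  have h4 : s ≤ 1 / lam * x ^ 4 := by
    have : x / lam = 1 / lam * x := by ring
    rw [this] at hs1
    exact hs1.trans (mul_le_mul_of_nonneg_left hx44 (by positivity))
  have h5 : x * s ≤ 1 / lam * x ^ 4 := by
    have h6 : x * s ≤ x * (x / lam) := mul_le_mul_of_nonneg_left hs1 hx0.le
    have h7 : x * (x / lam) = 1 / lam * x ^ 2 := by ring
    rw [h7] at h6
    exact h6.trans (mul_le_mul_of_nonneg_left hx4 (by positivity))
  have h8 : (8 + 2 / lam + 1) * x ^ 4 = 9 * x ^ 4 + 2 * (1 / lam * x ^ 4) := by ring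
  rw [h8] at hbig
  rw [ha]
  linarith

theorem lower_whp {p : ℝ} (hp0 : 0 < p) (hp1 : p < 1) {k : ℕ} (F : SimpleGraph (Fin k))
    (htri : ∀ u v, F.Adj u v → ∃ w, F.Adj u w ∧ F.Adj v w)
    {ε : ℝ} (hε0 : 0 < ε) (hε1 : ε ≤ 1) :
    Tendsto (fun n : ℕ => Pr (allE n) p (fun S => ¬ ∀ H : SimpleGraph (Fin n),
      SatIn F (gr S) H → (1 - ε) * ((n : ℝ) * (Real.log n / (-Real.log (1 - p)))) ≤
        (H.edgeSet.ncard : ℝ)))
      atTop (𝓝 0) := by
  obtain ⟨lam, hlamdef⟩ : ∃ lam : ℝ, lam = -Real.log (1 - p) := ⟨_, rfl⟩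
  have hlam : 0 < lam := by
    have := Real.log_neg (by linarith : 0 < 1 - p) (by linarith)
    rw [hlamdef]
    linarith
  rw [← hlamdef]
  have h1p : 0 < 1 - p := by linarith
  have hlim : Tendsto (fun n : ℕ => Real.exp (-(1 * Real.log (n : ℝ)))) atTop (𝓝 0) :=
    tendsto_exp_neg one_pos tendsto_log_nat
  refine squeeze_zero' (Eventually.of_forall fun n => Pr_nonneg hp0.le hp1.le _) ?_ hlim
  have ev1 : ∀ᶠ n : ℕ in atTop, 1 ≤ Real.log (n : ℝ) := tendsto_log_nat.eventually_ge_atTop _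
  have ev2 := eventually_pow_exp (8 + 2 / lam + 1) (p / 4) (ε / 2) (by positivity) (by positivity)
  have ev3 : ∀ᶠ n : ℕ in atTop, (2 / lam ^ 2 + 1) / (ε / (2 * lam)) < Real.log (n : ℝ) :=
    tendsto_log_nat.eventually_gt_atTop _
  have ev4 := eventually_sq_log (2 * (1 / lam + 1))
  have ev5 : ∀ᶠ n : ℕ in atTop, 1 ≤ n := eventually_ge_atTop 1
  filter_upwards [ev1, ev2, ev3, ev4, ev5] with n hx1 hbig hx2 hsq hn1
  obtain ⟨x, hx⟩ : ∃ x : ℝ, x = Real.log (n : ℝ) := ⟨_, rfl⟩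
  rw [← hx] at hx1 hbig hx2 hsq ⊢
  have hx0 : 0 < x := by linarith only [hx1]
  have hnr : (0 : ℝ) < n := by exact_mod_cast hn1
  have hexpx : Real.exp x = n := by rw [hx]; exact Real.exp_log hnr
  rw [div_lt_iff₀ (by positivity)] at hx2
  -- parameters
  obtain ⟨s, hs⟩ : ∃ s : ℕ, s = ⌊(1 - ε / 2) * x / lam⌋₊ := ⟨_, rfl⟩
  obtain ⟨Δ, hΔ⟩ : ∃ Δ : ℕ, Δ = ⌈x ^ 2⌉₊ := ⟨_, rfl⟩
  have hsnn : 0 ≤ (1 - ε / 2) * x / lam := by
    have : 0 ≤ 1 - ε / 2 := by linarith only [hε1]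
    positivity
  have hs1 : (s : ℝ) ≤ (1 - ε / 2) * x / lam := by rw [hs]; exact Nat.floor_le hsnn
  have hs2 : (1 - ε / 2) * x / lam - 1 ≤ s := by
    have := Nat.lt_floor_add_one ((1 - ε / 2) * x / lam)
    rw [← hs] at this
    linarith only [this]
  have hsx : (s : ℝ) ≤ x / lam := by
    refine hs1.trans ?_
    have : (1 - ε / 2) * x / lam = (1 - ε / 2) * (x / lam) := by ring
    rw [this]
    have hxl : 0 ≤ x / lam := by positivity
    have h2 : (1 - ε / 2) * (x / lam) ≤ 1 * (x / lam) :=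
      mul_le_mul_of_nonneg_right (by linarith only [hε0]) hxl
    linarith only [h2]
  have hΔ1 : x ^ 2 ≤ Δ := by rw [hΔ]; exact Nat.le_ceil _
  have hΔ2 : (Δ : ℝ) ≤ x ^ 2 + 1 := by
    rw [hΔ]; exact (Nat.ceil_lt_add_one (by positivity)).le
  have hn2 : 2 * (s + 1) ≤ n := by
    have h1 : (2 : ℝ) * ((s : ℝ) + 1) ≤ n := by
      have h2 : (s : ℝ) + 1 ≤ (1 / lam + 1) * x ^ 2 := by
        have h3 : x ≤ x ^ 2 := by nlinarith only [hx1]
        have h4 : x / lam = 1 / lam * x := by ring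
        have h5 : 1 / lam * x ≤ 1 / lam * x ^ 2 := mul_le_mul_of_nonneg_left h3 (by positivity)
        rw [h4] at hsx
        linarith only [hsx, h5, h3, hx1]
      linarith only [h2, hsq]
    exact_mod_cast h1
  have hP := Pr_lower_event (n := n) hp0.le hp1.le (Δ + Δ * Δ + 1) s hn2
  -- deterministic part
  have hdet : Pr (allE n) p (fun S => ¬ ∀ H : SimpleGraph (Fin n),
      SatIn F (gr S) H → (1 - ε) * ((n : ℝ) * (x / lam)) ≤ (H.edgeSet.ncard : ℝ)) ≤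
      Pr (allE n) p (fun S => ¬ ∀ v, ∀ S₀ : Finset (Fin n), v ∉ S₀ → S₀.card ≤ s →
      Δ + Δ * Δ + 1 ≤ (univ.filter (fun w => w ≠ v ∧ w ∉ S₀ ∧ (gr S).Adj v w ∧
      ∀ z ∈ S₀, ¬ (gr S).Adj w z)).card) := by
    apply Pr_mono hp0.le hp1.le
    intro S _ hS hG
    apply hS
    rintro H ⟨h1, h2, h3⟩
    have h4 := lower_det (gr S) H F htri h1 h2 h3 Δ (Δ + Δ * Δ + 1) s (by
      intro v S₀ hv hc
      have := hG v S₀ hv hc
      refine this.trans (le_of_eq ?_)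
      congr!) (Nat.lt_succ_self _)
    rw [Fintype.card_fin] at h4
    have h5 : (2 : ℝ) * ((s : ℝ) * n * Δ) ≤ 2 * (H.edgeSet.ncard : ℝ) * ((Δ : ℝ) + 2 * s) := by
      rw [← ncard_prs]
      exact_mod_cast h4
    exact lower_ineq hε0 hε1 hlam hx1 hnr (Nat.cast_nonneg _) hsx hs2 hΔ1
      (by linarith only [hx2]) (by linarith only [h5])
  refine hdet.trans (hP.trans ?_)
  -- numerical bound
  have q1 : ((s : ℝ) + 1) ≤ Real.exp s := Real.add_one_le_exp _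
  have q2 : (n : ℝ) ^ s = Real.exp (x * s) := by
    rw [← hexpx, ← Real.exp_nat_mul]; congr 1; ring
  have q3 : (2 : ℝ) ^ (Δ + Δ * Δ + 1) ≤ Real.exp ((Δ + Δ * Δ + 1 : ℕ) : ℝ) := by
    have h6 : (2 : ℝ) ≤ Real.exp 1 := by
      have := Real.exp_one_gt_d9
      linarith only [this]
    calc (2 : ℝ) ^ (Δ + Δ * Δ + 1) ≤ (Real.exp 1) ^ (Δ + Δ * Δ + 1) :=
          pow_le_pow_left₀ (by norm_num) h6 _
      _ = Real.exp ((Δ + Δ * Δ + 1 : ℕ) : ℝ) := by rw [← Real.exp_nat_mul]; congr 1; ring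
  have q4 : Real.exp (ε / 2 * x) ≤ (1 - p) ^ s * n := by
    have h7 : (1 - p) ^ s = Real.exp (-(lam * s)) := by
      have : Real.exp (-lam) = 1 - p := by rw [hlamdef, neg_neg, Real.exp_log h1p]
      rw [← this, ← Real.exp_nat_mul]; congr 1; ring
    rw [h7, ← hexpx, ← Real.exp_add]
    apply Real.exp_le_exp.mpr
    have h8 : lam * s ≤ (1 - ε / 2) * x := by
      rw [le_div_iff₀ hlam] at hs1
      linarith only [hs1]
    linarith only [h8]
  calc (n : ℝ) * ((s + 1) * (n : ℝ) ^ s) *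
        (2 ^ (Δ + Δ * Δ + 1) * Real.exp (-(p * (1 - p) ^ s * (n : ℝ) / 4)))
      ≤ Real.exp x * (Real.exp s * Real.exp (x * s)) *
        (Real.exp ((Δ + Δ * Δ + 1 : ℕ) : ℝ) * Real.exp (-(p * (1 - p) ^ s * (n : ℝ) / 4))) := by
        rw [q2, hexpx]
        apply mul_le_mul
        · apply mul_le_mul_of_nonneg_left _ hnr.le
          exact mul_le_mul_of_nonneg_right q1 (Real.exp_pos _).le
        · exact mul_le_mul_of_nonneg_right q3 (Real.exp_pos _).le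
        · positivity
        · positivity
    _ = Real.exp (x + s + x * s + ((Δ + Δ * Δ + 1 : ℕ) : ℝ) -
          p * ((1 - p) ^ s * (n : ℝ)) / 4) := by
        rw [← Real.exp_add, ← Real.exp_add, ← Real.exp_add, ← Real.exp_add]
        congr 1
        ring
    _ ≤ Real.exp (-(1 * x)) := by
        apply Real.exp_le_exp.mpr
        refine lower_exp (ε := ε) (lam := lam) (Δ := (Δ : ℝ)) hlam hx1 hsx (Nat.cast_nonneg _) hΔ2
          (by push_cast; ring) hbig ?_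
        have := mul_le_mul_of_nonneg_left q4 (show 0 ≤ p / 4 by positivity)
        linarith only [this]

end Pool.Agent.H42.Sat
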