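import Pool.Agent.H42.Sat.Whp2
import Pool.Agent.H42.Sat.LowerWhp

set_option autoImplicit false
set_option linter.unusedSectionVars false

/-! Both bounds together. -/

namespace Pool.Agent.H42.Sat

open Finset Classical Pool.Agent.W166.Gnp Filter Topology

theorem satIn_iff {n k : ℕ} (F : SimpleGraph (Fin k)) (G H : SimpleGraph (Fin n)) :
    SatIn F G H ↔ (H ≤ G ∧ ¬ F.IsContained H ∧ ∀ u v : Fin n, G.Adj u v → ¬ H.Adj u v →
      F.IsContained (H ⊔ SimpleGraph.fromEdgeSet {s(u, v)})) := by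
  unfold SatIn
  simp only [emb_iff]

/-- the probability that the saturation number is within a factor `1 ± ε` of its asymptotic value -/
theorem both_whp {p : ℝ} (hp0 : 0 < p) (hp1 : p < 1) {k : ℕ} (F : SimpleGraph (Fin k))
    (htri : ∀ u v, F.Adj u v → ∃ w, F.Adj u w ∧ F.Adj v w)
    (hne : ∃ u v, F.Adj u v) {ε : ℝ} (hε : 0 < ε) :
    Tendsto (fun n : ℕ => Pr (allE n) p (fun S =>
      (∃ H : SimpleGraph (Fin n), (H ≤ gr S ∧ ¬ F.IsContained H ∧
        ∀ u v : Fin n, (gr S).Adj u v → ¬ H.Adj u v →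
          F.IsContained (H ⊔ SimpleGraph.fromEdgeSet {s(u, v)})) ∧
        (H.edgeSet.ncard : ℝ) ≤ (1 + ε) * ((n : ℝ) * Real.logb (1 / (1 - p)) (n : ℝ))) ∧
      (∀ H : SimpleGraph (Fin n), (H ≤ gr S ∧ ¬ F.IsContained H ∧
        ∀ u v : Fin n, (gr S).Adj u v → ¬ H.Adj u v →
          F.IsContained (H ⊔ SimpleGraph.fromEdgeSet {s(u, v)})) →
        (1 - ε) * ((n : ℝ) * Real.logb (1 / (1 - p)) (n : ℝ)) ≤ (H.edgeSet.ncard : ℝ))))
      atTop (𝓝 1) := by
  obtain ⟨e, he⟩ : ∃ e : ℝ, e = min ε 1 := ⟨_, rfl⟩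
  have he0 : 0 < e := by rw [he]; exact lt_min hε one_pos
  have he1 : e ≤ 1 := by rw [he]; exact min_le_right _ _
  have heε : e ≤ ε := by rw [he]; exact min_le_left _ _
  have hU := upper_all hp0 hp1 htri hne he0 he1
  have hLo := lower_whp hp0 hp1 F htri he0 he1
  have hsum := (hU.add hLo).const_sub 1
  rw [add_zero, sub_zero] at hsum
  refine tendsto_of_tendsto_of_tendsto_of_le_of_le' hsum tendsto_const_nhds ?_ ?_
  · have ev : ∀ᶠ n : ℕ in atTop, 1 ≤ n := eventually_ge_atTop 1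
    filter_upwards [ev] with n hn
    have hlog : Real.logb (1 / (1 - p)) (n : ℝ) = Real.log n / (-Real.log (1 - p)) := by
      rw [Real.logb, one_div, Real.log_inv]
    have hlam : 0 < -Real.log (1 - p) := by
      have := Real.log_neg (by linarith : 0 < 1 - p) (by linarith)
      linarith
    have hnr : (1 : ℝ) ≤ n := by exact_mod_cast hn
    have hX : 0 ≤ (n : ℝ) * (Real.log n / (-Real.log (1 - p))) := by
      have := Real.log_nonneg hnr
      positivity
    rw [hlog]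
    obtain ⟨X, hXd⟩ : ∃ X : ℝ, X = (n : ℝ) * (Real.log n / (-Real.log (1 - p))) := ⟨_, rfl⟩
    rw [← hXd] at hX ⊢
    obtain ⟨A, hA⟩ : ∃ A : Finset (Sym2 (Fin n)) → Prop, A = fun S =>
      (∃ H : SimpleGraph (Fin n), (H ≤ gr S ∧ ¬ F.IsContained H ∧
        ∀ u v : Fin n, (gr S).Adj u v → ¬ H.Adj u v →
          F.IsContained (H ⊔ SimpleGraph.fromEdgeSet {s(u, v)})) ∧
        (H.edgeSet.ncard : ℝ) ≤ (1 + ε) * X) ∧
      (∀ H : SimpleGraph (Fin n), (H ≤ gr S ∧ ¬ F.IsContained H ∧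
        ∀ u v : Fin n, (gr S).Adj u v → ¬ H.Adj u v →
          F.IsContained (H ⊔ SimpleGraph.fromEdgeSet {s(u, v)})) →
        (1 - ε) * X ≤ (H.edgeSet.ncard : ℝ)) := ⟨_, rfl⟩
    rw [← hA]
    have h1 : Pr (allE n) p (fun S => ¬ A S) ≤
        Pr (allE n) p (fun S => ¬ ∃ H : SimpleGraph (Fin n),
          SatIn F (gr S) H ∧ (H.edgeSet.ncard : ℝ) ≤ (1 + e) * X) +
        Pr (allE n) p (fun S => ¬ ∀ H : SimpleGraph (Fin n),
          SatIn F (gr S) H → (1 - e) * X ≤ (H.edgeSet.ncard : ℝ)) := by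
      refine le_trans (Pr_mono hp0.le hp1.le ?_) (Pr_or_le hp0.le hp1.le _ _)
      intro S _ hS
      by_contra hno
      rw [not_or, not_not, not_not] at hno
      obtain ⟨⟨H, hH1, hH2⟩, h3⟩ := hno
      apply hS
      rw [hA]
      refine ⟨⟨H, (satIn_iff F (gr S) H).mp hH1, hH2.trans ?_⟩, ?_⟩
      · exact mul_le_mul_of_nonneg_right (by linarith) hX
      · intro H' hH'
        refine le_trans ?_ (h3 H' ((satIn_iff F (gr S) H').mpr hH'))
        exact mul_le_mul_of_nonneg_right (by linarith) hX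
    rw [Pr_not] at h1
    linarith
  · exact Eventually.of_forall fun n => Pr_le_one hp0.le hp1.le _

end Pool.Agent.H42.Sat
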