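import Mathlib

set_option autoImplicit false
set_option linter.unusedSectionVars false

/-! Forests inside graphs with many edges. -/

namespace Pool.Agent.H42.Sat

open Finset Classical

/-- a finite nonempty forest has a vertex with at most one neighbour -/
theorem exists_leaf {α : Type} [Finite α] [Nonempty α] (T : SimpleGraph α) (hT : T.IsAcyclic) :
    ∃ v, ∀ a b, T.Adj v a → T.Adj v b → a = b := by
  have : Finite T.edgeSet := inferInstance
  obtain ⟨u, v, p, hp, hmax⟩ := SimpleGraph.Walk.exists_isPath_forall_isPath_length_le_length T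
  refine ⟨u, ?_⟩
  have key : ∀ a, T.Adj u a → a = p.snd := by
    intro a ha
    by_cases hmem : a ∈ p.support
    · exact hT.eq_snd_of_adj_start hp ha hmem
    · exfalso
      have h1 : (p.cons ha.symm).IsPath := by
        rw [SimpleGraph.Walk.cons_isPath_iff]
        exact ⟨hp, hmem⟩
      have := hmax _ _ _ h1
      simp at this
  intro a b ha hb
  rw [key a ha, key b hb]

/-- a forest embeds into a graph with large minimum degree -/
theorem forest_embed_aux {V : Type} (Q : SimpleGraph V) (n : ℕ) (W : Finset V) (hW : W.Nonempty)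
    (hdeg : ∀ w ∈ W, n ≤ (W.filter (fun x => Q.Adj w x)).card) :
    ∀ (m : ℕ), m ≤ n → ∀ (α : Type) [Fintype α], Fintype.card α = m → ∀ (T : SimpleGraph α),
      T.IsAcyclic → ∃ f : α → V, Function.Injective f ∧ (∀ a, f a ∈ W) ∧
        ∀ a b, T.Adj a b → Q.Adj (f a) (f b) := by
  intro m
  induction m with
  | zero =>
    intro _ α _ hα T _
    have : IsEmpty α := Fintype.card_eq_zero_iff.mp hα
    exact ⟨fun a => (this.false a).elim, fun a => (this.false a).elim, fun a => (this.false a).elim,
      fun a => (this.false a).elim⟩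
  | succ m ih =>
    intro hmn α _ hα T hT
    have hne : Nonempty α := Fintype.card_pos_iff.mp (by omega)
    obtain ⟨v, hv⟩ := exists_leaf T hT
    let β := {x : α // x ≠ v}
    have hβ : Fintype.card β = m := by
      have : Fintype.card {x : α // x ≠ v} = Fintype.card α - 1 := by
        rw [Fintype.card_subtype_compl]
        simp
      rw [this, hα]; rfl
    obtain ⟨f, hf1, hf2, hf3⟩ := ih (by omega) β hβ (T.comap Subtype.val)
      (hT.of_comap ⟨Subtype.val, Subtype.val_injective⟩)
    -- choose the image of v
    have hcard : (univ.image f).card ≤ m := by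
      calc (univ.image f).card ≤ (univ : Finset β).card := card_image_le
        _ = m := by rw [card_univ, hβ]
    have hx : ∃ x ∈ W, x ∉ univ.image f ∧ ∀ a : β, T.Adj v a.1 → Q.Adj x (f a) := by
      by_cases hnb : ∃ a : β, T.Adj v a.1
      · obtain ⟨a, ha⟩ := hnb
        have h1 := hdeg (f a) (hf2 a)
        have h2 : ∃ x ∈ W.filter (fun x => Q.Adj (f a) x), x ∉ univ.image f := by
          apply exists_mem_notMem_of_card_lt_card
          omega
        obtain ⟨x, hx1, hx2⟩ := h2
        rw [mem_filter] at hx1
        refine ⟨x, hx1.1, hx2, ?_⟩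
        intro b hb
        have : a = b := Subtype.ext (hv _ _ ha hb)
        rw [← this]
        exact hx1.2.symm
      · obtain ⟨w, hw⟩ := hW
        have h1 := hdeg w hw
        have h3 : (W.filter (fun x => Q.Adj w x)).card ≤ W.card := card_filter_le _ _
        have h2 : ∃ x ∈ W, x ∉ univ.image f := by
          apply exists_mem_notMem_of_card_lt_card
          omega
        obtain ⟨x, hx1, hx2⟩ := h2
        exact ⟨x, hx1, hx2, fun a ha => (hnb ⟨a, ha⟩).elim⟩
    obtain ⟨x, hxW, hxn, hxa⟩ := hx
    refine ⟨fun a => if h : a = v then x else f ⟨a, h⟩, ?_, ?_, ?_⟩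
    · intro a b hab
      by_cases ha : a = v <;> by_cases hb : b = v
      · rw [ha, hb]
      · simp only [ha, hb, dif_pos, dif_neg, not_false_eq_true] at hab
        exact (hxn (by rw [hab]; exact mem_image_of_mem _ (mem_univ _))).elim
      · simp only [ha, hb, dif_pos, dif_neg, not_false_eq_true] at hab
        exact (hxn (by rw [← hab]; exact mem_image_of_mem _ (mem_univ _))).elim
      · simp only [ha, hb, dif_neg, not_false_eq_true] at hab
        exact congrArg Subtype.val (hf1 hab)
    · intro a
      by_cases ha : a = v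
      · simp only [ha, dif_pos]; exact hxW
      · simp only [ha, dif_neg, not_false_eq_true]; exact hf2 _
    · intro a b hab
      by_cases ha : a = v <;> by_cases hb : b = v
      · subst ha; subst hb; exact (T.loopless.irrefl _ hab).elim
      · simp only [ha, hb, dif_pos, dif_neg, not_false_eq_true]
        exact hxa ⟨b, hb⟩ (by subst ha; exact hab)
      · simp only [ha, hb, dif_pos, dif_neg, not_false_eq_true]
        exact (hxa ⟨a, ha⟩ (by subst hb; exact hab.symm)).symm
      · simp only [ha, hb, dif_neg, not_false_eq_true]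
        exact hf3 _ _ hab

/-- the number of ordered adjacent pairs inside `W` -/
noncomputable def dd {V : Type} (Q : SimpleGraph V) (W : Finset V) : ℕ :=
  ((W ×ˢ W).filter (fun x => Q.Adj x.1 x.2)).card

theorem dd_eq {V : Type} (Q : SimpleGraph V) (W : Finset V) :
    dd Q W = ∑ w ∈ W, (W.filter (fun x => Q.Adj w x)).card := by
  unfold dd
  rw [card_filter, sum_product]
  exact sum_congr rfl (fun w _ => (card_filter _ _).symm)

theorem dd_erase {V : Type} (Q : SimpleGraph V) (W : Finset V) (w : V) (hw : w ∈ W) :
    dd Q W = dd Q (W.erase w) + 2 * (W.filter (fun x => Q.Adj w x)).card := by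
  have h1 : ∀ v ∈ W.erase w, (W.filter (fun x => Q.Adj v x)).card =
      ((W.erase w).filter (fun x => Q.Adj v x)).card + if Q.Adj w v then 1 else 0 := by
    intro v _
    by_cases hvw : Q.Adj w v
    · rw [if_pos hvw]
      have : W.filter (fun x => Q.Adj v x) =
          insert w ((W.erase w).filter (fun x => Q.Adj v x)) := by
        ext x
        simp only [mem_filter, mem_insert, mem_erase]
        constructor
        · rintro ⟨h1, h2⟩
          by_cases hx : x = w
          · exact Or.inl hx
          · exact Or.inr ⟨⟨hx, h1⟩, h2⟩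
        · rintro (rfl | ⟨⟨_, h1⟩, h2⟩)
          · exact ⟨hw, hvw.symm⟩
          · exact ⟨h1, h2⟩
      rw [this, card_insert_of_notMem (by simp)]
    · rw [if_neg hvw, add_zero]
      congr 1
      ext x
      simp only [mem_filter, mem_erase]
      constructor
      · rintro ⟨h1, h2⟩
        exact ⟨⟨fun h => hvw (h ▸ h2).symm, h1⟩, h2⟩
      · rintro ⟨⟨_, h1⟩, h2⟩
        exact ⟨h1, h2⟩
  rw [dd_eq, dd_eq, ← add_sum_erase _ _ hw, sum_congr rfl h1, sum_add_distrib]
  have h2 : (∑ v ∈ W.erase w, if Q.Adj w v then 1 else 0) = (W.filter (fun x => Q.Adj w x)).card := by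
    rw [← card_filter]
    congr 1
    ext x
    simp only [mem_filter, mem_erase]
    constructor
    · rintro ⟨⟨_, h1⟩, h2⟩
      exact ⟨h1, h2⟩
    · rintro ⟨h1, h2⟩
      exact ⟨⟨h2.ne', h1⟩, h2⟩
  rw [h2]
  ring

theorem exists_min_degree {V : Type} (Q : SimpleGraph V) (n : ℕ) :
    ∀ (m : ℕ) (W : Finset V), W.card = m → 2 * n * W.card < dd Q W →
      ∃ W' ⊆ W, W'.Nonempty ∧ ∀ w ∈ W', n ≤ (W'.filter (fun x => Q.Adj w x)).card := by
  intro m
  induction m with
  | zero =>
    intro W hW h
    rw [card_eq_zero] at hW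
    subst hW
    simp [dd] at h
  | succ m ih =>
    intro W hW h
    by_cases hall : ∀ w ∈ W, n ≤ (W.filter (fun x => Q.Adj w x)).card
    · exact ⟨W, subset_rfl, card_pos.mp (by omega), hall⟩
    · push Not at hall
      obtain ⟨w, hw, hlt⟩ := hall
      have h1 := dd_erase Q W w hw
      have h2 : (W.erase w).card = m := by rw [card_erase_of_mem hw, hW]; rfl
      have h3 : 2 * n * (W.erase w).card < dd Q (W.erase w) := by
        rw [h2]
        rw [hW] at h
        have : 2 * n * (m + 1) = 2 * n * m + 2 * n := by ring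
        omega
      obtain ⟨W', h4, h5, h6⟩ := ih (W.erase w) h2 h3
      exact ⟨W', h4.trans (erase_subset _ _), h5, h6⟩

/-- a graph with more than `n` edges per vertex inside `W` contains every forest on at most `n`
vertices inside `W` -/
theorem forest_embed {V : Type} (Q : SimpleGraph V) (n : ℕ) (W : Finset V)
    (h : 2 * n * W.card < dd Q W) (α : Type) [Fintype α] (hα : Fintype.card α ≤ n)
    (T : SimpleGraph α) (hT : T.IsAcyclic) :
    ∃ f : α → V, Function.Injective f ∧ (∀ a, f a ∈ W) ∧
        ∀ a b, T.Adj a b → Q.Adj (f a) (f b) := by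
  obtain ⟨W', h1, h2, h3⟩ := exists_min_degree Q n W.card W rfl h
  obtain ⟨f, hf1, hf2, hf3⟩ := forest_embed_aux Q n W' h2 h3 (Fintype.card α) hα α rfl T hT
  exact ⟨f, hf1, fun a => h1 (hf2 a), hf3⟩

end Pool.Agent.H42.Sat
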