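import Mathlib

set_option autoImplicit false
set_option linter.unusedSectionVars false

/-! Unions of far apart copies of a graph contain no other two-connected graphs. -/

namespace Pool.Agent.H42.Sat

open Finset Classical

/-- connected, and connected after the removal of any one vertex (a single edge is allowed) -/
def TwoConn {α : Type} (K : SimpleGraph α) : Prop :=
  K.Connected ∧ ∀ x, (K.induce {x}ᶜ).Preconnected

/-- the union of the copies `f`, `f ∈ E`, of the graph `Γ` -/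
def RG {V : Type} {k : ℕ} (Γ : SimpleGraph (Fin k)) (E : Finset (Fin k → V)) : SimpleGraph V where
  Adj x y := x ≠ y ∧ ∃ f ∈ E, ∃ i j, Γ.Adj i j ∧ f i = x ∧ f j = y
  symm := ⟨by
    rintro x y ⟨h, f, hf, i, j, hij, h1, h2⟩
    exact ⟨h.symm, f, hf, j, i, hij.symm, h2, h1⟩⟩
  loopless := ⟨fun x h => h.1 rfl⟩

section
variable {V : Type} [Fintype V]

/-- vertices within distance `t` -/
noncomputable def ball (R : SimpleGraph V) : ℕ → V → Finset V
  | 0, x => {x}
  | t + 1, x => (insert x (univ.filter (fun y => R.Adj x y))).biUnion (fun y => ball R t y)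

theorem mem_ball_self (R : SimpleGraph V) (t : ℕ) (x : V) : x ∈ ball R t x := by
  induction t with
  | zero => simp [ball]
  | succ t ih =>
    rw [ball, mem_biUnion]
    exact ⟨x, mem_insert_self _ _, ih⟩

theorem ball_succ_sub (R : SimpleGraph V) (t : ℕ) (x : V) : ball R t x ⊆ ball R (t + 1) x := by
  intro y hy
  rw [ball, mem_biUnion]
  exact ⟨x, mem_insert_self _ _, hy⟩

theorem ball_mono (R : SimpleGraph V) {s t : ℕ} (h : s ≤ t) (x : V) : ball R s x ⊆ ball R t x := by
  induction h with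
  | refl => exact subset_rfl
  | step _ ih => exact ih.trans (ball_succ_sub R _ x)

theorem card_ball (R : SimpleGraph V) (d : ℕ)
    (hd : ∀ x, (univ.filter (fun y => R.Adj x y)).card ≤ d) (t : ℕ) (x : V) :
    (ball R t x).card ≤ (d + 1) ^ t := by
  induction t generalizing x with
  | zero => simp [ball]
  | succ t ih =>
    rw [ball]
    calc _ ≤ ∑ y ∈ insert x (univ.filter (fun y => R.Adj x y)), (ball R t y).card := card_biUnion_le
      _ ≤ ∑ _y ∈ insert x (univ.filter (fun y => R.Adj x y)), (d + 1) ^ t := sum_le_sum (fun y _ => ih y)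
      _ = (insert x (univ.filter (fun y => R.Adj x y))).card * (d + 1) ^ t := by
          rw [sum_const, smul_eq_mul]
      _ ≤ (d + 1) * (d + 1) ^ t := by
          apply Nat.mul_le_mul_right
          exact (card_insert_le _ _).trans (Nat.succ_le_succ (hd x))
      _ = (d + 1) ^ (t + 1) := by ring

theorem walk_ball (R : SimpleGraph V) {α : Type} (K : SimpleGraph α) (ψ : α → V)
    (hψ : ∀ a b, K.Adj a b → R.Adj (ψ a) (ψ b)) {a b : α} (p : K.Walk a b) :
    ψ b ∈ ball R p.length (ψ a) := by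
  induction p with
  | nil => simp [ball]
  | cons h p ih =>
    rw [SimpleGraph.Walk.length_cons, ball, mem_biUnion]
    exact ⟨_, mem_insert_of_mem (mem_filter.mpr ⟨mem_univ _, hψ _ _ h⟩), ih⟩

theorem reach_ball (R : SimpleGraph V) {m : ℕ} (K : SimpleGraph (Fin m)) (ψ : Fin m → V)
    (hψ : ∀ a b, K.Adj a b → R.Adj (ψ a) (ψ b)) {g : ℕ} (hg : m ≤ g) {a b : Fin m}
    (h : K.Reachable a b) : ψ b ∈ ball R g (ψ a) := by
  obtain ⟨p, hp⟩ := h.exists_isPath
  have h1 := hp.length_lt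
  rw [Fintype.card_fin] at h1
  exact ball_mono R (by omega) _ (walk_ball R K ψ hψ p)

/-- every two-connected graph on at most `g` vertices (with an edge) inside the union of copies
lies inside one copy -/
def Free (g : ℕ) {k : ℕ} (Γ : SimpleGraph (Fin k)) (E : Finset (Fin k → V)) : Prop :=
  ∀ (m : ℕ) (K : SimpleGraph (Fin m)), m ≤ g → TwoConn K → (∃ a b, K.Adj a b) →
    ∀ ψ : Fin m → V, Function.Injective ψ → (∀ a b, K.Adj a b → (RG Γ E).Adj (ψ a) (ψ b)) →
      ∃ f ∈ E, ∃ χ : Fin m → Fin k, Function.Injective χ ∧ (∀ a, ψ a = f (χ a)) ∧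
        ∀ a b, K.Adj a b → Γ.Adj (χ a) (χ b)

theorem free_empty (g : ℕ) {k : ℕ} (Γ : SimpleGraph (Fin k)) :
    Free (V := V) g Γ ∅ := by
  intro m K _ _ ⟨a, b, hab⟩ ψ _ hψ
  obtain ⟨_, f, hf, _⟩ := hψ a b hab
  simp at hf

theorem entry {m : ℕ} (K KR : SimpleGraph (Fin m)) (A : Fin m → Prop)
    (h : ∀ a b, K.Adj a b → ¬ A a → KR.Adj a b) (S : Set (Fin m)) {x y : S}
    (hr : (K.induce S).Reachable x y) (hy : A y.1) :
    ∃ a ∈ S, A a ∧ KR.Reachable x.1 a := by
  obtain ⟨p⟩ := hr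
  induction p with
  | nil => exact ⟨_, Subtype.property _, hy, SimpleGraph.Reachable.refl _⟩
  | @cons u v w huv p ih =>
    by_cases hA : A u.1
    · exact ⟨u.1, u.2, hA, SimpleGraph.Reachable.refl _⟩
    · obtain ⟨a, ha1, ha2, ha3⟩ := ih hy
      exact ⟨a, ha1, ha2, (h u.1 v.1 huv hA).reachable.trans ha3⟩

theorem free_step (g : ℕ) {k : ℕ} (Γ : SimpleGraph (Fin k)) (E : Finset (Fin k → V))
    (f : Fin k → V) (hfree : Free g Γ E)
    (hfar : ∀ i j, i < j → f j ∉ ball (RG Γ E) g (f i)) : Free g Γ (insert f E) := by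
  have hinj : Function.Injective f := by
    intro i j hij
    by_contra hne
    rcases lt_or_gt_of_ne hne with h | h
    · exact hfar i j h (by rw [hij]; exact mem_ball_self _ _ _)
    · exact hfar j i h (by rw [hij]; exact mem_ball_self _ _ _)
  intro m K hm h2 hedge ψ hψi hψ
  let R := RG Γ E
  have hdich : ∀ a b, K.Adj a b → R.Adj (ψ a) (ψ b) ∨ ∃ i j, Γ.Adj i j ∧ f i = ψ a ∧ f j = ψ b := by
    intro a b hab
    obtain ⟨hne, f', hf', i, j, hij, h3, h4⟩ := hψ a b hab
    rw [mem_insert] at hf'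
    rcases hf' with rfl | hf'
    · exact Or.inr ⟨i, j, hij, h3, h4⟩
    · exact Or.inl ⟨hne, f', hf', i, j, hij, h3, h4⟩
  let A : Fin m → Prop := fun a => ∃ i, f i = ψ a
  let KR : SimpleGraph (Fin m) := ⟨fun a b => K.Adj a b ∧ R.Adj (ψ a) (ψ b),
    ⟨fun a b h => ⟨h.1.symm, h.2.symm⟩⟩, ⟨fun a h => K.loopless.irrefl _ h.1⟩⟩
  have hKR : ∀ a b, KR.Adj a b → R.Adj (ψ a) (ψ b) := fun a b h => h.2
  have hnA : ∀ a b, K.Adj a b → ¬ A a → KR.Adj a b := by
    intro a b hab hA
    refine ⟨hab, ?_⟩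
    rcases hdich a b hab with h | ⟨i, j, _, h3, _⟩
    · exact h
    · exact (hA ⟨i, h3⟩).elim
  have hsep : ∀ a b, A a → A b → a ≠ b → ¬ KR.Reachable a b := by
    rintro a b ⟨i, hi⟩ ⟨j, hj⟩ hab hr
    have hij : i ≠ j := by
      rintro rfl
      exact hab (hψi (hi.symm.trans hj))
    rcases lt_or_gt_of_ne hij with h | h
    · apply hfar i j h
      rw [hi, hj]
      exact reach_ball R KR ψ hKR hm hr
    · apply hfar j i h
      rw [hi, hj]
      exact reach_ball R KR ψ hKR hm hr.symm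
  by_cases hA2 : ∃ a1 a2, A a1 ∧ A a2 ∧ a1 ≠ a2
  · obtain ⟨a1, a2, hA1, hA2, h12⟩ := hA2
    have hall : ∀ b, A b := by
      intro b
      by_contra hb
      have hb2 : b ≠ a2 := fun h => hb (h ▸ hA2)
      obtain ⟨a, ha1, ha2, ha3⟩ := entry K KR A hnA {a2}ᶜ
        (x := ⟨b, by simpa using hb2⟩) (y := ⟨a1, by simpa using h12⟩) (h2.2 a2 _ _) hA1
      have haa2 : a ≠ a2 := by simpa using ha1
      have hba : b ≠ a := fun h => hb (h ▸ ha2)
      obtain ⟨a', ha1', ha2', ha3'⟩ := entry K KR A hnA {a}ᶜ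
        (x := ⟨b, by simpa using hba⟩) (y := ⟨a2, by simpa using haa2.symm⟩) (h2.2 a _ _) hA2
      have haa' : a ≠ a' := by
        have : a' ≠ a := by simpa using ha1'
        exact this.symm
      exact hsep a a' ha2 ha2' haa' (ha3.symm.trans ha3')
    choose χ hχ using hall
    refine ⟨f, mem_insert_self _ _, χ, ?_, fun a => (hχ a).symm, ?_⟩
    · intro a b hab
      apply hψi
      rw [← hχ a, ← hχ b, hab]
    · intro a b hab
      rcases hdich a b hab with h | ⟨i, j, hij, h3, h4⟩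
      · exfalso
        exact hsep a b ⟨χ a, hχ a⟩ ⟨χ b, hχ b⟩ hab.ne
          (SimpleGraph.Adj.reachable (show KR.Adj a b from ⟨hab, h⟩))
      · have e1 : i = χ a := hinj (h3.trans (hχ a).symm)
        have e2 : j = χ b := hinj (h4.trans (hχ b).symm)
        rw [← e1, ← e2]
        exact hij
  · push Not at hA2
    have hR : ∀ a b, K.Adj a b → R.Adj (ψ a) (ψ b) := by
      intro a b hab
      rcases hdich a b hab with h | ⟨i, j, _, h3, h4⟩
      · exact h
      · exact (hab.ne (hA2 a b ⟨i, h3⟩ ⟨j, h4⟩)).elim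
    obtain ⟨f', hf', χ, h3⟩ := hfree m K hm h2 hedge ψ hψi hR
    exact ⟨f', mem_insert_of_mem hf', χ, h3⟩

end

end Pool.Agent.H42.Sat
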