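import Pool.Agent.H42.Sat.Design
import Pool.Agent.H42.Sat.Forest

set_option autoImplicit false
set_option linter.unusedSectionVars false

/-! The hub graph is free, and rich pairs are closed. -/

namespace Pool.Agent.H42.Sat

open Finset Classical

/-- `F` is a subgraph of `H` (not necessarily induced) -/
def Emb {α β : Type} (F : SimpleGraph α) (H : SimpleGraph β) : Prop :=
  ∃ f : α → β, Function.Injective f ∧ ∀ i j, F.Adj i j → H.Adj (f i) (f j)

theorem emb_iff {α β : Type} (F : SimpleGraph α) (H : SimpleGraph β) :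
    F.IsContained H ↔ Emb F H := by
  constructor
  · rintro ⟨c⟩
    exact ⟨c, c.injective, fun i j h => c.toHom.map_adj h⟩
  · rintro ⟨f, hf, h⟩
    exact ⟨⟨⟨f, fun {i j} hij => h i j hij⟩, hf⟩⟩

section
variable {V : Type}

theorem combine {k : ℕ} (H : SimpleGraph V) (F : SimpleGraph (Fin k)) (S : Set (Fin k))
    (f ψ : Fin k → V) (hf : ∀ i, i ∉ S → ∀ j, j ∉ S → f i = f j → i = j)
    (hψ : ∀ i ∈ S, ∀ j ∈ S, ψ i = ψ j → i = j) (hd : ∀ i ∈ S, ∀ j, j ∉ S → ψ i ≠ f j)
    (h1 : ∀ i, i ∉ S → ∀ j, j ∉ S → F.Adj i j → H.Adj (f i) (f j))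
    (h2 : ∀ i ∈ S, ∀ j ∈ S, F.Adj i j → H.Adj (ψ i) (ψ j))
    (h3 : ∀ i ∈ S, ∀ j, j ∉ S → H.Adj (ψ i) (f j)) : Emb F H := by
  refine ⟨fun i => if i ∈ S then ψ i else f i, ?_, ?_⟩
  · intro i j hij
    by_cases hi : i ∈ S <;> by_cases hj : j ∈ S
    · simp only [hi, hj, if_true] at hij
      exact hψ i hi j hj hij
    · simp only [hi, hj, if_true, if_false] at hij
      exact (hd i hi j hj hij).elim
    · simp only [hi, hj, if_true, if_false] at hij
      exact (hd j hj i hi hij.symm).elim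
    · simp only [hi, hj, if_false] at hij
      exact hf i hi j hj hij
  · intro i j hij
    by_cases hi : i ∈ S <;> by_cases hj : j ∈ S
    · simp only [hi, hj, if_true]; exact h2 i hi j hj hij
    · simp only [hi, hj, if_true, if_false]; exact h3 i hi j hj
    · simp only [hi, hj, if_true, if_false]; exact (h3 j hj i hi).symm
    · simp only [hi, hj, if_false]; exact h1 i hi j hj hij

/-- rich pairs inside `W` that are edges are few -/
theorem close_pairs {k : ℕ} (H : SimpleGraph V) (F : SimpleGraph (Fin k)) (hF : ¬ Emb F H)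
    (Y : Set (Fin k)) (hY : (F.induce Y).IsAcyclic) (E : Finset (Fin k → V))
    (hE : ∀ f ∈ E, Function.Injective f ∧
      ∀ i, i ∉ Y → ∀ j, j ∉ Y → F.Adj i j → H.Adj (f i) (f j))
    (W : Finset V) (hW : ∀ f ∈ E, ∀ i, i ∉ Y → f i ∉ W) (P : Finset (V × V))
    (hP : ∀ x ∈ P, x.1 ∈ W ∧ x.2 ∈ W ∧ H.Adj x.1 x.2) (c : ℝ)
    (hc : ∀ x ∈ P, c ≤ ((E.filter (fun f => ∀ i, i ∉ Y → H.Adj x.1 (f i) ∧ H.Adj x.2 (f i))).card : ℝ)) :
    c * (P.card : ℝ) ≤ (E.card : ℝ) * (2 * k * (W.card : ℝ)) := by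
  by_contra hno
  push Not at hno
  have h1 : c * (P.card : ℝ) ≤ ∑ f ∈ E,
      ((P.filter (fun x => ∀ i, i ∉ Y → H.Adj x.1 (f i) ∧ H.Adj x.2 (f i))).card : ℝ) := by
    calc c * (P.card : ℝ) = ∑ _x ∈ P, c := by rw [sum_const, nsmul_eq_mul, mul_comm]
      _ ≤ ∑ x ∈ P, ((E.filter (fun f => ∀ i, i ∉ Y → H.Adj x.1 (f i) ∧ H.Adj x.2 (f i))).card : ℝ) :=
          sum_le_sum hc
      _ = _ := by
          simp only [card_filter]
          push_cast
          exact sum_comm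
  have h2 : ∃ f ∈ E, 2 * k * (W.card : ℝ) <
      ((P.filter (fun x => ∀ i, i ∉ Y → H.Adj x.1 (f i) ∧ H.Adj x.2 (f i))).card : ℝ) := by
    by_contra hn
    push Not at hn
    have := sum_le_sum hn
    rw [sum_const, nsmul_eq_mul] at this
    linarith
  obtain ⟨f, hfE, hf⟩ := h2
  let Wf := W.filter (fun v => ∀ i, i ∉ Y → H.Adj v (f i))
  have h3 : (P.filter (fun x => ∀ i, i ∉ Y → H.Adj x.1 (f i) ∧ H.Adj x.2 (f i))).card ≤ dd H Wf := by
    apply card_le_card
    intro x hx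
    rw [mem_filter] at hx
    obtain ⟨hx1, hx2⟩ := hx
    obtain ⟨h4, h5, h6⟩ := hP x hx1
    rw [mem_filter, mem_product]
    exact ⟨⟨mem_filter.mpr ⟨h4, fun i hi => (hx2 i hi).1⟩,
      mem_filter.mpr ⟨h5, fun i hi => (hx2 i hi).2⟩⟩, h6⟩
  have h4 : 2 * k * Wf.card < dd H Wf := by
    have h5 : 2 * k * Wf.card ≤ 2 * k * W.card := Nat.mul_le_mul_left _ (card_filter_le _ _)
    have h6 : 2 * k * W.card <
        (P.filter (fun x => ∀ i, i ∉ Y → H.Adj x.1 (f i) ∧ H.Adj x.2 (f i))).card := by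
      exact_mod_cast hf
    omega
  obtain ⟨ψ, hψ1, hψ2, hψ3⟩ := forest_embed H k Wf h4 Y (by
    calc Fintype.card Y ≤ Fintype.card (Fin k) := Fintype.card_subtype_le _
      _ = k := Fintype.card_fin k) (F.induce Y) hY
  apply hF
  refine combine H F Y f (fun i => if h : i ∈ Y then ψ ⟨i, h⟩ else f i) ?_ ?_ ?_ ?_ ?_ ?_
  · intro i _ j _ hij
    exact (hE f hfE).1 hij
  · intro i hi j hj hij
    simp only [hi, hj, dif_pos] at hij
    exact congrArg Subtype.val (hψ1 hij)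
  · intro i hi j hj hij
    simp only [hi, dif_pos] at hij
    apply hW f hfE j hj
    rw [← hij]
    exact (mem_filter.mp (hψ2 ⟨i, hi⟩)).1
  · intro i hi j hj hij
    exact (hE f hfE).2 i hi j hj hij
  · intro i hi j hj hij
    simp only [hi, hj, dif_pos]
    exact hψ3 ⟨i, hi⟩ ⟨j, hj⟩ hij
  · intro i hi j hj
    simp only [hi, dif_pos]
    exact (mem_filter.mp (hψ2 ⟨i, hi⟩)).2 j hj

/-- few vertices see a full copy of `F` minus an independent set -/
theorem close_stars {k : ℕ} (H : SimpleGraph V) (F : SimpleGraph (Fin k)) (hF : ¬ Emb F H)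
    (I : Set (Fin k)) (hI : ∀ i ∈ I, ∀ j ∈ I, ¬ F.Adj i j) (E : Finset (Fin k → V))
    (hE : ∀ f ∈ E, Function.Injective f ∧
      ∀ i, i ∉ I → ∀ j, j ∉ I → F.Adj i j → H.Adj (f i) (f j))
    (W : Finset V) (hW : ∀ f ∈ E, ∀ i, i ∉ I → f i ∉ W) :
    (W.filter (fun v => ∃ f ∈ E, ∀ i, i ∉ I → H.Adj v (f i))).card ≤ k * E.card := by
  calc (W.filter (fun v => ∃ f ∈ E, ∀ i, i ∉ I → H.Adj v (f i))).card
      ≤ (E.biUnion (fun f => W.filter (fun v => ∀ i, i ∉ I → H.Adj v (f i)))).card := by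
        apply card_le_card
        intro v hv
        rw [mem_filter] at hv
        obtain ⟨hv1, f, hf1, hf2⟩ := hv
        rw [mem_biUnion]
        exact ⟨f, hf1, mem_filter.mpr ⟨hv1, hf2⟩⟩
    _ ≤ ∑ f ∈ E, (W.filter (fun v => ∀ i, i ∉ I → H.Adj v (f i))).card := card_biUnion_le
    _ ≤ ∑ _f ∈ E, k := by
        apply sum_le_sum
        intro f hf
        by_contra hlt
        push Not at hlt
        have hle : Fintype.card (Fin k) ≤
            Fintype.card (W.filter (fun v => ∀ i, i ∉ I → H.Adj v (f i))) := by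
          rw [Fintype.card_fin, Fintype.card_coe]
          exact hlt.le
        obtain ⟨e⟩ := Function.Embedding.nonempty_of_card_le hle
        apply hF
        refine combine H F I f (fun i => (e i).1) ?_ ?_ ?_ ?_ ?_ ?_
        · intro i _ j _ hij
          exact (hE f hf).1 hij
        · intro i _ j _ hij
          exact e.injective (Subtype.ext hij)
        · intro i _ j hj hij
          apply hW f hf j hj
          rw [← hij]
          exact (mem_filter.mp (e i).2).1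
        · exact (hE f hf).2
        · intro i hi j hj hij
          exact (hI i hi j hj hij).elim
        · intro i _ j hj
          exact (mem_filter.mp (e i).2).2 j hj
    _ = k * E.card := by rw [sum_const, smul_eq_mul, mul_comm]

theorem conn_all {α : Type} {T : SimpleGraph α} (hT : T.Connected) (P : α → Prop)
    (hP : ∀ a b, T.Adj a b → P a → P b) (a : α) (ha : P a) (b : α) : P b := by
  obtain ⟨p⟩ := hT.preconnected a b
  induction p with
  | nil => exact ha
  | cons h p ih => exact ih (hP _ _ h ha)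

end

/-- the condition on `F`: a set `Y` inducing a forest and a subgraph `F'` such that for every
independent set `I` of `F'` the graph `F' - I` is connected and contains a two-connected graph that is
not a subgraph of `F - Y` -/
def Cond' {k : ℕ} (F : SimpleGraph (Fin k)) (Y : Set (Fin k)) {l : ℕ}
    (F' : SimpleGraph (Fin l)) : Prop :=
  ∀ I : Set (Fin l), (∀ a ∈ I, ∀ b ∈ I, ¬ F'.Adj a b) →
    (F'.induce Iᶜ).Connected ∧ ∃ (m : ℕ) (K : SimpleGraph (Fin m)), TwoConn K ∧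
      (∃ a b, K.Adj a b) ∧ Emb K (F'.induce Iᶜ) ∧ ¬ Emb K (F.induce Yᶜ)

/-- `F` restricted to the complement of `Y` -/
def off {k : ℕ} (F : SimpleGraph (Fin k)) (Y : Set (Fin k)) : SimpleGraph (Fin k) where
  Adj i j := F.Adj i j ∧ i ∉ Y ∧ j ∉ Y
  symm := ⟨fun _ _ h => ⟨h.1.symm, h.2.2, h.2.1⟩⟩
  loopless := ⟨fun i h => F.loopless.irrefl i h.1⟩

section
variable {V : Type} [Fintype V]

/-- the cross pairs; classes `0,1,2` are the hubs, `3` the good and `4` the bad vertices -/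
def cr (cl : V → ℕ) (x y : V) : Prop :=
  (cl x = 1 ∧ (cl y = 3 ∨ cl y = 4)) ∨ (cl x = 0 ∧ cl y = 3) ∨ (cl x = 2 ∧ cl y = 4)

/-- the starting graph -/
def H0 (G R1 R2 : SimpleGraph V) (cl : V → ℕ) : SimpleGraph V where
  Adj x y := R1.Adj x y ∨ R2.Adj x y ∨ (G.Adj x y ∧ (cr cl x y ∨ cr cl y x))
  symm := ⟨by
    rintro x y (h | h | ⟨h1, h2⟩)
    · exact Or.inl h.symm
    · exact Or.inr (Or.inl h.symm)
    · exact Or.inr (Or.inr ⟨h1.symm, h2.symm⟩)⟩
  loopless := ⟨by
    rintro x (h | h | ⟨h1, _⟩)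
    · exact R1.loopless.irrefl x h
    · exact R2.loopless.irrefl x h
    · exact G.loopless.irrefl x h1⟩

theorem emb_of_off {k m : ℕ} (F : SimpleGraph (Fin k)) (Y : Set (Fin k)) (K : SimpleGraph (Fin m))
    (χ : Fin m → Fin k) (hχ : Function.Injective χ) (hY : ∀ a, χ a ∉ Y)
    (h : ∀ a b, K.Adj a b → F.Adj (χ a) (χ b)) : Emb K (F.induce Yᶜ) :=
  ⟨fun a => ⟨χ a, hY a⟩, fun _ _ hab => hχ (congrArg Subtype.val hab), fun a b hab => h a b hab⟩

theorem TwoConn.exists_adj {m : ℕ} {K : SimpleGraph (Fin m)} (h : TwoConn K)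
    (he : ∃ a b, K.Adj a b) (a : Fin m) : ∃ b, K.Adj a b := by
  obtain ⟨u, v, huv⟩ := he
  have : Nontrivial (Fin m) := ⟨u, v, huv.ne⟩
  exact h.1.preconnected.exists_adj_of_nontrivial a

theorem H0_free (G : SimpleGraph V) {k l : ℕ} (F : SimpleGraph (Fin k)) (Y I0 V0 : Set (Fin k))
    (hY : Y ⊆ I0 ∪ V0) (F' : SimpleGraph (Fin l)) (hF' : Cond' F Y F')
    (cl : V → ℕ) (hcl : ∀ x, cl x ≤ 4) (E1 E2 : Finset (Fin k → V))
    (hE1 : ∀ f ∈ E1, ∀ i, cl (f i) = 1) (hfree1 : Free l (off F Y) E1)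
    (hE2 : ∀ f ∈ E2, ∀ i, (i ∈ V0 → cl (f i) = 0) ∧ (i ∉ V0 → cl (f i) = 2))
    (hfree2 : Free l (off F I0) E2) (hV0 : ∀ i ∈ V0, ∀ j ∈ V0, ¬ F.Adj i j) :
    ¬ Emb F' (H0 G (RG (off F Y) E1) (RG (off F I0) E2) cl) := by
  rintro ⟨φ, hφi, hφ⟩
  set R1 := RG (off F Y) E1 with hR1
  set R2 := RG (off F I0) E2 with hR2
  have hr1 : ∀ x y, R1.Adj x y → cl x = 1 ∧ cl y = 1 := by
    rintro x y ⟨_, f, hf, i, j, _, rfl, rfl⟩
    exact ⟨hE1 f hf i, hE1 f hf j⟩
  have hr2 : ∀ x y, R2.Adj x y →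
      (cl x = 0 ∧ cl y = 2) ∨ (cl x = 2 ∧ cl y = 0) ∨ (cl x = 2 ∧ cl y = 2) := by
    rintro x y ⟨_, f, hf, i, j, hij, rfl, rfl⟩
    have h1 := hE2 f hf i
    have h2 := hE2 f hf j
    by_cases hi : i ∈ V0 <;> by_cases hj : j ∈ V0
    · exact (hV0 i hi j hj hij.1).elim
    · exact Or.inl ⟨h1.1 hi, h2.2 hj⟩
    · exact Or.inr (Or.inl ⟨h1.2 hi, h2.1 hj⟩)
    · exact Or.inr (Or.inr ⟨h1.2 hi, h2.2 hj⟩)
  -- all edges
  have hedge : ∀ a b, F'.Adj a b →
      (R1.Adj (φ a) (φ b) ∧ cl (φ a) = 1 ∧ cl (φ b) = 1) ∨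
      (R2.Adj (φ a) (φ b) ∧ ((cl (φ a) = 0 ∧ cl (φ b) = 2) ∨ (cl (φ a) = 2 ∧ cl (φ b) = 0) ∨
        (cl (φ a) = 2 ∧ cl (φ b) = 2))) ∨
      (cr cl (φ a) (φ b) ∨ cr cl (φ b) (φ a)) := by
    intro a b hab
    rcases hφ a b hab with h | h | h
    · exact Or.inl ⟨h, hr1 _ _ h⟩
    · exact Or.inr (Or.inl ⟨h, hr2 _ _ h⟩)
    · exact Or.inr (Or.inr h.2)
  -- two-connected pieces inside one class
  have hpiece1 : ∀ (m : ℕ) (K : SimpleGraph (Fin m)) (κ : Fin m → Fin l), Function.Injective κ →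
      TwoConn K → (∃ a b, K.Adj a b) → (∀ a b, K.Adj a b → R1.Adj (φ (κ a)) (φ (κ b))) →
      Emb K (F.induce Yᶜ) := by
    intro m K κ hκ hK he hR
    have hm : m ≤ l := by
      have := Fintype.card_le_of_injective κ hκ
      simpa using this
    obtain ⟨f, hf, χ, hχ1, hχ2, hχ3⟩ := hfree1 m K hm hK he (fun a => φ (κ a))
      (hφi.comp hκ) hR
    apply emb_of_off F Y K χ hχ1
    · intro a
      obtain ⟨b, hb⟩ := hK.exists_adj he a
      exact (hχ3 a b hb).2.1
    · intro a b hab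
      exact (hχ3 a b hab).1
  have hpiece2 : ∀ (m : ℕ) (K : SimpleGraph (Fin m)) (κ : Fin m → Fin l), Function.Injective κ →
      TwoConn K → (∃ a b, K.Adj a b) → (∀ a b, K.Adj a b → R2.Adj (φ (κ a)) (φ (κ b))) →
      (∀ a, cl (φ (κ a)) = 2) → Emb K (F.induce Yᶜ) := by
    intro m K κ hκ hK he hR h2
    have hm : m ≤ l := by
      have := Fintype.card_le_of_injective κ hκ
      simpa using this
    obtain ⟨f, hf, χ, hχ1, hχ2, hχ3⟩ := hfree2 m K hm hK he (fun a => φ (κ a))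
      (hφi.comp hκ) hR
    apply emb_of_off F Y K χ hχ1
    · intro a haY
      obtain ⟨b, hb⟩ := hK.exists_adj he a
      have h3 : χ a ∉ I0 := (hχ3 a b hb).2.1
      rcases hY haY with h4 | h4
      · exact h3 h4
      · have h5 := (hE2 f hf (χ a)).1 h4
        rw [← hχ2 a, h2 a] at h5
        omega
    · intro a b hab
      exact (hχ3 a b hab).1
  -- first independent set
  let I : Set (Fin l) := {a | cl (φ a) = 3 ∨ cl (φ a) = 4}
  have hI : ∀ a ∈ I, ∀ b ∈ I, ¬ F'.Adj a b := by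
    intro a ha b hb hab
    have ha' : cl (φ a) = 3 ∨ cl (φ a) = 4 := ha
    have hb' : cl (φ b) = 3 ∨ cl (φ b) = 4 := hb
    rcases hedge a b hab with h | h | h
    · omega
    · omega
    · unfold cr at h; omega
  obtain ⟨hconn, m, K, hK, hKe, ⟨κ, hκ1, hκ2⟩, hKn⟩ := hF' I hI
  have hcompl : ∀ a : (Iᶜ : Set (Fin l)), ¬ (cl (φ a.1) = 3 ∨ cl (φ a.1) = 4) := fun a => a.2
  by_cases hc1 : ∃ a : (Iᶜ : Set (Fin l)), cl (φ a.1) = 1
  · obtain ⟨a, ha⟩ := hc1
    have hall := conn_all hconn (fun a => cl (φ a.1) = 1) (by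
      intro a b hab h1
      have hab' : F'.Adj a.1 b.1 := hab
      have hb := hcompl b
      beta_reduce at h1 ⊢
      rcases hedge _ _ hab' with h | h | h
      · omega
      · omega
      · unfold cr at h; omega) a ha
    apply hKn
    apply hpiece1 m K (fun a => (κ a).1) (fun a b h => hκ1 (Subtype.ext h)) hK hKe
    intro a b hab
    have hab' : F'.Adj (κ a).1 (κ b).1 := hκ2 a b hab
    have h1 := hall (κ a)
    have h2 := hall (κ b)
    beta_reduce at h1 h2
    rcases hedge _ _ hab' with h | h | h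
    · exact h.1
    · omega
    · unfold cr at h; omega
  · push Not at hc1
    have hno1 : ∀ a, cl (φ a) ≠ 1 := by
      intro a
      by_cases haI : a ∈ I
      · have : cl (φ a) = 3 ∨ cl (φ a) = 4 := haI
        omega
      · exact hc1 ⟨a, haI⟩
    -- second independent set
    let J : Set (Fin l) := {a | cl (φ a) = 0 ∨ cl (φ a) = 4}
    have hJ : ∀ a ∈ J, ∀ b ∈ J, ¬ F'.Adj a b := by
      intro a ha b hb hab
      have ha' : cl (φ a) = 0 ∨ cl (φ a) = 4 := ha
      have hb' : cl (φ b) = 0 ∨ cl (φ b) = 4 := hb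
      rcases hedge a b hab with h | h | h
      · omega
      · omega
      · unfold cr at h; omega
    obtain ⟨hconn', m', K', hK', hKe', ⟨κ', hκ1', hκ2'⟩, hKn'⟩ := hF' J hJ
    have hcompl' : ∀ a : (Jᶜ : Set (Fin l)), ¬ (cl (φ a.1) = 0 ∨ cl (φ a.1) = 4) := fun a => a.2
    by_cases hc2 : ∃ a : (Jᶜ : Set (Fin l)), cl (φ a.1) = 2
    · obtain ⟨a, ha⟩ := hc2
      have hall := conn_all hconn' (fun a => cl (φ a.1) = 2) (by
        intro a b hab h1
        have hab' : F'.Adj a.1 b.1 := hab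
        have hb := hcompl' b
        have hb1 := hno1 b.1
        beta_reduce at h1 ⊢
        rcases hedge _ _ hab' with h | h | h
        · omega
        · omega
        · unfold cr at h; omega) a ha
      apply hKn'
      apply hpiece2 m' K' (fun a => (κ' a).1) (fun a b h => hκ1' (Subtype.ext h)) hK' hKe'
      · intro a b hab
        have hab' : F'.Adj (κ' a).1 (κ' b).1 := hκ2' a b hab
        have h1 := hall (κ' a)
        have h2 := hall (κ' b)
        beta_reduce at h1 h2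
        rcases hedge _ _ hab' with h | h | h
        · omega
        · exact h.1
        · unfold cr at h; omega
      · intro a
        exact hall (κ' a)
    · push Not at hc2
      obtain ⟨a, b, hab⟩ := hKe'
      have hab' : F'.Adj (κ' a).1 (κ' b).1 := hκ2' a b hab
      have h1 := hcompl' (κ' a)
      have h2 := hcompl' (κ' b)
      have h3 := hc2 (κ' a)
      have h4 := hc2 (κ' b)
      have h5 := hno1 (κ' a).1
      have h6 := hno1 (κ' b).1
      have h7 := hcl (φ (κ' a).1)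
      have h8 := hcl (φ (κ' b).1)
      rcases hedge _ _ hab' with h | h | h
      · omega
      · omega
      · unfold cr at h; omega

end

end Pool.Agent.H42.Sat
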