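import Pool.Agent.H42.Sat.Blocks
import Pool.Agent.H42.Sat.Fits

set_option autoImplicit false
set_option linter.unusedSectionVars false

/-! The hub graph for a general graph `F`. -/

namespace Pool.Agent.H42.Sat

open Finset Classical

section
variable {V : Type} [Fintype V]

/-- the cross pairs; class `0` contains the special pieces, `1` and `2` are the two hubs, `3` and `4` the
two kinds of bulk vertices, `5` the special small sides for class `3`, `6` the special sets that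
control the second hub, `7` the small sides for class `4` -/
def cr2 (cl ix : V → ℕ) (x y : V) : Prop :=
  (cl x = 1 ∧ (cl y = 0 ∨ cl y = 3 ∨ cl y = 4 ∨ cl y = 5 ∨ cl y = 7)) ∨
  (cl x = 2 ∧ (cl y = 0 ∨ cl y = 4 ∨ cl y = 6 ∨ cl y = 7)) ∨
  (cl x = 3 ∧ (cl y = 5 ∨ cl y = 6) ∧ ix x = ix y) ∨
  (cl x = 4 ∧ cl y = 7 ∧ ix x = ix y)

/-- the starting graph -/
def H1 (G R1 R2 RQ : SimpleGraph V) (cl ix : V → ℕ) : SimpleGraph V where
  Adj x y := R1.Adj x y ∨ R2.Adj x y ∨ RQ.Adj x y ∨ (G.Adj x y ∧ (cr2 cl ix x y ∨ cr2 cl ix y x))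
  symm := ⟨by
    rintro x y (h | h | h | ⟨h1, h2⟩)
    · exact Or.inl h.symm
    · exact Or.inr (Or.inl h.symm)
    · exact Or.inr (Or.inr (Or.inl h.symm))
    · exact Or.inr (Or.inr (Or.inr ⟨h1.symm, h2.symm⟩))⟩
  loopless := ⟨by
    rintro x (h | h | h | ⟨h1, _⟩)
    · exact R1.loopless.irrefl x h
    · exact R2.loopless.irrefl x h
    · exact RQ.loopless.irrefl x h
    · exact G.loopless.irrefl x h1⟩

theorem cr2_cases {cl ix : V → ℕ} {x y : V} (h : cr2 cl ix x y) (h1 : cl x ≠ 1) (h2 : cl x ≠ 2) :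
    (cl x = 3 ∧ (cl y = 5 ∨ cl y = 6) ∧ ix x = ix y) ∨ (cl x = 4 ∧ cl y = 7 ∧ ix x = ix y) := by
  rcases h with h | h | h | h
  · exact (h1 h.1).elim
  · exact (h2 h.1).elim
  · exact Or.inl h
  · exact Or.inr h

theorem conn_all' {α : Type} {T : SimpleGraph α} (hT : T.Connected) (P : α → Prop)
    (hP : ∀ a b, T.Adj a b → P a → P b) (a : α) (ha : P a) (b : α) : P b :=
  conn_all hT P hP a ha b

/-- small parts of a design are colourable -/
theorem design_colOn {k : ℕ} (F : SimpleGraph (Fin k)) (s : ℕ) (hs : 0 < s) (Y : Set (Fin k))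
    (hYs : ∃ col : Fin k → Fin s, ∀ a, a ∉ Y → ∀ b, b ∉ Y → F.Adj a b → col a ≠ col b)
    (cl : V → ℕ) (E1 E2 : Finset (Fin k → V))
    (hE1 : ∀ f ∈ E1, ∀ i, cl (f i) = 1) (hfree1 : Free k (off F Y) E1)
    (hE2 : ∀ f ∈ E2, ∀ i, cl (f i) = 2) (hfree2 : Free k (off F Y) E2)
    (T : SimpleGraph (Fin k)) (φ : Fin k → V) (hφi : Function.Injective φ)
    (hφ : ∀ a b, T.Adj a b → (RG (off F Y) E1).Adj (φ a) (φ b) ∨ (RG (off F Y) E2).Adj (φ a) (φ b)) :
    ColOn T (Set.univ) s := by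
  have hr1 : ∀ x y, (RG (off F Y) E1).Adj x y → cl x = 1 ∧ cl y = 1 := by
    rintro x y ⟨_, f, hf, i, j, _, rfl, rfl⟩
    exact ⟨hE1 f hf i, hE1 f hf j⟩
  have hr2 : ∀ x y, (RG (off F Y) E2).Adj x y → cl x = 2 ∧ cl y = 2 := by
    rintro x y ⟨_, f, hf, i, j, _, rfl, rfl⟩
    exact ⟨hE2 f hf i, hE2 f hf j⟩
  obtain ⟨col, hcol⟩ := hYs
  have hblock : ∀ (m : ℕ) (K : SimpleGraph (Fin m)), TwoConn K → (∃ a b, K.Adj a b) → Emb K T →
      K.Colorable s := by
    rintro m K hK ⟨a0, b0, hab0⟩ ⟨κ, hκ1, hκ2⟩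
    have hm : m ≤ k := by
      have := Fintype.card_le_of_injective κ hκ1
      simpa using this
    have hfin : ∀ (E : Finset (Fin k → V)), Free k (off F Y) E →
        (∀ a b, K.Adj a b → (RG (off F Y) E).Adj (φ (κ a)) (φ (κ b))) → K.Colorable s := by
      intro E hE hR
      obtain ⟨f, hf, χ, _, _, hχ3⟩ := hE m K hm hK ⟨a0, b0, hab0⟩ (fun a => φ (κ a))
        (hφi.comp hκ1) hR
      refine ⟨SimpleGraph.Coloring.mk (fun a => col (χ a)) ?_⟩
      intro a b hab
      obtain ⟨h1, h2, h3⟩ := hχ3 a b hab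
      exact hcol _ h2 _ h3 h1
    rcases hφ _ _ (hκ2 a0 b0 hab0) with h | h
    · have hall := conn_all hK.1 (fun a => cl (φ (κ a)) = 1) (by
        intro a b hab h1
        rcases hφ _ _ (hκ2 a b hab) with h2 | h2
        · exact (hr1 _ _ h2).2
        · have := (hr2 _ _ h2).1; omega) a0 (hr1 _ _ h).1
      apply hfin E1 hfree1
      intro a b hab
      rcases hφ _ _ (hκ2 a b hab) with h2 | h2
      · exact h2
      · have h3 := (hr2 _ _ h2).1
        have h4 : cl (φ (κ a)) = 1 := hall a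
        omega
    · have hall := conn_all hK.1 (fun a => cl (φ (κ a)) = 2) (by
        intro a b hab h1
        rcases hφ _ _ (hκ2 a b hab) with h2 | h2
        · have := (hr1 _ _ h2).1; omega
        · exact (hr2 _ _ h2).2) a0 (hr2 _ _ h).1
      apply hfin E2 hfree2
      intro a b hab
      rcases hφ _ _ (hκ2 a b hab) with h2 | h2
      · have h3 := (hr1 _ _ h2).1
        have h4 : cl (φ (κ a)) = 2 := hall a
        omega
      · exact h2
  have := colOn_of_blocks T s hs hblock k univ (by rw [card_univ, Fintype.card_fin])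
  rwa [coe_univ] at this

theorem H1_free (G : SimpleGraph V) {k : ℕ} (F : SimpleGraph (Fin k))
    (htri : ∀ u v, F.Adj u v → ∃ w, F.Adj u w ∧ F.Adj v w) (s ρ c M : ℕ) (hs : 0 < s)
    (hnf : ¬ Fits F s ρ c) (Y : Set (Fin k))
    (hYs : ∃ col : Fin k → Fin s, ∀ a, a ∉ Y → ∀ b, b ∉ Y → F.Adj a b → col a ≠ col b)
    (cl ix : V → ℕ) (hcl : ∀ x, cl x ≤ 7) (E1 E2 : Finset (Fin k → V))
    (hE1 : ∀ f ∈ E1, ∀ i, cl (f i) = 1) (hfree1 : Free k (off F Y) E1)
    (hE2 : ∀ f ∈ E2, ∀ i, cl (f i) = 2) (hfree2 : Free k (off F Y) E2)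
    (RQ : SimpleGraph V) (lab0 : V → ℕ) (sd0 : V → Bool)
    (hq1 : ∀ x y, RQ.Adj x y → cl x = 0 ∧ cl y = 0 ∧ lab0 x = lab0 y ∧ sd0 x ≠ sd0 y)
    (hq2 : ∀ i, (univ.filter (fun x => cl x = 0 ∧ lab0 x = i ∧ sd0 x = false)).card ≤
      if i < c then ρ + 1 else ρ)
    (hcM : c ≤ M) (hq3 : ∀ x, lab0 x < M)
    (hL1 : ∀ i, (univ.filter (fun x => cl x = 5 ∧ ix x = i)).card ≤ ρ)
    (hL2 : ∀ i, (univ.filter (fun x => cl x = 7 ∧ ix x = i)).card ≤ ρ) :
    ¬ Emb F (H1 G (RG (off F Y) E1) (RG (off F Y) E2) RQ cl ix) := by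
  rintro ⟨φ, hφi, hφ⟩
  apply hnf
  have hr1 : ∀ x y, (RG (off F Y) E1).Adj x y → cl x = 1 ∧ cl y = 1 := by
    rintro x y ⟨_, f, hf, i, j, _, rfl, rfl⟩
    exact ⟨hE1 f hf i, hE1 f hf j⟩
  have hr2 : ∀ x y, (RG (off F Y) E2).Adj x y → cl x = 2 ∧ cl y = 2 := by
    rintro x y ⟨_, f, hf, i, j, _, rfl, rfl⟩
    exact ⟨hE2 f hf i, hE2 f hf j⟩
  obtain ⟨Y', hY'⟩ : ∃ Y' : Set (Fin k), ∀ a, a ∈ Y' ↔ (cl (φ a) ≠ 1 ∧ cl (φ a) ≠ 2) :=
    ⟨{a | cl (φ a) ≠ 1 ∧ cl (φ a) ≠ 2}, fun _ => Iff.rfl⟩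
  let lab : V → ℕ := fun x => if cl x = 3 ∨ cl x = 5 then M + 2 * ix x else
    if cl x = 4 ∨ cl x = 7 then M + 2 * ix x + 1 else lab0 x
  let sd : V → Bool := fun x => if cl x = 0 then sd0 x else
    if cl x = 5 ∨ cl x = 7 then false else true
  -- the structure of an edge
  have hedge : ∀ a b, F.Adj a b →
      ((RG (off F Y) E1).Adj (φ a) (φ b) ∨ (RG (off F Y) E2).Adj (φ a) (φ b)) ∨
      RQ.Adj (φ a) (φ b) ∨ (cr2 cl ix (φ a) (φ b) ∨ cr2 cl ix (φ b) (φ a)) := by
    intro a b hab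
    rcases hφ a b hab with h | h | h | h
    · exact Or.inl (Or.inl h)
    · exact Or.inl (Or.inr h)
    · exact Or.inr (Or.inl h)
    · exact Or.inr (Or.inr h.2)
  -- no edges between classes 3 and 6
  have hno36 : ∀ a b, F.Adj a b → cl (φ a) = 3 → cl (φ b) ≠ 6 := by
    intro a b hab h3 h6
    obtain ⟨w, hw1, hw2⟩ := htri a b hab
    have ha : cl (φ w) = 1 ∨ cl (φ w) = 5 ∨ cl (φ w) = 6 := by
      rcases hedge a w hw1 with (h | h) | h | h
      · have := hr1 _ _ h; omega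
      · have := hr2 _ _ h; omega
      · have := hq1 _ _ h; omega
      · unfold cr2 at h; omega
    have hb : cl (φ w) = 2 ∨ cl (φ w) = 3 := by
      rcases hedge b w hw2 with (h | h) | h | h
      · have := hr1 _ _ h; omega
      · have := hr2 _ _ h; omega
      · have := hq1 _ _ h; omega
      · unfold cr2 at h; omega
    omega
  refine ⟨Y', fun a => lab (φ a), fun a => sd (φ a), ?_, ?_, ?_⟩
  · -- the colourable part
    let T : SimpleGraph (Fin k) := {
      Adj := fun a b => F.Adj a b ∧ a ∉ Y' ∧ b ∉ Y'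
      symm := ⟨fun _ _ h => ⟨h.1.symm, h.2.2, h.2.1⟩⟩
      loopless := ⟨fun a h => F.loopless.irrefl a h.1⟩ }
    obtain ⟨col, hcol⟩ := design_colOn F s hs Y hYs cl E1 E2 hE1 hfree1 hE2 hfree2 T φ hφi (by
      rintro a b ⟨hab, ha, hb⟩
      have ha' : cl (φ a) = 1 ∨ cl (φ a) = 2 := by
        by_contra h; push Not at h; exact ha ((hY' a).mpr h)
      have hb' : cl (φ b) = 1 ∨ cl (φ b) = 2 := by
        by_contra h; push Not at h; exact hb ((hY' b).mpr h)
      rcases hedge a b hab with h | h | h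
      · exact h
      · have := hq1 _ _ h; omega
      · unfold cr2 at h; omega)
    refine ⟨col, ?_⟩
    intro a ha b hb hab
    exact hcol a (Set.mem_univ _) b (Set.mem_univ _) ⟨hab, ha, hb⟩
  · intro a ha b hb hab
    have ha' : cl (φ a) ≠ 1 ∧ cl (φ a) ≠ 2 := (hY' a).mp ha
    have hb' : cl (φ b) ≠ 1 ∧ cl (φ b) ≠ 2 := (hY' b).mp hb
    have hn1 := hno36 a b hab
    have hn2 := hno36 b a hab.symm
    rcases hedge a b hab with (h | h) | h | h
    · have := hr1 _ _ h; omega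
    · have := hr2 _ _ h; omega
    · obtain ⟨h1, h2, h3, h4⟩ := hq1 _ _ h
      simp [lab, sd, h1, h2]
      exact ⟨h3, h4⟩
    · have hcase : (cl (φ a) = 3 ∧ cl (φ b) = 5 ∧ ix (φ a) = ix (φ b)) ∨
          (cl (φ a) = 5 ∧ cl (φ b) = 3 ∧ ix (φ a) = ix (φ b)) ∨
          (cl (φ a) = 4 ∧ cl (φ b) = 7 ∧ ix (φ a) = ix (φ b)) ∨
          (cl (φ a) = 7 ∧ cl (φ b) = 4 ∧ ix (φ a) = ix (φ b)) := by
        rcases h with h | h
        · rcases cr2_cases h ha'.1 ha'.2 with ⟨h1, h2 | h2, h3⟩ | ⟨h1, h2, h3⟩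
          · exact Or.inl ⟨h1, h2, h3⟩
          · exact (hn1 h1 h2).elim
          · exact Or.inr (Or.inr (Or.inl ⟨h1, h2, h3⟩))
        · rcases cr2_cases h hb'.1 hb'.2 with ⟨h1, h2 | h2, h3⟩ | ⟨h1, h2, h3⟩
          · exact Or.inr (Or.inl ⟨h2, h1, h3.symm⟩)
          · exact (hn2 h1 h2).elim
          · exact Or.inr (Or.inr (Or.inr ⟨h2, h1, h3.symm⟩))
      rcases hcase with ⟨h1, h2, h3⟩ | ⟨h1, h2, h3⟩ | ⟨h1, h2, h3⟩ | ⟨h1, h2, h3⟩ <;>
        simp [lab, sd, h1, h2, h3]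
  · intro i
    beta_reduce
    by_cases hiM : i < M
    · -- class 0
      refine le_trans ?_ (hq2 i)
      apply card_le_card_of_injOn φ
      · intro a ha
        rw [mem_coe, mem_filter] at ha
        obtain ⟨_, h1, h2, h3⟩ := ha
        have h1' : cl (φ a) ≠ 1 ∧ cl (φ a) ≠ 2 := (hY' a).mp h1
        have h4 := hcl (φ a)
        have hn1 : ¬ (cl (φ a) = 3 ∨ cl (φ a) = 5) := by
          intro h
          simp only [lab, h, if_true] at h2
          omega
        have hn2 : ¬ (cl (φ a) = 4 ∨ cl (φ a) = 7) := by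
          intro h
          simp only [lab, h, hn1, if_true, if_false] at h2
          omega
        have hn3 : cl (φ a) ≠ 6 := by
          intro h
          simp [sd, h] at h3
        have h0 : cl (φ a) = 0 := by omega
        simp only [lab, hn1, hn2, if_false] at h2
        simp only [sd, h0, if_true] at h3
        rw [mem_coe, mem_filter]
        exact ⟨mem_univ _, h0, h2, h3⟩
      · exact hφi.injOn
    · rw [if_neg (by omega)]
      rcases Nat.even_or_odd (i - M) with ⟨j, hj⟩ | ⟨j, hj⟩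
      · refine le_trans ?_ (hL1 j)
        apply card_le_card_of_injOn φ
        · intro a ha
          rw [mem_coe, mem_filter] at ha
          obtain ⟨_, h1, h2, h3⟩ := ha
          have h4 := hcl (φ a)
          have hn0 : cl (φ a) = 5 ∨ cl (φ a) = 7 ∨ cl (φ a) = 0 := by
            by_contra h
            push Not at h
            simp [sd, h.1, h.2.1, h.2.2] at h3
          rcases hn0 with h | h | h
          · simp [lab, h] at h2
            rw [mem_coe, mem_filter]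
            exact ⟨mem_univ _, h, by omega⟩
          · simp [lab, h] at h2
            omega
          · simp [lab, h] at h2
            have := hq3 (φ a)
            omega
        · exact hφi.injOn
      · refine le_trans ?_ (hL2 j)
        apply card_le_card_of_injOn φ
        · intro a ha
          rw [mem_coe, mem_filter] at ha
          obtain ⟨_, h1, h2, h3⟩ := ha
          have h4 := hcl (φ a)
          have hn0 : cl (φ a) = 5 ∨ cl (φ a) = 7 ∨ cl (φ a) = 0 := by
            by_contra h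
            push Not at h
            simp [sd, h.1, h.2.1, h.2.2] at h3
          rcases hn0 with h | h | h
          · simp [lab, h] at h2
            omega
          · simp [lab, h] at h2
            rw [mem_coe, mem_filter]
            exact ⟨mem_univ _, h, by omega⟩
          · simp [lab, h] at h2
            have := hq3 (φ a)
            omega
        · exact hφi.injOn

end

end Pool.Agent.H42.Sat
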