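import Pool.Agent.H42.Sat.Det5

set_option autoImplicit false
set_option linter.unusedSectionVars false

/-! The static classes exist. -/

namespace Pool.Agent.H42.Sat

open Finset Classical

theorem cnt_prod (a b i : ℕ) : (∑ x : Fin a × Fin b, if (x.1 : ℕ) = i then 1 else 0) =
    if i < a then b else 0 := by
  rw [Fintype.sum_prod_type]
  have h1 : ∀ x : Fin a, (∑ _y : Fin b, if (x : ℕ) = i then 1 else 0) =
      (fun m : ℕ => if m = i then b else 0) (x : ℕ) := by
    intro x
    rw [sum_const, card_univ, Fintype.card_fin, smul_eq_mul]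
    beta_reduce
    split_ifs
    · rw [mul_one]
    · rw [mul_zero]
  have h2 : (∑ x : Fin a, ∑ y : Fin b, if ((x, y).1 : ℕ) = i then 1 else 0) =
      ∑ x : Fin a, (fun m : ℕ => if m = i then b else 0) (x : ℕ) :=
    sum_congr rfl (fun x _ => h1 x)
  rw [h2, Fin.sum_univ_eq_sum_range (fun m : ℕ => if m = i then b else 0) a, sum_ite_eq']
  simp only [mem_range]

theorem cnt_prod' (a b i : ℕ) : (univ.filter (fun x : Fin a × Fin b => (x.1 : ℕ) = i)).card =
    if i < a then b else 0 := by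
  rw [card_filter]
  exact cnt_prod a b i

/-- class and index of a position -/
def posn {z0 N1 N2 ρ k r : ℕ} :
    Fin z0 ⊕ (Fin N1 × Fin ρ) ⊕ (Fin N1 × Fin k) ⊕ (Fin N2 × Fin ρ) ⊕ Fin r → ℕ × ℕ
  | .inl _ => (0, 0)
  | .inr (.inl x) => (5, x.1)
  | .inr (.inr (.inl x)) => (6, x.1)
  | .inr (.inr (.inr (.inl x))) => (7, x.1)
  | .inr (.inr (.inr (.inr _))) => (3, 0)

theorem exists_layout (n z0 N1 N2 ρ k : ℕ) (h : z0 + N1 * (ρ + k) + N2 * ρ ≤ n) :
    ∃ st ix : Fin n → ℕ, Layout st ix z0 N1 N2 ρ k ∧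
      (univ.filter (fun x => st x = 3)).card = n - (z0 + N1 * (ρ + k) + N2 * ρ) := by
  obtain ⟨r, hr⟩ : ∃ r, r = n - (z0 + N1 * (ρ + k) + N2 * ρ) := ⟨_, rfl⟩
  have hcard : Fintype.card (Fin n) = Fintype.card
      (Fin z0 ⊕ (Fin N1 × Fin ρ) ⊕ (Fin N1 × Fin k) ⊕ (Fin N2 × Fin ρ) ⊕ Fin r) := by
    simp only [Fintype.card_sum, Fintype.card_prod, Fintype.card_fin]
    rw [mul_add] at h hr
    omega
  let e := Fintype.equivOfCardEq hcard
  have hcnt : ∀ Q : ℕ × ℕ → Prop, (univ.filter (fun x : Fin n => Q (posn (e x)))).card =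
      (∑ _x : Fin z0, if Q (0, 0) then 1 else 0) +
      ((∑ x : Fin N1 × Fin ρ, if Q (5, x.1) then 1 else 0) +
      ((∑ x : Fin N1 × Fin k, if Q (6, x.1) then 1 else 0) +
      ((∑ x : Fin N2 × Fin ρ, if Q (7, x.1) then 1 else 0) +
      (∑ _x : Fin r, if Q (3, 0) then 1 else 0)))) := by
    intro Q
    rw [card_filter]
    rw [Equiv.sum_comp e (fun y => if Q (posn y) then 1 else 0)]
    rw [Fintype.sum_sum_type, Fintype.sum_sum_type, Fintype.sum_sum_type, Fintype.sum_sum_type]
    rfl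
  refine ⟨fun x => (posn (e x)).1, fun x => (posn (e x)).2, ⟨?_, ?_, ?_, ?_, ?_, ?_, ?_, ?_, ?_⟩, ?_⟩
  · intro x
    rcases e x with a | a | a | a | a
    · exact Or.inl rfl
    · exact Or.inr (Or.inr (Or.inl rfl))
    · exact Or.inr (Or.inr (Or.inr (Or.inl rfl)))
    · exact Or.inr (Or.inr (Or.inr (Or.inr rfl)))
    · exact Or.inr (Or.inl rfl)
  · have := hcnt (fun w => w.1 = 0)
    simp at this
    exact Eq.trans (by congr!) this
  · have := hcnt (fun w => w.1 = 0 ∨ w.1 = 5 ∨ w.1 = 6)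
    simp at this
    rw [mul_add]
    exact Eq.trans (by congr!) this
  · intro i hi
    have := hcnt (fun w => w.1 = 5 ∧ w.2 = i)
    simp at this
    rw [cnt_prod', if_pos hi] at this
    exact Eq.trans (by congr!) this
  · intro i
    have := hcnt (fun w => w.1 = 5 ∧ w.2 = i)
    simp at this
    rw [cnt_prod'] at this
    refine le_trans (le_of_eq (Eq.trans (by congr!) this)) ?_
    split_ifs <;> omega
  · intro i hi
    have := hcnt (fun w => w.1 = 6 ∧ w.2 = i)
    simp at this
    rw [cnt_prod', if_pos hi] at this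
    exact Eq.trans (by congr!) this
  · intro i hi
    have := hcnt (fun w => w.1 = 7 ∧ w.2 = i)
    simp at this
    rw [cnt_prod', if_pos hi] at this
    exact Eq.trans (by congr!) this
  · intro i
    have := hcnt (fun w => w.1 = 7 ∧ w.2 = i)
    simp at this
    rw [cnt_prod'] at this
    refine le_trans (le_of_eq (Eq.trans (by congr!) this)) ?_
    split_ifs <;> omega
  · have := hcnt (fun w => w.1 = 7)
    simp at this
    exact Eq.trans (by congr!) this
  · have := hcnt (fun w => w.1 = 3)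
    simp at this
    rw [← hr]
    exact Eq.trans (by congr!) this

end Pool.Agent.H42.Sat
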