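import Pool.Agent.H42.Sat.Asym

set_option autoImplicit false
set_option linter.unusedSectionVars false

/-! Numerical facts for the general upper bound. -/

namespace Pool.Agent.H42.Sat

open Filter Topology

theorem eventually_cube_log (K : ℝ) :
    ∀ᶠ n : ℕ in atTop, K * (Real.log (n : ℝ)) ^ 3 ≤ (n : ℝ) := by
  have h := (Real.isLittleO_pow_log_id_atTop (n := 3)).comp_tendsto tendsto_natCast_atTop_atTop
  have h2 := h.bound (show 0 < 1 / (|K| + 1) by positivity)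
  have h0 : ∀ᶠ n : ℕ in atTop, 0 ≤ Real.log (n : ℝ) := tendsto_log_nat.eventually_ge_atTop _
  filter_upwards [h2, h0] with n hn hn0
  simp only [Function.comp, id, Real.norm_eq_abs] at hn
  have h3 : 0 ≤ Real.log (n : ℝ) ^ 3 := pow_nonneg hn0 3
  rw [abs_of_nonneg h3, abs_of_nonneg (Nat.cast_nonneg n : (0 : ℝ) ≤ (n : ℝ))] at hn
  have h4 : (|K| + 1) * Real.log (n : ℝ) ^ 3 ≤ n := by
    have h5 : (|K| + 1) * Real.log (n : ℝ) ^ 3 ≤ (|K| + 1) * (1 / (|K| + 1) * n) :=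
      mul_le_mul_of_nonneg_left hn (by positivity)
    have h6 : (|K| + 1) * (1 / (|K| + 1) * n) = n := by
      field_simp
    linarith
  have h7 : K * Real.log (n : ℝ) ^ 3 ≤ (|K| + 1) * Real.log (n : ℝ) ^ 3 := by
    apply mul_le_mul_of_nonneg_right _ h3
    have := le_abs_self K
    linarith
  linarith

theorem two_pow_le_exp (M : ℕ) : (2 : ℝ) ^ M ≤ Real.exp M := by
  have h6 : (2 : ℝ) ≤ Real.exp 1 := by
    have := Real.exp_one_gt_d9
    linarith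
  calc (2 : ℝ) ^ M ≤ (Real.exp 1) ^ M := pow_le_pow_left₀ (by norm_num) h6 M
    _ = Real.exp M := by rw [← Real.exp_nat_mul]; congr 1; ring

/-- many vertices are joined to all special vertices -/
theorem numz {p x K B n T : ℝ} {z M : ℕ} (hp0 : 0 < p) (hB : 0 ≤ B)
    (hz : (z : ℝ) * (-Real.log p) ≤ x / 4 + K) (hT : n / 2 ≤ T) (hx : Real.exp x = n)
    (hM : (M : ℝ) ≤ B * x) (hxK : 4 * K ≤ x) (hxB : 32 * (B + 1) ≤ x) :
    2 ^ M * Real.exp (-(p ^ z * T / 2)) ≤ Real.exp (-x) := by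
  have hx0 : 0 ≤ x := by linarith
  have h1 : Real.exp (-(x / 4 + K)) ≤ p ^ z := by
    have h2 : p ^ z = Real.exp (-((z : ℝ) * (-Real.log p))) := by
      have : -((z : ℝ) * (-Real.log p)) = (z : ℝ) * Real.log p := by ring
      rw [this, Real.exp_nat_mul, Real.exp_log hp0]
    rw [h2]
    apply Real.exp_le_exp.mpr
    linarith
  have h2 : Real.exp (x / 2) / 4 ≤ p ^ z * T / 2 := by
    have h3 : Real.exp (-(x / 4 + K)) * (n / 2) ≤ p ^ z * T :=
      mul_le_mul h1 hT (by rw [← hx]; positivity) (by positivity)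
    have h4 : Real.exp (x / 2) ≤ Real.exp (-(x / 4 + K)) * n := by
      rw [← hx, ← Real.exp_add]
      apply Real.exp_le_exp.mpr
      linarith
    linarith
  have h3 : (x / 2) ^ 2 / 2 ≤ Real.exp (x / 2) := by
    have := Real.quadratic_le_exp_of_nonneg (show 0 ≤ x / 2 by linarith)
    linarith
  have h4 : (B + 1) * x ≤ p ^ z * T / 2 := by
    have h5 : 32 * (B + 1) * x ≤ x * x := mul_le_mul_of_nonneg_right hxB hx0
    nlinarith
  calc (2 : ℝ) ^ M * Real.exp (-(p ^ z * T / 2)) ≤ Real.exp M * Real.exp (-(p ^ z * T / 2)) :=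
        mul_le_mul_of_nonneg_right (two_pow_le_exp M) (Real.exp_pos _).le
    _ = Real.exp (M - p ^ z * T / 2) := by rw [← Real.exp_add]; congr 1
    _ ≤ Real.exp (-x) := by
        apply Real.exp_le_exp.mpr
        linarith

theorem num8 {p x C2 C3 δ n : ℝ} {m2 N2 b ρ : ℕ} (hp0 : 0 < p) (hC2 : C2 = 16 / p ^ (ρ + 2))
    (hC30 : 0 ≤ C3) (hδ0 : 0 ≤ δ) (hδa : δ ≤ p ^ (ρ + 2) / 8) (hb : (b : ℝ) ≤ 2 * δ * m2 + 1)
    (hx : Real.exp x = n) (hx1 : 1 ≤ x) (a2 : C2 * x ≤ m2) (b3 : (N2 : ℝ) ≤ C3 * x + 1) :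
    n ^ 2 * N2 * (2 ^ b * Real.exp (-(p ^ (ρ + 2) * (m2 : ℝ) / 2))) ≤
      (C3 + 1) * Real.exp 1 * Real.exp (-x) := by
  have h3 : (2 : ℝ) ^ b * Real.exp (-(p ^ (ρ + 2) * (m2 : ℝ) / 2)) ≤
      Real.exp 1 * Real.exp (-(4 * x)) := by
    calc (2 : ℝ) ^ b * Real.exp (-(p ^ (ρ + 2) * (m2 : ℝ) / 2))
        ≤ Real.exp b * Real.exp (-(p ^ (ρ + 2) * (m2 : ℝ) / 2)) :=
          mul_le_mul_of_nonneg_right (two_pow_le_exp b) (Real.exp_pos _).le
      _ ≤ Real.exp 1 * Real.exp (-(4 * x)) := by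
          rw [← Real.exp_add, ← Real.exp_add]
          apply Real.exp_le_exp.mpr
          have h4 : 2 * δ * (m2 : ℝ) ≤ p ^ (ρ + 2) / 4 * (m2 : ℝ) := by
            apply mul_le_mul_of_nonneg_right _ (Nat.cast_nonneg _)
            linarith
          have h5 : p ^ (ρ + 2) / 4 * (C2 * x) ≤ p ^ (ρ + 2) / 4 * (m2 : ℝ) :=
            mul_le_mul_of_nonneg_left a2 (by positivity)
          have h6 : p ^ (ρ + 2) / 4 * (C2 * x) = 4 * x := by
            rw [hC2]; field_simp; norm_num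
          rw [h6] at h5
          linarith
  have hN : (N2 : ℝ) ≤ (C3 + 1) * x := by nlinarith
  have hxe : x ≤ Real.exp x := by
    have := Real.add_one_le_exp x
    linarith
  have hn0 : 0 < n := by rw [← hx]; exact Real.exp_pos _
  have hNn : (N2 : ℝ) ≤ (C3 + 1) * n := by
    refine hN.trans (mul_le_mul_of_nonneg_left ?_ (by linarith))
    rw [← hx]; exact hxe
  calc n ^ 2 * N2 * (2 ^ b * Real.exp (-(p ^ (ρ + 2) * (m2 : ℝ) / 2)))
      ≤ n ^ 2 * ((C3 + 1) * n) * (Real.exp 1 * Real.exp (-(4 * x))) := by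
        apply mul_le_mul _ h3 (by positivity) (by positivity)
        exact mul_le_mul_of_nonneg_left hNn (by positivity)
    _ = (C3 + 1) * Real.exp 1 * (n ^ 3 * Real.exp (-(4 * x))) := by ring
    _ = (C3 + 1) * Real.exp 1 * Real.exp (-x) := by
        congr 1
        rw [← hx, ← Real.exp_nat_mul, ← Real.exp_add]
        congr 1
        push_cast
        ring

theorem num9 {p x C3 n : ℝ} {N2 ρ : ℕ} (hp0 : 0 < p) (hC3 : C3 = 2 / p ^ ρ)
    (hx : Real.exp x = n) (a3 : C3 * x ≤ N2) :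
    n * Real.exp (-(p ^ ρ * (N2 : ℝ))) ≤ Real.exp (-x) := by
  rw [← hx, ← Real.exp_add]
  apply Real.exp_le_exp.mpr
  have h5 : p ^ ρ * (C3 * x) ≤ p ^ ρ * (N2 : ℝ) := mul_le_mul_of_nonneg_left a3 (by positivity)
  have h6 : p ^ ρ * (C3 * x) = 2 * x := by
    rw [hC3]; field_simp
  linarith

theorem final_ineq2 (k ρ ε lam C2 C3 η δ e1 b1 p C x n z m1 m2 m3 N1 N2 B D : ℝ)
    (hk : 0 ≤ k) (hρ : 0 ≤ ρ)
    (hε0 : 0 < ε) (hlam : 0 < lam) (hη0 : 0 < η) (hδ0 : 0 < δ)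
    (hp0 : 0 < p) (hC : 0 < C) (he1 : 0 ≤ e1) (he12 : (1 + e1) ^ 2 ≤ 1 + ε / 2) (hD0 : 0 ≤ D)
    (hηd : η * (2 * (1 + ρ + k) + 4 * C2 + 4 * ρ * C3 + 2 * D * (1 + C3)) ≤ ε / (4 * lam))
    (hδd : 2 * δ * C2 ≤ ε / (4 * lam))
    (hb1 : p * b1 = (1 + e1) / lam) (hb1' : 0 ≤ b1) (hC2' : 0 ≤ C2) (hC3' : 0 ≤ C3)
    (hx1 : 1 ≤ x) (hn : 0 ≤ n)
    (h1 : 0 ≤ m1) (h2 : 0 ≤ m2) (h3 : 0 ≤ m3) (h5 : 0 ≤ N2)
    (hz : z ≤ (1 + ρ + k) * (η * x + 1)) (hm1 : m1 ≤ b1 * x + 1) (hm2 : m2 ≤ C2 * x + 1)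
    (hm3 : m3 ≤ n) (hN1 : N1 ≤ η * x + 1) (hN2 : N2 ≤ C3 * x + 1)
    (hB : B = b1 + C2 + C3 * ρ + ρ + η + 4 + (1 + ρ + k) * (η + 1))
    (hq : (B ^ 2 + 2 * k * C * B ^ 3) * x ^ 3 ≤ n)
    (hlin : 2 * (1 + ρ + k) + 2 * (1 + e1) * p + 4 * η + 2 * δ + 4 * η * ρ + 2 * D + 2 * η +
      2 * η * D + 1 ≤ ε / (2 * lam) * x) :
    2 * (z * n) + 2 * ((1 + e1) * (p * (m1 * m3))) + (m1 + m2 + N2 * ρ) ^ 2 +
        2 * (m2 * (2 * (η * n))) +
        2 * (δ * m2 * n + m2 * (C * m2 * (N1 * k))) +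
        2 * (N2 * ρ * (2 * (η * n))) +
        2 * (D * (n * N1)) + 2 * (η * n) + D * (2 * (η * n) * N2) ≤
      2 * ((1 + ε) * (n * (x / lam))) := by
  have hx0 : 0 ≤ x := by linarith
  have hB0 : 0 ≤ B := by rw [hB]; positivity
  have hρk : 0 ≤ (ρ + k) * (η + 1) := by positivity
  have hsum : m1 + m2 + N2 * ρ ≤ B * x := by
    have e1 : N2 * ρ ≤ (C3 * x + 1) * ρ := mul_le_mul_of_nonneg_right hN2 hρ
    have e2 : B * x = (b1 * x + 1) + (C2 * x + 1) + (C3 * x + 1) * ρ + ρ * (x - 1) + η * x +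
        4 * (x - 1) + 2 + (1 + ρ + k) * (η + 1) * x := by rw [hB]; ring
    have e3 : 0 ≤ ρ * (x - 1) := mul_nonneg hρ (by linarith)
    have e4 : 0 ≤ η * x := by positivity
    have e5 : 0 ≤ (1 + ρ + k) * (η + 1) * x := by positivity
    linarith
  have hm2B : m2 ≤ B * x := by
    have : 0 ≤ N2 * ρ := by positivity
    linarith
  have hN1B : N1 ≤ B * x := by
    have e2 : B * x = (η * x + 1) + (b1 * x + C2 * x + C3 * ρ * x + ρ * x) + 4 * (x - 1) + 3 +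
        (1 + ρ + k) * (η + 1) * x := by rw [hB]; ring
    have e4 : 0 ≤ b1 * x + C2 * x + C3 * ρ * x + ρ * x := by positivity
    have e5 : 0 ≤ (1 + ρ + k) * (η + 1) * x := by positivity
    linarith
  have hsum0 : 0 ≤ m1 + m2 + N2 * ρ := by positivity
  have hBx : 0 ≤ B * x := by positivity
  have hx3 : x ^ 2 ≤ x ^ 3 := by
    have : x ^ 3 = x ^ 2 * x := by ring
    rw [this]
    nlinarith [sq_nonneg x]
  have t1 : 2 * (z * n) ≤ 2 * (1 + ρ + k) * η * (x * n) + 2 * (1 + ρ + k) * n := by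
    have := mul_le_mul_of_nonneg_right hz hn
    linarith
  have t2 : 2 * ((1 + e1) * (p * (m1 * m3))) ≤
      2 * ((1 + e1) ^ 2 * (x * n / lam)) + 2 * (1 + e1) * p * n := by
    have h5 : m1 * m3 ≤ (b1 * x + 1) * n := mul_le_mul hm1 hm3 h3 (by positivity)
    have h6 : (1 + e1) * (p * (m1 * m3)) ≤ (1 + e1) * (p * ((b1 * x + 1) * n)) := by
      apply mul_le_mul_of_nonneg_left _ (by positivity)
      exact mul_le_mul_of_nonneg_left h5 hp0.le
    have h7 : (1 + e1) * (p * ((b1 * x + 1) * n)) =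
        (1 + e1) ^ 2 * (x * n / lam) + (1 + e1) * p * n := by
      have : p * ((b1 * x + 1) * n) = (p * b1) * (x * n) + p * n := by ring
      rw [this, hb1]
      field_simp
    linarith
  have t2' : (1 + e1) ^ 2 * (x * n / lam) ≤ (1 + ε / 2) * (x * n / lam) :=
    mul_le_mul_of_nonneg_right he12 (by positivity)
  have t3 : (m1 + m2 + N2 * ρ) ^ 2 ≤ B ^ 2 * x ^ 3 := by
    calc (m1 + m2 + N2 * ρ) ^ 2 ≤ (B * x) ^ 2 := pow_le_pow_left₀ hsum0 hsum 2
      _ = B ^ 2 * x ^ 2 := by ring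
      _ ≤ B ^ 2 * x ^ 3 := mul_le_mul_of_nonneg_left hx3 (sq_nonneg _)
  have t4 : 2 * (m2 * (2 * (η * n))) ≤ 4 * η * C2 * (x * n) + 4 * η * n := by
    have := mul_le_mul_of_nonneg_right hm2 (show 0 ≤ η * n by positivity)
    linarith
  have t5 : 2 * (δ * m2 * n) ≤ 2 * δ * C2 * (x * n) + 2 * δ * n := by
    have := mul_le_mul_of_nonneg_right hm2 (show 0 ≤ δ * n by positivity)
    linarith
  have t5' : 2 * (m2 * (C * m2 * (N1 * k))) ≤ 2 * k * C * B ^ 3 * x ^ 3 := by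
    have h5 : m2 * m2 ≤ (B * x) * (B * x) := mul_le_mul hm2B hm2B h2 hBx
    have h6 : (m2 * m2) * (C * k * N1) ≤ (m2 * m2) * (C * k * (B * x)) := by
      apply mul_le_mul_of_nonneg_left _ (by positivity)
      exact mul_le_mul_of_nonneg_left hN1B (by positivity)
    have h7 : (m2 * m2) * (C * k * (B * x)) ≤ ((B * x) * (B * x)) * (C * k * (B * x)) :=
      mul_le_mul_of_nonneg_right h5 (by positivity)
    have h8 : ((B * x) * (B * x)) * (C * k * (B * x)) = k * C * B ^ 3 * x ^ 3 := by ring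
    linarith
  have t6 : 2 * (N2 * ρ * (2 * (η * n))) ≤ 4 * ρ * C3 * η * (x * n) + 4 * η * ρ * n := by
    have := mul_le_mul_of_nonneg_right hN2 (show 0 ≤ ρ * (η * n) by positivity)
    linarith
  have t7 : 2 * (D * (n * N1)) ≤ 2 * D * η * (x * n) + 2 * D * n := by
    have := mul_le_mul_of_nonneg_right hN1 (show 0 ≤ D * n by positivity)
    linarith
  have t9 : D * (2 * (η * n) * N2) ≤ 2 * D * C3 * η * (x * n) + 2 * η * D * n := by
    have := mul_le_mul_of_nonneg_right hN2 (show 0 ≤ D * (η * n) by positivity)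
    linarith
  have hxn : 0 ≤ x * n := by positivity
  have u1 := mul_le_mul_of_nonneg_right hηd hxn
  have u2 : 2 * δ * C2 * (x * n) ≤ ε / (4 * lam) * (x * n) := mul_le_mul_of_nonneg_right hδd hxn
  have u3 := mul_le_mul_of_nonneg_right hlin hn
  have v1 : ε / (4 * lam) * (x * n) = ε / 4 * (x * n / lam) := by field_simp
  have v2 : ε / (2 * lam) * x * n = ε / 2 * (x * n / lam) := by field_simp
  have v3 : 2 * ((1 + ε) * (n * (x / lam))) = 2 * (1 + ε) * (x * n / lam) := by field_simp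
  rw [v1] at u1 u2
  rw [v2] at u3
  rw [v3]
  linarith

end Pool.Agent.H42.Sat
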