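import Pool.Agent.H42.Sat.Fail2
import Pool.Agent.H42.Sat.Num2

set_option autoImplicit false
set_option linter.unusedSectionVars false

/-! The numerical parameters of the general upper bound. -/

namespace Pool.Agent.H42.Sat

open Finset Classical Pool.Agent.W166.Gnp Filter Topology

/-- all numerical parameters of the general upper bound -/
structure Par2 (p ε : ℝ) (k ρ : ℕ) where
  lam : ℝ
  e1 : ℝ
  C2 : ℝ
  C3 : ℝ
  th : ℝ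
  ξ : ℝ
  δ : ℝ
  b1 : ℝ
  C : ℝ
  σ : ℝ
  τ : ℝ
  N0 : ℕ
  D : ℝ
  η : ℝ
  B : ℝ
  K : ℝ
  hlam : 0 < lam
  hlamdef : lam = -Real.log (1 - p)
  he10 : 0 < e1
  he11 : e1 ≤ 1 / 6
  he1def : e1 = ε / 6
  hC2def : C2 = 16 / p ^ (ρ + 2)
  hC20 : 0 < C2
  hC3def : C3 = 2 / p ^ ρ
  hC30 : 0 < C3
  hth : 0 ≤ th
  hξ : 0 ≤ ξ
  htilt : Real.exp ξ * (1 - p + p * Real.exp (-th)) = 1
  hξge : lam - lam * e1 / 8 ≤ ξ
  hδ0 : 0 < δ
  hδa : δ ≤ p ^ (ρ + 2) / 8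
  hδd : 2 * δ * C2 ≤ ε / (4 * lam)
  hδc : δ ≤ e1 * lam * p / (64 * (th + 1))
  hδ1 : δ ≤ 1
  hb1def : b1 = (1 + e1) / (lam * p)
  hb10 : 0 < b1
  hpb1 : p * b1 = (1 + e1) / lam
  hC0 : 0 < C
  hσ0 : 0 < σ
  hτ0 : 0 < τ
  hτσ : τ ≤ σ / 2
  hdes : ∀ (V : Type) [Fintype V] (G : SimpleGraph V) (Ω : Finset V) (Γ : SimpleGraph (Fin k))
        (c : Fin k → Finset V), N0 ≤ Ω.card → (∀ i, c i ⊆ Ω) →
        (∀ i, 1 * (Ω.card : ℝ) ≤ ((c i).card : ℝ)) →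
        Dens G Ω (p / 2) (σ * (Ω.card : ℝ)) (τ * (Ω.card : ℝ)) → DesignFor G Γ c Ω δ C k
  hDdef : D = (k : ℝ) ^ 2 * C / δ
  hD0 : 0 ≤ D
  hη0 : 0 < η
  hηd : η * (2 * (1 + ρ + k) + 4 * C2 + 4 * ρ * C3 + 2 * D * (1 + C3)) ≤ ε / (4 * lam)
  hηz : (1 + ρ + k) * η * (-Real.log p) ≤ 1 / 4
  hBdef : B = b1 + C2 + C3 * ρ + ρ + η + 4 + (1 + ρ + k) * (η + 1)
  hB0 : 0 ≤ B
  hKdef : K = (1 + ρ + k) * (-Real.log p)

theorem exists_par2 {p : ℝ} (hp0 : 0 < p) (hp1 : p < 1) {k : ℕ} (ρ : ℕ) (hk : 0 < k)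
    {ε : ℝ} (hε0 : 0 < ε) (hε1 : ε ≤ 1) : Nonempty (Par2 p ε k ρ) := by
  have hlogp : 0 < -Real.log p := by
    have := Real.log_neg hp0 hp1
    linarith
  obtain ⟨lam, hlamdef⟩ : ∃ lam : ℝ, lam = -Real.log (1 - p) := ⟨_, rfl⟩
  have hlam : 0 < lam := by
    have := Real.log_neg (by linarith : 0 < 1 - p) (by linarith)
    linarith
  obtain ⟨e1, he1def⟩ : ∃ e1 : ℝ, e1 = ε / 6 := ⟨_, rfl⟩
  have he10 : 0 < e1 := by rw [he1def]; positivity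
  have he11 : e1 ≤ 1 / 6 := by rw [he1def]; linarith
  obtain ⟨C2, hC2def⟩ : ∃ C2 : ℝ, C2 = 16 / p ^ (ρ + 2) := ⟨_, rfl⟩
  have hC20 : 0 < C2 := by rw [hC2def]; positivity
  obtain ⟨C3, hC3def⟩ : ∃ C3 : ℝ, C3 = 2 / p ^ ρ := ⟨_, rfl⟩
  have hC30 : 0 < C3 := by rw [hC3def]; positivity
  obtain ⟨th, ξ, hth, hξ, htilt, hξge⟩ := exists_tilt hp0 hp1 (κ := lam * e1 / 8) (by positivity)
  rw [← hlamdef] at hξge
  obtain ⟨δ, hδdef⟩ : ∃ δ : ℝ, δ = min (p ^ (ρ + 2) / 8)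
    (min (ε / (8 * lam * C2)) (e1 * lam * p / (64 * (th + 1)))) := ⟨_, rfl⟩
  have hδ0 : 0 < δ := by
    rw [hδdef]
    exact lt_min (by positivity) (lt_min (by positivity) (by positivity))
  have hδa : δ ≤ p ^ (ρ + 2) / 8 := by rw [hδdef]; exact min_le_left _ _
  have hδb : δ ≤ ε / (8 * lam * C2) := by
    rw [hδdef]; exact (min_le_right _ _).trans (min_le_left _ _)
  have hδc : δ ≤ e1 * lam * p / (64 * (th + 1)) := by
    rw [hδdef]; exact (min_le_right _ _).trans (min_le_right _ _)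
  have hδd : 2 * δ * C2 ≤ ε / (4 * lam) := by
    have h1 := mul_le_mul_of_nonneg_left hδb (show 0 ≤ 2 * C2 by positivity)
    have e5 : 2 * C2 * (ε / (8 * lam * C2)) = ε / (4 * lam) := by
      field_simp; norm_num
    linarith
  have hpp : p ^ (ρ + 2) ≤ 1 := pow_le_one₀ hp0.le hp1.le
  have hδ1 : δ ≤ 1 := by linarith
  obtain ⟨b1, hb1def⟩ : ∃ b1 : ℝ, b1 = (1 + e1) / (lam * p) := ⟨_, rfl⟩
  have hb10 : 0 < b1 := by rw [hb1def]; positivity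
  have hpb1 : p * b1 = (1 + e1) / lam := by
    rw [hb1def]; field_simp
  obtain ⟨σ, hσ0, τ, hτ0, hτσ, C, hC0, N0, hN0, hdes⟩ :=
    design' k hk k (p / 2) δ 1 (by positivity) (by linarith) hδ0 hδ1 one_pos le_rfl
  obtain ⟨D, hDdef⟩ : ∃ D : ℝ, D = (k : ℝ) ^ 2 * C / δ := ⟨_, rfl⟩
  have hD0 : 0 ≤ D := by rw [hDdef]; positivity
  obtain ⟨K1, hK1⟩ : ∃ K1 : ℝ, K1 = 2 * (1 + ρ + k) + 4 * C2 + 4 * ρ * C3 + 2 * D * (1 + C3) :=
    ⟨_, rfl⟩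
  have hK10 : 0 < K1 := by rw [hK1]; positivity
  obtain ⟨η, hηdef⟩ : ∃ η : ℝ, η = min (ε / (4 * lam * K1))
    (1 / (4 * (1 + ρ + k) * (-Real.log p))) := ⟨_, rfl⟩
  have hη0 : 0 < η := by
    rw [hηdef]
    exact lt_min (by positivity) (by positivity)
  have hηd : η * K1 ≤ ε / (4 * lam) := by
    have h1 : η ≤ ε / (4 * lam * K1) := by rw [hηdef]; exact min_le_left _ _
    have h2 := mul_le_mul_of_nonneg_right h1 hK10.le
    have h3 : ε / (4 * lam * K1) * K1 = ε / (4 * lam) := by field_simp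
    linarith
  have hηz : (1 + ρ + k) * η * (-Real.log p) ≤ 1 / 4 := by
    have h1 : η ≤ 1 / (4 * (1 + ρ + k) * (-Real.log p)) := by rw [hηdef]; exact min_le_right _ _
    have h2 := mul_le_mul_of_nonneg_right h1
      (show (0 : ℝ) ≤ (1 + ρ + k) * (-Real.log p) by positivity)
    have h3 : ∀ L : ℝ, 0 < L → 1 / (4 * (1 + (ρ : ℝ) + k) * L) * ((1 + ρ + k) * L) = 1 / 4 := by
      intro L hL
      field_simp
    have h4 := h3 _ hlogp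
    linarith
  rw [hK1] at hηd
  exact ⟨{
    lam := lam, e1 := e1, C2 := C2, C3 := C3, th := th, ξ := ξ, δ := δ, b1 := b1,
    C := C, σ := σ, τ := τ, N0 := N0, D := D, η := η,
    B := b1 + C2 + C3 * ρ + ρ + η + 4 + (1 + ρ + k) * (η + 1),
    K := (1 + ρ + k) * (-Real.log p),
    hlam := hlam, hlamdef := hlamdef, he10 := he10, he11 := he11, he1def := he1def,
    hC2def := hC2def, hC20 := hC20, hC3def := hC3def, hC30 := hC30, hth := hth, hξ := hξ,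
    htilt := htilt, hξge := hξge, hδ0 := hδ0, hδa := hδa, hδd := hδd, hδc := hδc, hδ1 := hδ1,
    hb1def := hb1def, hb10 := hb10, hpb1 := hpb1, hC0 := hC0, hσ0 := hσ0, hτ0 := hτ0,
    hτσ := hτσ,
    hdes := fun V _ G Ω Γ c h1 h2 h3 h4 => hdes V G Ω Γ c h1 h2 h3 h4,
    hDdef := hDdef, hD0 := hD0, hη0 := hη0, hηd := hηd, hηz := hηz, hBdef := rfl,
    hB0 := by positivity, hKdef := rfl }⟩

end Pool.Agent.H42.Sat
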