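import Pool.Graph.R_seed8.W166.Gnp.Row
import Pool.Graph.R_seed8.W166.Gnp.Transfer
import Pool.Agent.H42.Sat.Lower

set_option autoImplicit false
set_option linter.unusedSectionVars false

/-! Probability estimates in the binomial random graph. -/

namespace Pool.Agent.H42.Sat

open Finset Classical Pool.Agent.W166.Gnp

/-- the graph with edge set `S` -/
def gr {n : ℕ} (S : Finset (Sym2 (Fin n))) : SimpleGraph (Fin n) :=
  SimpleGraph.fromEdgeSet (S : Set (Sym2 (Fin n)))

theorem gr_adj {n : ℕ} (S : Finset (Sym2 (Fin n))) (x y : Fin n) :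
    (gr S).Adj x y ↔ s(x, y) ∈ S ∧ x ≠ y := by
  simp [gr]

/-- Markov's inequality for the number of events that occur -/
theorem markov_count {α ι : Type} [DecidableEq α] {E : Finset α} {p : ℝ} (h0 : 0 ≤ p) (h1 : p ≤ 1)
    (T : Finset ι) (A : ι → Finset α → Prop) (t : ℝ) (ht : 0 < t) :
    Pr E p (fun S => t ≤ ((T.filter (fun i => A i S)).card : ℝ)) ≤ (∑ i ∈ T, Pr E p (A i)) / t := by
  calc Pr E p (fun S => t ≤ ((T.filter (fun i => A i S)).card : ℝ))
      ≤ Ex E p (fun S => (1 / t) * ∑ i ∈ T, (if A i S then (1 : ℝ) else 0)) := by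
        apply Pr_le_Ex h0 h1
        · intro S _
          apply mul_nonneg (by positivity)
          apply sum_nonneg
          intro i _
          split_ifs <;> norm_num
        · intro S _ hS
          rw [← sum_filter, sum_const, nsmul_eq_mul, mul_one, one_div, inv_mul_eq_div,
            one_le_div ht]
          exact hS
    _ = (∑ i ∈ T, Pr E p (A i)) / t := by
        rw [Ex_smul, Ex_sum]
        unfold Pr
        rw [one_div, inv_mul_eq_div]

/-- upper tail for the number of elements of a given subset -/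
theorem card_upper {α : Type} [DecidableEq α] {E Z : Finset α} (hZ : Z ⊆ E) {p : ℝ} (h0 : 0 ≤ p)
    (h1 : p ≤ 1) {ε : ℝ} (he : 0 ≤ ε) (he1 : ε ≤ 1) :
    Pr E p (fun S => (1 + ε) * (p * Z.card) ≤ ((S ∩ Z).card : ℝ)) ≤
      Real.exp (-(ε ^ 2 / 4 * (p * Z.card))) := by
  set t : ℝ := ε / 2 with ht
  have ht0 : 0 ≤ t := by positivity
  have ht1 : |t| ≤ 1 := by rw [abs_of_nonneg ht0]; linarith
  have hexp : Real.exp t ≤ 1 + t + t ^ 2 := by
    have := Real.abs_exp_sub_one_sub_id_le ht1
    have := (abs_le.1 this).2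
    linarith
  have hx : Ex E p (fun S => Real.exp t ^ (S ∩ Z).card) = (p * Real.exp t + (1 - p)) ^ Z.card := by
    rw [Ex_marg (E1 := Z) hZ]
    · unfold Ex
      rw [← Finset.sum_pow_mul_eq_add_pow]
      apply sum_congr rfl
      intro S hS
      rw [mem_powerset] at hS
      beta_reduce
      rw [inter_eq_left.mpr hS, mul_pow]
      ring
    · intro S _
      rw [inter_assoc, inter_self]
  have hp : 0 ≤ p * (Z.card : ℝ) := mul_nonneg h0 (Nat.cast_nonneg _)
  calc Pr E p (fun S => (1 + ε) * (p * Z.card) ≤ ((S ∩ Z).card : ℝ))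
      ≤ Ex E p (fun S => Real.exp (-(t * ((1 + ε) * (p * Z.card)))) *
          Real.exp t ^ (S ∩ Z).card) := by
        apply Pr_le_Ex h0 h1
        · intro S _; positivity
        · intro S _ hS
          rw [← Real.exp_nat_mul, ← Real.exp_add]
          apply Real.one_le_exp
          nlinarith
    _ = Real.exp (-(t * ((1 + ε) * (p * Z.card)))) * (p * Real.exp t + (1 - p)) ^ Z.card := by
        rw [Ex_smul, hx]
    _ ≤ Real.exp (-(t * ((1 + ε) * (p * Z.card)))) * Real.exp (p * (t + t ^ 2)) ^ Z.card := by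
        apply mul_le_mul_of_nonneg_left _ (Real.exp_pos _).le
        apply pow_le_pow_left₀
        · have := Real.exp_pos t
          have := mul_nonneg h0 this.le
          linarith
        · have h8 := Real.add_one_le_exp (p * (t + t ^ 2))
          nlinarith
    _ = Real.exp (-(ε ^ 2 / 4 * (p * Z.card))) := by
        rw [← Real.exp_nat_mul, ← Real.exp_add, ht]
        congr 1
        ring

/-- the pairs between two sets -/
noncomputable def bip {V : Type} [DecidableEq V] (A B : Finset V) : Finset (Sym2 V) :=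
  (A ×ˢ B).image (fun x => s(x.1, x.2))

theorem bip_inj {V : Type} {A B : Finset V} (h : Disjoint A B) :
    Set.InjOn (fun x : V × V => s(x.1, x.2)) ((A ×ˢ B : Finset (V × V)) : Set (V × V)) := by
  rintro ⟨a, b⟩ h1 ⟨c, d⟩ h2 h3
  rw [mem_coe, mem_product] at h1 h2
  simp only [Sym2.eq_iff] at h3
  rcases h3 with ⟨h4, h5⟩ | ⟨h4, h5⟩
  · rw [h4, h5]
  · exfalso
    subst h4
    exact disjoint_left.mp h h1.1 h2.2

theorem bip_card {V : Type} [DecidableEq V] {A B : Finset V} (h : Disjoint A B) :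
    (bip A B).card = A.card * B.card := by
  unfold bip
  rw [card_image_of_injOn (bip_inj h), card_product]

theorem bip_sub {n : ℕ} {A B : Finset (Fin n)} (h : Disjoint A B) : bip A B ⊆ allE n := by
  intro e he
  obtain ⟨x, hx, rfl⟩ := mem_image.mp he
  rw [mem_product] at hx
  rw [mem_allE]
  intro heq
  exact disjoint_left.mp h hx.1 (heq ▸ hx.2)

theorem inter_bip_card {V : Type} [DecidableEq V] {A B : Finset V} (h : Disjoint A B) (S : Finset (Sym2 V)) :
    (S ∩ bip A B).card = ∑ x ∈ A, (B.filter (fun y => s(x, y) ∈ S)).card := by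
  have h1 : S ∩ bip A B = ((A ×ˢ B).filter (fun x => s(x.1, x.2) ∈ S)).image
      (fun x => s(x.1, x.2)) := by
    ext e
    simp only [mem_inter, bip, mem_image, mem_filter]
    constructor
    · rintro ⟨h1, x, hx, rfl⟩
      exact ⟨x, ⟨hx, h1⟩, rfl⟩
    · rintro ⟨x, ⟨hx, h1⟩, rfl⟩
      exact ⟨h1, x, hx, rfl⟩
  rw [h1, card_image_of_injOn]
  · rw [card_filter, sum_product]
    exact sum_congr rfl (fun x _ => (card_filter _ _).symm)
  · apply (bip_inj h).mono
    intro x hx
    rw [mem_coe, mem_filter] at hx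
    exact hx.1

/-- the density property holds with very high probability -/
theorem Pr_not_Dens {n : ℕ} (Ω : Finset (Fin n)) {p σ τ : ℝ} (hp0 : 0 < p) (hp1 : p ≤ 1)
    (hσ0 : 0 < σ) (hτ0 : 0 < τ) (hτσ : τ ≤ σ / 2) (hN : 16 / σ ≤ (Ω.card : ℝ)) :
    Pr (allE n) p (fun S => ¬ Dens (gr S) Ω (p / 2) (σ * (Ω.card : ℝ)) (τ * (Ω.card : ℝ))) ≤
      4 ^ Ω.card * Real.exp (-(p * σ * τ / 100 * (Ω.card : ℝ) ^ 2)) := by
  set N : ℝ := (Ω.card : ℝ) with hNdef
  have hN0 : 0 < N := lt_of_lt_of_le (by positivity) hN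
  have hσN : 16 ≤ σ * N := by
    rw [div_le_iff₀ hσ0] at hN
    linarith
  let b' : ℕ := ⌈τ * N / 8⌉₊
  have hb1 : τ * N / 8 ≤ b' := Nat.le_ceil _
  have hb2 : (b' : ℝ) < τ * N / 8 + 1 := Nat.ceil_lt_add_one (by positivity)
  have hb3 : (b' : ℝ) ≤ σ * N / 8 := by nlinarith
  let T : Finset (Finset (Fin n) × Finset (Fin n)) := (Ω.powerset ×ˢ Ω.powerset).filter
    (fun x => σ * N ≤ (x.1.card : ℝ) ∧ x.2.card = b')
  have hsub : ∀ S, S ⊆ allE n → (¬ Dens (gr S) Ω (p / 2) (σ * N) (τ * N)) →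
      ∃ x ∈ T, (fun (x : Finset (Fin n) × Finset (Fin n)) (S : Finset (Sym2 (Fin n))) =>
        ((S ∩ bip x.2 (x.1 \ x.2)).card : ℝ) ≤
          (1 - 3 / 7) * (p * (bip x.2 (x.1 \ x.2)).card)) x S := by
    intro S _ hS
    unfold Dens at hS
    push Not at hS
    obtain ⟨X, hX, B, hB, hXs, hBb, hall⟩ := hS
    have hbB : b' ≤ B.card := by
      apply Nat.ceil_le.mpr
      have : 0 ≤ τ * N := by positivity
      linarith
    obtain ⟨B', hB'1, hB'2⟩ := exists_subset_card_eq hbB
    refine ⟨(X, B'), ?_, ?_⟩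
    · rw [mem_filter, mem_product, mem_powerset, mem_powerset]
      exact ⟨⟨hX, hB'1.trans hB⟩, hXs, hB'2⟩
    · change ((S ∩ bip B' (X \ B')).card : ℝ) ≤ (1 - 3 / 7) * (p * (bip B' (X \ B')).card)
      have hdis : Disjoint B' (X \ B') := disjoint_sdiff
      rw [inter_bip_card hdis, bip_card hdis]
      push_cast
      have h1 : ∑ x ∈ B', (((X \ B').filter (fun y => s(x, y) ∈ S)).card : ℝ) ≤
          ∑ _x ∈ B', p / 2 * (X.card : ℝ) := by
        apply sum_le_sum
        intro x hx
        refine le_trans ?_ (hall x (hB'1 hx)).le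
        have : ((X \ B').filter (fun y => s(x, y) ∈ S)).card ≤
            (X.filter (fun y => (gr S).Adj x y)).card := by
          apply card_le_card
          intro y hy
          rw [mem_filter, mem_sdiff] at hy
          rw [mem_filter, gr_adj]
          refine ⟨hy.1.1, hy.2, ?_⟩
          rintro rfl
          exact hy.1.2 hx
        exact_mod_cast this
      rw [sum_const, nsmul_eq_mul] at h1
      have h2 : (X.card : ℝ) ≤ ((X \ B').card : ℝ) + (b' : ℝ) := by
        have : X.card ≤ (X \ B').card + B'.card := card_le_card_sdiff_add_card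
        rw [hB'2] at this
        exact_mod_cast this
      have h3 : 7 / 8 * (X.card : ℝ) ≤ ((X \ B').card : ℝ) := by linarith
      have h4 : (0 : ℝ) ≤ (B'.card : ℝ) := Nat.cast_nonneg _
      refine h1.trans ?_
      have h5 : (B'.card : ℝ) * (7 / 8 * (X.card : ℝ)) ≤ (B'.card : ℝ) * ((X \ B').card : ℝ) :=
        mul_le_mul_of_nonneg_left h3 h4
      have h6 : p * ((B'.card : ℝ) * (7 / 8 * (X.card : ℝ))) ≤
          p * ((B'.card : ℝ) * ((X \ B').card : ℝ)) := mul_le_mul_of_nonneg_left h5 hp0.le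
      linarith
  calc Pr (allE n) p (fun S => ¬ Dens (gr S) Ω (p / 2) (σ * N) (τ * N))
      ≤ Pr (allE n) p (fun S => ∃ x ∈ T,
          (fun (x : Finset (Fin n) × Finset (Fin n)) (S : Finset (Sym2 (Fin n))) =>
        ((S ∩ bip x.2 (x.1 \ x.2)).card : ℝ) ≤
          (1 - 3 / 7) * (p * (bip x.2 (x.1 \ x.2)).card)) x S) := Pr_mono hp0.le hp1 hsub
    _ ≤ ∑ x ∈ T, Pr (allE n) p (fun S => ((S ∩ bip x.2 (x.1 \ x.2)).card : ℝ) ≤
          (1 - 3 / 7) * (p * (bip x.2 (x.1 \ x.2)).card)) := Pr_exists_le hp0.le hp1 _ _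
    _ ≤ ∑ _x ∈ T, Real.exp (-(p * σ * τ / 100 * N ^ 2)) := by
        apply sum_le_sum
        intro x hx
        rw [mem_filter, mem_product, mem_powerset, mem_powerset] at hx
        obtain ⟨⟨hX, hB⟩, hXs, hBc⟩ := hx
        have hdis : Disjoint x.2 (x.1 \ x.2) := disjoint_sdiff
        refine (card_lower (bip_sub hdis) hp0.le hp1 (by norm_num) (by norm_num)).trans ?_
        apply Real.exp_le_exp.mpr
        rw [neg_le_neg_iff, bip_card hdis]
        push_cast
        have h2 : (x.1.card : ℝ) ≤ ((x.1 \ x.2).card : ℝ) + (b' : ℝ) := by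
          have : x.1.card ≤ (x.1 \ x.2).card + x.2.card := card_le_card_sdiff_add_card
          rw [hBc] at this
          exact_mod_cast this
        have h3 : 7 / 8 * (σ * N) ≤ ((x.1 \ x.2).card : ℝ) := by linarith
        have h4 : τ * N / 8 ≤ (x.2.card : ℝ) := by rw [hBc]; exact hb1
        have h5 : (τ * N / 8) * (7 / 8 * (σ * N)) ≤ (x.2.card : ℝ) * ((x.1 \ x.2).card : ℝ) :=
          mul_le_mul h4 h3 (by positivity) (Nat.cast_nonneg _)
        have h6 := mul_le_mul_of_nonneg_left h5 hp0.le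
        have h7 : 0 ≤ p * σ * τ * N ^ 2 := by positivity
        nlinarith
    _ = (T.card : ℝ) * Real.exp (-(p * σ * τ / 100 * N ^ 2)) := by
        rw [sum_const, nsmul_eq_mul]
    _ ≤ 4 ^ Ω.card * Real.exp (-(p * σ * τ / 100 * N ^ 2)) := by
        apply mul_le_mul_of_nonneg_right _ (Real.exp_pos _).le
        have : T.card ≤ 4 ^ Ω.card := by
          refine (card_filter_le _ _).trans ?_
          rw [card_product, card_powerset, ← mul_pow]
          norm_num
        exact_mod_cast this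

end Pool.Agent.H42.Sat
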