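import Pool.Agent.H42.Sat.Prob

set_option autoImplicit false
set_option linter.unusedSectionVars false

/-! Probabilities of neighbourhood events. -/

namespace Pool.Agent.H42.Sat

open Finset Classical Pool.Agent.W166.Gnp

theorem row_sub {n : ℕ} {x : Fin n} {A : Finset (Fin n)} (hx : x ∉ A) : row x A ⊆ allE n := by
  intro e he
  obtain ⟨a, ha, rfl⟩ := mem_row.mp he
  rw [mem_allE]
  rintro rfl
  exact hx ha

theorem Pr_few_nb {n : ℕ} {x : Fin n} {A : Finset (Fin n)} (hx : x ∉ A) {p ζ : ℝ} (hp0 : 0 ≤ p)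
    (hp1 : p ≤ 1) (h0 : 0 ≤ ζ) (h1 : ζ ≤ 1) :
    Pr (allE n) p (fun S => ((A.filter (fun z => s(x, z) ∈ S)).card : ℝ) ≤
      (1 - ζ) * (p * (A.card : ℝ))) ≤ Real.exp (-(ζ ^ 2 / 2 * (p * (A.card : ℝ)))) := by
  have h := card_lower (row_sub hx) hp0 hp1 h0 h1
  rw [card_row] at h
  refine le_trans (Pr_mono hp0 hp1 ?_) h
  intro S _ hS
  rw [card_inter_row]
  exact hS

theorem pair_disj {n : ℕ} {x y : Fin n} (A : Finset (Fin n)) (hx : x ∉ A) (hy : y ∉ A) :
    (A : Set (Fin n)).PairwiseDisjoint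
      (fun z => ({s(x, z), s(y, z)} : Finset (Sym2 (Fin n)))) := by
  intro z hz w hw hzw
  simp only [Function.onFun]
  rw [disjoint_left]
  intro e he he'
  rw [mem_insert, mem_singleton] at he he'
  have hzx : z ≠ x := fun h => hx (h ▸ hz)
  have hzy : z ≠ y := fun h => hy (h ▸ hz)
  have hwx : w ≠ x := fun h => hx (h ▸ hw)
  have hwy : w ≠ y := fun h => hy (h ▸ hw)
  rcases he with rfl | rfl <;> rcases he' with he' | he' <;> rw [Sym2.eq_iff] at he' <;>
    rcases he' with ⟨h1, h2⟩ | ⟨h1, h2⟩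
  · exact hzw h2
  · exact hwx h1.symm
  · exact hzw h2
  · exact hwx h1.symm
  · exact hzw h2
  · exact hwy h1.symm
  · exact hzw h2
  · exact hwy h1.symm

theorem pair_sub {n : ℕ} {x y : Fin n} {A : Finset (Fin n)} (hx : x ∉ A) (hy : y ∉ A) (z : Fin n)
    (hz : z ∈ A) : ({s(x, z), s(y, z)} : Finset (Sym2 (Fin n))) ⊆ allE n := by
  intro e he
  rw [mem_insert, mem_singleton] at he
  rcases he with rfl | rfl
  · rw [mem_allE]; rintro rfl; exact hx hz
  · rw [mem_allE]; rintro rfl; exact hy hz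

theorem pair_ne {n : ℕ} {x y z : Fin n} (hxy : x ≠ y) : s(x, z) ≠ s(y, z) := by
  intro h
  rw [Sym2.eq_iff] at h
  rcases h with ⟨h1, _⟩ | ⟨h1, h2⟩
  · exact hxy h1
  · exact hxy (h1.trans h2)

theorem Pr_few_cn {n : ℕ} {x y : Fin n} (hxy : x ≠ y) {A : Finset (Fin n)} (hx : x ∉ A)
    (hy : y ∉ A) {p : ℝ} (hp0 : 0 ≤ p) (hp1 : p ≤ 1) (b : ℕ) :
    Pr (allE n) p (fun S => (A.filter (fun z => s(x, z) ∈ S ∧ s(y, z) ∈ S)).card < b) ≤
      2 ^ b * Real.exp (-(p ^ 2 * (A.card : ℝ) / 2)) := by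
  have h := lower_tail hp0 hp1 A (fun z => ({s(x, z), s(y, z)} : Finset (Sym2 (Fin n))))
    (pair_sub hx hy) (pair_disj A hx hy)
    (fun z S => ({s(x, z), s(y, z)} : Finset (Sym2 (Fin n))) ⊆ S) (p ^ 2) (by
      intro z _
      have h1 := Pr_superset (E := ({s(x, z), s(y, z)} : Finset (Sym2 (Fin n))))
        (D := ({s(x, z), s(y, z)} : Finset (Sym2 (Fin n)))) subset_rfl p
      rw [h1, card_pair (pair_ne hxy)]) b
  refine le_trans (Pr_mono hp0 hp1 ?_) h
  intro S _ hS
  refine lt_of_le_of_lt (le_of_eq ?_) hS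
  unfold cnt
  congr 1
  ext z
  simp only [mem_filter]
  constructor
  · rintro ⟨h1, h2⟩
    refine ⟨h1, ?_, ?_⟩
    · exact (mem_inter.mp (h2 (mem_insert_self _ _))).1
    · exact (mem_inter.mp (h2 (mem_insert_of_mem (mem_singleton_self _)))).1
  · rintro ⟨h1, h2, h3⟩
    refine ⟨h1, ?_⟩
    intro e he
    rw [mem_inter]
    refine ⟨?_, he⟩
    rw [mem_insert, mem_singleton] at he
    rcases he with rfl | rfl
    · exact h2
    · exact h3

theorem Ex_pair {α : Type} [DecidableEq α] {a b : α} (hab : a ≠ b) (p : ℝ) (f : Finset α → ℝ) :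
    Ex {a, b} p f = (1 - p) ^ 2 * f ∅ + p * (1 - p) * f {b} + p * (1 - p) * f {a} +
      p ^ 2 * f {a, b} := by
  unfold Ex
  have hb : ({b} : Finset α) = insert b ∅ := rfl
  rw [sum_powerset_insert (by simpa using hab), hb, sum_powerset_insert (by simp),
    sum_powerset_insert (by simp), powerset_empty, sum_singleton, sum_singleton, sum_singleton,
    sum_singleton, ← hb, card_pair hab]
  simp
  ring

theorem Pr_joint {n : ℕ} {x y : Fin n} (hxy : x ≠ y) {A : Finset (Fin n)} (hx : x ∉ A)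
    (hy : y ∉ A) {p : ℝ} (hp0 : 0 ≤ p) (hp1 : p ≤ 1) (θ ξ s b : ℝ) (hθ : 0 ≤ θ) (hξ : 0 ≤ ξ)
    (hθξ : Real.exp ξ * (1 - p + p * Real.exp (-θ)) = 1) :
    Pr (allE n) p (fun S => s ≤ ((A.filter (fun z => s(x, z) ∈ S)).card : ℝ) ∧
      ((A.filter (fun z => s(x, z) ∈ S ∧ s(y, z) ∈ S)).card : ℝ) ≤ b) ≤
      Real.exp (θ * b - ξ * s) := by
  let R : Fin n → Finset (Sym2 (Fin n)) := fun z => {s(x, z), s(y, z)}
  let f : Fin n → Finset (Sym2 (Fin n)) → ℝ := fun z S =>
    Real.exp (ξ * (if s(x, z) ∈ S then 1 else 0) - θ * (if s(x, z) ∈ S ∧ s(y, z) ∈ S then 1 else 0))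
  have hprod : Ex (allE n) p (fun S => ∏ z ∈ A, f z (S ∩ R z)) = 1 := by
    rw [Ex_prod p A R (pair_sub hx hy) (pair_disj A hx hy)]
    apply prod_eq_one
    intro z _
    have hne := pair_ne (z := z) hxy
    change Ex {s(x, z), s(y, z)} p (f z) = 1
    rw [Ex_pair hne]
    have e1 : f z ∅ = 1 := by simp [f]
    have e2 : f z {s(y, z)} = 1 := by simp [f, hne]
    have e3 : f z {s(x, z)} = Real.exp ξ := by simp [f, hne.symm]
    have e4 : f z {s(x, z), s(y, z)} = Real.exp ξ * Real.exp (-θ) := by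
      simp only [f, mem_insert, mem_singleton, true_or, or_true, and_self, if_true, mul_one]
      rw [← Real.exp_add]
      rfl
    rw [e1, e2, e3, e4]
    linear_combination p * hθξ
  calc Pr (allE n) p (fun S => s ≤ ((A.filter (fun z => s(x, z) ∈ S)).card : ℝ) ∧
      ((A.filter (fun z => s(x, z) ∈ S ∧ s(y, z) ∈ S)).card : ℝ) ≤ b)
      ≤ Ex (allE n) p (fun S => Real.exp (θ * b - ξ * s) * ∏ z ∈ A, f z (S ∩ R z)) := by
        apply Pr_le_Ex hp0 hp1
        · intro S _
          exact mul_nonneg (Real.exp_pos _).le (prod_nonneg (fun z _ => (Real.exp_pos _).le))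
        · intro S _ hS
          have h1 : ∏ z ∈ A, f z (S ∩ R z) =
              Real.exp (ξ * ((A.filter (fun z => s(x, z) ∈ S)).card : ℝ) -
                θ * ((A.filter (fun z => s(x, z) ∈ S ∧ s(y, z) ∈ S)).card : ℝ)) := by
            simp only [f]
            rw [← Real.exp_sum, sum_sub_distrib, ← mul_sum, ← mul_sum]
            congr 2
            · congr 1
              rw [card_filter]
              push_cast
              apply sum_congr rfl
              intro z _
              have : (s(x, z) ∈ S ∩ R z) ↔ s(x, z) ∈ S := by simp [R]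
              simp only [this]
            · congr 1
              rw [card_filter]
              push_cast
              apply sum_congr rfl
              intro z _
              have h2 : (s(x, z) ∈ S ∩ R z) ↔ s(x, z) ∈ S := by simp [R]
              have h3 : (s(y, z) ∈ S ∩ R z) ↔ s(y, z) ∈ S := by simp [R]
              simp only [h2, h3]
          rw [h1, ← Real.exp_add]
          apply Real.one_le_exp
          have h2 := mul_le_mul_of_nonneg_left hS.1 hξ
          have h3 := mul_le_mul_of_nonneg_left hS.2 hθ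
          linarith
    _ = Real.exp (θ * b - ξ * s) := by rw [Ex_smul, hprod, mul_one]

theorem Pr_eq_set {α : Type} [DecidableEq α] {R D : Finset α} (hD : D ⊆ R) (p : ℝ) :
    Pr R p (fun S => S = D) = p ^ D.card * (1 - p) ^ (R.card - D.card) := by
  unfold Pr Ex
  rw [sum_eq_single D]
  · simp
  · intro S _ hne
    beta_reduce
    rw [if_neg hne, mul_zero]
  · intro h
    exact absurd (mem_powerset.mpr hD) h

theorem Pr_lower_one {n : ℕ} (v : Fin n) (S₀ : Finset (Fin n)) (hv : v ∉ S₀) {p : ℝ} (hp0 : 0 ≤ p)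
    (hp1 : p ≤ 1) (a s : ℕ) (hs : S₀.card ≤ s) (hn : 2 * (s + 1) ≤ n) :
    Pr (allE n) p (fun S => (univ.filter (fun w => w ≠ v ∧ w ∉ S₀ ∧ (gr S).Adj v w ∧
      ∀ z ∈ S₀, ¬ (gr S).Adj w z)).card < a) ≤
      2 ^ a * Real.exp (-(p * (1 - p) ^ s * (n : ℝ) / 4)) := by
  let T : Finset (Fin n) := univ \ insert v S₀
  let R : Fin n → Finset (Sym2 (Fin n)) := fun w => row w (insert v S₀)
  obtain ⟨D, hDdef⟩ : ∃ D : Fin n → Finset (Sym2 (Fin n)) → Prop,
      ∀ w S, D w S ↔ S = {s(w, v)} := ⟨_, fun _ _ => Iff.rfl⟩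
  have h1p : 0 ≤ 1 - p := by linarith
  have hTmem : ∀ w ∈ T, w ≠ v ∧ w ∉ S₀ := by
    intro w hw
    have := (mem_sdiff.mp hw).2
    rw [mem_insert, not_or] at this
    exact this
  have hR : ∀ w ∈ T, R w ⊆ allE n := by
    intro w hw
    exact row_sub (mem_sdiff.mp hw).2
  have hd : (T : Set (Fin n)).PairwiseDisjoint R := by
    intro w hw w' hw' hne
    exact row_disjoint hne (mem_sdiff.mp hw).2
  have hg : ∀ w ∈ T, p * (1 - p) ^ s ≤ Pr (R w) p (D w) := by
    intro w _
    have h1 : ({s(w, v)} : Finset (Sym2 (Fin n))) ⊆ R w := by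
      intro e he
      rw [mem_singleton] at he
      subst he
      exact mem_row.mpr ⟨v, mem_insert_self _ _, rfl⟩
    have h2 := Pr_eq_set h1 p
    have h3 : D w = fun S => S = {s(w, v)} := by
      funext S
      exact propext (hDdef w S)
    rw [h3, h2, card_singleton, pow_one]
    apply mul_le_mul_of_nonneg_left _ hp0
    apply pow_le_pow_of_le_one h1p (by linarith)
    change (row w (insert v S₀)).card - 1 ≤ s
    rw [card_row, card_insert_of_notMem hv]
    omega
  have hT : (n : ℝ) / 2 ≤ (T.card : ℝ) := by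
    have h1 : T.card = n - (S₀.card + 1) := by
      change (univ \ insert v S₀).card = _
      rw [card_sdiff_of_subset (subset_univ _), card_univ, Fintype.card_fin,
        card_insert_of_notMem hv]
    have h2 : n ≤ 2 * T.card := by omega
    have h3 : (n : ℝ) ≤ 2 * (T.card : ℝ) := by exact_mod_cast h2
    linarith
  have h := lower_tail hp0 hp1 T R hR hd D (p * (1 - p) ^ s) hg a
  refine le_trans (Pr_mono hp0 hp1 ?_) (h.trans ?_)
  · intro S _ hS
    refine lt_of_le_of_lt ?_ hS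
    unfold cnt
    apply card_le_card
    intro w hw
    rw [mem_filter] at hw
    obtain ⟨hwT, hwD⟩ := hw
    have hwD' : S ∩ row w (insert v S₀) = {s(w, v)} := (hDdef _ _).mp hwD
    obtain ⟨hwv, hwS⟩ := hTmem w hwT
    refine mem_filter.mpr ⟨mem_univ _, hwv, hwS, ?_, ?_⟩
    · have : s(w, v) ∈ S ∩ row w (insert v S₀) := by rw [hwD']; exact mem_singleton_self _
      rw [gr_adj, Sym2.eq_swap]
      exact ⟨(mem_inter.mp this).1, hwv.symm⟩
    · intro z hz hwz
      rw [gr_adj] at hwz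
      have : s(w, z) ∈ S ∩ row w (insert v S₀) :=
        mem_inter.mpr ⟨hwz.1, mem_row.mpr ⟨z, mem_insert_of_mem hz, rfl⟩⟩
      rw [hwD', mem_singleton] at this
      have h5 : z = v := Sym2.congr_right.mp this
      exact hv (h5 ▸ hz)
  · apply mul_le_mul_of_nonneg_left _ (by positivity)
    apply Real.exp_le_exp.mpr
    have h4 : p * (1 - p) ^ s * ((n : ℝ) / 2) ≤ p * (1 - p) ^ s * (T.card : ℝ) :=
      mul_le_mul_of_nonneg_left hT (by positivity)
    linarith

theorem card_small_sets (n s : ℕ) (hn : 1 ≤ n) :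
    ((univ : Finset (Finset (Fin n))).filter (fun S => S.card ≤ s)).card ≤ (s + 1) * n ^ s := by
  have h1 : (univ : Finset (Finset (Fin n))).filter (fun S => S.card ≤ s) ⊆
      (range (s + 1)).biUnion (fun j => powersetCard j univ) := by
    intro S hS
    rw [mem_biUnion]
    exact ⟨S.card, mem_range.mpr (Nat.lt_succ_of_le (mem_filter.mp hS).2),
      mem_powersetCard.mpr ⟨subset_univ _, rfl⟩⟩
  calc _ ≤ ((range (s + 1)).biUnion (fun j => powersetCard j (univ : Finset (Fin n)))).card :=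
        card_le_card h1
    _ ≤ ∑ j ∈ range (s + 1), (powersetCard j (univ : Finset (Fin n))).card := card_biUnion_le
    _ ≤ ∑ _j ∈ range (s + 1), n ^ s := by
        apply sum_le_sum
        intro j hj
        rw [card_powersetCard, card_univ, Fintype.card_fin]
        refine (Nat.choose_le_pow _ _).trans ?_
        exact Nat.pow_le_pow_right hn (by rw [mem_range] at hj; omega)
    _ = (s + 1) * n ^ s := by rw [sum_const, card_range, smul_eq_mul]

theorem Pr_lower_event {n : ℕ} {p : ℝ} (hp0 : 0 ≤ p) (hp1 : p ≤ 1) (a s : ℕ)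
    (hn : 2 * (s + 1) ≤ n) :
    Pr (allE n) p (fun S => ¬ ∀ v, ∀ S₀ : Finset (Fin n), v ∉ S₀ → S₀.card ≤ s →
      a ≤ (univ.filter (fun w => w ≠ v ∧ w ∉ S₀ ∧ (gr S).Adj v w ∧
      ∀ z ∈ S₀, ¬ (gr S).Adj w z)).card) ≤
      (n : ℝ) * ((s + 1) * (n : ℝ) ^ s) *
        (2 ^ a * Real.exp (-(p * (1 - p) ^ s * (n : ℝ) / 4))) := by
  let T : Finset (Fin n × Finset (Fin n)) :=
    (univ ×ˢ ((univ : Finset (Finset (Fin n))).filter (fun S => S.card ≤ s))).filter
      (fun x => x.1 ∉ x.2)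
  have h1p : 0 ≤ 1 - p := by linarith
  calc _ ≤ Pr (allE n) p (fun S => ∃ x ∈ T,
        (fun (x : Fin n × Finset (Fin n)) (S : Finset (Sym2 (Fin n))) =>
        (univ.filter (fun w => w ≠ x.1 ∧ w ∉ x.2 ∧ (gr S).Adj x.1 w ∧
      ∀ z ∈ x.2, ¬ (gr S).Adj w z)).card < a) x S) := by
        apply Pr_mono hp0 hp1
        intro S _ hS
        push Not at hS
        obtain ⟨v, S₀, h1, h2, h3⟩ := hS
        refine ⟨(v, S₀), mem_filter.mpr ⟨mem_product.mpr ⟨mem_univ _,
          mem_filter.mpr ⟨mem_univ _, h2⟩⟩, h1⟩, ?_⟩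
        exact h3
    _ ≤ ∑ x ∈ T, Pr (allE n) p (fun S => (univ.filter (fun w => w ≠ x.1 ∧ w ∉ x.2 ∧
        (gr S).Adj x.1 w ∧ ∀ z ∈ x.2, ¬ (gr S).Adj w z)).card < a) :=
        Pr_exists_le hp0 hp1 _ _
    _ ≤ ∑ _x ∈ T, (2 ^ a * Real.exp (-(p * (1 - p) ^ s * (n : ℝ) / 4))) := by
        apply sum_le_sum
        intro x hx
        rw [mem_filter, mem_product, mem_filter] at hx
        exact Pr_lower_one x.1 x.2 hx.2 hp0 hp1 a s hx.1.2.2 hn
    _ = (T.card : ℝ) * (2 ^ a * Real.exp (-(p * (1 - p) ^ s * (n : ℝ) / 4))) := by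
        rw [sum_const, nsmul_eq_mul]
    _ ≤ _ := by
        apply mul_le_mul_of_nonneg_right _ (by positivity)
        have : T.card ≤ n * ((s + 1) * n ^ s) := by
          refine (card_filter_le _ _).trans ?_
          rw [card_product, card_univ, Fintype.card_fin]
          exact Nat.mul_le_mul_left _ (card_small_sets n s (by omega))
        exact_mod_cast this

end Pool.Agent.H42.Sat
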