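import Pool.Agent.H42.Sat.Fail
import Pool.Agent.H42.Sat.Wrap
import Pool.Agent.H42.Sat.Asym

set_option autoImplicit false
set_option linter.unusedSectionVars false

/-! Numerical steps of the upper bound. -/

namespace Pool.Agent.H42.Sat

open Finset Classical Pool.Agent.W166.Gnp Filter Topology

theorem num1 {ε : ℝ} (h0 : 0 ≤ ε) (h1 : ε ≤ 1) : (1 + ε / 6) ^ 2 ≤ 1 + ε / 2 := by nlinarith

theorem num2 {e : ℝ} (h0 : 0 ≤ e) (h1 : e ≤ 1 / 6) :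
    1 + e / 4 ≤ (1 - e / 8) * (1 + e / 2) := by nlinarith

theorem num3 {e : ℝ} (h0 : 0 ≤ e) (h1 : e ≤ 1 / 6) :
    1 + e / 2 ≤ (1 - e / 4) * (1 + e) := by nlinarith

theorem exp2 {th δ b1 e1 lam p x m1 ξ s₀ : ℝ} (hth : 0 ≤ th) (hδ0 : 0 ≤ δ)
    (hδc : δ ≤ e1 * lam * p / (64 * (th + 1))) (hb1 : b1 = (1 + e1) / (lam * p))
    (hlam : 0 < lam) (hp0 : 0 < p) (he10 : 0 ≤ e1) (he11 : e1 ≤ 1 / 6) (hx0 : 0 < x)
    (b1' : m1 ≤ b1 * x + 1) (hlin2 : 2 * th * δ ≤ e1 / 16 * x) (hξge : lam - lam * e1 / 8 ≤ ξ)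
    (hs₀ : s₀ = (1 + e1 / 2) * x / lam) :
    th * (2 * δ * m1) - ξ * s₀ ≤ -((1 + e1 / 8) * x) := by
  have hb10 : 0 ≤ b1 := by rw [hb1]; positivity
  have h1 : th * (2 * δ * m1) ≤ th * (2 * δ * (b1 * x + 1)) := by
    apply mul_le_mul_of_nonneg_left _ hth
    exact mul_le_mul_of_nonneg_left b1' (by positivity)
  have h2 : 2 * th * δ * b1 ≤ e1 / 16 := by
    have h3 : 2 * th * δ * b1 ≤ 2 * th * (e1 * lam * p / (64 * (th + 1))) * b1 := by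
      apply mul_le_mul_of_nonneg_right _ hb10
      exact mul_le_mul_of_nonneg_left hδc (by positivity)
    have h4 : 2 * th * (e1 * lam * p / (64 * (th + 1))) * b1 =
        e1 / 32 * (1 + e1) * (th / (th + 1)) := by
      rw [hb1]; field_simp; ring
    have h5 : th / (th + 1) ≤ 1 := by
      rw [div_le_one (by linarith)]; linarith
    have h7 : e1 / 32 * (1 + e1) * (th / (th + 1)) ≤ e1 / 32 * (1 + e1) * 1 :=
      mul_le_mul_of_nonneg_left h5 (by positivity)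
    rw [h4] at h3
    nlinarith
  have h4 : th * (2 * δ * (b1 * x + 1)) = 2 * th * δ * b1 * x + 2 * th * δ := by ring
  have h5 : 2 * th * δ * b1 * x ≤ e1 / 16 * x := mul_le_mul_of_nonneg_right h2 hx0.le
  have h6 : (lam - lam * e1 / 8) * s₀ ≤ ξ * s₀ := by
    apply mul_le_mul_of_nonneg_right hξge
    rw [hs₀]; positivity
  have h7 : (lam - lam * e1 / 8) * s₀ = (1 - e1 / 8) * (1 + e1 / 2) * x := by
    rw [hs₀]; field_simp
  have h8 : (1 + e1 / 4) * x ≤ (1 - e1 / 8) * (1 + e1 / 2) * x :=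
    mul_le_mul_of_nonneg_right (num2 he10 he11) hx0.le
  linarith

theorem step2 {n : ℕ} (bc : Fin n → ℕ) {p th δ b1 e1 lam x m1 ξ s₀ η : ℝ} (hth : 0 ≤ th)
    (hξ : 0 ≤ ξ) (htilt : Real.exp ξ * (1 - p + p * Real.exp (-th)) = 1) (hη0 : 0 < η)
    (hn1 : 0 < n) (hx : x = Real.log (n : ℝ)) (hδ0 : 0 ≤ δ)
    (hδc : δ ≤ e1 * lam * p / (64 * (th + 1))) (hb1 : b1 = (1 + e1) / (lam * p))
    (hlam : 0 < lam) (hp0 : 0 < p) (hp1 : p ≤ 1) (he10 : 0 ≤ e1) (he11 : e1 ≤ 1 / 6) (hx0 : 0 < x)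
    (b1' : m1 ≤ b1 * x + 1) (hlin2 : 2 * th * δ ≤ e1 / 16 * x) (hξge : lam - lam * e1 / 8 ≤ ξ)
    (hs₀ : s₀ = (1 + e1 / 2) * x / lam) :
    Pr (allE n) p (fun S => ¬ (((prs (fun x y => bc x = 3 ∧ bc y = 3 ∧ x ≠ y ∧
      s₀ ≤ ((nb (gr S) bc 1 x).card : ℝ) ∧
      ((cn (gr S) bc 1 x y).card : ℝ) < 2 * δ * m1)).card : ℝ) ≤ η * (n : ℝ))) ≤
      1 / η * Real.exp (-(e1 / 8 * x)) := by
  have hnr : (0 : ℝ) < n := by exact_mod_cast hn1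
  have hexpx : Real.exp x = n := by rw [hx]; exact Real.exp_log hnr
  refine (fail_joint bc hp0.le hp1 s₀ (2 * δ * m1) η th ξ hth hξ htilt hη0 hn1).trans ?_
  have hexp := exp2 hth hδ0 hδc hb1 hlam hp0 he10 he11 hx0 b1' hlin2 hξge hs₀
  have h9 : (n : ℝ) ^ 2 * Real.exp (th * (2 * δ * m1) - ξ * s₀) / (η * n) =
      1 / η * (Real.exp x * Real.exp (th * (2 * δ * m1) - ξ * s₀)) := by
    rw [hexpx]; field_simp
  rw [h9]
  apply mul_le_mul_of_nonneg_left _ (by positivity)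
  rw [← Real.exp_add]
  apply Real.exp_le_exp.mpr
  linarith

theorem step3 {n : ℕ} (bc : Fin n → ℕ) {p b1 e1 lam x s₀ η : ℝ} {m1 : ℕ}
    (hc1 : (cls bc 1).card = m1) (hη0 : 0 < η) (hn1 : 0 < n)
    (hpb1 : p * b1 = (1 + e1) / lam) (hlam : 0 < lam) (hp0 : 0 < p) (hp1 : p ≤ 1)
    (he10 : 0 ≤ e1) (he11 : e1 ≤ 1 / 6) (hx0 : 0 < x)
    (a1 : b1 * x ≤ m1) (hs₀ : s₀ = (1 + e1 / 2) * x / lam) :
    Pr (allE n) p (fun S => ¬ (((univ.filter (fun x => bc x = 3 ∧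
      ((nb (gr S) bc 1 x).card : ℝ) < s₀)).card : ℝ) ≤ η * (n : ℝ))) ≤
      1 / η * Real.exp (-((e1 / 4) ^ 2 / 2 * p * (m1 : ℝ))) := by
  have hnr : (0 : ℝ) < n := by exact_mod_cast hn1
  refine (fail_nb bc hp0.le hp1 1 m1 (by norm_num) hc1 (e1 / 4) s₀ η (by positivity)
    (by linarith) ?_ hη0 hn1).trans ?_
  · have h1 : p * (b1 * x) ≤ p * (m1 : ℝ) := mul_le_mul_of_nonneg_left a1 hp0.le
    have h2 : p * (b1 * x) = (1 + e1) * x / lam := by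
      rw [← mul_assoc, hpb1]; ring
    have h3 : s₀ ≤ (1 - e1 / 4) * ((1 + e1) * x / lam) := by
      have h4 : (1 - e1 / 4) * ((1 + e1) * x / lam) = ((1 - e1 / 4) * (1 + e1)) * (x / lam) := by
        ring
      have h5 : s₀ = (1 + e1 / 2) * (x / lam) := by rw [hs₀]; ring
      rw [h4, h5]
      exact mul_le_mul_of_nonneg_right (num3 he10 he11) (by positivity)
    rw [h2] at h1
    exact h3.trans (mul_le_mul_of_nonneg_left h1 (by linarith))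
  · apply le_of_eq
    have : -((e1 / 4) ^ 2 / 2 * (p * (m1 : ℝ))) = -((e1 / 4) ^ 2 / 2 * p * (m1 : ℝ)) := by ring
    rw [this]
    field_simp

theorem step4 {n : ℕ} (bc : Fin n → ℕ) {p C2 δ x η : ℝ} {m2 : ℕ}
    (hc2 : (cls bc 2).card = m2) (hη0 : 0 < η) (hn1 : 0 < n) (hp0 : 0 < p) (hp1 : p ≤ 1)
    (hx : x = Real.log (n : ℝ)) (hδ0 : 0 ≤ δ) (hδa : δ ≤ p ^ 2 / 8)
    (hC2 : C2 = 16 / p ^ 2) (a2 : C2 * x ≤ m2) :
    Pr (allE n) p (fun S => ¬ (((prs (fun x y => bc x = 3 ∧ bc y = 3 ∧ x ≠ y ∧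
      ((cn (gr S) bc 2 x y).card : ℝ) < 2 * δ * m2)).card : ℝ) ≤ η * (n : ℝ))) ≤
      (1 / η * Real.exp 1) * Real.exp (-(3 * x)) := by
  have hnr : (0 : ℝ) < n := by exact_mod_cast hn1
  have hexpx : Real.exp x = n := by rw [hx]; exact Real.exp_log hnr
  set b : ℕ := ⌈2 * δ * (m2 : ℝ)⌉₊ with hb
  have hb1 : 2 * δ * (m2 : ℝ) ≤ b := Nat.le_ceil _
  have hb2 : (b : ℝ) ≤ 2 * δ * (m2 : ℝ) + 1 := (Nat.ceil_lt_add_one (by positivity)).le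
  refine (fail_cn bc hp0.le hp1 m2 b hc2 (2 * δ * m2) η hb1 hη0 hn1).trans ?_
  have h2b : (2 : ℝ) ^ b ≤ Real.exp b := by
    have h6 : (2 : ℝ) ≤ Real.exp 1 := by
      have := Real.exp_one_gt_d9
      linarith
    calc (2 : ℝ) ^ b ≤ (Real.exp 1) ^ b := pow_le_pow_left₀ (by norm_num) h6 b
      _ = Real.exp b := by rw [← Real.exp_nat_mul]; congr 1; ring
  have h3 : (2 : ℝ) ^ b * Real.exp (-(p ^ 2 * (m2 : ℝ) / 2)) ≤
      Real.exp 1 * Real.exp (-(4 * x)) := by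
    calc (2 : ℝ) ^ b * Real.exp (-(p ^ 2 * (m2 : ℝ) / 2))
        ≤ Real.exp b * Real.exp (-(p ^ 2 * (m2 : ℝ) / 2)) :=
          mul_le_mul_of_nonneg_right h2b (Real.exp_pos _).le
      _ ≤ Real.exp 1 * Real.exp (-(4 * x)) := by
          rw [← Real.exp_add, ← Real.exp_add]
          apply Real.exp_le_exp.mpr
          have h4 : 2 * δ * (m2 : ℝ) ≤ p ^ 2 / 4 * (m2 : ℝ) := by
            apply mul_le_mul_of_nonneg_right _ (Nat.cast_nonneg _)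
            linarith
          have h5 : p ^ 2 / 4 * (C2 * x) ≤ p ^ 2 / 4 * (m2 : ℝ) :=
            mul_le_mul_of_nonneg_left a2 (by positivity)
          have h6 : p ^ 2 / 4 * (C2 * x) = 4 * x := by
            rw [hC2]; field_simp; norm_num
          rw [h6] at h5
          linarith
  calc (n : ℝ) ^ 2 * (2 ^ b * Real.exp (-(p ^ 2 * (m2 : ℝ) / 2))) / (η * n)
      = 1 / η * (Real.exp x * (2 ^ b * Real.exp (-(p ^ 2 * (m2 : ℝ) / 2)))) := by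
        rw [hexpx]; field_simp
    _ ≤ 1 / η * (Real.exp x * (Real.exp 1 * Real.exp (-(4 * x)))) := by
        apply mul_le_mul_of_nonneg_left _ (by positivity)
        exact mul_le_mul_of_nonneg_left h3 (Real.exp_pos _).le
    _ = (1 / η * Real.exp 1) * Real.exp (-(3 * x)) := by
        have : Real.exp (-(3 * x)) = Real.exp x * Real.exp (-(4 * x)) := by
          rw [← Real.exp_add]; congr 1; ring
        rw [this]
        ring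

theorem step5 {n : ℕ} (bc : Fin n → ℕ) {p δ η : ℝ} {m0 : ℕ}
    (hc0 : (cls bc 0).card = m0) (hη0 : 0 < η) (hn1 : 0 < n) (hp0 : 0 < p) (hp1 : p ≤ 1)
    (hδa : δ ≤ p ^ 2 / 8) :
    Pr (allE n) p (fun S => ¬ (((univ.filter (fun x => bc x = 3 ∧
      ((nb (gr S) bc 0 x).card : ℝ) < δ * m0)).card : ℝ) ≤ η * (n : ℝ))) ≤
      1 / η * Real.exp (-((1 / 2) ^ 2 / 2 * p * (m0 : ℝ))) := by
  have hnr : (0 : ℝ) < n := by exact_mod_cast hn1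
  refine (fail_nb bc hp0.le hp1 0 m0 (by norm_num) hc0 (1 / 2) (δ * m0) η
    (by positivity) (by norm_num) ?_ hη0 hn1).trans ?_
  · have h1 : δ ≤ (1 - 1 / 2) * p := by nlinarith
    have h2 := mul_le_mul_of_nonneg_right h1 (Nat.cast_nonneg (α := ℝ) m0)
    linarith
  · apply le_of_eq
    have : -((1 / 2 : ℝ) ^ 2 / 2 * (p * (m0 : ℝ))) = -((1 / 2) ^ 2 / 2 * p * (m0 : ℝ)) := by
      ring
    rw [this]
    field_simp

theorem step1 {n : ℕ} (bc : Fin n → ℕ) {p e1 : ℝ} {m1 m3 : ℕ} (hp0 : 0 < p) (hp1 : p ≤ 1)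
    (he10 : 0 ≤ e1) (he11 : e1 ≤ 1 / 6) (hm1 : (cls bc 1).card = m1)
    (hm3 : (cls bc 3).card = m3) (h3 : 1 ≤ m3) :
    Pr (allE n) p (fun S => ¬ (((prs (fun x y => bc x = 1 ∧ bc y = 3 ∧ (gr S).Adj x y)).card : ℝ) ≤
      (1 + e1) * (p * ((m1 : ℝ) * m3)))) ≤ Real.exp (-(e1 ^ 2 / 4 * p * (m1 : ℝ))) := by
  have hm31r : (1 : ℝ) ≤ m3 := by exact_mod_cast h3
  refine (fail1 bc hp0.le hp1 e1 he10 (by linarith) m1 m3 hm1 hm3).trans ?_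
  apply Real.exp_le_exp.mpr
  rw [neg_le_neg_iff]
  have h1 : (m1 : ℝ) * 1 ≤ (m1 : ℝ) * m3 :=
    mul_le_mul_of_nonneg_left hm31r (Nat.cast_nonneg _)
  have h2 := mul_le_mul_of_nonneg_left h1 (show 0 ≤ e1 ^ 2 / 4 * p by positivity)
  linarith

theorem sizes {η b1 C2 B x n m0 m1 m2 : ℝ} (hB : B = η + b1 + C2 + 3)
    (hη0 : 0 ≤ η) (hb10 : 0 ≤ b1) (hC20 : 0 ≤ C2) (hx1 : 1 ≤ x)
    (b0 : m0 ≤ η * x + 1) (b1' : m1 ≤ b1 * x + 1) (b2 : m2 ≤ C2 * x + 1)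
    (hq' : 2 * B * x ^ 2 ≤ n) : m0 + m1 + m2 + 1 ≤ n := by
  have hsumB : m0 + m1 + m2 ≤ B * x := by
    have : B * x = (η * x + 1) + (b1 * x + 1) + (C2 * x + 1) + 3 * (x - 1) := by rw [hB]; ring
    linarith
  have hB3 : 3 ≤ B := by rw [hB]; linarith
  have hx2 : x ≤ x ^ 2 := by nlinarith
  have h2 : B * x ≤ B * x ^ 2 := mul_le_mul_of_nonneg_left hx2 (by linarith)
  have h3 : 1 ≤ B * x ^ 2 := by nlinarith
  linarith

theorem ratio {η C2 μ θ2 x m0 m2 : ℝ} (hη0 : 0 < η) (hC20 : 0 < C2) (hμ0 : 0 < μ)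
    (hθ2 : θ2 = μ / (2 * (η + C2))) (hx5 : 2 / (η + C2) ≤ x)
    (b0 : m0 ≤ η * x + 1) (b2 : m2 ≤ C2 * x + 1) : θ2 * (m0 + m2) ≤ μ * x := by
  have hθ20 : 0 < θ2 := by rw [hθ2]; positivity
  have e2 : m0 + m2 ≤ (η + C2) * x + 2 := by linarith
  have e3 := mul_le_mul_of_nonneg_left e2 hθ20.le
  refine e3.trans ?_
  have e4 : θ2 * ((η + C2) * x + 2) = μ / 2 * x + μ / 2 * (2 / (η + C2)) := by
    rw [hθ2]; field_simp
  rw [e4]
  have e5 := mul_le_mul_of_nonneg_left hx5 (show 0 ≤ μ / 2 by positivity)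
  linarith

end Pool.Agent.H42.Sat
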