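import Pool.Agent.H42.Sat.Hub

set_option autoImplicit false
set_option linter.unusedSectionVars false

/-! Deterministic upper bound for the number of edges of a saturated graph. -/

namespace Pool.Agent.H42.Sat

open Finset Classical

section
variable {V : Type} [Fintype V]

/-- common neighbours of `x` and `y` in class `j` -/
noncomputable def cn (G : SimpleGraph V) (cl : V → ℕ) (j : ℕ) (x y : V) : Finset V :=
  univ.filter (fun z => cl z = j ∧ G.Adj x z ∧ G.Adj y z)

/-- class `j` -/
noncomputable def cls (cl : V → ℕ) (j : ℕ) : Finset V := univ.filter (fun z => cl z = j)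

/-- neighbours of `x` in class `j` -/
noncomputable def nb (G : SimpleGraph V) (cl : V → ℕ) (j : ℕ) (x : V) : Finset V :=
  univ.filter (fun z => cl z = j ∧ G.Adj x z)

/-- the pairs with a property -/
noncomputable def prs (P : V → V → Prop) : Finset (V × V) := univ.filter (fun x => P x.1 x.2)

theorem mem_prs (P : V → V → Prop) (x : V × V) : x ∈ prs P ↔ P x.1 x.2 := by simp [prs]

theorem prs_sym (P : V → V → Prop) :
    (prs (fun x y => P x y ∨ P y x)).card ≤ 2 * (prs P).card := by
  have h : prs (fun x y => P x y ∨ P y x) ⊆ prs P ∪ (prs P).image Prod.swap := by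
    intro x hx
    rw [mem_prs] at hx
    rw [mem_union, mem_image]
    rcases hx with h | h
    · left; rw [mem_prs]; exact h
    · right; exact ⟨(x.2, x.1), by rw [mem_prs]; exact h, rfl⟩
  calc _ ≤ (prs P ∪ (prs P).image Prod.swap).card := card_le_card h
    _ ≤ (prs P).card + ((prs P).image Prod.swap).card := card_union_le _ _
    _ ≤ (prs P).card + (prs P).card := Nat.add_le_add_left card_image_le _
    _ = _ := by ring

theorem prs_or (P Q : V → V → Prop) :
    (prs (fun x y => P x y ∨ Q x y)).card ≤ (prs P).card + (prs Q).card := by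
  have : prs (fun x y => P x y ∨ Q x y) = prs P ∪ prs Q := by
    ext x; simp [prs]
  rw [this]
  exact card_union_le _ _

theorem prs_mono {P Q : V → V → Prop} (h : ∀ x y, P x y → Q x y) :
    (prs P).card ≤ (prs Q).card := by
  apply card_le_card
  intro x hx
  rw [mem_prs] at *
  exact h _ _ hx

theorem prs_prod (A B : Finset V) : (prs (fun x y => x ∈ A ∧ y ∈ B)).card = A.card * B.card := by
  have : prs (fun x y => x ∈ A ∧ y ∈ B) = A ×ˢ B := by
    ext x; simp [prs]
  rw [this, card_product]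

theorem prs_sum (P : V → V → Prop) : (prs P).card = ∑ y, (univ.filter (fun x => P x y)).card := by
  unfold prs
  rw [card_filter, ← univ_product_univ, sum_product_right]
  exact sum_congr rfl (fun y _ => (card_filter _ _).symm)

theorem exists_sat (G H₀ : SimpleGraph V) (hle : H₀ ≤ G) {k : ℕ} (F : SimpleGraph (Fin k))
    (h0 : ¬ Emb F H₀) : ∃ H, H₀ ≤ H ∧ H ≤ G ∧ ¬ Emb F H ∧
      ∀ u v, G.Adj u v → ¬ H.Adj u v → Emb F (H ⊔ SimpleGraph.fromEdgeSet {s(u, v)}) := by
  obtain ⟨H, hH1, hH2⟩ := Finite.exists_le_maximal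
    (p := fun H : SimpleGraph V => H ≤ G ∧ ¬ Emb F H) (a := H₀) ⟨hle, h0⟩
  refine ⟨H, hH1, hH2.prop.1, hH2.prop.2, ?_⟩
  intro u v huv hn
  by_contra hE
  have h1 : H ⊔ SimpleGraph.fromEdgeSet {s(u, v)} ≤ G := by
    apply sup_le hH2.prop.1
    intro x y hxy
    rw [SimpleGraph.fromEdgeSet_adj, Set.mem_singleton_iff, Sym2.eq_iff] at hxy
    rcases hxy.1 with ⟨rfl, rfl⟩ | ⟨rfl, rfl⟩
    · exact huv
    · exact huv.symm
  have h2 := hH2.le_of_ge (y := H ⊔ SimpleGraph.fromEdgeSet {s(u, v)}) ⟨h1, hE⟩ le_sup_left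
  apply hn
  apply h2
  rw [SimpleGraph.sup_adj, SimpleGraph.fromEdgeSet_adj]
  exact Or.inr ⟨rfl, huv.ne⟩

theorem upper_det (G : SimpleGraph V) {k l : ℕ} (hk : 0 < k) (F : SimpleGraph (Fin k))
    (Y I0 V0 : Set (Fin k)) (hY : Y = I0 ∪ V0) (hYa : (F.induce Y).IsAcyclic)
    (hI0 : ∀ i ∈ I0, ∀ j ∈ I0, ¬ F.Adj i j) (hV0 : ∀ i ∈ V0, ∀ j ∈ V0, ¬ F.Adj i j)
    (F' : SimpleGraph (Fin l)) (hF' : Cond' F Y F') (hF'F : Emb F' F)
    (cl : V → ℕ) (hcl : ∀ x, cl x ≤ 4) (E1 E2 : Finset (Fin k → V)) (δ θ C : ℝ)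
    (hδ0 : 0 < δ) (hδ1 : 2 * δ ≤ 1) (hθ0 : 0 < θ) (hC : 0 < C)
    (hA1 : 0 < (cls cl 1).card) (hA2 : 0 < (cls cl 0 ∪ cls cl 2).card)
    (hE1c : (E1.card : ℝ) ≤ C * ((cls cl 1).card : ℝ))
    (hE2c : (E2.card : ℝ) ≤ C * ((cls cl 0 ∪ cls cl 2).card : ℝ))
    (hE1 : ∀ f ∈ E1, IsCopy G (off F Y) (fun _ => cls cl 1) f) (hfree1 : Free l (off F Y) E1)
    (hE2 : ∀ f ∈ E2, IsCopy G (off F I0) (fun i => if i ∈ V0 then cls cl 0 else cls cl 2) f)
    (hfree2 : Free l (off F I0) E2)
    (hd1 : ∀ Z ⊆ cls cl 1, (∀ _i : Fin k, δ * ((cls cl 1).card : ℝ) ≤ ((Z ∩ cls cl 1).card : ℝ)) →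
      ∃ f ∈ E1, ∀ i, f i ∈ Z)
    (hd2 : ∀ Z ⊆ cls cl 0 ∪ cls cl 2, (∀ i : Fin k,
      δ * (((if i ∈ V0 then cls cl 0 else cls cl 2) : Finset V).card : ℝ) ≤
        ((Z ∩ (if i ∈ V0 then cls cl 0 else cls cl 2)).card : ℝ)) → ∃ f ∈ E2, ∀ i, f i ∈ Z)
    (hθ2 : ∀ i : Fin k, θ * ((cls cl 0 ∪ cls cl 2).card : ℝ) ≤
      (((if i ∈ V0 then cls cl 0 else cls cl 2) : Finset V).card : ℝ)) :
    ∃ H : SimpleGraph V, (H ≤ G ∧ ¬ Emb F H ∧
      ∀ u v, G.Adj u v → ¬ H.Adj u v → Emb F (H ⊔ SimpleGraph.fromEdgeSet {s(u, v)})) ∧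
      ((prs (fun x y => H.Adj x y)).card : ℝ) ≤
        2 * (((cls cl 0).card : ℝ) * (Fintype.card V : ℝ)) +
        2 * ((prs (fun x y => cl x = 1 ∧ 3 ≤ cl y ∧ G.Adj x y)).card : ℝ) +
        ((univ.filter (fun x => cl x ≤ 2)).card : ℝ) ^ 2 +
        2 * (((cls cl 2).card : ℝ) * ((cls cl 4).card : ℝ)) +
        2 * (δ * ((cls cl 2).card : ℝ) * (Fintype.card V : ℝ) +
          ((cls cl 2).card : ℝ) * ((univ.filter (fun x => 3 ≤ cl x ∧
            ((nb G cl 0 x).card : ℝ) < δ * ((cls cl 0).card : ℝ))).card : ℝ) +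
          ((cls cl 2).card : ℝ) * (k * (C * ((cls cl 0 ∪ cls cl 2).card : ℝ)))) +
        2 * k ^ 2 * C / δ * (Fintype.card V : ℝ) +
        2 * ((prs (fun x y => cl x = 3 ∧ 3 ≤ cl y ∧ x ≠ y ∧
          ((cn G cl 1 x y).card : ℝ) < 2 * δ * ((cls cl 1).card : ℝ))).card : ℝ) +
        2 * k ^ 2 * C / (δ * θ) * (Fintype.card V : ℝ) +
        ((prs (fun x y => 3 ≤ cl x ∧ 3 ≤ cl y ∧ x ≠ y ∧
          ((cn G cl 2 x y).card : ℝ) < 2 * δ * ((cls cl 2).card : ℝ))).card : ℝ) := by
  have hkr : (0 : ℝ) < k := by exact_mod_cast hk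
  have hmc : ∀ j x, x ∈ cls cl j ↔ cl x = j := by intro j x; simp [cls]
  have hE1' : ∀ f ∈ E1, ∀ i, cl (f i) = 1 := by
    intro f hf i
    have := (hE1 f hf).2.1 i
    rwa [hmc] at this
  have hE2' : ∀ f ∈ E2, ∀ i, (i ∈ V0 → cl (f i) = 0) ∧ (i ∉ V0 → cl (f i) = 2) := by
    intro f hf i
    have := (hE2 f hf).2.1 i
    beta_reduce at this
    constructor
    · intro h; rw [if_pos h, hmc] at this; exact this
    · intro h; rw [if_neg h, hmc] at this; exact this
  let R1 := RG (off F Y) E1
  let R2 := RG (off F I0) E2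
  let HH := H0 G R1 R2 cl
  have hfr : ¬ Emb F' HH := H0_free G F Y I0 V0 hY.subset F' hF' cl hcl E1 E2 hE1' hfree1 hE2'
    hfree2 hV0
  have hFfr : ¬ Emb F HH := by
    rintro ⟨f, hf1, hf2⟩
    obtain ⟨g, hg1, hg2⟩ := hF'F
    exact hfr ⟨f ∘ g, hf1.comp hg1, fun i j h => hf2 _ _ (hg2 _ _ h)⟩
  have hle : HH ≤ G := by
    intro x y hxy
    rcases hxy with h | h | h
    · obtain ⟨_, f, hf, i, j, hij, rfl, rfl⟩ := h
      exact (hE1 f hf).2.2 i j hij
    · obtain ⟨_, f, hf, i, j, hij, rfl, rfl⟩ := h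
      exact (hE2 f hf).2.2 i j hij
    · exact h.1
  obtain ⟨H, hH1, hH2, hH3, hH4⟩ := exists_sat G HH hle F hFfr
  refine ⟨H, ⟨hH2, hH3, hH4⟩, ?_⟩
  set n : ℝ := (Fintype.card V : ℝ) with hn
  -- the pieces
  have hcross : ∀ x y, G.Adj x y → cr cl x y → H.Adj x y := fun x y h1 h2 =>
    hH1 (Or.inr (Or.inr ⟨h1, Or.inl h2⟩))
  have hcross' : ∀ x y, G.Adj x y → cr cl y x → H.Adj x y := fun x y h1 h2 =>
    hH1 (Or.inr (Or.inr ⟨h1, Or.inr h2⟩))
  -- T5
  have T5 : ((prs (fun x y => 3 ≤ cl x ∧ 3 ≤ cl y ∧ H.Adj x y ∧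
      2 * δ * ((cls cl 1).card : ℝ) ≤ ((cn G cl 1 x y).card : ℝ))).card : ℝ) ≤
      2 * k ^ 2 * C / δ * n := by
    set P := prs (fun x y => 3 ≤ cl x ∧ 3 ≤ cl y ∧ H.Adj x y ∧
      2 * δ * ((cls cl 1).card : ℝ) ≤ ((cn G cl 1 x y).card : ℝ)) with hP
    have h1 := close_pairs H F hH3 Y hYa E1 (by
      intro f hf
      refine ⟨(hE1 f hf).1, ?_⟩
      intro i hi j hj hij
      apply hH1
      exact Or.inl ⟨fun h => hij.ne ((hE1 f hf).1 h), f, hf, i, j, ⟨hij, hi, hj⟩, rfl, rfl⟩)
      (univ.filter (fun x => 3 ≤ cl x)) (by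
        intro f hf i _ h
        have := hE1' f hf i
        have := (mem_filter.mp h).2
        omega) P (by
        intro x hx
        rw [hP, mem_prs] at hx
        exact ⟨mem_filter.mpr ⟨mem_univ _, hx.1⟩, mem_filter.mpr ⟨mem_univ _, hx.2.1⟩, hx.2.2.1⟩)
      (δ * ((cls cl 1).card : ℝ) / k) (by
        intro x hx
        rw [hP, mem_prs] at hx
        obtain ⟨hx1, hx2, hx3, hx4⟩ := hx
        have h2 := design_many hk (cls cl 1) (fun _ : Fin k => cls cl 1) δ 1 E1
          (by intro i; rw [one_mul]) hδ0.le hd1 (cn G cl 1 x.1 x.2) (by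
            intro z hz
            rw [hmc]
            exact (mem_filter.mp hz).2.1) (by
            intro i
            have : cn G cl 1 x.1 x.2 ∩ cls cl 1 = cn G cl 1 x.1 x.2 := by
              rw [inter_eq_left]
              intro z hz
              rw [hmc]
              exact (mem_filter.mp hz).2.1
            rw [this]
            exact hx4)
        rw [mul_one] at h2
        rw [div_le_iff₀ hkr]
        refine h2.trans ?_
        rw [mul_comm]
        apply mul_le_mul_of_nonneg_right _ hkr.le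
        have : (E1.filter (fun f => ∀ i, f i ∈ cn G cl 1 x.1 x.2)).card ≤
            (E1.filter (fun f => ∀ i, i ∉ Y → H.Adj x.1 (f i) ∧ H.Adj x.2 (f i))).card := by
          apply card_le_card
          intro f hf
          rw [mem_filter] at hf ⊢
          refine ⟨hf.1, ?_⟩
          intro i _
          obtain ⟨_, h3, h4, h5⟩ := mem_filter.mp (hf.2 i)
          constructor
          · apply hcross' _ _ h4
            left
            refine ⟨h3, ?_⟩
            have := hcl x.1
            omega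
          · apply hcross' _ _ h5
            left
            refine ⟨h3, ?_⟩
            have := hcl x.2
            omega
        exact_mod_cast this)
    have hW : ((univ.filter (fun x => 3 ≤ cl x)).card : ℝ) ≤ n := by
      rw [hn]
      exact_mod_cast card_le_univ _
    have hA1r : (0 : ℝ) < ((cls cl 1).card : ℝ) := by exact_mod_cast hA1
    have h3 : δ * ((cls cl 1).card : ℝ) / k * (P.card : ℝ) ≤
        C * ((cls cl 1).card : ℝ) * (2 * k * n) := by
      refine h1.trans ?_
      apply mul_le_mul hE1c _ (by positivity) (by positivity)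
      exact mul_le_mul_of_nonneg_left hW (by positivity)
    have h4 : δ * ((cls cl 1).card : ℝ) / k * (2 * k ^ 2 * C / δ * n) =
        C * ((cls cl 1).card : ℝ) * (2 * k * n) := by
      field_simp
    rw [← h4] at h3
    exact le_of_mul_le_mul_left h3 (by positivity)
  -- T7
  have hA2r : (0 : ℝ) < ((cls cl 0 ∪ cls cl 2).card : ℝ) := by exact_mod_cast hA2
  have T7 : ((prs (fun x y => cl x = 4 ∧ cl y = 4 ∧ H.Adj x y ∧
      2 * δ * ((cls cl 2).card : ℝ) ≤ ((cn G cl 2 x y).card : ℝ))).card : ℝ) ≤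
      2 * k ^ 2 * C / (δ * θ) * n := by
    set P := prs (fun x y => cl x = 4 ∧ cl y = 4 ∧ H.Adj x y ∧
      2 * δ * ((cls cl 2).card : ℝ) ≤ ((cn G cl 2 x y).card : ℝ)) with hP
    have h1 := close_pairs H F hH3 Y hYa E2 (by
      intro f hf
      refine ⟨(hE2 f hf).1, ?_⟩
      intro i hi j hj hij
      apply hH1
      refine Or.inr (Or.inl ⟨fun h => hij.ne ((hE2 f hf).1 h), f, hf, i, j,
        ⟨hij, fun h => hi ?_, fun h => hj ?_⟩, rfl, rfl⟩)
      · rw [hY]; exact Or.inl h
      · rw [hY]; exact Or.inl h)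
      (univ.filter (fun x => 3 ≤ cl x)) (by
        intro f hf i _ h
        have := hE2' f hf i
        have h2 := (mem_filter.mp h).2
        by_cases hi : i ∈ V0
        · have := this.1 hi; omega
        · have := this.2 hi; omega) P (by
        intro x hx
        rw [hP, mem_prs] at hx
        exact ⟨mem_filter.mpr ⟨mem_univ _, by omega⟩, mem_filter.mpr ⟨mem_univ _, by omega⟩,
          hx.2.2.1⟩)
      (δ * θ * ((cls cl 0 ∪ cls cl 2).card : ℝ) / k) (by
        intro x hx
        rw [hP, mem_prs] at hx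
        obtain ⟨hx1, hx2, hx3, hx4⟩ := hx
        have h2 := design_many hk (cls cl 0 ∪ cls cl 2)
          (fun i : Fin k => if i ∈ V0 then cls cl 0 else cls cl 2) δ θ E2
          hθ2 hδ0.le hd2 (cls cl 0 ∪ cn G cl 2 x.1 x.2) (by
            intro z hz
            rw [mem_union] at hz ⊢
            rcases hz with hz | hz
            · exact Or.inl hz
            · right
              rw [hmc]
              exact (mem_filter.mp hz).2.1) (by
            intro i
            by_cases hi : i ∈ V0
            · simp only [hi, if_true]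
              have : (cls cl 0 ∪ cn G cl 2 x.1 x.2) ∩ cls cl 0 = cls cl 0 := by
                rw [inter_eq_right]
                exact subset_union_left
              rw [this]
              have h5 : (0 : ℝ) ≤ ((cls cl 0).card : ℝ) := Nat.cast_nonneg _
              nlinarith
            · simp only [hi, if_false]
              refine hx4.trans ?_
              have : (cn G cl 2 x.1 x.2).card ≤
                  ((cls cl 0 ∪ cn G cl 2 x.1 x.2) ∩ cls cl 2).card := by
                apply card_le_card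
                intro z hz
                rw [mem_inter, mem_union, hmc, hmc]
                exact ⟨Or.inr hz, (mem_filter.mp hz).2.1⟩
              exact_mod_cast this)
        rw [div_le_iff₀ hkr]
        refine h2.trans ?_
        rw [mul_comm]
        apply mul_le_mul_of_nonneg_right _ hkr.le
        have : (E2.filter (fun f => ∀ i, f i ∈ cls cl 0 ∪ cn G cl 2 x.1 x.2)).card ≤
            (E2.filter (fun f => ∀ i, i ∉ Y → H.Adj x.1 (f i) ∧ H.Adj x.2 (f i))).card := by
          apply card_le_card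
          intro f hf
          rw [mem_filter] at hf ⊢
          refine ⟨hf.1, ?_⟩
          intro i hiY
          have hiV : i ∉ V0 := fun h => hiY (by rw [hY]; exact Or.inr h)
          have h6 := (hE2' f hf.1 i).2 hiV
          have h7 := hf.2 i
          rw [mem_union, hmc] at h7
          have h8 : f i ∈ cn G cl 2 x.1 x.2 := by
            rcases h7 with h7 | h7
            · omega
            · exact h7
          obtain ⟨_, h3, h4, h5⟩ := mem_filter.mp h8
          constructor
          · apply hcross' _ _ h4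
            right; right
            exact ⟨h3, hx1⟩
          · apply hcross' _ _ h5
            right; right
            exact ⟨h3, hx2⟩
        exact_mod_cast this)
    have hW : ((univ.filter (fun x => 3 ≤ cl x)).card : ℝ) ≤ n := by
      rw [hn]
      exact_mod_cast card_le_univ _
    have h3 : δ * θ * ((cls cl 0 ∪ cls cl 2).card : ℝ) / k * (P.card : ℝ) ≤
        C * ((cls cl 0 ∪ cls cl 2).card : ℝ) * (2 * k * n) := by
      refine h1.trans ?_
      apply mul_le_mul hE2c _ (by positivity) (by positivity)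
      exact mul_le_mul_of_nonneg_left hW (by positivity)
    have h4 : δ * θ * ((cls cl 0 ∪ cls cl 2).card : ℝ) / k * (2 * k ^ 2 * C / (δ * θ) * n) =
        C * ((cls cl 0 ∪ cls cl 2).card : ℝ) * (2 * k * n) := by
      field_simp
    rw [← h4] at h3
    exact le_of_mul_le_mul_left h3 (by positivity)
  -- T4
  have T4 : ((prs (fun x y => cl x = 2 ∧ cl y = 3 ∧ H.Adj x y)).card : ℝ) ≤
      δ * ((cls cl 2).card : ℝ) * n +
          ((cls cl 2).card : ℝ) * ((univ.filter (fun x => 3 ≤ cl x ∧
            ((nb G cl 0 x).card : ℝ) < δ * ((cls cl 0).card : ℝ))).card : ℝ) +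
          ((cls cl 2).card : ℝ) * (k * (C * ((cls cl 0 ∪ cls cl 2).card : ℝ))) := by
    let S1 := univ.filter (fun x : V => 3 ≤ cl x ∧
      ((nb G cl 0 x).card : ℝ) < δ * ((cls cl 0).card : ℝ))
    let W := univ.filter (fun x : V => 3 ≤ cl x)
    let S2 := W.filter (fun v => ∃ f ∈ E2, ∀ i, i ∉ I0 → H.Adj v (f i))
    have hS2 : (S2.card : ℝ) ≤ k * (C * ((cls cl 0 ∪ cls cl 2).card : ℝ)) := by
      have h1 : S2.card ≤ k * E2.card := close_stars H F hH3 I0 hI0 E2 (by
        intro f hf
        refine ⟨(hE2 f hf).1, ?_⟩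
        intro i hi j hj hij
        apply hH1
        exact Or.inr (Or.inl ⟨fun h => hij.ne ((hE2 f hf).1 h), f, hf, i, j,
          ⟨hij, hi, hj⟩, rfl, rfl⟩)) W (by
        intro f hf i _ h
        have := hE2' f hf i
        have h2 := (mem_filter.mp h).2
        by_cases hi : i ∈ V0
        · have := this.1 hi; omega
        · have := this.2 hi; omega)
      calc (S2.card : ℝ) ≤ k * (E2.card : ℝ) := by exact_mod_cast h1
        _ ≤ _ := mul_le_mul_of_nonneg_left hE2c hkr.le
    have epr : ((prs (fun x y => cl x = 2 ∧ cl y = 3 ∧ H.Adj x y)).card : ℝ) =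
        ∑ y : V, ((univ.filter (fun x => cl x = 2 ∧ cl y = 3 ∧ H.Adj x y)).card : ℝ) := by
      rw [prs_sum]
      push_cast
      apply sum_congr rfl
      intro y _
      congr!
    rw [epr]
    have hpt : ∀ y : V, ((univ.filter (fun x => cl x = 2 ∧ cl y = 3 ∧ H.Adj x y)).card : ℝ) ≤
        δ * ((cls cl 2).card : ℝ) + (if y ∈ S1 then ((cls cl 2).card : ℝ) else 0) +
          (if y ∈ S2 then ((cls cl 2).card : ℝ) else 0) := by
      intro y
      have hall : ((univ.filter (fun x => cl x = 2 ∧ cl y = 3 ∧ H.Adj x y)).card : ℝ) ≤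
          ((cls cl 2).card : ℝ) := by
        have : (univ.filter (fun x => cl x = 2 ∧ cl y = 3 ∧ H.Adj x y)).card ≤
            (cls cl 2).card := by
          apply card_le_card
          intro x hx
          rw [hmc]
          exact (mem_filter.mp hx).2.1
        exact_mod_cast this
      have h0 : (0 : ℝ) ≤ ((cls cl 2).card : ℝ) := Nat.cast_nonneg _
      by_cases h1 : y ∈ S1
      · rw [if_pos h1]
        split_ifs <;> nlinarith
      · by_cases h2 : y ∈ S2
        · rw [if_pos h2, if_neg h1]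
          nlinarith
        · rw [if_neg h1, if_neg h2, add_zero, add_zero]
          by_contra hlt
          push Not at hlt
          by_cases hy3 : cl y = 3
          · have hb : δ * ((cls cl 0).card : ℝ) ≤ ((nb G cl 0 y).card : ℝ) := by
              by_contra hc
              push Not at hc
              exact h1 (mem_filter.mpr ⟨mem_univ _, by omega, hc⟩)
            let D := univ.filter (fun x => cl x = 2 ∧ cl y = 3 ∧ H.Adj x y)
            obtain ⟨f, hf1, hf2⟩ := hd2 (nb G cl 0 y ∪ D) (by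
              intro z hz
              rw [mem_union] at hz ⊢
              rcases hz with hz | hz
              · left; rw [hmc]; exact (mem_filter.mp hz).2.1
              · right; rw [hmc]; exact (mem_filter.mp hz).2.1) (by
              intro i
              by_cases hi : i ∈ V0
              · simp only [hi, if_true]
                refine hb.trans ?_
                have : (nb G cl 0 y).card ≤ ((nb G cl 0 y ∪ D) ∩ cls cl 0).card := by
                  apply card_le_card
                  intro z hz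
                  rw [mem_inter, mem_union, hmc]
                  exact ⟨Or.inl hz, (mem_filter.mp hz).2.1⟩
                exact_mod_cast this
              · simp only [hi, if_false]
                refine hlt.le.trans ?_
                have : D.card ≤ ((nb G cl 0 y ∪ D) ∩ cls cl 2).card := by
                  apply card_le_card
                  intro z hz
                  rw [mem_inter, mem_union, hmc]
                  exact ⟨Or.inr hz, (mem_filter.mp hz).2.1⟩
                exact_mod_cast this)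
            apply h2
            refine mem_filter.mpr ⟨mem_filter.mpr ⟨mem_univ _, by omega⟩, f, hf1, ?_⟩
            intro i _
            have h6 := hf2 i
            rw [mem_union] at h6
            rcases h6 with h6 | h6
            · obtain ⟨_, h7, h8⟩ := mem_filter.mp h6
              apply hcross' _ _ h8
              right; left
              exact ⟨h7, hy3⟩
            · exact (mem_filter.mp h6).2.2.2.symm
          · have : univ.filter (fun x => cl x = 2 ∧ cl y = 3 ∧ H.Adj x y) = ∅ := by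
              rw [filter_eq_empty_iff]
              intro x _ h
              exact hy3 h.2.1
            rw [this, card_empty, Nat.cast_zero] at hlt
            have : 0 ≤ δ * ((cls cl 2).card : ℝ) := by positivity
            linarith
    calc ∑ y : V, ((univ.filter (fun x => cl x = 2 ∧ cl y = 3 ∧ H.Adj x y)).card : ℝ)
        ≤ ∑ y : V, (δ * ((cls cl 2).card : ℝ) + (if y ∈ S1 then ((cls cl 2).card : ℝ) else 0) +
          (if y ∈ S2 then ((cls cl 2).card : ℝ) else 0)) := sum_le_sum (fun y _ => hpt y)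
      _ = δ * ((cls cl 2).card : ℝ) * n + ((cls cl 2).card : ℝ) * (S1.card : ℝ) +
          ((cls cl 2).card : ℝ) * (S2.card : ℝ) := by
          rw [sum_add_distrib, sum_add_distrib, sum_const, card_univ, nsmul_eq_mul,
            ← sum_filter, ← sum_filter, sum_const, sum_const, nsmul_eq_mul, nsmul_eq_mul,
            filter_mem_eq_inter, filter_mem_eq_inter, univ_inter, univ_inter, hn]
          ring
      _ ≤ _ := by
          have := mul_le_mul_of_nonneg_left hS2 (Nat.cast_nonneg (α := ℝ) (cls cl 2).card)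
          have h9 : S1 = univ.filter (fun x => 3 ≤ cl x ∧
            ((nb G cl 0 x).card : ℝ) < δ * ((cls cl 0).card : ℝ)) := rfl
          rw [← h9]
          linarith
  -- assembling
  let Q0 : V → V → Prop := fun x y => x ∈ cls cl 0 ∧ y ∈ (univ : Finset V)
  let Q1 : V → V → Prop := fun x y => cl x = 1 ∧ 3 ≤ cl y ∧ G.Adj x y
  let Q2 : V → V → Prop := fun x y => x ∈ univ.filter (fun x => cl x ≤ 2) ∧
    y ∈ univ.filter (fun x => cl x ≤ 2)
  let Q3 : V → V → Prop := fun x y => x ∈ cls cl 2 ∧ y ∈ cls cl 4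
  let Q4 : V → V → Prop := fun x y => cl x = 2 ∧ cl y = 3 ∧ H.Adj x y
  let Q5 : V → V → Prop := fun x y => 3 ≤ cl x ∧ 3 ≤ cl y ∧ H.Adj x y ∧
      2 * δ * ((cls cl 1).card : ℝ) ≤ ((cn G cl 1 x y).card : ℝ)
  let Q6 : V → V → Prop := fun x y => cl x = 3 ∧ 3 ≤ cl y ∧ x ≠ y ∧
          ((cn G cl 1 x y).card : ℝ) < 2 * δ * ((cls cl 1).card : ℝ)
  let Q7 : V → V → Prop := fun x y => cl x = 4 ∧ cl y = 4 ∧ H.Adj x y ∧
      2 * δ * ((cls cl 2).card : ℝ) ≤ ((cn G cl 2 x y).card : ℝ)
  let Q8 : V → V → Prop := fun x y => 3 ≤ cl x ∧ 3 ≤ cl y ∧ x ≠ y ∧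
          ((cn G cl 2 x y).card : ℝ) < 2 * δ * ((cls cl 2).card : ℝ)
  have hcover : ∀ x y, H.Adj x y → (Q0 x y ∨ Q0 y x) ∨ (Q1 x y ∨ Q1 y x) ∨ Q2 x y ∨
      (Q3 x y ∨ Q3 y x) ∨ (Q4 x y ∨ Q4 y x) ∨ Q5 x y ∨ (Q6 x y ∨ Q6 y x) ∨ Q7 x y ∨ Q8 x y := by
    intro x y hxy
    have hG := hH2 hxy
    have hcx := hcl x
    have hcy := hcl y
    have hcn : cn G cl 1 x y = cn G cl 1 y x := by
      ext z; simp only [cn, mem_filter]; tauto
    simp only [Q0, Q1, Q2, Q3, Q4, Q5, Q6, Q7, Q8, hmc, mem_univ, mem_filter, true_and, and_true]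
    by_cases h0 : cl x = 0 ∨ cl y = 0
    · exact Or.inl h0
    · right
      push Not at h0
      by_cases h22 : cl x ≤ 2 ∧ cl y ≤ 2
      · exact Or.inr (Or.inl h22)
      · by_cases h11 : cl x = 1
        · exact Or.inl (Or.inl ⟨h11, by omega, hG⟩)
        · by_cases h11' : cl y = 1
          · exact Or.inl (Or.inr ⟨h11', by omega, hG.symm⟩)
          · right; right
            by_cases hx2 : cl x = 2
            · by_cases hy4 : cl y = 4
              · exact Or.inl (Or.inl ⟨hx2, hy4⟩)
              · exact Or.inr (Or.inl (Or.inl ⟨hx2, by omega, hxy⟩))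
            · by_cases hy2 : cl y = 2
              · by_cases hx4 : cl x = 4
                · exact Or.inl (Or.inr ⟨hy2, hx4⟩)
                · exact Or.inr (Or.inl (Or.inr ⟨hy2, by omega, hxy.symm⟩))
              · right; right
                have hx3 : 3 ≤ cl x := by omega
                have hy3 : 3 ≤ cl y := by omega
                by_cases hr : 2 * δ * ((cls cl 1).card : ℝ) ≤ ((cn G cl 1 x y).card : ℝ)
                · exact Or.inl ⟨hx3, hy3, hxy, hr⟩
                · right
                  push Not at hr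
                  by_cases hx33 : cl x = 3
                  · exact Or.inl (Or.inl ⟨hx33, hy3, hxy.ne, hr⟩)
                  · by_cases hy33 : cl y = 3
                    · refine Or.inl (Or.inr ⟨hy33, hx3, hxy.ne.symm, ?_⟩)
                      rw [← hcn]; exact hr
                    · right
                      by_cases hr2 : 2 * δ * ((cls cl 2).card : ℝ) ≤ ((cn G cl 2 x y).card : ℝ)
                      · exact Or.inl ⟨by omega, by omega, hxy, hr2⟩
                      · push Not at hr2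
                        exact Or.inr ⟨hx3, hy3, hxy.ne, hr2⟩
  have hcnt := prs_mono hcover
  have e0 := prs_sym Q0
  have e1 := prs_sym Q1
  have e3 := prs_sym Q3
  have e4 := prs_sym Q4
  have e6 := prs_sym Q6
  have p0 : (prs Q0).card = (cls cl 0).card * Fintype.card V := by
    rw [prs_prod, card_univ]
  have p2 : (prs Q2).card = (univ.filter (fun x => cl x ≤ 2)).card *
      (univ.filter (fun x => cl x ≤ 2)).card := prs_prod _ _
  have p3 : (prs Q3).card = (cls cl 2).card * (cls cl 4).card := prs_prod _ _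
  have hfin : (prs (fun x y => H.Adj x y)).card ≤ 2 * ((cls cl 0).card * Fintype.card V) +
      (2 * (prs Q1).card + ((univ.filter (fun x => cl x ≤ 2)).card *
      (univ.filter (fun x => cl x ≤ 2)).card + (2 * ((cls cl 2).card * (cls cl 4).card) +
      (2 * (prs Q4).card + ((prs Q5).card + (2 * (prs Q6).card + ((prs Q7).card +
      (prs Q8).card))))))) := by
    rw [← p0, ← p2, ← p3]
    refine hcnt.trans ?_
    refine (prs_or _ _).trans (Nat.add_le_add e0 ?_)
    refine (prs_or _ _).trans (Nat.add_le_add e1 ?_)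
    refine (prs_or _ _).trans (Nat.add_le_add le_rfl ?_)
    refine (prs_or _ _).trans (Nat.add_le_add e3 ?_)
    refine (prs_or _ _).trans (Nat.add_le_add e4 ?_)
    refine (prs_or _ _).trans (Nat.add_le_add le_rfl ?_)
    refine (prs_or _ _).trans (Nat.add_le_add e6 ?_)
    exact prs_or _ _
  have hfinr : ((prs (fun x y => H.Adj x y)).card : ℝ) ≤
      2 * (((cls cl 0).card : ℝ) * (Fintype.card V : ℝ)) +
      (2 * ((prs Q1).card : ℝ) + (((univ.filter (fun x => cl x ≤ 2)).card : ℝ) *
      ((univ.filter (fun x => cl x ≤ 2)).card : ℝ) +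
      (2 * (((cls cl 2).card : ℝ) * ((cls cl 4).card : ℝ)) +
      (2 * ((prs Q4).card : ℝ) + (((prs Q5).card : ℝ) + (2 * ((prs Q6).card : ℝ) +
      (((prs Q7).card : ℝ) + ((prs Q8).card : ℝ)))))))) := by exact_mod_cast hfin
  rw [← hn] at hfinr
  have T4' : ((prs Q4).card : ℝ) ≤ _ := T4
  have T5' : ((prs Q5).card : ℝ) ≤ _ := T5
  have T7' : ((prs Q7).card : ℝ) ≤ _ := T7
  have q1 : prs Q1 = prs (fun x y => cl x = 1 ∧ 3 ≤ cl y ∧ G.Adj x y) := rfl
  have q6 : prs Q6 = prs (fun x y => cl x = 3 ∧ 3 ≤ cl y ∧ x ≠ y ∧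
          ((cn G cl 1 x y).card : ℝ) < 2 * δ * ((cls cl 1).card : ℝ)) := rfl
  have q8 : prs Q8 = prs (fun x y => 3 ≤ cl x ∧ 3 ≤ cl y ∧ x ≠ y ∧
          ((cn G cl 2 x y).card : ℝ) < 2 * δ * ((cls cl 2).card : ℝ)) := rfl
  rw [q1, q6, q8] at hfinr
  rw [sq]
  linarith

end

end Pool.Agent.H42.Sat
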