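import Pool.Agent.H42.Sat.Par2
import Pool.Agent.H42.Sat.Layout

set_option autoImplicit false
set_option linter.unusedSectionVars false

/-! The general upper bound holds with high probability. -/

namespace Pool.Agent.H42.Sat

open Finset Classical Pool.Agent.W166.Gnp Filter Topology

theorem Pr_evZ {n : ℕ} {st ix : Fin n → ℕ} {z0 N1 N2 ρ k : ℕ}
    (hL : Layout st ix z0 N1 N2 ρ k) {p σ τ η : ℝ} (hp0 : 0 < p) (hp1 : p < 1)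
    (hσ0 : 0 < σ) (hτ0 : 0 < τ) (hτσ : τ ≤ σ / 2) (hη0 : 0 < η) (hn1 : 0 < n) (M : ℕ) (b : ℝ)
    (hσn : 16 / σ ≤ (z0 : ℝ))
    (hz : 2 ^ M * Real.exp (-(p ^ (z0 + N1 * (ρ + k)) *
      ((univ.filter (fun x : Fin n => st x = 3)).card : ℝ) / 2)) ≤ b) :
    Pr (allE n) p (fun S => ¬ EvZ (gr S) st ix N1 M (p / 2) η σ τ) ≤
      b + 1 / η * Real.exp (-(p ^ (ρ + k) * (N1 : ℝ))) +
      4 ^ z0 * Real.exp (-(p * σ * τ / 100 * (z0 : ℝ) ^ 2)) := by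
  have hblk : ∀ i, i < N1 →
      (univ.filter (fun x => (st x = 5 ∨ st x = 6) ∧ ix x = i)).card ≤ ρ + k := by
    intro i hi
    have h1 : univ.filter (fun x => (st x = 5 ∨ st x = 6) ∧ ix x = i) ⊆
        univ.filter (fun x => st x = 5 ∧ ix x = i) ∪ univ.filter (fun x => st x = 6 ∧ ix x = i) := by
      intro x hx
      obtain ⟨_, h | h, h2⟩ := mem_filter.mp hx
      · exact mem_union_left _ (mem_filter.mpr ⟨mem_univ _, h, h2⟩)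
      · exact mem_union_right _ (mem_filter.mpr ⟨mem_univ _, h, h2⟩)
    have h2 := (card_le_card h1).trans (card_union_le _ _)
    have h3 := hL.h5 i hi
    have h4 := hL.h6 i hi
    omega
  have p1 := (failz1 st hp0.le hp1.le M (z0 + N1 * (ρ + k)) hL.h056.le).trans hz
  have p2 := failz2 st ix hp0.le hp1.le N1 (ρ + k) hblk η hη0 hn1
  have hc0 : (cls st 0).card = z0 := hL.h0
  have p3 : Pr (allE n) p (fun S => ¬ Dens (gr S) (cls st 0) (p / 2)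
      (σ * ((cls st 0).card : ℝ)) (τ * ((cls st 0).card : ℝ))) ≤
      4 ^ z0 * Real.exp (-(p * σ * τ / 100 * (z0 : ℝ) ^ 2)) := by
    refine (Pr_not_Dens (cls st 0) hp0 hp1.le hσ0 hτ0 hτσ (by rw [hc0]; exact hσn)).trans ?_
    rw [hc0]
  calc _ ≤ Pr (allE n) p (fun S => ((¬ M ≤ (univ.filter (fun v => st v = 3 ∧
      ∀ a, (st a = 0 ∨ st a = 5 ∨ st a = 6) → (gr S).Adj v a)).card) ∨
      (¬ (((univ.filter (fun x => st x = 3 ∧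
      ¬ hasB (gr S) st ix N1 x)).card : ℝ) ≤ η * (n : ℝ)))) ∨
      (¬ Dens (gr S) (cls st 0) (p / 2)
      (σ * ((cls st 0).card : ℝ)) (τ * ((cls st 0).card : ℝ)))) := by
        apply Pr_mono hp0.le hp1.le
        intro S _ hS
        by_contra hno
        rw [not_or, not_or, not_not, not_not, not_not] at hno
        obtain ⟨⟨h1, h2⟩, h3⟩ := hno
        refine hS ⟨?_, ?_, h3⟩
        · refine h1.trans (le_of_eq ?_)
          congr!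
        · rw [Fintype.card_fin]
          exact h2
    _ ≤ _ := by
        refine (Pr_or_le hp0.le hp1.le _ _).trans (add_le_add ?_ p3)
        exact (Pr_or_le hp0.le hp1.le _ _).trans (add_le_add p1 p2)

theorem Pr_evU {p ε : ℝ} (hp0 : 0 < p) (hp1 : p < 1) {k ρ : ℕ} (Q : Par2 p ε k ρ) {n : ℕ}
    {st ix : Fin n → ℕ} {z0 N1 N2 : ℕ} (hL : Layout st ix z0 N1 N2 ρ k) {x : ℝ}
    (hx : x = Real.log (n : ℝ)) (hn1 : 0 < n) (hx1 : 1 ≤ x)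
    (A1 A2 : Finset (Fin n)) (hdis : Disjoint A1 A2) (s1 : ∀ x ∈ A1, st x = 3)
    (s2 : ∀ x ∈ A2, st x = 3) {m1 m2 m3 : ℕ} (hm1 : A1.card = m1) (hm2 : A2.card = m2)
    (hm3 : (cls (bb st A1 A2) 3).card = m3) (hm31 : 1 ≤ m3)
    (a1 : Q.b1 * x ≤ m1) (a2 : Q.C2 * x ≤ m2) (a3 : Q.C3 * x ≤ N2)
    (b1 : (m1 : ℝ) ≤ Q.b1 * x + 1) (b3 : (N2 : ℝ) ≤ Q.C3 * x + 1)
    (hlin2 : 2 * Q.th * Q.δ ≤ Q.e1 / 16 * x) (hσ1 : 16 / Q.σ ≤ (m1 : ℝ))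
    (hσ2 : 16 / Q.σ ≤ (m2 : ℝ)) {s₀ : ℝ} (hs₀ : s₀ = (1 + Q.e1 / 2) * x / Q.lam) :
    Pr (allE n) p (fun S => ¬ EvU (gr S) st ix A1 A2 N2 m1 m2 (p / 2) Q.δ s₀ Q.η
      ((1 + Q.e1) * (p * ((m1 : ℝ) * m3))) Q.σ Q.τ) ≤
      Real.exp (-(Q.e1 ^ 2 / 4 * p * (m1 : ℝ))) + 1 / Q.η * Real.exp (-(Q.e1 / 8 * x)) +
      1 / Q.η * Real.exp (-((Q.e1 / 4) ^ 2 / 2 * p * (m1 : ℝ))) +
      4 ^ m1 * Real.exp (-(p * Q.σ * Q.τ / 100 * (m1 : ℝ) ^ 2)) +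
      4 ^ m2 * Real.exp (-(p * Q.σ * Q.τ / 100 * (m2 : ℝ) ^ 2)) +
      (Q.C3 + 1) * Real.exp 1 * Real.exp (-x) + Real.exp (-x) := by
  have hx0 : 0 < x := by linarith only [hx1]
  have hnr : (0 : ℝ) < n := by exact_mod_cast hn1
  have hexpx : Real.exp x = n := by rw [hx]; exact Real.exp_log hnr
  obtain ⟨b, hb⟩ : ∃ b : Fin n → ℕ, b = bb st A1 A2 := ⟨_, rfl⟩
  have hc1 : (cls b 1).card = m1 := by
    rw [← hm1]
    congr 1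
    ext v
    simp only [cls, mem_filter, mem_univ, true_and]
    rw [hb]
    unfold bb
    have := hL.hst v
    constructor
    · intro h
      by_contra hv
      rw [if_neg hv] at h
      split_ifs at h <;> omega
    · intro h
      rw [if_pos h]
  rw [← hb] at hm3
  obtain ⟨B1, hB1⟩ : ∃ B1 : Finset (Sym2 (Fin n)) → Prop, ∀ S, B1 S ↔
    ((prs (fun x y => b x = 1 ∧ b y = 3 ∧ (gr S).Adj x y)).card : ℝ) ≤
      (1 + Q.e1) * (p * ((m1 : ℝ) * m3)) := ⟨_, fun _ => Iff.rfl⟩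
  obtain ⟨B2, hB2⟩ : ∃ B2 : Finset (Sym2 (Fin n)) → Prop, ∀ S, B2 S ↔
    ((prs (fun x y => b x = 3 ∧ b y = 3 ∧ x ≠ y ∧ s₀ ≤ ((nb (gr S) b 1 x).card : ℝ) ∧
      ((cn (gr S) b 1 x y).card : ℝ) < 2 * Q.δ * m1)).card : ℝ) ≤ Q.η * (n : ℝ) :=
    ⟨_, fun _ => Iff.rfl⟩
  obtain ⟨B3, hB3⟩ : ∃ B3 : Finset (Sym2 (Fin n)) → Prop, ∀ S, B3 S ↔
    ((univ.filter (fun x => b x = 3 ∧ ((nb (gr S) b 1 x).card : ℝ) < s₀)).card : ℝ) ≤
      Q.η * (n : ℝ) := ⟨_, fun _ => Iff.rfl⟩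
  obtain ⟨B4, hB4⟩ : ∃ B4 : Finset (Sym2 (Fin n)) → Prop, ∀ S, B4 S ↔
    Dens (gr S) A1 (p / 2) (Q.σ * (A1.card : ℝ)) (Q.τ * (A1.card : ℝ)) := ⟨_, fun _ => Iff.rfl⟩
  obtain ⟨B5, hB5⟩ : ∃ B5 : Finset (Sym2 (Fin n)) → Prop, ∀ S, B5 S ↔
    Dens (gr S) A2 (p / 2) (Q.σ * (A2.card : ℝ)) (Q.τ * (A2.card : ℝ)) := ⟨_, fun _ => Iff.rfl⟩
  obtain ⟨B6, hB6⟩ : ∃ B6 : Finset (Sym2 (Fin n)) → Prop, ∀ S, B6 S ↔
    ∀ x y, st x = 3 → st y = 3 → x ∉ A2 → y ∉ A2 → x ≠ y → ∀ j, j < N2 →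
      2 * Q.δ * (m2 : ℝ) ≤ ((jset (gr S) st ix A2 x y j).card : ℝ) := ⟨_, fun _ => Iff.rfl⟩
  obtain ⟨B7, hB7⟩ : ∃ B7 : Finset (Sym2 (Fin n)) → Prop, ∀ S, B7 S ↔
    ∀ x, st x = 3 → ∃ j, j < N2 ∧ full7 (gr S) st ix x j := ⟨_, fun _ => Iff.rfl⟩
  have p1 : Pr (allE n) p (fun S => ¬ B1 S) ≤ Real.exp (-(Q.e1 ^ 2 / 4 * p * (m1 : ℝ))) := by
    refine le_trans (Pr_mono hp0.le hp1.le ?_) (step1 b hp0 hp1.le Q.he10.le Q.he11 hc1 hm3 hm31)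
    intro S _ hS
    rw [hB1] at hS
    exact hS
  have p2 : Pr (allE n) p (fun S => ¬ B2 S) ≤ 1 / Q.η * Real.exp (-(Q.e1 / 8 * x)) := by
    refine le_trans (Pr_mono hp0.le hp1.le ?_) (step2 b (x := x) (m1 := (m1 : ℝ)) (s₀ := s₀) Q.hth
      Q.hξ Q.htilt Q.hη0 hn1 hx Q.hδ0.le Q.hδc Q.hb1def Q.hlam hp0 hp1.le Q.he10.le Q.he11 hx0 b1
      hlin2 Q.hξge hs₀)
    intro S _ hS
    rw [hB2] at hS
    exact hS
  have p3 : Pr (allE n) p (fun S => ¬ B3 S) ≤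
      1 / Q.η * Real.exp (-((Q.e1 / 4) ^ 2 / 2 * p * (m1 : ℝ))) := by
    refine le_trans (Pr_mono hp0.le hp1.le ?_) (step3 b hc1 Q.hη0 hn1 Q.hpb1 Q.hlam hp0 hp1.le
      Q.he10.le Q.he11 hx0 a1 hs₀)
    intro S _ hS
    rw [hB3] at hS
    exact hS
  have p4 : Pr (allE n) p (fun S => ¬ B4 S) ≤
      4 ^ m1 * Real.exp (-(p * Q.σ * Q.τ / 100 * (m1 : ℝ) ^ 2)) := by
    refine le_trans (Pr_mono hp0.le hp1.le ?_) ((Pr_not_Dens A1 hp0 hp1.le Q.hσ0 Q.hτ0 Q.hτσ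
      (by rw [hm1]; exact hσ1)).trans (by rw [hm1]))
    intro S _ hS
    rw [hB4] at hS
    exact hS
  have p5 : Pr (allE n) p (fun S => ¬ B5 S) ≤
      4 ^ m2 * Real.exp (-(p * Q.σ * Q.τ / 100 * (m2 : ℝ) ^ 2)) := by
    refine le_trans (Pr_mono hp0.le hp1.le ?_) ((Pr_not_Dens A2 hp0 hp1.le Q.hσ0 Q.hτ0 Q.hτσ
      (by rw [hm2]; exact hσ2)).trans (by rw [hm2]))
    intro S _ hS
    rw [hB5] at hS
    exact hS
  have p6 : Pr (allE n) p (fun S => ¬ B6 S) ≤ (Q.C3 + 1) * Real.exp 1 * Real.exp (-x) := by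
    have hδm : 0 ≤ 2 * Q.δ * (m2 : ℝ) := by
      have := Q.hδ0
      positivity
    have h1 := fail8 st ix hp0.le hp1.le A2 s2 N2 ρ ⌈2 * Q.δ * (m2 : ℝ)⌉₊ hL.h7'
      (2 * Q.δ * (m2 : ℝ)) (Nat.le_ceil _)
    rw [hm2] at h1
    refine le_trans (Pr_mono hp0.le hp1.le ?_) (h1.trans
      (num8 (δ := Q.δ) hp0 Q.hC2def Q.hC30.le Q.hδ0.le Q.hδa
        (Nat.ceil_lt_add_one hδm).le hexpx hx1 a2 b3))
    intro S _ hS
    rw [hB6] at hS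
    exact hS
  have p7 : Pr (allE n) p (fun S => ¬ B7 S) ≤ Real.exp (-x) := by
    refine le_trans (Pr_mono hp0.le hp1.le ?_) ((fail9 st ix hp0.le hp1.le N2 ρ hL.h7').trans
      (num9 hp0 Q.hC3def hexpx a3))
    intro S _ hS
    rw [hB7] at hS
    exact hS
  calc _ ≤ Pr (allE n) p (fun S => (((((¬ B1 S ∨ ¬ B2 S) ∨ ¬ B3 S) ∨ ¬ B4 S) ∨ ¬ B5 S) ∨ ¬ B6 S) ∨
        ¬ B7 S) := by
        apply Pr_mono hp0.le hp1.le
        intro S _ hS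
        by_contra hno
        rw [not_or, not_or, not_or, not_or, not_or, not_or, not_not, not_not, not_not, not_not,
          not_not, not_not, not_not] at hno
        obtain ⟨⟨⟨⟨⟨⟨h1, h2⟩, h3⟩, h4⟩, h5⟩, h6⟩, h7⟩ := hno
        rw [hB1] at h1
        rw [hB2] at h2
        rw [hB3] at h3
        rw [hB4] at h4
        rw [hB5] at h5
        rw [hB6] at h6
        rw [hB7] at h7
        apply hS
        refine ⟨?_, ?_, ?_, h4, h5, h6, h7⟩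
        · rw [← hb]; exact h1
        · rw [← hb, Fintype.card_fin]; exact h2
        · rw [← hb, Fintype.card_fin]; exact h3
    _ ≤ _ := by
        refine (Pr_or_le hp0.le hp1.le _ _).trans (add_le_add ?_ p7)
        refine (Pr_or_le hp0.le hp1.le _ _).trans (add_le_add ?_ p6)
        refine (Pr_or_le hp0.le hp1.le _ _).trans (add_le_add ?_ p5)
        refine (Pr_or_le hp0.le hp1.le _ _).trans (add_le_add ?_ p4)
        refine (Pr_or_le hp0.le hp1.le _ _).trans (add_le_add ?_ p3)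
        exact (Pr_or_le hp0.le hp1.le _ _).trans (add_le_add p1 p2)

end Pool.Agent.H42.Sat
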