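import Pool.Agent.H42.Sat.Upper2

set_option autoImplicit false
set_option linter.unusedSectionVars false

/-! The general upper bound holds with high probability: assembly. -/

namespace Pool.Agent.H42.Sat

open Finset Classical Pool.Agent.W166.Gnp Filter Topology

theorem EvZ.exists_hub {V : Type} [Fintype V] {G : SimpleGraph V} {st ix : V → ℕ} {N1 M : ℕ}
    {q η σ τ : ℝ} (h : EvZ G st ix N1 M q η σ τ) :
    ∃ A : Finset V, A.card = M ∧ ∀ v ∈ A, st v = 3 ∧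
      ∀ a, (st a = 0 ∨ st a = 5 ∨ st a = 6) → G.Adj v a := by
  obtain ⟨A, hA, hAc⟩ := exists_subset_card_eq h.z1
  exact ⟨A, hAc, fun v hv => (mem_filter.mp (hA hv)).2⟩

/-- the pairs of free vertices -/
noncomputable def freE {n : ℕ} (st : Fin n → ℕ) : Finset (Sym2 (Fin n)) :=
  (allE n).filter (fun e => ∀ v ∈ e, fre st v)

theorem mem_freE {n : ℕ} {st : Fin n → ℕ} {x y : Fin n} :
    s(x, y) ∈ freE st ↔ x ≠ y ∧ fre st x ∧ fre st y := by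
  simp [freE, mem_allE]

theorem upper_n2 {p ε : ℝ} (hp0 : 0 < p) (hp1 : p < 1) {k ρ s c : ℕ} (hk : 0 < k)
    {F : SimpleGraph (Fin k)} (htri : ∀ u v, F.Adj u v → ∃ w, F.Adj u w ∧ F.Adj v w) (hs : 0 < s)
    (hnf : ¬ Fits F s ρ c) (P : Split F s ρ c) (hε0 : 0 < ε) (hε1 : ε ≤ 1) (Q : Par2 p ε k ρ)
    {n m1 m2 z0 N1 N2 : ℕ} {x : ℝ}
    (hx : x = Real.log (n : ℝ)) (hn1 : 0 < n) (hx1 : 1 ≤ x)
    (a1 : Q.b1 * x ≤ m1) (a2 : Q.C2 * x ≤ m2) (a3 : Q.C3 * x ≤ N2)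
    (b0 : (z0 : ℝ) ≤ Q.η * x + 1) (b1 : (m1 : ℝ) ≤ Q.b1 * x + 1) (b2 : (m2 : ℝ) ≤ Q.C2 * x + 1)
    (b3 : (N2 : ℝ) ≤ Q.C3 * x + 1) (b4 : (N1 : ℝ) ≤ Q.η * x + 1)
    (hq : (Q.B ^ 2 + 2 * k * Q.C * Q.B ^ 3) * x ^ 3 ≤ n) (hq' : 4 * Q.B * x ^ 3 ≤ n)
    (hlin : 2 * (1 + (ρ : ℝ) + k) + 2 * (1 + Q.e1) * p + 4 * Q.η + 2 * Q.δ + 4 * Q.η * ρ +
      2 * Q.D + 2 * Q.η + 2 * Q.η * Q.D + 1 ≤ ε / (2 * Q.lam) * x)
    (hlin2 : 2 * Q.th * Q.δ ≤ Q.e1 / 16 * x) (hxK : 4 * Q.K ≤ x) (hxB : 32 * (Q.B + 1) ≤ x)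
    (hN0z : Q.N0 ≤ z0) (hN01 : Q.N0 ≤ m1) (hN02 : Q.N0 ≤ m2)
    (hσz : 16 / Q.σ ≤ (z0 : ℝ)) (hσ1 : 16 / Q.σ ≤ (m1 : ℝ)) (hσ2 : 16 / Q.σ ≤ (m2 : ℝ))
    (hm1p : 1 ≤ m1) (hm2p : 1 ≤ m2) :
    Pr (allE n) p (fun S => ¬ ∃ H : SimpleGraph (Fin n),
      SatIn F (gr S) H ∧ (H.edgeSet.ncard : ℝ) ≤ (1 + ε) * ((n : ℝ) * (x / Q.lam))) ≤
      (Real.exp (-x) + 1 / Q.η * Real.exp (-(p ^ (ρ + k) * (N1 : ℝ))) +
      4 ^ z0 * Real.exp (-(p * Q.σ * Q.τ / 100 * (z0 : ℝ) ^ 2))) +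
      (Real.exp (-(Q.e1 ^ 2 / 4 * p * (m1 : ℝ))) + 1 / Q.η * Real.exp (-(Q.e1 / 8 * x)) +
      1 / Q.η * Real.exp (-((Q.e1 / 4) ^ 2 / 2 * p * (m1 : ℝ))) +
      4 ^ m1 * Real.exp (-(p * Q.σ * Q.τ / 100 * (m1 : ℝ) ^ 2)) +
      4 ^ m2 * Real.exp (-(p * Q.σ * Q.τ / 100 * (m2 : ℝ) ^ 2)) +
      (Q.C3 + 1) * Real.exp 1 * Real.exp (-x) + Real.exp (-x)) := by
  have hx0 : 0 < x := by linarith only [hx1]
  have hnr : (0 : ℝ) < n := by exact_mod_cast hn1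
  have hexpx : Real.exp x = n := by rw [hx]; exact Real.exp_log hnr
  have hη0 := Q.hη0
  have hB0 := Q.hB0
  have hC30 := Q.hC30
  have hC20 := Q.hC20
  have hb10 := Q.hb10
  have hρ : (0 : ℝ) ≤ ρ := Nat.cast_nonneg _
  have hkr : (0 : ℝ) ≤ k := Nat.cast_nonneg _
  have hx3 : x ≤ x ^ 3 := by nlinarith [mul_self_nonneg (x - 1), mul_self_nonneg x]
  have hBx : 4 * (Q.B * x) ≤ n := by
    have := mul_le_mul_of_nonneg_left hx3 (show 0 ≤ 4 * Q.B by linarith)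
    linarith
  have hBe : Q.B * x = Q.b1 * x + Q.C2 * x + Q.C3 * ρ * x + ρ * x + Q.η * x + 4 * x +
      (1 + ρ + k) * (Q.η + 1) * x := by rw [Q.hBdef]; ring
  -- sizes
  have hz : ((z0 + N1 * (ρ + k) : ℕ) : ℝ) ≤ (1 + ρ + k) * (Q.η * x + 1) := by
    push_cast
    have := mul_le_mul_of_nonneg_right b4 (show (0 : ℝ) ≤ ρ + k by positivity)
    linarith
  have hz7 : ((z0 + N1 * (ρ + k) + N2 * ρ : ℕ) : ℝ) ≤ Q.B * x := by
    have h1 := mul_le_mul_of_nonneg_right b3 hρ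
    have h2 : (1 + (ρ : ℝ) + k) * (Q.η * x + 1) ≤ (1 + ρ + k) * (Q.η + 1) * x := by
      have h3 : Q.η * x + 1 ≤ (Q.η + 1) * x := by linarith
      have h4 := mul_le_mul_of_nonneg_left h3 (show (0 : ℝ) ≤ 1 + ρ + k by positivity)
      linarith
    have h5 : 0 ≤ ρ * (x - 1) := mul_nonneg hρ (by linarith)
    have h6 : 0 ≤ Q.b1 * x := by positivity
    have h7 : 0 ≤ Q.C2 * x := by positivity
    have h8 : 0 ≤ Q.η * x := by positivity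
    rw [Nat.cast_add, Nat.cast_mul N2 ρ, hBe]
    linarith
  have hm12 : (((m1 + m2 : ℕ) : ℕ) : ℝ) + 1 ≤ Q.B * x := by
    push_cast
    have h1 : 0 ≤ Q.C3 * ρ * x := by positivity
    have h2 : 0 ≤ ρ * x := by positivity
    have h3 : 0 ≤ Q.η * x := by positivity
    have h4 : 0 ≤ (1 + ρ + k) * (Q.η + 1) * x := by positivity
    rw [hBe]
    linarith
  have hfit : z0 + N1 * (ρ + k) + N2 * ρ ≤ n := by
    have : ((z0 + N1 * (ρ + k) + N2 * ρ : ℕ) : ℝ) ≤ n := by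
      have : 0 ≤ Q.B * x := by positivity
      linarith
    exact_mod_cast this
  obtain ⟨st, ix, hL, hT⟩ := exists_layout n z0 N1 N2 ρ k hfit
  have hTr : ((univ.filter (fun x : Fin n => st x = 3)).card : ℝ) =
      n - ((z0 + N1 * (ρ + k) + N2 * ρ : ℕ) : ℝ) := by
    rw [hT, Nat.cast_sub hfit]
  have hT2 : (n : ℝ) / 2 ≤ ((univ.filter (fun x : Fin n => st x = 3)).card : ℝ) := by
    rw [hTr]; linarith
  have hT3 : m1 + m2 + 1 ≤ (univ.filter (fun x : Fin n => st x = 3)).card := by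
    have : (((m1 + m2 : ℕ) : ℕ) : ℝ) + 1 ≤ ((univ.filter (fun x : Fin n => st x = 3)).card : ℝ) := by
      linarith
    exact_mod_cast this
  have hzL : ((z0 + N1 * (ρ + k) : ℕ) : ℝ) * (-Real.log p) ≤ x / 4 + Q.K := by
    have hlogp : 0 ≤ -Real.log p := by
      have := Real.log_nonpos hp0.le hp1.le
      linarith
    have h1 := mul_le_mul_of_nonneg_right hz hlogp
    have h2 := mul_le_mul_of_nonneg_right Q.hηz hx0.le
    have h3 : (1 + (ρ : ℝ) + k) * (Q.η * x + 1) * -Real.log p =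
        (1 + ρ + k) * Q.η * -Real.log p * x + (1 + ρ + k) * -Real.log p := by ring
    rw [h3, ← Q.hKdef] at h1
    linarith
  have hMB : ((m1 + m2 : ℕ) : ℝ) ≤ Q.B * x := by linarith
  have hpz := numz (T := ((univ.filter (fun x : Fin n => st x = 3)).card : ℝ)) hp0 hB0 hzL hT2
    hexpx hMB hxK hxB
  have hPZ := Pr_evZ hL hp0 hp1 Q.hσ0 Q.hτ0 Q.hτσ Q.hη0 hn1 (m1 + m2) (Real.exp (-x)) hσz hpz
  obtain ⟨s₀, hs₀⟩ : ∃ s₀ : ℝ, s₀ = (1 + Q.e1 / 2) * x / Q.lam := ⟨_, rfl⟩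
  have hsub : freE st ⊆ allE n := filter_subset _ _
  have hE : (allE n \ freE st) ∪ freE st = allE n := sdiff_union_of_subset hsub
  obtain ⟨bU, hbU⟩ : ∃ bU : ℝ, bU = Real.exp (-(Q.e1 ^ 2 / 4 * p * (m1 : ℝ))) +
      1 / Q.η * Real.exp (-(Q.e1 / 8 * x)) +
      1 / Q.η * Real.exp (-((Q.e1 / 4) ^ 2 / 2 * p * (m1 : ℝ))) +
      4 ^ m1 * Real.exp (-(p * Q.σ * Q.τ / 100 * (m1 : ℝ) ^ 2)) +
      4 ^ m2 * Real.exp (-(p * Q.σ * Q.τ / 100 * (m2 : ℝ) ^ 2)) +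
      (Q.C3 + 1) * Real.exp 1 * Real.exp (-x) + Real.exp (-x) := ⟨_, rfl⟩
  have hbU0 : 0 ≤ bU := by rw [hbU]; positivity
  rw [← hbU]
  obtain ⟨Bad, hBad⟩ : ∃ Bad : Finset (Sym2 (Fin n)) → Prop, ∀ S, Bad S ↔
    ¬ ∃ H : SimpleGraph (Fin n), SatIn F (gr S) H ∧
      (H.edgeSet.ncard : ℝ) ≤ (1 + ε) * ((n : ℝ) * (x / Q.lam)) := ⟨_, fun _ => Iff.rfl⟩
  have hBad' : (fun S => ¬ ∃ H : SimpleGraph (Fin n), SatIn F (gr S) H ∧
      (H.edgeSet.ncard : ℝ) ≤ (1 + ε) * ((n : ℝ) * (x / Q.lam))) = Bad := by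
    funext S
    exact propext (hBad S).symm
  rw [hBad']
  have hmain : Pr ((allE n \ freE st) ∪ freE st) p Bad ≤
      Pr (allE n \ freE st) p (fun S => ¬ EvZ (gr S) st ix N1 (m1 + m2) (p / 2) Q.η Q.σ Q.τ) +
      bU := by
    refine Pr_cond sdiff_disjoint hp0.le hp1.le Bad _ bU hbU0 ?_
    intro S hS hN
    rw [not_not] at hN
    obtain ⟨A, hAc, hA⟩ := hN.exists_hub
    obtain ⟨A1, hA1, hA1c⟩ := exists_subset_card_eq (show m1 ≤ A.card by omega)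
    obtain ⟨A2, hA2⟩ : ∃ A2, A2 = A \ A1 := ⟨_, rfl⟩
    have hA2c : A2.card = m2 := by
      rw [hA2, card_sdiff_of_subset hA1, hAc, hA1c]
      omega
    have hdis : Disjoint A1 A2 := by rw [hA2]; exact disjoint_sdiff
    have hA2s : A2 ⊆ A := by rw [hA2]; exact sdiff_subset
    have hAst : ∀ v ∈ A, st v = 3 := fun v hv => (hA v hv).1
    have hAad : ∀ v ∈ A, ∀ a, (st a = 0 ∨ st a = 5 ∨ st a = 6) → (gr S).Adj v a :=
      fun v hv => (hA v hv).2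
    have s1 : ∀ v ∈ A1, st v = 3 := fun v hv => hAst v (hA1 hv)
    have s2 : ∀ v ∈ A2, st v = 3 := fun v hv => hAst v (hA2s hv)
    obtain ⟨m3, hm3⟩ : ∃ m3, (cls (bb st A1 A2) 3).card = m3 := ⟨_, rfl⟩
    have hm31 : 1 ≤ m3 := by
      rw [← hm3]
      have h1 : univ.filter (fun x : Fin n => st x = 3) \ A ⊆ cls (bb st A1 A2) 3 := by
        intro v hv
        obtain ⟨h1, h2⟩ := mem_sdiff.mp hv
        have h3 := (mem_filter.mp h1).2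
        refine mem_filter.mpr ⟨mem_univ _, ?_⟩
        unfold bb
        rw [if_neg (fun h => h2 (hA1 h)), if_neg (fun h => h2 (hA2s h)), if_neg (by omega), h3]
      have h2 := card_le_card h1
      have h3 := le_card_sdiff A (univ.filter (fun x : Fin n => st x = 3))
      omega
    have hm3n : m3 ≤ n := by
      rw [← hm3]
      refine (card_le_univ _).trans ?_
      rw [Fintype.card_fin]
    have hm3nr : (m3 : ℝ) ≤ n := by exact_mod_cast hm3n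
    have hPU := Pr_evU hp0 hp1 Q hL hx hn1 hx1 A1 A2 hdis s1 s2 hA1c hA2c hm3 hm31 a1 a2 a3 b1 b3
      hlin2 hσ1 hσ2 hs₀
    rw [← hbU] at hPU
    have hloc : Pr (freE st) p (fun T => ¬ EvU (gr T) st ix A1 A2 N2 m1 m2 (p / 2) Q.δ s₀ Q.η
      ((1 + Q.e1) * (p * ((m1 : ℝ) * m3))) Q.σ Q.τ) = Pr (allE n) p (fun T => ¬ EvU (gr T) st ix
      A1 A2 N2 m1 m2 (p / 2) Q.δ s₀ Q.η ((1 + Q.e1) * (p * ((m1 : ℝ) * m3))) Q.σ Q.τ) := by
      apply Pr_local hsub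
      intro T
      have hadj : ∀ u v, fre st u → fre st v →
          ((gr (T ∩ freE st)).Adj u v ↔ (gr T).Adj u v) :=
        fun u v hu hv => gr_inter_adj T (freE st) u v (fun hne => mem_freE.mpr ⟨hne, hu, hv⟩)
      exact not_congr ⟨EvU.congr s1 s2 hL.hst (fun u v hu hv => (hadj u v hu hv).symm),
        EvU.congr s1 s2 hL.hst hadj⟩
    refine le_trans (Pr_mono hp0.le hp1.le ?_) (hloc.trans_le hPU)
    intro T hT' hbad hev
    rw [hBad] at hbad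
    apply hbad
    have hGU : ∀ u v, fre st u → fre st v → ((gr T).Adj u v ↔ (gr (S ∪ T)).Adj u v) := by
      intro u v hu hv
      rw [gr_adj, gr_adj, mem_union]
      constructor
      · rintro ⟨h1, h2⟩
        exact ⟨Or.inr h1, h2⟩
      · rintro ⟨h1 | h1, h2⟩
        · exact ((mem_sdiff.mp (hS h1)).2 (mem_freE.mpr ⟨h2, hu, hv⟩)).elim
        · exact ⟨h1, h2⟩
    have hGZ : ∀ u v, ¬ (fre st u ∧ fre st v) → ((gr S).Adj u v ↔ (gr (S ∪ T)).Adj u v) := by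
      intro u v huv
      rw [gr_adj, gr_adj, mem_union]
      constructor
      · rintro ⟨h1, h2⟩
        exact ⟨Or.inl h1, h2⟩
      · rintro ⟨h1 | h1, h2⟩
        · exact ⟨h1, h2⟩
        · exact (huv (mem_freE.mp (hT' h1)).2).elim
    have hev' := EvU.congr s1 s2 hL.hst hGU hev
    have hN' := EvZ.congr hGZ hN
    obtain ⟨G, hG⟩ : ∃ G, G = gr (S ∪ T) := ⟨_, rfl⟩
    rw [← hG] at hGU hGZ hev' hN' ⊢
    have hnf0 : ∀ a, (st a = 0 ∨ st a = 5 ∨ st a = 6) → ¬ fre st a := by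
      intro a ha h
      unfold fre at h
      omega
    have d1 : DesignFor G (off F P.Y) (fun _ => A1) A1 Q.δ Q.C k :=
      Q.hdes (Fin n) G A1 (off F P.Y) (fun _ => A1) (by rw [hA1c]; exact hN01)
        (fun _ => subset_rfl) (fun _ => by rw [one_mul]) hev'.D1
    have d2 : DesignFor G (off F P.Y) (fun _ => A2) A2 Q.δ Q.C k :=
      Q.hdes (Fin n) G A2 (off F P.Y) (fun _ => A2) (by rw [hA2c]; exact hN02)
        (fun _ => subset_rfl) (fun _ => by rw [one_mul]) hev'.D2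
    have hc0 : (cls st 0).card = z0 := hL.h0
    have d0 : DesignFor G F (fun _ => cls st 0) (cls st 0) Q.δ Q.C k :=
      Q.hdes (Fin n) G (cls st 0) F (fun _ => cls st 0) (by rw [hc0]; exact hN0z)
        (fun _ => subset_rfl) (fun _ => by rw [one_mul]) hN'.z3
    obtain ⟨H, hH1, hH2⟩ := det_num htri hs hnf P hk Q.hδ0 Q.hδ1 Q.hC0 hL A1 A2 hdis s1 s2
      (fun v hv a ha => (hGZ v a (fun h => hnf0 a ha h.2)).mp (hAad v (hA1 hv) a ha))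
      (fun v hv a ha => (hGZ v a (fun h => hnf0 a ha h.2)).mp (hAad v (hA2s hv) a ha))
      m1 m2 hA1c hA2c hm1p hm2p d1 d2 d0 s₀ Q.η ((1 + Q.e1) * (p * ((m1 : ℝ) * m3))) Q.hη0.le
      hev'.g1 hev'.g2 hev'.g3 hN'.z2 hev'.g8 hev'.g9
    refine ⟨H, hH1, ?_⟩
    rw [Fintype.card_fin] at hH2
    have he12 : (1 + Q.e1) ^ 2 ≤ 1 + ε / 2 := by
      rw [Q.he1def]; exact num1 hε0.le hε1
    have hfin := final_ineq2 k ρ ε Q.lam Q.C2 Q.C3 Q.η Q.δ Q.e1 Q.b1 p Q.C x n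
      ((z0 + N1 * (ρ + k) : ℕ) : ℝ) m1 m2 m3 N1 N2 Q.B Q.D hkr hρ hε0 Q.hlam Q.hη0 Q.hδ0 hp0
      Q.hC0 Q.he10.le he12 Q.hD0 Q.hηd Q.hδd Q.hpb1 Q.hb10.le Q.hC20.le Q.hC30.le hx1 hnr.le
      (Nat.cast_nonneg _) (Nat.cast_nonneg _) (Nat.cast_nonneg _) (Nat.cast_nonneg _) hz b1 b2
      hm3nr b4 b3 Q.hBdef hq hlin
    have e1 : ((m1 + m2 + N2 * ρ : ℕ) : ℝ) = (m1 : ℝ) + m2 + N2 * ρ := by push_cast; ring
    have e2 : ((N2 * ρ : ℕ) : ℝ) = (N2 : ℝ) * ρ := by push_cast; ring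
    rw [e1, e2, ← Q.hDdef] at hH2
    have h2 := hH2.trans hfin
    linarith only [h2]
  have hlocZ : Pr (allE n \ freE st) p
      (fun S => ¬ EvZ (gr S) st ix N1 (m1 + m2) (p / 2) Q.η Q.σ Q.τ) =
      Pr (allE n) p (fun S => ¬ EvZ (gr S) st ix N1 (m1 + m2) (p / 2) Q.η Q.σ Q.τ) := by
    apply Pr_local sdiff_subset
    intro T
    have hadj : ∀ u v, ¬ (fre st u ∧ fre st v) →
        ((gr (T ∩ (allE n \ freE st))).Adj u v ↔ (gr T).Adj u v) :=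
      fun u v huv => gr_inter_adj T (allE n \ freE st) u v
        (fun hne => mem_sdiff.mpr ⟨mem_allE.mpr hne, fun h => huv (mem_freE.mp h).2⟩)
    exact not_congr ⟨EvZ.congr (fun u v huv => (hadj u v huv).symm), EvZ.congr hadj⟩
  rw [hE, hlocZ] at hmain
  linarith

end Pool.Agent.H42.Sat
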