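import Pool.Agent.H42.Sat.Upper3

set_option autoImplicit false
set_option linter.unusedSectionVars false

/-! The general upper bound as a limit. -/

namespace Pool.Agent.H42.Sat

open Finset Classical Pool.Agent.W166.Gnp Filter Topology

theorem upper_whp2 {p ε : ℝ} (hp0 : 0 < p) (hp1 : p < 1) {k ρ s c : ℕ} (hk : 0 < k)
    {F : SimpleGraph (Fin k)} (htri : ∀ u v, F.Adj u v → ∃ w, F.Adj u w ∧ F.Adj v w) (hs : 0 < s)
    (hnf : ¬ Fits F s ρ c) (P : Split F s ρ c) (hε0 : 0 < ε) (hε1 : ε ≤ 1) :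
    Tendsto (fun n : ℕ => Pr (allE n) p (fun S => ¬ ∃ H : SimpleGraph (Fin n),
      SatIn F (gr S) H ∧ (H.edgeSet.ncard : ℝ) ≤
        (1 + ε) * ((n : ℝ) * (Real.log n / (-Real.log (1 - p))))))
      atTop (𝓝 0) := by
  obtain ⟨Q⟩ := exists_par2 hp0 hp1 ρ hk hε0 hε1
  have hη0 := Q.hη0
  have he10 := Q.he10
  have hσ0 := Q.hσ0
  have hτ0 := Q.hτ0
  -- sequences
  let z0 : ℕ → ℕ := fun n => ⌈Q.η * Real.log (n : ℝ)⌉₊
  let m1 : ℕ → ℕ := fun n => ⌈Q.b1 * Real.log (n : ℝ)⌉₊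
  let m2 : ℕ → ℕ := fun n => ⌈Q.C2 * Real.log (n : ℝ)⌉₊
  let N2 : ℕ → ℕ := fun n => ⌈Q.C3 * Real.log (n : ℝ)⌉₊
  have tz0 : Tendsto z0 atTop atTop := tendsto_ceil Q.hη0
  have tm1 : Tendsto m1 atTop atTop := tendsto_ceil Q.hb10
  have tm2 : Tendsto m2 atTop atTop := tendsto_ceil Q.hC20
  have tz0r : Tendsto (fun n => ((z0 n : ℕ) : ℝ)) atTop atTop := tendsto_natCast_atTop_atTop.comp tz0
  have tm1r : Tendsto (fun n => ((m1 n : ℕ) : ℝ)) atTop atTop := tendsto_natCast_atTop_atTop.comp tm1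
  have lx : Tendsto (fun n : ℕ => Real.exp (-Real.log (n : ℝ))) atTop (𝓝 0) := by
    have := tendsto_exp_neg (c := 1) one_pos tendsto_log_nat
    simpa using this
  have l1 : Tendsto (fun n : ℕ => 1 / Q.η * Real.exp (-(p ^ (ρ + k) * (z0 n : ℝ)))) atTop
      (𝓝 0) := by
    have := (tendsto_exp_neg (c := p ^ (ρ + k)) (by positivity) tz0r).const_mul (1 / Q.η)
    rwa [mul_zero] at this
  have l2 : Tendsto (fun n : ℕ => (4 : ℝ) ^ (z0 n) *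
      Real.exp (-(p * Q.σ * Q.τ / 100 * ((z0 n : ℕ) : ℝ) ^ 2))) atTop (𝓝 0) :=
    (tendsto_quad (c := p * Q.σ * Q.τ / 100) (by positivity)).comp tz0
  have l3 : Tendsto (fun n : ℕ => Real.exp (-(Q.e1 ^ 2 / 4 * p * (m1 n : ℝ)))) atTop (𝓝 0) :=
    tendsto_exp_neg (by positivity) tm1r
  have l4 : Tendsto (fun n : ℕ => 1 / Q.η * Real.exp (-(Q.e1 / 8 * Real.log (n : ℝ)))) atTop
      (𝓝 0) := by
    have := (tendsto_exp_neg (c := Q.e1 / 8) (by positivity) tendsto_log_nat).const_mul (1 / Q.η)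
    rwa [mul_zero] at this
  have l5 : Tendsto (fun n : ℕ => 1 / Q.η * Real.exp (-((Q.e1 / 4) ^ 2 / 2 * p * (m1 n : ℝ))))
      atTop (𝓝 0) := by
    have := (tendsto_exp_neg (c := (Q.e1 / 4) ^ 2 / 2 * p) (by positivity) tm1r).const_mul (1 / Q.η)
    rwa [mul_zero] at this
  have l6 : Tendsto (fun n : ℕ => (4 : ℝ) ^ (m1 n) *
      Real.exp (-(p * Q.σ * Q.τ / 100 * ((m1 n : ℕ) : ℝ) ^ 2))) atTop (𝓝 0) :=
    (tendsto_quad (c := p * Q.σ * Q.τ / 100) (by positivity)).comp tm1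
  have l7 : Tendsto (fun n : ℕ => (4 : ℝ) ^ (m2 n) *
      Real.exp (-(p * Q.σ * Q.τ / 100 * ((m2 n : ℕ) : ℝ) ^ 2))) atTop (𝓝 0) :=
    (tendsto_quad (c := p * Q.σ * Q.τ / 100) (by positivity)).comp tm2
  have l8 : Tendsto (fun n : ℕ => (Q.C3 + 1) * Real.exp 1 * Real.exp (-Real.log (n : ℝ)))
      atTop (𝓝 0) := by
    have := lx.const_mul ((Q.C3 + 1) * Real.exp 1)
    rwa [mul_zero] at this
  have lsum := ((lx.add l1).add l2).add ((((((l3.add l4).add l5).add l6).add l7).add l8).add lx)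
  simp only [add_zero] at lsum
  refine squeeze_zero' (Eventually.of_forall fun n => Pr_nonneg hp0.le hp1.le _) ?_ lsum
  have ev1 : ∀ᶠ n : ℕ in atTop, 1 ≤ Real.log (n : ℝ) := tendsto_log_nat.eventually_ge_atTop _
  have ev2 := eventually_cube_log (Q.B ^ 2 + 2 * k * Q.C * Q.B ^ 3)
  have ev2' := eventually_cube_log (4 * Q.B)
  have ev3 : ∀ᶠ n : ℕ in atTop, (2 * (1 + (ρ : ℝ) + k) + 2 * (1 + Q.e1) * p + 4 * Q.η +
      2 * Q.δ + 4 * Q.η * ρ + 2 * Q.D + 2 * Q.η + 2 * Q.η * Q.D + 1) /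
      (ε / (2 * Q.lam)) ≤ Real.log (n : ℝ) := tendsto_log_nat.eventually_ge_atTop _
  have ev4 : ∀ᶠ n : ℕ in atTop, 2 * Q.th * Q.δ / (Q.e1 / 16) ≤ Real.log (n : ℝ) :=
    tendsto_log_nat.eventually_ge_atTop _
  have ev5 : ∀ᶠ n : ℕ in atTop, 4 * Q.K ≤ Real.log (n : ℝ) :=
    tendsto_log_nat.eventually_ge_atTop _
  have ev5' : ∀ᶠ n : ℕ in atTop, 32 * (Q.B + 1) ≤ Real.log (n : ℝ) :=
    tendsto_log_nat.eventually_ge_atTop _
  have ev6 : ∀ᶠ n : ℕ in atTop, Q.N0 ≤ z0 n := tz0.eventually_ge_atTop _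
  have ev7 : ∀ᶠ n : ℕ in atTop, Q.N0 ≤ m1 n := tm1.eventually_ge_atTop _
  have ev8 : ∀ᶠ n : ℕ in atTop, Q.N0 ≤ m2 n := tm2.eventually_ge_atTop _
  have ev9 : ∀ᶠ n : ℕ in atTop, ⌈16 / Q.σ⌉₊ ≤ z0 n := tz0.eventually_ge_atTop _
  have ev10 : ∀ᶠ n : ℕ in atTop, ⌈16 / Q.σ⌉₊ ≤ m1 n := tm1.eventually_ge_atTop _
  have ev11 : ∀ᶠ n : ℕ in atTop, ⌈16 / Q.σ⌉₊ ≤ m2 n := tm2.eventually_ge_atTop _
  have ev12 : ∀ᶠ n : ℕ in atTop, 1 ≤ m1 n := tm1.eventually_ge_atTop _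
  have ev13 : ∀ᶠ n : ℕ in atTop, 1 ≤ m2 n := tm2.eventually_ge_atTop _
  have ev14 : ∀ᶠ n : ℕ in atTop, 1 ≤ n := eventually_ge_atTop 1
  filter_upwards [ev1, ev2, ev2', ev3, ev4, ev5, ev5', ev6, ev7, ev8, ev9, ev10, ev11, ev12, ev13,
    ev14] with n hx1 hq hq' hlin hlin2 hxK hxB h6 h7 h8 h9 h10 h11 h12 h13 hn1
  have hx0 : 0 ≤ Real.log (n : ℝ) := by linarith only [hx1]
  have hlamp : 0 < ε / (2 * Q.lam) := by
    have := Q.hlam
    positivity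
  have he16 : 0 < Q.e1 / 16 := by positivity
  rw [div_le_iff₀ hlamp] at hlin
  rw [div_le_iff₀ he16] at hlin2
  have hmain := upper_n2 hp0 hp1 hk htri hs hnf P hε0 hε1 Q (n := n) (m1 := m1 n)
    (m2 := m2 n) (z0 := z0 n) (N1 := z0 n) (N2 := N2 n) (x := Real.log (n : ℝ)) rfl hn1 hx1
    (Nat.le_ceil _) (Nat.le_ceil _) (Nat.le_ceil _)
    (Nat.ceil_lt_add_one (mul_nonneg Q.hη0.le hx0)).le
    (Nat.ceil_lt_add_one (mul_nonneg Q.hb10.le hx0)).le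
    (Nat.ceil_lt_add_one (mul_nonneg Q.hC20.le hx0)).le
    (Nat.ceil_lt_add_one (mul_nonneg Q.hC30.le hx0)).le
    (Nat.ceil_lt_add_one (mul_nonneg Q.hη0.le hx0)).le hq hq'
    (hlin.trans_eq (mul_comm _ _)) (hlin2.trans_eq (mul_comm _ _)) hxK hxB h6 h7 h8
    ((Nat.le_ceil _).trans (by exact_mod_cast h9))
    ((Nat.le_ceil _).trans (by exact_mod_cast h10))
    ((Nat.le_ceil _).trans (by exact_mod_cast h11)) h12 h13
  rw [Q.hlamdef] at hmain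
  exact hmain

/-- the upper bound for every graph in which each edge is in a triangle -/
theorem upper_all {p ε : ℝ} (hp0 : 0 < p) (hp1 : p < 1) {k : ℕ}
    {F : SimpleGraph (Fin k)} (htri : ∀ u v, F.Adj u v → ∃ w, F.Adj u w ∧ F.Adj v w)
    (hne : ∃ u v, F.Adj u v) (hε0 : 0 < ε) (hε1 : ε ≤ 1) :
    Tendsto (fun n : ℕ => Pr (allE n) p (fun S => ¬ ∃ H : SimpleGraph (Fin n),
      SatIn F (gr S) H ∧ (H.edgeSet.ncard : ℝ) ≤
        (1 + ε) * ((n : ℝ) * (Real.log n / (-Real.log (1 - p))))))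
      atTop (𝓝 0) := by
  obtain ⟨u, v, huv⟩ := hne
  obtain ⟨w, huw, hvw⟩ := htri u v huv
  have hk : 0 < k := Fin.pos u
  obtain ⟨s, hs, hcol, hncol⟩ := exists_chromatic F u v w huv huw hvw
  obtain ⟨ρ, c, hnf, hf⟩ := exists_threshold F s hs hcol hncol
  obtain ⟨P⟩ := hf.split
  exact upper_whp2 hp0 hp1 hk htri hs hnf P hε0 hε1

end Pool.Agent.H42.Sat
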